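import Mathlib
import Pool.Agent.H46.Sp.Def

set_option autoImplicit false
open Finset

/-! # The two natural worlds of a window

`P^p` is the window `P` moved by `(0, -sh p)`, `sh false = 0` (lower world, environment `X_0`),
`sh true = 1` (upper world, environment `X_h`). `InP D p x y` : tile of `P^p`. `natc D p x y` : the natural
colour (`true` : open) of the tiles outside of `P^p`. `InB` : a larger box; `OutB D` : data of the outside
of this box; `OutB.out : Out D`. `WN O p` : the open labels of the natural window `P^p`. -/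

namespace Pool.Agent.H74.Win

open Pool.Agent.H75.Perc Pool.Agent.H75.TwoArm Pool.Agent.Q1 Pool.Agent.H33.Q1
open Pool.Agent.H75.Four Pool.Agent.H69.Q1
open Pool.Agent.H74.R45 (exists_lt)
open Pool.Agent.H46.Sp (Win Out)
open Pool.Agent.H46.Sp.Win

/-- the shift of the world -/
def sh (p : Bool) : ℤ := if p = true then 1 else 0

@[simp] lemma sh_false : sh false = 0 := rfl
@[simp] lemma sh_true : sh true = 1 := rfl

lemma sh_cases (p : Bool) : (p = false ∧ sh p = 0) ∨ (p = true ∧ sh p = 1) := by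
  cases p <;> simp

lemma sh_nonneg (p : Bool) : 0 ≤ sh p := by rcases sh_cases p with h | h <;> omega
lemma sh_le (p : Bool) : sh p ≤ 1 := by rcases sh_cases p with h | h <;> omega

section Defs

variable (D : Win) (p : Bool)

/-- the large box around the window -/
def InB (x y : ℤ) : Prop :=
  D.a (D.yP - 1) ≤ x + 4 ∧ x ≤ D.b D.yQ + 3 ∧ -4 ≤ y ∧ y ≤ D.h + 2

/-- tiles of `P^p` -/
def InP (x y : ℤ) : Prop :=
  0 ≤ y + sh p ∧ y + sh p < D.h ∧ D.a (y + sh p) ≤ x ∧ x < D.b (y + sh p)

/-- natural colours of the tiles outside of `P^p` (`true` : open) -/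
def natc (x y : ℤ) : Bool :=
  if y < -1 then D.cb else if D.h ≤ y then D.ct
  else if x < D.m y then D.cl y else if D.M y ≤ x then D.cr y
  else if p = true then
    (if y = D.h - 1 then D.ct else if x < D.a (y + 1) then D.cl (y + 1) else D.cr (y + 1))
  else (if y = -1 then D.cb else if x < D.a y then D.cl (y - 1) else D.cr (y - 1))

/-- colours of the large box, the same in both worlds (the exterior of `P ∪ (P - (0,1))`) -/
def fillc (x y : ℤ) : Bool :=
  if y < -1 then D.cb else if D.h ≤ y then D.ct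
  else if x < D.m y then D.cl y else D.cr y

open Classical in
/-- labels of the tiles of the large box with the property `P` -/
noncomputable def TB (P : ℤ → ℤ → Prop) : Finset (ℤ × ℤ) :=
  ((Icc (D.a (D.yP - 1) - 4) (D.b D.yQ + 3) ×ˢ Icc (-4) (D.h + 2)).filter
    fun t => P t.1 t.2).image lt

end Defs

variable {D : Win} {p : Bool} {x y : ℤ}

lemma mem_TB {P : ℤ → ℤ → Prop} : lt (x, y) ∈ TB D P ↔ InB D x y ∧ P x y := by
  classical
  unfold TB InB
  simp only [mem_image, mem_filter, mem_product, mem_Icc, Prod.exists]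
  constructor
  · rintro ⟨x', y', ⟨⟨⟨h1, h2⟩, h3, h4⟩, h5⟩, h6⟩
    have := lt_inj h6
    simp only [Prod.mk.injEq] at this
    obtain ⟨rfl, rfl⟩ := this
    exact ⟨⟨by omega, by omega, h3, h4⟩, h5⟩
  · rintro ⟨⟨h1, h2, h3, h4⟩, h5⟩
    exact ⟨x, y, ⟨⟨⟨by omega, by omega⟩, h3, h4⟩, h5⟩, rfl⟩

lemma odd_TB {P : ℤ → ℤ → Prop} {e : ℤ × ℤ} (he : e ∈ TB D P) : (e.1 + e.2) % 2 = 1 := by
  classical
  unfold TB at he
  simp only [mem_image] at he
  obtain ⟨t, -, rfl⟩ := he
  exact lt_odd t

/-- the labels of the large box -/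
noncomputable def GB (D : Win) : Finset (ℤ × ℤ) := TB D (InB D)

lemma mem_GB : lt (x, y) ∈ GB D ↔ InB D x y := by
  unfold GB
  rw [mem_TB]
  exact ⟨fun h => h.2, fun h => ⟨h, h⟩⟩

lemma TB_sub {P : ℤ → ℤ → Prop} : TB D P ⊆ GB D := by
  intro e he
  obtain ⟨x, y, rfl⟩ := exists_lt (odd_TB he)
  rw [mem_GB]
  exact (mem_TB.1 he).1

lemma InB_of_InZ (h : D.InZ x y) : InB D x y := by
  unfold InB
  unfold Pool.Agent.H46.Sp.Win.InZ at h
  omega

lemma GA_sub_GB : D.GA ⊆ GB D := by
  intro e he
  obtain ⟨x, y, rfl⟩ := exists_lt (odd_GA he)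
  rw [mem_GA] at he
  rw [mem_GB]
  exact InB_of_InZ he

/-- the tiles of `P^p` and their neighbours lie in the large box -/
lemma InP.box (h : InP D p x y) : D.a (D.yP - 1) ≤ x ∧ x < D.b D.yQ ∧ -1 ≤ y ∧ y < D.h := by
  obtain ⟨h1, h2, h3, h4⟩ := h
  have k1 := a_min (D := D) h1 h2
  have k2 := b_max (D := D) h1 h2
  have k3 := sh_nonneg p
  have k4 := sh_le p
  omega

lemma InP.inB (h : InP D p x y) : InB D x y := by
  have := h.box
  unfold InB
  omega

/-! ### The outside of the large box -/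

/-- **Data of the outside of the large box**: far open labels and the root corner. -/
structure OutB (D : Win) where
  Wo : Finset (ℤ × ℤ)
  c0 : ℤ × ℤ
  k0 : ℤ
  g : ℤ × ℤ
  /-- the far labels avoid the box -/
  far : ∀ x y, lt (x, y) ∈ Wo → ¬ InB D x y
  hk : k0 % 4 = ty c0
  hroot : plab c0 ∉ GB D
  hg : DCo (GB D ∪ Wo) (fi c0) g
  hlow : ∀ v, Co (GB D ∪ Wo) (vx c0) v → g.2 < v.2

/-- the filled part of the large box outside of the small box -/
noncomputable def FB (D : Win) : Finset (ℤ × ℤ) :=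
  TB D fun x y => ¬ D.InZ x y ∧ fillc D x y = true

lemma mem_FB : lt (x, y) ∈ FB D ↔ InB D x y ∧ ¬ D.InZ x y ∧ fillc D x y = true := by
  unfold FB; exact mem_TB

lemma FB_sub : FB D ⊆ GB D := TB_sub

namespace OutB

variable (O : OutB D)

lemma sub_aux (O : OutB D) : D.GA ∪ (FB D ∪ O.Wo) ⊆ GB D ∪ O.Wo := by
  intro e he
  rw [mem_union, mem_union] at he
  rw [mem_union]
  rcases he with h | h | h
  · exact Or.inl (GA_sub_GB h)
  · exact Or.inl (FB_sub h)
  · exact Or.inr h

/-- the data of the outside of the small box -/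
noncomputable def out (O : OutB D) : Out D where
  Wo := FB D ∪ O.Wo
  c0 := O.c0
  k0 := O.k0
  g := O.g
  far := by
    intro x y h hz
    rw [mem_union, mem_FB] at h
    rcases h with h | h
    · exact h.2.1 hz
    · exact O.far x y h (InB_of_InZ hz)
  hk := O.hk
  hroot := fun h => O.hroot (GA_sub_GB h)
  hg := O.hg.anti O.sub_aux
  hlow := fun v hv => O.hlow v (hv.mono O.sub_aux)

@[simp] lemma out_Wo : O.out.Wo = FB D ∪ O.Wo := rfl
@[simp] lemma out_c0 : O.out.c0 = O.c0 := rfl
@[simp] lemma out_k0 : O.out.k0 = O.k0 := rfl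

end OutB

/-! ### The natural open labels -/

/-- open labels of the natural window `P^p` in the box -/
noncomputable def WNb (D : Win) (p : Bool) : Finset (ℤ × ℤ) :=
  TB D fun x y => ¬ InP D p x y ∧ natc D p x y = true

lemma mem_WNb : lt (x, y) ∈ WNb D p ↔ InB D x y ∧ ¬ InP D p x y ∧ natc D p x y = true := by
  unfold WNb; exact mem_TB

/-- random labels of the natural window -/
noncomputable def EN (D : Win) (p : Bool) : Finset (ℤ × ℤ) := TB D (InP D p)

lemma mem_EN : lt (x, y) ∈ EN D p ↔ InP D p x y := by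
  unfold EN
  rw [mem_TB]
  exact ⟨fun h => h.2, fun h => ⟨h.inB, h⟩⟩

/-- open labels of the natural window -/
noncomputable def WN (O : OutB D) (p : Bool) : Finset (ℤ × ℤ) := WNb D p ∪ O.Wo

/-- outside of the columns and of the rows of the union the colours are the same in both worlds -/
lemma natc_out (h : y < -1 ∨ D.h ≤ y ∨ x < D.m y ∨ D.M y ≤ x) : natc D p x y = fillc D x y := by
  unfold natc fillc
  by_cases h1 : y < -1
  · rw [if_pos h1, if_pos h1]
  · rw [if_neg h1, if_neg h1]
    by_cases h2 : D.h ≤ y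
    · rw [if_pos h2, if_pos h2]
    · rw [if_neg h2, if_neg h2]
      by_cases h3 : x < D.m y
      · rw [if_pos h3, if_pos h3]
      · rw [if_neg h3, if_neg h3, if_pos (by omega)]

end Pool.Agent.H74.Win
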