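import Mathlib
import Pool.Agent.H74.R45.Pot

set_option autoImplicit false
open Finset

/-! # Potentials on row convex polygons of the tile grid

The row `y` of the polygon is `[a y, b y)`, `y0 ≤ y < y1`; `[L y, R y]` are the points at the height `y`.
`PotW F H a b L R y0 y1` : `H` is a potential of `F` there. `pot_window` : the identity between a lower
potential, an upper potential (shifted by `(0, -1)`) and a family of lines. -/

namespace Pool.Agent.H74.Win

open Pool.Agent.Q1 Pool.Agent.H33.Q1 Pool.Agent.H74.R45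

/-- `H` is a potential of `F` on a row convex polygon -/
structure PotW (F : ℤ × ℤ → ℂ) (H : ℤ → ℤ → ℂ) (a b L R : ℤ → ℤ) (y0 y1 : ℤ) : Prop where
  hor : ∀ x y, y0 ≤ y → y ≤ y1 → L y ≤ x → x < R y →
    sg (x + y) * F (he (x, y)) = H x y - H (x + 1) y
  ver : ∀ x y, y0 ≤ y → y < y1 → a y ≤ x → x ≤ b y →
    sg (x + y) * F (ve (x, y)) = H x y - H x (y + 1)

/-- every function on `ℤ` is a difference -/
lemma exists_prim (f : ℤ → ℂ) : ∃ G : ℤ → ℂ, ∀ x, G x - G (x + 1) = f x := by
  refine ⟨fun x => ∑ i ∈ Ico x 0, f i - ∑ i ∈ Ico 0 x, f i, fun x => ?_⟩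
  simp only
  rcases lt_or_ge x 0 with h | h
  · have e1 : Ico x 0 = insert x (Ico (x + 1) 0) := by
      ext i; simp only [mem_Ico, mem_insert]; omega
    have e2 : Ico (0 : ℤ) x = ∅ := Ico_eq_empty (by omega)
    have e3 : Ico (0 : ℤ) (x + 1) = ∅ := Ico_eq_empty (by omega)
    rw [e1, e2, e3, sum_insert (by simp)]
    simp only [sum_empty]
    ring
  · have e1 : Ico (0 : ℤ) (x + 1) = insert x (Ico 0 x) := by
      ext i; simp only [mem_Ico, mem_insert]; omega
    have e2 : Ico x 0 = ∅ := Ico_eq_empty (by omega)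
    have e3 : Ico (x + 1) 0 = ∅ := Ico_eq_empty (by omega)
    rw [e1, e2, e3, sum_insert (by simp)]
    simp only [sum_empty]
    ring

/-- closed increments have a potential -/
theorem exists_potW {F : ℤ × ℤ → ℂ} (a b L R : ℤ → ℤ) (y0 y1 : ℤ)
    (hc : ∀ x y, y0 ≤ y → y < y1 → a y ≤ x → x < b y →
      F (ve (x, y)) + F (ve (x + 1, y)) = F (he (x, y + 1)) + F (he (x, y))) :
    ∃ H, PotW F H a b L R y0 y1 := by
  choose G hG using fun y : ℤ => exists_prim (fun x => sg (x + y) * F (he (x, y)))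
  obtain ⟨k, hk⟩ := exists_prim (fun y => sg (a y + y) * F (ve (a y, y)) - (G y (a y) - G (y + 1) (a y)))
  refine ⟨fun x y => G y x + k y, ⟨fun x y _ _ _ _ => ?_, fun x y h1 h2 h3 h4 => ?_⟩⟩
  · have := hG y x
    rw [← this]; ring
  · obtain ⟨n, rfl⟩ : ∃ n : ℕ, x = a y + n := ⟨(x - a y).toNat, by omega⟩
    clear h3
    induction n with
    | zero =>
      have := hk y
      simp only [Nat.cast_zero, add_zero] at this ⊢
      linear_combination -this
    | succ n ih =>
      push_cast at h4 ⊢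
      have i1 := ih (by omega)
      have i2 := hc (a y + n) y h1 h2 (by omega) (by omega)
      have i3 := hG y (a y + n)
      have i4 := hG (y + 1) (a y + n)
      rw [sg_flip (m := a y + n + (y + 1)) (n := a y + n + y) (by omega)] at i4
      rw [show a y + ((n : ℤ) + 1) = a y + n + 1 by ring,
        sg_flip (m := a y + n + 1 + y) (n := a y + n + y) (by omega)]
      linear_combination i1 - sg (a y + n + y) * i2 + i3 - i4

section unique

variable {F F' : ℤ × ℤ → ℂ} {H H' : ℤ → ℤ → ℂ} {a b L R : ℤ → ℤ} {y0 y1 : ℤ}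

/-- two potentials of the same increments differ by a constant; `s` : a shift -/
theorem PotW.const (hH : PotW F H a b L R y0 y1) (hH' : PotW F' H' a b L R y0 y1)
    (hh : ∀ x y, y0 ≤ y → y ≤ y1 → L y ≤ x → x < R y → F' (he (x, y)) = F (he (x, y)))
    (hv : ∀ y, y0 ≤ y → y < y1 → F' (ve (a y, y)) = F (ve (a y, y)))
    (h1 : ∀ y, y0 ≤ y → y < y1 → L y ≤ a y ∧ a y ≤ R y ∧ L (y + 1) ≤ a y ∧ a y ≤ R (y + 1) ∧
      a y ≤ b y) :
    ∃ C, ∀ x y, y0 ≤ y → y ≤ y1 → L y ≤ x → x ≤ R y → H' x y = H x y + C := by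
  -- along a height
  have row : ∀ y, y0 ≤ y → y ≤ y1 → ∀ n : ℕ, ∀ x, L y ≤ x → x + n ≤ R y →
      H' (x + n) y - H (x + n) y = H' x y - H x y := by
    intro y e1 e2 n
    induction n with
    | zero => intro x _ _; simp
    | succ n ih =>
      intro x e3 e4
      push_cast at e4 ⊢
      have i1 := ih x e3 (by omega)
      have i2 := hH.hor (x + n) y e1 e2 (by omega) (by omega)
      have i3 := hH'.hor (x + n) y e1 e2 (by omega) (by omega)
      rw [hh (x + n) y e1 e2 (by omega) (by omega)] at i3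
      rw [show x + ((n : ℤ) + 1) = x + n + 1 by ring]
      linear_combination i1 - i2 + i3
  have row' : ∀ y, y0 ≤ y → y ≤ y1 → ∀ x x', L y ≤ x → x ≤ R y → L y ≤ x' → x' ≤ R y →
      H' x y - H x y = H' x' y - H x' y := by
    intro y e1 e2 x x' e3 e4 e5 e6
    rcases le_total x x' with h | h
    · have := row y e1 e2 (x' - x).toNat x e3 (by omega)
      rw [show x + ((x' - x).toNat : ℤ) = x' by omega] at this
      exact this.symm
    · have := row y e1 e2 (x - x').toNat x' e5 (by omega)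
      rw [show x' + ((x - x').toNat : ℤ) = x by omega] at this
      exact this
  rcases lt_or_ge y1 y0 with hlt | hge
  · exact ⟨0, fun x y e1 e2 => by omega⟩
  -- a base point of every height
  have base : ∀ n : ℕ, y0 + n ≤ y1 → ∀ x x', L y0 ≤ x → x ≤ R y0 → L (y0 + n) ≤ x' →
      x' ≤ R (y0 + n) → H' x' (y0 + n) - H x' (y0 + n) = H' x y0 - H x y0 := by
    intro n
    induction n with
    | zero =>
      intro e1 x x' e3 e4 e5 e6
      simp only [Nat.cast_zero, add_zero] at e5 e6 ⊢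
      exact row' y0 le_rfl (by omega) x' x e5 e6 e3 e4
    | succ n ih =>
      intro e1 x x' e3 e4 e5 e6
      push_cast at e1 e5 e6 ⊢
      rw [← add_assoc] at e5 e6 ⊢
      obtain ⟨g1, g2, g3, g4, g5⟩ := h1 (y0 + n) (by omega) (by omega)
      have i1 := ih (by omega) x (a (y0 + n)) e3 e4 g1 g2
      have i2 := hH.ver (a (y0 + n)) (y0 + n) (by omega) (by omega) le_rfl g5
      have i3 := hH'.ver (a (y0 + n)) (y0 + n) (by omega) (by omega) le_rfl g5
      rw [hv (y0 + n) (by omega) (by omega)] at i3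
      have i4 := row' (y0 + n + 1) (by omega) (by omega) x' (a (y0 + n)) e5 e6 g3 g4
      linear_combination i1 - i2 + i3 + i4
  by_cases hne : L y0 ≤ R y0
  · refine ⟨H' (L y0) y0 - H (L y0) y0, fun x y e1 e2 e3 e4 => ?_⟩
    have := base (y - y0).toNat (by omega) (L y0) x le_rfl hne
      (by rw [show y0 + ((y - y0).toNat : ℤ) = y by omega]; exact e3)
      (by rw [show y0 + ((y - y0).toNat : ℤ) = y by omega]; exact e4)
    rw [show y0 + ((y - y0).toNat : ℤ) = y by omega] at this
    linear_combination this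
  · rcases eq_or_lt_of_le hge with h | h
    · refine ⟨0, fun x y e1 e2 e3 e4 => ?_⟩
      have : y = y0 := by omega
      subst this
      omega
    · obtain ⟨g1, g2, -⟩ := h1 y0 le_rfl h
      omega

end unique

/-- **The identity of the lines.** `Fj j` : increments with the line at the height `j`, `Fl`, `Fu` : the
increments below and above. -/
theorem pot_window {Fj : ℤ → ℤ × ℤ → ℂ} {Fl Fu : ℤ × ℤ → ℂ} {Hl Hu : ℤ → ℤ → ℂ}
    {a b L R : ℤ → ℤ} {y0 y1 : ℤ} {D N : ℂ}
    (hl : PotW Fl Hl a b L R y0 y1)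
    (hu : PotW Fu Hu (fun y => a (y + 1)) (fun y => b (y + 1)) (fun y => L (y + 1))
      (fun y => R (y + 1)) (y0 - 1) (y1 - 1))
    (row : ∀ j x, y0 ≤ j → j ≤ y1 → L j ≤ x → x < R j →
      D * (Fj j (ve (x, j - 1)) + Fj j (ve (x + 1, j - 1))) =
        N * (Fl (he (x, j)) + Fu (he (x, j - 1))))
    (star : ∀ j, y0 ≤ j → j < y1 → ∃ x, a j ≤ x ∧ x ≤ b j ∧ L j ≤ x ∧ x ≤ R j ∧ L (j + 1) ≤ x ∧
      x ≤ R (j + 1) ∧
      D * (Fj (j + 1) (ve (x, j)) + Fj j (ve (x, j - 1))) =
        N * (Fl (ve (x, j)) + Fu (ve (x, j - 1)))) :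
    ∃ C : ℂ, ∀ j x : ℤ, y0 ≤ j → j ≤ y1 → L j ≤ x → x ≤ R j →
      D * (sg (x + j) * Fj j (ve (x, j - 1))) = N * (Hl x j - Hu x (j - 1)) + C := by
  set U : ℤ → ℤ → ℂ := fun j x => D * (sg (x + j) * Fj j (ve (x, j - 1))) -
    N * (Hl x j - Hu x (j - 1)) with hU
  have r1 : ∀ j, y0 ≤ j → j ≤ y1 → ∀ n : ℕ, ∀ x, L j ≤ x → x + n ≤ R j → U j (x + n) = U j x := by
    intro j e1 e2 n
    induction n with
    | zero => intro x _ _; simp
    | succ n ih =>
      intro x e3 e4
      push_cast at e4 ⊢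
      have i1 := ih x e3 (by omega)
      have i2 := row j (x + n) e1 e2 (by omega) (by omega)
      have i3 := hl.hor (x + n) j e1 e2 (by omega) (by omega)
      have i4 := hu.hor (x + n) (j - 1) (by omega) (by omega) (by simp only [sub_add_cancel]; omega)
        (by simp only [sub_add_cancel]; omega)
      rw [show x + ((n : ℤ) + 1) = x + n + 1 by ring]
      simp only [hU] at i1 ⊢
      rw [sg_flip (m := x + n + (j - 1)) (n := x + n + j) (by omega)] at i4
      rw [sg_flip (m := x + n + 1 + j) (n := x + n + j) (by omega)]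
      linear_combination i1 - sg (x + n + j) * i2 - N * i3 + N * i4
  have r2 : ∀ j, y0 ≤ j → j ≤ y1 → ∀ x x', L j ≤ x → x ≤ R j → L j ≤ x' → x' ≤ R j →
      U j x = U j x' := by
    intro j e1 e2 x x' e3 e4 e5 e6
    rcases le_total x x' with h | h
    · have := r1 j e1 e2 (x' - x).toNat x e3 (by omega)
      rw [show x + ((x' - x).toNat : ℤ) = x' by omega] at this
      exact this.symm
    · have := r1 j e1 e2 (x - x').toNat x' e5 (by omega)
      rw [show x' + ((x - x').toNat : ℤ) = x by omega] at this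
      exact this
  have r3 : ∀ j, y0 ≤ j → j < y1 → ∃ x x', L j ≤ x ∧ x ≤ R j ∧ L (j + 1) ≤ x' ∧ x' ≤ R (j + 1) ∧
      U j x = U (j + 1) x' := by
    intro j e1 e2
    obtain ⟨x, g1, g2, g3, g4, g5, g6, g7⟩ := star j e1 e2
    refine ⟨x, x, g3, g4, g5, g6, ?_⟩
    have i1 := hl.ver x j e1 e2 g1 g2
    have i2 := hu.ver x (j - 1) (by omega) (by omega) (by simp only [sub_add_cancel]; omega)
      (by simp only [sub_add_cancel]; omega)
    simp only [sub_add_cancel] at i2
    simp only [hU]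
    rw [add_sub_cancel_right, sg_flip (m := x + (j + 1)) (n := x + j) (by omega)]
    rw [sg_flip (m := x + (j - 1)) (n := x + j) (by omega)] at i2
    linear_combination sg (x + j) * g7 + N * i1 - N * i2
  rcases lt_or_ge y1 y0 with hlt | hge
  · exact ⟨0, fun j x e1 e2 => by omega⟩
  have base : ∀ n : ℕ, y0 + n ≤ y1 → ∀ x x', L y0 ≤ x → x ≤ R y0 → L (y0 + n) ≤ x' →
      x' ≤ R (y0 + n) → U (y0 + n) x' = U y0 x := by
    intro n
    induction n with
    | zero =>
      intro e1 x x' e3 e4 e5 e6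
      simp only [Nat.cast_zero, add_zero] at e5 e6 ⊢
      exact r2 y0 le_rfl (by omega) x' x e5 e6 e3 e4
    | succ n ih =>
      intro e1 x x' e3 e4 e5 e6
      push_cast at e1 e5 e6 ⊢
      rw [← add_assoc] at e5 e6 ⊢
      obtain ⟨x2, x3, g1, g2, g3, g4, g5⟩ := r3 (y0 + n) (by omega) (by omega)
      rw [r2 (y0 + n + 1) (by omega) (by omega) x' x3 e5 e6 g3 g4, ← g5]
      exact ih (by omega) x x2 e3 e4 g1 g2
  by_cases hne : L y0 ≤ R y0
  · refine ⟨U y0 (L y0), fun j x e1 e2 e3 e4 => ?_⟩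
    have := base (j - y0).toNat (by omega) (L y0) x le_rfl hne
      (by rw [show y0 + ((j - y0).toNat : ℤ) = j by omega]; exact e3)
      (by rw [show y0 + ((j - y0).toNat : ℤ) = j by omega]; exact e4)
    rw [show y0 + ((j - y0).toNat : ℤ) = j by omega] at this
    rw [← this]
    simp only [hU]
    ring
  · rcases eq_or_lt_of_le hge with h | h
    · refine ⟨0, fun j x e1 e2 e3 e4 => ?_⟩
      have : j = y0 := by omega
      subst this
      omega
    · obtain ⟨x, -, -, g1, g2, -⟩ := star y0 le_rfl h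
      omega

end Pool.Agent.H74.Win
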