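import Mathlib
import Pool.Agent.H46.Sp.Def
import Pool.Agent.H74.Win.PotW
import Pool.Agent.H74.R45.Wa

set_option autoImplicit false
open Finset

/-! # Windows: the exact identity between the environments `0`, `h` and the row

`FW O a b c j e` : increment at the corner `e` in the environment number `j` of a window. `SameW` : the
environments number `j` and `0` have the same increments above the row, the environments number `j` and
`h` below the row, and the relation `star` at one point of every row. `potential` : (A4). -/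

namespace Pool.Agent.H74.Win

open Pool.Agent.H75.Perc Pool.Agent.H75.TwoArm Pool.Agent.Q1 Pool.Agent.H33.Q1
open Pool.Agent.H75.Four Pool.Agent.H69.Q1 Pool.Agent.H99.NC Pool.Agent.H74.R45
open Pool.Agent.H46.Sp (Win mm MM)
open Pool.Agent.H46.Sp.Win (m_le_a b_le_M m_le_a' b_le_M' m_lt_M)
open Pool.Agent.H64.Q1

variable {D : Win}

open Classical in
/-- increment at `e` in the environment number `j` -/
noncomputable def FW (O : Pool.Agent.H46.Sp.Out D) (a b c : ℂ) (j : ℤ) (e : ℤ × ℤ) : ℂ :=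
  if H : 0 ≤ j then (Pool.Agent.H46.Sp.Win.XJ O j H).incW (D.qJ j a b c) e else 0

variable {O : Pool.Agent.H46.Sp.Out D} {a b c : ℂ} {j x y : ℤ}

lemma FW_eq (h0 : 0 ≤ j) (e : ℤ × ℤ) :
    FW O a b c j e = (Pool.Agent.H46.Sp.Win.XJ O j h0).incW (D.qJ j a b c) e := by
  unfold FW; rw [dif_pos h0]

/-- tile of weight `w` of the state {W-N, S-E} -/
lemma tile_wal {X : Env} {q : ℤ × ℤ → ℂ} {w : ℂ} (hE : lt (x, y) ∈ X.E)
    (hq : q (lt (x, y)) = Pool.Agent.H46.Sp.Win.wal x y w) :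
    ((1 - w) + w * w6) * (X.incW q (ve (x, y)) + X.incW q (ve (x + 1, y))) =
      ((1 - w) * w6 + w) * (X.incW q (he (x, y + 1)) + X.incW q (he (x, y))) := by
  unfold Pool.Agent.H46.Sp.Win.wal at hq
  rcases Int.emod_two_eq_zero_or_one (x + y) with h2 | h2
  · rw [if_pos h2] at hq
    exact tile_even h2 hE hq
  · rw [if_neg (by omega)] at hq
    exact tile_odd h2 hE hq

/-- tile of weight `w` in the environment number `j` -/
lemma tileW (h0 : 0 ≤ j) {w : ℂ} (hE : D.InE j x y)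
    (hq : D.qJ j a b c (lt (x, y)) = Pool.Agent.H46.Sp.Win.wal x y w) :
    ((1 - w) + w * w6) * (FW O a b c j (ve (x, y)) + FW O a b c j (ve (x + 1, y))) =
      ((1 - w) * w6 + w) * (FW O a b c j (he (x, y + 1)) + FW O a b c j (he (x, y))) := by
  simp only [FW_eq h0]
  exact tile_wal (by rw [Pool.Agent.H46.Sp.Win.XJ_E, Pool.Agent.H46.Sp.Win.mem_EJ]; exact hE) hq

/-- natural tiles -/
lemma nat_of (h0 : 0 ≤ j) (hE : D.InE j x y)
    (hq : D.qJ j a b c (lt (x, y)) = 1 / 2) :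
    FW O a b c j (ve (x, y)) + FW O a b c j (ve (x + 1, y)) =
      FW O a b c j (he (x, y + 1)) + FW O a b c j (he (x, y)) := by
  have key := tileW (O := O) (a := a) (b := b) (c := c) (w := 1 / 2) h0 hE (by
    rw [hq]; unfold Pool.Agent.H46.Sp.Win.wal; split_ifs <;> ring)
  apply mul_left_cancel₀ one_add_w6_ne
  linear_combination 2 * key

/-- tiles of `P+` -/
lemma nat_up (h0 : 0 ≤ j) (hy : j ≤ y) (hy' : y < D.h) (hx : D.a y ≤ x) (hx' : x < D.b y) :
    FW O a b c j (ve (x, y)) + FW O a b c j (ve (x + 1, y)) =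
      FW O a b c j (he (x, y + 1)) + FW O a b c j (he (x, y)) := by
  have k1 := m_le_a (D := D) (y := y) (by omega)
  have k2 := b_le_M (D := D) (y := y) (by omega)
  refine nat_of h0 (Or.inl ⟨by omega, hy', by omega, by omega⟩) ?_
  unfold Pool.Agent.H46.Sp.Win.qJ
  rw [tt_lt]
  simp only
  rw [if_neg (by omega), if_neg (by omega), if_neg (by omega), if_pos hy, if_neg (by omega),
    if_neg (by omega)]

/-- tiles of `P-` -/
lemma nat_down (h0 : 0 ≤ j) (hj : j ≤ D.h) (hy : -1 ≤ y) (hy' : y < j - 1)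
    (hx : D.a (y + 1) ≤ x) (hx' : x < D.b (y + 1)) :
    FW O a b c j (ve (x, y)) + FW O a b c j (ve (x + 1, y)) =
      FW O a b c j (he (x, y + 1)) + FW O a b c j (he (x, y)) := by
  have k1 := m_le_a' (D := D) (y := y) (by omega)
  have k2 := b_le_M' (D := D) (y := y) (by omega)
  refine nat_of h0 (Or.inl ⟨by omega, by omega, by omega, by omega⟩) ?_
  unfold Pool.Agent.H46.Sp.Win.qJ
  rw [tt_lt]
  simp only
  rw [if_neg (by omega), if_neg (by omega), if_neg (by omega), if_neg (by omega),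
    if_neg (by omega), if_neg (by omega)]

/-- tiles of the row -/
lemma rowW (h0 : 0 ≤ j) (hj : j ≤ D.h) (hx : D.m (j - 1) ≤ x) (hx' : x < D.M (j - 1)) :
    ((1 - a) + a * w6) * (FW O a b c j (ve (x, j - 1)) + FW O a b c j (ve (x + 1, j - 1))) =
      ((1 - a) * w6 + a) * (FW O a b c j (he (x, j)) + FW O a b c j (he (x, j - 1))) := by
  have key := tileW (O := O) (a := a) (b := b) (c := c) (x := x) (y := j - 1) (w := a) h0
    (Or.inl ⟨by omega, by omega, hx, hx'⟩) (by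
      unfold Pool.Agent.H46.Sp.Win.qJ
      rw [tt_lt]
      simp only
      rw [if_neg (by omega), if_neg (by omega), if_pos trivial])
  rwa [sub_add_cancel] at key

/-! ### Potentials -/

/-- lower potential -/
abbrev PotL (D : Win) (F : ℤ × ℤ → ℂ) (H : ℤ → ℤ → ℂ) : Prop :=
  PotW F H D.a D.b (fun y => D.m (y - 1)) (fun y => D.M (y - 1)) 0 D.h

/-- upper potential -/
abbrev PotU (D : Win) (F : ℤ × ℤ → ℂ) (H : ℤ → ℤ → ℂ) : Prop :=
  PotW F H (fun y => D.a (y + 1)) (fun y => D.b (y + 1)) (fun y => D.m y) (fun y => D.M y)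
    (-1) (D.h - 1)

/-- the potential above the line -/
theorem exists_potL (O : Pool.Agent.H46.Sp.Out D) (a b c : ℂ) : ∃ H, PotL D (FW O a b c 0) H :=
  exists_potW _ _ _ _ _ _ fun _ _ h1 h2 h3 h4 => nat_up le_rfl h1 h2 h3 h4

/-- the potential below the line -/
theorem exists_potU (O : Pool.Agent.H46.Sp.Out D) (a b c : ℂ) : ∃ H, PotU D (FW O a b c D.h) H := by
  have hh := D.hh
  exact exists_potW _ _ _ _ _ _ fun _ _ h1 h2 h3 h4 =>
    nat_down (by omega) le_rfl h1 h2 h3 h4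

/-- The environments number `j` and `0` have the same increments above the line, the environments
number `j` and `h` below it; `star` : the relation between the lines number `j` and `j + 1` at the left
end of the row `j`. -/
structure SameW (O : Pool.Agent.H46.Sp.Out D) (a b c : ℂ) : Prop where
  lowH : ∀ j, 0 ≤ j → j ≤ D.h → ∀ x y, j ≤ y → y ≤ D.h → D.m (y - 1) ≤ x → x < D.M (y - 1) →
    FW O a b c j (he (x, y)) = FW O a b c 0 (he (x, y))
  lowV : ∀ j, 0 ≤ j → j ≤ D.h → ∀ x y, j ≤ y → y < D.h → D.a y ≤ x → x ≤ D.b y →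
    FW O a b c j (ve (x, y)) = FW O a b c 0 (ve (x, y))
  upH : ∀ j, 0 ≤ j → j ≤ D.h → ∀ x y, -1 ≤ y → y ≤ j - 1 → D.m y ≤ x → x < D.M y →
    FW O a b c j (he (x, y)) = FW O a b c D.h (he (x, y))
  upV : ∀ j, 0 ≤ j → j ≤ D.h → ∀ x y, -1 ≤ y → y < j - 1 → D.a (y + 1) ≤ x → x ≤ D.b (y + 1) →
    FW O a b c j (ve (x, y)) = FW O a b c D.h (ve (x, y))
  star : ∀ j, 0 ≤ j → j < D.h →
    ((1 - a) + a * w6) * (FW O a b c (j + 1) (ve (D.a j, j)) + FW O a b c j (ve (D.a j, j - 1))) =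
      ((1 - a) * w6 + a) *
        (FW O a b c j (ve (D.a j, j)) + FW O a b c (j + 1) (ve (D.a j, j - 1)))

/-- the ends of a row -/
lemma ends (h0 : 0 ≤ j) (h1 : j < D.h) : D.a j ≤ D.b j ∧ D.m (j - 1) ≤ D.a j ∧
    D.a j ≤ D.M (j - 1) ∧ D.m (j + 1 - 1) ≤ D.a j ∧ D.a j ≤ D.M (j + 1 - 1) := by
  have hab := D.ab j h0 h1
  have k1 := m_le_a (D := D) (y := j) h0
  have k2 := b_le_M (D := D) (y := j) h0
  have k3 := m_le_a' (D := D) (y := j - 1) (by omega)
  have k4 := b_le_M' (D := D) (y := j - 1) (by omega)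
  rw [sub_add_cancel] at k3 k4
  rw [show j + 1 - 1 = j by ring]
  omega

/-- **(A4) for windows** -/
theorem potentialW (S : SameW O a b c) {Hl Hu : ℤ → ℤ → ℂ} (hl : PotL D (FW O a b c 0) Hl)
    (hu : PotU D (FW O a b c D.h) Hu) :
    ∃ C : ℂ, ∀ j x : ℤ, 0 ≤ j → j ≤ D.h → D.m (j - 1) ≤ x → x ≤ D.M (j - 1) →
      ((1 - a) + a * w6) * (sg (x + j) * FW O a b c j (ve (x, j - 1))) =
        ((1 - a) * w6 + a) * (Hl x j - Hu x (j - 1)) + C := by
  have hu' : PotW (FW O a b c D.h) Hu (fun y => D.a (y + 1)) (fun y => D.b (y + 1))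
      (fun y => (fun y => D.m (y - 1)) (y + 1)) (fun y => (fun y => D.M (y - 1)) (y + 1))
      (0 - 1) (D.h - 1) := by
    simp only [add_sub_cancel_right, zero_sub]
    exact hu
  refine pot_window (Fj := FW O a b c) hl hu' (fun j x h0 h1 h2 h3 => ?_) (fun j h0 h1 => ?_)
  · rw [rowW h0 h1 h2 h3, S.lowH j h0 h1 x j le_rfl h1 h2 h3,
      S.upH j h0 h1 x (j - 1) (by omega) le_rfl h2 h3]
  · obtain ⟨e1, e2, e3, e4, e5⟩ := ends h0 h1
    refine ⟨D.a j, le_rfl, e1, e2, e3, e4, e5, ?_⟩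
    have s1 := S.star j h0 h1
    have s2 := S.upV (j + 1) (by omega) (by omega) (D.a j) (j - 1) (by omega) (by omega)
      (by rw [sub_add_cancel]) (by rw [sub_add_cancel]; exact e1)
    rw [S.lowV j h0 (by omega) (D.a j) j le_rfl h1 le_rfl e1, s2] at s1
    exact s1

/-- **(A4)** for the weights `wa φ`, `wa (φ + π/2)`, `wa (φ - π/2)` -/
theorem potentialW_wa (u : ℂ) (h1 : Complex.sin ((u + Real.pi) / 3) ≠ 0) {b c : ℂ}
    (S : SameW O (wa u) b c) {Hl Hu : ℤ → ℤ → ℂ} (hl : PotL D (FW O (wa u) b c 0) Hl)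
    (hu : PotU D (FW O (wa u) b c D.h) Hu) :
    ∃ C : ℂ, ∀ j x : ℤ, 0 ≤ j → j ≤ D.h → D.m (j - 1) ≤ x → x ≤ D.M (j - 1) →
      sg (x + j) * FW O (wa u) b c j (ve (x, j - 1)) =
        Complex.exp (-(2 * Complex.I / 3) * (u - Real.pi / 2)) * (Hl x j - Hu x (j - 1)) + C := by
  obtain ⟨C, hC⟩ := potentialW S hl hu
  have hD := den_ne u h1
  refine ⟨C / ((1 - wa u) + wa u * w6), fun j x a1 a2 a3 a4 => ?_⟩
  have := hC j x a1 a2 a3 a4
  rw [ratio_wa u h1] at this
  apply mul_left_cancel₀ hD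
  have h3 : ((1 - wa u) + wa u * w6) * (C / ((1 - wa u) + wa u * w6)) = C :=
    mul_div_cancel₀ _ hD
  rw [this]
  linear_combination -h3

/-- the potentials are determined up to a constant -/
theorem PotL_const {F F' : ℤ × ℤ → ℂ} {H H' : ℤ → ℤ → ℂ} (hH : PotL D F H) (hH' : PotL D F' H')
    (hh : ∀ x y, 0 ≤ y → y ≤ D.h → D.m (y - 1) ≤ x → x < D.M (y - 1) →
      F' (he (x, y)) = F (he (x, y)))
    (hv : ∀ y, 0 ≤ y → y < D.h → F' (ve (D.a y, y)) = F (ve (D.a y, y))) :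
    ∃ C, ∀ x y, 0 ≤ y → y ≤ D.h → D.m (y - 1) ≤ x → x ≤ D.M (y - 1) → H' x y = H x y + C := by
  refine PotW.const hH hH' hh hv fun y h0 h1 => ?_
  obtain ⟨e1, e2, e3, e4, e5⟩ := ends (D := D) h0 h1
  exact ⟨e2, e3, e4, e5, e1⟩

end Pool.Agent.H74.Win
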