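import Mathlib
import Pool.Agent.H74.Win.Ring
import Pool.Agent.H74.Win.PotW
import Pool.Agent.H93.Sp.Str
import Pool.Agent.H74.R45.SPot
import Pool.Agent.H74.R45.Cmp
import Pool.Agent.H21.FM.Inter

set_option autoImplicit false
open Finset

/-! # Plane environments in the large box of a window

`XB O E W` : the plane environment with the random labels `E` and the open labels `W ∪ O.Wo`,
`E, W ⊆ GB D`. `PotN D p F H` : `H` is a potential of `F` on the closed polygon `P^p`. `iW_freeze` :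
freezing of some labels. -/

namespace Pool.Agent.H74.Win

open Pool.Agent.H75.Perc hiding ph
open Pool.Agent.H75.TwoArm Pool.Agent.Q1 Pool.Agent.H33.Q1
open Pool.Agent.H75.Four Pool.Agent.H69.Q1 Pool.Agent.H74.R45
open Pool.Agent.H46.Sp (Win Out)
open Pool.Agent.H46.Sp.Win (m_le_a b_le_M m_le_a' b_le_M' m_lt_M m_lo m_hi M_lo M_hi)
open Pool.Agent.H21.FM (GPrim)

variable {D : Win} {O : OutB D} {E W : Finset (ℤ × ℤ)} {p : Bool} {x y : ℤ}

lemma odd_GB {e : ℤ × ℤ} (he : e ∈ GB D) : (e.1 + e.2) % 2 = 1 := odd_TB he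

lemma GB_not_Wo (O : OutB D) {e : ℤ × ℤ} (he : e ∈ GB D) : e ∉ O.Wo := by
  intro h
  obtain ⟨x, y, rfl⟩ := exists_lt (odd_GB he)
  exact O.far x y h (mem_GB.1 he)

lemma XB_sub (O : OutB D) (hE : E ⊆ GB D) (hW : W ⊆ GB D) : E ∪ (W ∪ O.Wo) ⊆ GB D ∪ O.Wo := by
  rw [← union_assoc]
  exact union_subset_union_left (union_subset hE hW)

lemma XB_disj (O : OutB D) (hE : E ⊆ GB D) (hd : Disjoint E W) : Disjoint E (W ∪ O.Wo) := by
  rw [disjoint_union_right]
  refine ⟨hd, ?_⟩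
  rw [disjoint_left]
  exact fun e he h2 => GB_not_Wo O (hE he) h2

/-- **Plane environments in the large box** -/
noncomputable def XB (O : OutB D) (E W : Finset (ℤ × ℤ)) (hE : E ⊆ GB D) (hW : W ⊆ GB D)
    (hd : Disjoint E W) : Env :=
  Env.plane E (W ∪ O.Wo) O.c0 O.k0 O.g (fun _ he => odd_GB (hE he)) (XB_disj O hE hd) O.hk
    (fun h => O.hroot (hE h)) (O.hg.anti (XB_sub O hE hW)) (fun v hv => O.hlow v (hv.mono (XB_sub O hE hW)))

variable {hE : E ⊆ GB D} {hW : W ⊆ GB D} {hd : Disjoint E W}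

@[simp] lemma XB_E : (XB O E W hE hW hd).E = E := rfl
@[simp] lemma XB_c0 : (XB O E W hE hW hd).c0 = O.c0 := rfl
@[simp] lemma XB_k0 : (XB O E W hE hW hd).k0 = O.k0 := rfl
@[simp] lemma XB_T : (XB O E W hE hW hd).T = 4 := rfl

lemma XB_incW (q : ℤ × ℤ → ℂ) (c : ℤ × ℤ) :
    (XB O E W hE hW hd).incW q c = H13.Q1.iW E (W ∪ O.Wo) q O.c0 O.k0 c :=
  Pool.Agent.H13.Q1.plane_incW q c

lemma inc_eq_incW {X : Env} (c : ℤ × ℤ) : X.inc c = X.incW (fun _ => 1 / 2) c := by
  unfold Env.inc Env.incW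
  rw [Ec_half]

lemma XB_inc (c : ℤ × ℤ) :
    (XB O E W hE hW hd).inc c = H13.Q1.iW E (W ∪ O.Wo) (fun _ => 1 / 2) O.c0 O.k0 c := by
  rw [← XB_incW (hE := hE) (hW := hW) (hd := hd), inc_eq_incW]

/-- freezing of some labels -/
theorem iW_freeze {Z E W : Finset (ℤ × ℤ)} (hZ : Z ⊆ E) (q : ℤ × ℤ → ℂ) (c0 : ℤ × ℤ) (k0 : ℤ)
    (c : ℤ × ℤ) : H13.Q1.iW E W q c0 k0 c =
      Ec q Z (fun S => H13.Q1.iW (E \ Z) (W ∪ S) q c0 k0 c) := by
  unfold H13.Q1.iW
  rw [Ec_split q hZ]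
  refine Ec_congr fun S _ => Ec_congr fun ω _ => ?_
  congr 1
  ext e
  simp only [mem_union]
  tauto

/-! ### Potentials -/

/-- natural tiles -/
lemma inc_tile {X : Env} (h : lt (x, y) ∈ X.E) :
    X.inc (ve (x, y)) + X.inc (ve (x + 1, y)) = X.inc (he (x, y + 1)) + X.inc (he (x, y)) := by
  have key : (1 + w6) * (X.inc (ve (x, y)) + X.inc (ve (x + 1, y))) =
      (1 + w6) * (X.inc (he (x, y + 1)) + X.inc (he (x, y))) := by
    simp only [inc_eq_incW]
    rcases Int.emod_two_eq_zero_or_one (x + y) with h2 | h2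
    · have := tile_even (X := X) (q := fun _ => 1 / 2) (a := 1 / 2) h2 h rfl
      linear_combination 2 * this
    · have := tile_odd (X := X) (q := fun _ => 1 / 2) (a := 1 / 2) h2 h (by norm_num)
      linear_combination 2 * this
  exact mul_left_cancel₀ one_add_w6_ne key

/-- potential on the closed polygon `P^p` -/
def PotN (D : Win) (p : Bool) (F : ℤ × ℤ → ℂ) (H : ℤ → ℤ → ℂ) : Prop :=
  PotW F H (fun y => D.a (y + sh p)) (fun y => D.b (y + sh p)) (fun y => D.m (y + sh p - 1))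
    (fun y => D.M (y + sh p - 1)) (- sh p) (D.h - sh p)

theorem exists_potN {F : ℤ × ℤ → ℂ} (hc : ∀ x y, InP D p x y →
    F (ve (x, y)) + F (ve (x + 1, y)) = F (he (x, y + 1)) + F (he (x, y))) : ∃ H, PotN D p F H :=
  exists_potW _ _ _ _ _ _ fun _ _ h1 h2 h3 h4 => hc _ _ ⟨by omega, by omega, h3, h4⟩

/-- natural environments which contain `P^p` -/
theorem exists_potX {X : Env} (h : EN D p ⊆ X.E) : ∃ H, PotN D p X.inc H :=
  exists_potN fun _ _ h1 => inc_tile (h (mem_EN.2 h1))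

/-- the heights of the closed polygon -/
lemma closed_h (hy : - sh p ≤ y) (hy' : y ≤ D.h - sh p) (h1 : D.m (y + sh p - 1) ≤ x)
    (h2 : x < D.M (y + sh p - 1)) : InP D p x y ∨ InP D p x (y - 1) := by
  unfold InP
  obtain ⟨Y, rfl⟩ : ∃ Y, y = Y - sh p := ⟨y + sh p, by ring⟩
  rw [show Y - sh p + sh p = Y by ring] at *
  rw [show Y - sh p - 1 + sh p = Y - 1 by ring]
  have hP := D.P0
  have hP1 := D.P1
  have hQ := D.Q0
  have hQ1 := D.Q1
  have hh := D.hh
  rcases lt_or_ge Y D.yP with c1 | c1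
  · rw [m_lo (D := D) (by omega), sub_add_cancel] at h1
    rcases lt_or_ge (Y - 1) D.yQ with c2 | c2
    · rw [M_lo c2, sub_add_cancel] at h2
      exact Or.inl ⟨by omega, by omega, h1, h2⟩
    · rw [M_hi c2] at h2
      have k := D.ov1 (Y - 1) (by omega) (by omega)
      rw [sub_add_cancel] at k
      rcases lt_or_ge x (D.b Y) with c3 | c3
      · exact Or.inl ⟨by omega, by omega, h1, c3⟩
      · exact Or.inr ⟨by omega, by omega, by omega, h2⟩
  · rw [m_hi (D := D) (by omega)] at h1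
    rcases lt_or_ge (Y - 1) D.yQ with c2 | c2
    · rw [M_lo c2, sub_add_cancel] at h2
      have k := D.ov2 (Y - 1) (by omega) (by omega)
      rw [sub_add_cancel] at k
      rcases lt_or_ge x (D.b (Y - 1)) with c3 | c3
      · exact Or.inr ⟨by omega, by omega, h1, c3⟩
      · exact Or.inl ⟨by omega, by omega, by omega, h2⟩
    · rw [M_hi c2] at h2
      exact Or.inr ⟨by omega, by omega, h1, h2⟩

/-- edges of the closed polygon -/
lemma RC_hN (hy : - sh p ≤ y) (hy' : y ≤ D.h - sh p) (h1 : D.m (y + sh p - 1) ≤ x)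
    (h2 : x < D.M (y + sh p - 1)) : RC (EN D p) (he (x, y)) := by
  rcases Int.emod_two_eq_zero_or_one (x + y) with h | h
  · rcases closed_h hy hy' h1 h2 with k | k
    · left; rw [lab_he_N h, mem_EN]; exact k
    · right; rw [plab_he_N h, mem_EN]; exact k
  · rcases closed_h hy hy' h1 h2 with k | k
    · right; rw [plab_he_S h, mem_EN]; exact k
    · left; rw [lab_he_S h, mem_EN]; exact k

lemma RC_vN (hy : 0 ≤ y + sh p) (hy' : y + sh p < D.h) (h1 : D.a (y + sh p) ≤ x)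
    (h2 : x ≤ D.b (y + sh p)) : RC (EN D p) (ve (x, y)) := by
  have k := D.ab (y + sh p) hy hy'
  rcases Int.emod_two_eq_zero_or_one (x + y) with h | h
  · rcases lt_or_ge x (D.b (y + sh p)) with c | c
    · right; rw [plab_ve_W h, mem_EN]; exact ⟨hy, hy', h1, c⟩
    · left; rw [lab_ve_W h, mem_EN]; exact ⟨hy, hy', by omega, by omega⟩
  · rcases lt_or_ge x (D.b (y + sh p)) with c | c
    · left; rw [lab_ve_E h, mem_EN]; exact ⟨hy, hy', h1, c⟩
    · right; rw [plab_ve_E h, mem_EN]; exact ⟨hy, hy', by omega, by omega⟩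

lemma RC.mono' {A B : Finset (ℤ × ℤ)} (h : A ⊆ B) {c : ℤ × ℤ} (hc : RC A c) : RC B c := by
  rcases hc with hc | hc
  · exact Or.inl (h hc)
  · exact Or.inr (h hc)

/-- a primitive gives a potential -/
theorem potN_of_gprim {X : Env} (hE : EN D p ⊆ X.E) {Ht : ℤ × ℤ → ℂ} (H : GPrim X Ht) :
    PotN D p X.inc (fun x y => Ht (x, y)) := by
  refine ⟨fun x y h1 h2 h3 h4 => ?_, fun x y h1 h2 h3 h4 => ?_⟩
  · exact (gprim_edge H).1 (RC.mono' hE (RC_hN h1 h2 h3 h4))
  · exact (gprim_edge H).2 (RC.mono' hE (RC_vN (by omega) (by omega) h3 h4))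

/-- the potentials of a natural world are determined up to a constant -/
theorem PotN.const {F F' : ℤ × ℤ → ℂ} {H H' : ℤ → ℤ → ℂ} (hH : PotN D p F H) (hH' : PotN D p F' H')
    (h : ∀ c, RC (EN D p) c → F' c = F c) :
    ∃ C, ∀ x y, - sh p ≤ y → y ≤ D.h - sh p → D.m (y + sh p - 1) ≤ x → x ≤ D.M (y + sh p - 1) →
      H' x y = H x y + C := by
  refine PotW.const hH hH' (fun x y h1 h2 h3 h4 => h _ (RC_hN h1 h2 h3 h4)) (fun y h1 h2 => ?_)
    (fun y h1 h2 => ?_)
  · have k := D.ab (y + sh p) (by omega) (by omega)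
    exact h _ (RC_vN (by omega) (by omega) le_rfl (by omega))
  · obtain ⟨Y, rfl⟩ : ∃ Y, y = Y - sh p := ⟨y + sh p, by ring⟩
    simp only [show Y - sh p + sh p = Y by ring, show Y - sh p + 1 + sh p - 1 = Y by ring]
    have hab := D.ab Y (by omega) (by omega)
    have k1 := m_le_a (D := D) (y := Y) (by omega)
    have k2 := b_le_M (D := D) (y := Y) (by omega)
    have k3 := m_le_a' (D := D) (y := Y - 1) (by omega)
    have k4 := b_le_M' (D := D) (y := Y - 1) (by omega)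
    rw [sub_add_cancel] at k3 k4
    omega

end Pool.Agent.H74.Win
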