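import Mathlib
import Pool.Agent.H74.Win.NatE
import Pool.Agent.H42.Sp.Tie

set_option autoImplicit false
open Finset

/-! # The layer around a natural window, the ties on all walls of both arcs

`Y = y + sh p` is the row of `P`. `LyL`, `LyR`, `LyF`, `LyC` : layer tiles = tiles outside of `P^p` with
exactly one neighbour in `P^p` (to the E, W, N, S). `CA D p k` : there is a tie of the kind `k.1` at the
grid point `k.2 = (x, y)` : its two inner tiles are layer tiles of this kind and the natural colour of all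
four tiles at the point is `wired` iff `x + y` is odd. `kt k`, `rt k` (helper42): kept and removed tile.
`RG` : ring tiles = tiles outside of `P^p` with one of the eight neighbours in `P^p`. -/

namespace Pool.Agent.H74.Win

open Pool.Agent.H75.Perc hiding ph
open Pool.Agent.H75.TwoArm Pool.Agent.Q1 Pool.Agent.H33.Q1
open Pool.Agent.H75.Four Pool.Agent.H69.Q1
open Pool.Agent.H74.R45 (exists_lt)
open Pool.Agent.H46.Sp (Win Out)
open Pool.Agent.H42.Sp (Sd Ix kt rt kt_odd rt_even kt_Tg rt_Tg)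
open Pool.Agent.H13.R45 (Tg ev gp Ag)

section Defs

variable (D : Win) (p : Bool)

/-- layer tiles to the left of `P^p` -/
def LyL (x y : ℤ) : Prop :=
  0 ≤ y + sh p ∧ y + sh p < D.h ∧ x = D.a (y + sh p) - 1 ∧
    (y + sh p + 1 < D.h → D.a (y + sh p) ≤ D.a (y + sh p + 1)) ∧
    (1 ≤ y + sh p → D.a (y + sh p) ≤ D.a (y + sh p - 1))

/-- layer tiles to the right of `P^p` -/
def LyR (x y : ℤ) : Prop :=
  0 ≤ y + sh p ∧ y + sh p < D.h ∧ x = D.b (y + sh p) ∧
    (y + sh p + 1 < D.h → D.b (y + sh p + 1) ≤ D.b (y + sh p)) ∧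
    (1 ≤ y + sh p → D.b (y + sh p - 1) ≤ D.b (y + sh p))

/-- layer tiles below `P^p` -/
def LyF (x y : ℤ) : Prop :=
  -1 ≤ y + sh p ∧ y + sh p + 1 < D.h ∧ D.a (y + sh p + 1) ≤ x ∧ x < D.b (y + sh p + 1) ∧
    (0 ≤ y + sh p → x + 1 < D.a (y + sh p) ∨ D.b (y + sh p) < x)

/-- layer tiles above `P^p` -/
def LyC (x y : ℤ) : Prop :=
  1 ≤ y + sh p ∧ y + sh p ≤ D.h ∧ D.a (y + sh p - 1) ≤ x ∧ x < D.b (y + sh p - 1) ∧
    (y + sh p < D.h → x + 1 < D.a (y + sh p) ∨ D.b (y + sh p) < x)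

/-- the four tiles at the grid point have the colour of a tie at this point -/
def Mono (x y : ℤ) : Prop :=
  natc D p x y = decide ((x + y) % 2 = 1) ∧ natc D p (x - 1) y = decide ((x + y) % 2 = 1) ∧
  natc D p x (y - 1) = decide ((x + y) % 2 = 1) ∧
  natc D p (x - 1) (y - 1) = decide ((x + y) % 2 = 1)

/-- the ties of the world `p` (on all walls of both arcs) -/
def CA : Ix → Prop
  | (.L, (x, y)) => LyL D p x y ∧ LyL D p x (y - 1) ∧ Mono D p x y
  | (.R, (x, y)) => LyR D p (x - 1) y ∧ LyR D p (x - 1) (y - 1) ∧ Mono D p x y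
  | (.F, (x, y)) => LyF D p x y ∧ LyF D p (x - 1) y ∧ Mono D p x y
  | (.C, (x, y)) => LyC D p x (y - 1) ∧ LyC D p (x - 1) (y - 1) ∧ Mono D p x y

/-- ring tiles -/
def RG (x y : ℤ) : Prop :=
  ¬ InP D p x y ∧ ∃ x' y', x - 1 ≤ x' ∧ x' ≤ x + 1 ∧ y - 1 ≤ y' ∧ y' ≤ y + 1 ∧ InP D p x' y'

/-- tiles of the ties -/
def TT (x y : ℤ) : Prop := ∃ k, CA D p k ∧ ((x, y) = kt k ∨ (x, y) = rt k)

open Classical in
/-- the ties, as a finite set -/
noncomputable def CAs : Finset Ix :=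
  (univ ×ˢ (Icc (D.a (D.yP - 1) - 4) (D.b D.yQ + 3) ×ˢ Icc (-4) (D.h + 2))).filter (CA D p)

end Defs

variable {D : Win} {p : Bool} {x y : ℤ}

/-! ### Unimodality -/

lemma a_drop (_h0 : 0 ≤ y) (h1 : y + 1 < D.h) (h : D.a (y + 1) < D.a y) : y + 1 < D.yP := by
  by_contra hc
  have hP := D.P0
  rcases eq_or_lt_of_le (show D.yP ≤ y + 1 by omega) with h2 | h2
  · have := D.aP (by omega)
    rw [h2, add_sub_cancel_right] at this
    omega
  · have := D.aU y (by omega) h1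
    omega

lemma a_rise (h0 : 0 ≤ y) (h : D.a y < D.a (y + 1)) : D.yP ≤ y + 1 := by
  by_contra hc
  have := D.aL y h0 (by omega)
  omega

lemma b_rise (h1 : y + 1 < D.h) (h : D.b y < D.b (y + 1)) : y + 1 ≤ D.yQ := by
  by_contra hc
  have := D.bU y (by omega) h1
  omega

lemma b_drop (h0 : 0 ≤ y) (h : D.b (y + 1) < D.b y) : D.yQ ≤ y := by
  by_contra hc
  rcases eq_or_lt_of_le (show y + 1 ≤ D.yQ by omega) with h2 | h2
  · have := D.bQ (by omega)
    rw [← h2, add_sub_cancel_right] at this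
    omega
  · have := D.bL y h0 h2
    omega

/-- below the level of a floor tile on the left -/
lemma a_below {Y x : ℤ} (h0 : 0 ≤ Y) (h1 : Y + 1 < D.h) (h : D.a (Y + 1) ≤ x) (h2 : x < D.a Y) :
    ∀ Z, 0 ≤ Z → Z ≤ Y → x < D.a Z := by
  intro Z hZ hZY
  have k := a_drop h0 h1 (by omega)
  have := Pool.Agent.H46.Sp.Win.a_anti (D := D) hZ hZY (by omega)
  omega

lemma b_below {Y x : ℤ} (_h0 : 0 ≤ Y) (h1 : Y + 1 < D.h) (h : x < D.b (Y + 1)) (h2 : D.b Y ≤ x) :
    ∀ Z, 0 ≤ Z → Z ≤ Y → D.b Z ≤ x := by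
  intro Z hZ hZY
  have k := b_rise h1 (show D.b Y < D.b (Y + 1) by omega)
  have := Pool.Agent.H46.Sp.Win.b_mono (D := D) hZ hZY (by omega)
  omega

lemma a_above {Y x : ℤ} (h0 : 1 ≤ Y) (_h1 : Y < D.h) (h : D.a (Y - 1) ≤ x) (h2 : x < D.a Y) :
    ∀ Z, Y ≤ Z → Z < D.h → x < D.a Z := by
  intro Z hZ hZY
  have k := a_rise (D := D) (y := Y - 1) (by omega) (by rw [sub_add_cancel]; omega)
  have := Pool.Agent.H46.Sp.Win.a_mono (D := D) (y := Y) (z := Z) (by omega) hZ hZY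
  omega

lemma b_above {Y x : ℤ} (h0 : 1 ≤ Y) (_h1 : Y < D.h) (h : x < D.b (Y - 1)) (h2 : D.b Y ≤ x) :
    ∀ Z, Y ≤ Z → Z < D.h → D.b Z ≤ x := by
  intro Z hZ hZY
  have k := b_drop (D := D) (y := Y - 1) (by omega) (by rw [sub_add_cancel]; omega)
  have := Pool.Agent.H46.Sp.Win.b_anti (D := D) (y := Y) (z := Z) (by omega) hZ hZY
  omega

/-! ### The kinds exclude each other -/

/-- the rows of a world -/
lemma ab' (h0 : 0 ≤ y + sh p) (h1 : y + sh p < D.h) : D.a (y + sh p) + 2 ≤ D.b (y + sh p) :=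
  D.ab _ h0 h1

lemma LyL.out (h : LyL D p x y) : ¬ InP D p x y ∧ InP D p (x + 1) y := by
  obtain ⟨h1, h2, h3, -, -⟩ := h
  have := ab' (D := D) h1 h2
  unfold InP
  omega

lemma LyR.out (h : LyR D p x y) : ¬ InP D p x y ∧ InP D p (x - 1) y := by
  obtain ⟨h1, h2, h3, -, -⟩ := h
  have := ab' (D := D) h1 h2
  unfold InP
  omega

lemma LyF.out (h : LyF D p x y) : ¬ InP D p x y ∧ InP D p x (y + 1) := by
  obtain ⟨h1, h2, h3, h4, h5⟩ := h
  unfold InP
  rw [show y + 1 + sh p = y + sh p + 1 by ring]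
  refine ⟨?_, by omega, h2, h3, h4⟩
  rintro ⟨a1, a2, a3, a4⟩
  have := h5 a1
  omega

lemma LyC.out (h : LyC D p x y) : ¬ InP D p x y ∧ InP D p x (y - 1) := by
  obtain ⟨h1, h2, h3, h4, h5⟩ := h
  unfold InP
  rw [show y - 1 + sh p = y + sh p - 1 by ring]
  refine ⟨?_, by omega, by omega, h3, h4⟩
  rintro ⟨a1, a2, a3, a4⟩
  have := h5 a2
  omega

lemma not_LR (h : LyL D p x y) (h' : LyR D p x y) : False := by
  obtain ⟨h1, h2, h3, -, -⟩ := h
  obtain ⟨-, -, h4, -, -⟩ := h'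
  have := ab' (D := D) h1 h2
  omega

lemma not_LF (h : LyL D p x y) (h' : LyF D p x y) : False := by
  obtain ⟨h1, h2, h3, -, -⟩ := h
  obtain ⟨-, -, -, -, h4⟩ := h'
  have := ab' (D := D) h1 h2
  have := h4 h1
  omega

lemma not_LC (h : LyL D p x y) (h' : LyC D p x y) : False := by
  obtain ⟨h1, h2, h3, -, -⟩ := h
  obtain ⟨-, -, -, -, h4⟩ := h'
  have := ab' (D := D) h1 h2
  have := h4 h2
  omega

lemma not_RF (h : LyR D p x y) (h' : LyF D p x y) : False := by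
  obtain ⟨h1, h2, h3, -, -⟩ := h
  obtain ⟨-, -, -, -, h4⟩ := h'
  have := ab' (D := D) h1 h2
  have := h4 h1
  omega

lemma not_RC (h : LyR D p x y) (h' : LyC D p x y) : False := by
  obtain ⟨h1, h2, h3, -, -⟩ := h
  obtain ⟨-, -, -, -, h4⟩ := h'
  have := ab' (D := D) h1 h2
  have := h4 h2
  omega

lemma not_FC (h : LyF D p x y) (h' : LyC D p x y) : False := by
  obtain ⟨h1, h2, h3, h4, h5⟩ := h
  obtain ⟨k1, k2, k3, k4, k5⟩ := h'
  have c := ab' (D := D) (y := y) (p := p) (by omega) (by omega)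
  rcases h5 (by omega) with h6 | h6
  · have := a_below (D := D) (Y := y + sh p) (x := x) (by omega) h2 h3 (by omega) (y + sh p - 1)
      (by omega) (by omega)
    omega
  · have := b_below (D := D) (Y := y + sh p) (x := x) (by omega) h2 h4 (by omega) (y + sh p - 1)
      (by omega) (by omega)
    omega

/-! ### The outer tiles of a tie are far from `P^p` -/

/-- no tile of `P^p` near the outer tiles of a tie of the kind `L` -/
lemma far_L (h : LyL D p x y) (h' : LyL D p x (y - 1)) {x' y' : ℤ} (hx : x' ≤ x) (hy : y - 2 ≤ y')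
    (hy' : y' ≤ y + 1) : ¬ InP D p x' y' := by
  obtain ⟨h1, h2, h3, h4, h5⟩ := h
  obtain ⟨k1, k2, k3, k4, k5⟩ := h'
  rintro ⟨a1, a2, a3, a4⟩
  rcases (show y' = y - 2 ∨ y' = y - 1 ∨ y' = y ∨ y' = y + 1 by omega) with r | r | r | r
  · subst r
    have := k5 (by omega)
    rw [show y - 1 + sh p - 1 = y - 2 + sh p by ring] at this
    omega
  · subst r; omega
  · subst r; omega
  · subst r
    have := h4 (by omega)
    rw [show y + sh p + 1 = y + 1 + sh p by ring] at this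
    omega

lemma far_R (h : LyR D p (x - 1) y) (h' : LyR D p (x - 1) (y - 1)) {x' y' : ℤ} (hx : x - 1 ≤ x')
    (hy : y - 2 ≤ y') (hy' : y' ≤ y + 1) : ¬ InP D p x' y' := by
  obtain ⟨h1, h2, h3, h4, h5⟩ := h
  obtain ⟨k1, k2, k3, k4, k5⟩ := h'
  rintro ⟨a1, a2, a3, a4⟩
  rcases (show y' = y - 2 ∨ y' = y - 1 ∨ y' = y ∨ y' = y + 1 by omega) with r | r | r | r
  · subst r
    have := k5 (by omega)
    rw [show y - 1 + sh p - 1 = y - 2 + sh p by ring] at this
    omega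
  · subst r; omega
  · subst r; omega
  · subst r
    have := h4 (by omega)
    rw [show y + sh p + 1 = y + 1 + sh p by ring] at this
    omega

lemma far_F (h : LyF D p x y) (h' : LyF D p (x - 1) y) {x' y' : ℤ} (hx : x - 2 ≤ x')
    (hx' : x' ≤ x + 1) (hy : y' ≤ y) : ¬ InP D p x' y' := by
  obtain ⟨h1, h2, h3, h4, h5⟩ := h
  obtain ⟨-, -, k3, k4, k5⟩ := h'
  rintro ⟨a1, a2, a3, a4⟩
  have c0 : 0 ≤ y + sh p := by omega
  have c := ab' (D := D) (y := y) (p := p) c0 (by omega)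
  have i1 := h5 c0
  have i2 := k5 c0
  rcases (show x + 1 < D.a (y + sh p) ∨ D.b (y + sh p) < x - 1 by omega) with h6 | h6
  · have := a_below (D := D) (Y := y + sh p) (x := x + 1) c0 h2 (by omega) h6 (y' + sh p) a1
      (by omega)
    omega
  · have := b_below (D := D) (Y := y + sh p) (x := x - 2) c0 h2 (by omega) (by omega) (y' + sh p)
      a1 (by omega)
    omega

lemma far_C (h : LyC D p x (y - 1)) (h' : LyC D p (x - 1) (y - 1)) {x' y' : ℤ} (hx : x - 2 ≤ x')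
    (hx' : x' ≤ x + 1) (hy : y - 1 ≤ y') : ¬ InP D p x' y' := by
  obtain ⟨h1, h2, h3, h4, h5⟩ := h
  obtain ⟨-, -, k3, k4, k5⟩ := h'
  rintro ⟨a1, a2, a3, a4⟩
  have c0 : y - 1 + sh p < D.h := by omega
  have c := ab' (D := D) (y := y - 1) (p := p) (by omega) c0
  have i1 := h5 c0
  have i2 := k5 c0
  rcases (show x + 1 < D.a (y - 1 + sh p) ∨ D.b (y - 1 + sh p) < x - 1 by omega) with h6 | h6
  · have := a_above (D := D) (Y := y - 1 + sh p) (x := x + 1) h1 c0 (by omega) h6 (y' + sh p)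
      (by omega) a2
    omega
  · have := b_above (D := D) (Y := y - 1 + sh p) (x := x - 2) h1 c0 (by omega) (by omega)
      (y' + sh p) (by omega) a2
    omega

end Pool.Agent.H74.Win
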