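import Mathlib
import Pool.Agent.H74.Win.RingT

set_option autoImplicit false
open Finset

/-! # The tied natural environments of both arcs

`EU D p` : tiles of `P^p` and of the ties. `FZ D p` : frozen tiles = ring tiles which do not belong to a
tie. `WU D p S` : natural open tiles outside of the ring and of `P^p`, and the frozen open tiles `S`.
`EA D p`, `WA D p S` : the removed tiles `rt k` of the ties are deleted from `EU` and opened if `k.2` is
a vertex. `XU O p S`, `XA O p S` : the plane environments. `cap_CA` : all ties are caps (helper13). -/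

namespace Pool.Agent.H74.Win

open Pool.Agent.H75.Perc hiding ph
open Pool.Agent.H75.TwoArm Pool.Agent.Q1 Pool.Agent.H33.Q1
open Pool.Agent.H75.Four Pool.Agent.H69.Q1
open Pool.Agent.H74.R45 (exists_lt)
open Pool.Agent.H46.Sp (Win Out)
open Pool.Agent.H42.Sp (Sd Ix kt rt kt_odd rt_even kt_Tg rt_Tg cap_of)
open Pool.Agent.H13.R45 (Tg ev gp Ag)
open Pool.Agent.H13.Q1 (Cap)

variable {D : Win} {p : Bool} {x y : ℤ}

/-! ### The two tiles of a tie -/

lemma kr_L {t : ℤ × ℤ} : (t = kt (.L, (x, y)) ∨ t = rt (.L, (x, y))) ↔ (t = (x, y) ∨ t = (x, y - 1)) := by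
  unfold kt rt
  by_cases h : (x + y) % 2 = 1
  · simp only [if_pos h]
  · simp only [if_neg h]; exact or_comm

lemma kr_R {t : ℤ × ℤ} : (t = kt (.R, (x, y)) ∨ t = rt (.R, (x, y))) ↔
    (t = (x - 1, y) ∨ t = (x - 1, y - 1)) := by
  unfold kt rt
  by_cases h : (x + y) % 2 = 1
  · simp only [if_pos h]; exact or_comm
  · simp only [if_neg h]

lemma kr_F {t : ℤ × ℤ} : (t = kt (.F, (x, y)) ∨ t = rt (.F, (x, y))) ↔ (t = (x, y) ∨ t = (x - 1, y)) := by
  unfold kt rt
  by_cases h : (x + y) % 2 = 1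
  · simp only [if_pos h]
  · simp only [if_neg h]; exact or_comm

lemma kr_C {t : ℤ × ℤ} : (t = kt (.C, (x, y)) ∨ t = rt (.C, (x, y))) ↔
    (t = (x, y - 1) ∨ t = (x - 1, y - 1)) := by
  unfold kt rt
  by_cases h : (x + y) % 2 = 1
  · simp only [if_pos h]; exact or_comm
  · simp only [if_neg h]

/-- **The tiles of the ties**, explicitly -/
lemma TT_iff : TT D p x y ↔
    (LyL D p x y ∧ ((LyL D p x (y - 1) ∧ Mono D p x y) ∨ (LyL D p x (y + 1) ∧ Mono D p x (y + 1)))) ∨
    (LyR D p x y ∧ ((LyR D p x (y - 1) ∧ Mono D p (x + 1) y) ∨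
      (LyR D p x (y + 1) ∧ Mono D p (x + 1) (y + 1)))) ∨
    (LyF D p x y ∧ ((LyF D p (x - 1) y ∧ Mono D p x y) ∨ (LyF D p (x + 1) y ∧ Mono D p (x + 1) y))) ∨
    (LyC D p x y ∧ ((LyC D p (x - 1) y ∧ Mono D p x (y + 1)) ∨
      (LyC D p (x + 1) y ∧ Mono D p (x + 1) (y + 1)))) := by
  constructor
  · rintro ⟨⟨s, a, b⟩, hk, ht⟩
    cases s
    · rw [kr_L] at ht
      obtain ⟨k1, k2, k3⟩ := hk
      rcases ht with ht | ht <;> (simp only [Prod.mk.injEq] at ht; obtain ⟨rfl, rfl⟩ := ht)
      · exact Or.inl ⟨k1, Or.inl ⟨k2, k3⟩⟩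
      · refine Or.inl ⟨k2, Or.inr ?_⟩
        rw [sub_add_cancel]; exact ⟨k1, k3⟩
    · rw [kr_R] at ht
      obtain ⟨k1, k2, k3⟩ := hk
      rcases ht with ht | ht <;> (simp only [Prod.mk.injEq] at ht; obtain ⟨rfl, rfl⟩ := ht)
      · refine Or.inr (Or.inl ⟨k1, Or.inl ?_⟩)
        rw [sub_add_cancel]; exact ⟨k2, k3⟩
      · refine Or.inr (Or.inl ⟨k2, Or.inr ?_⟩)
        rw [sub_add_cancel, sub_add_cancel]; exact ⟨k1, k3⟩
    · rw [kr_F] at ht
      obtain ⟨k1, k2, k3⟩ := hk
      rcases ht with ht | ht <;> (simp only [Prod.mk.injEq] at ht; obtain ⟨rfl, rfl⟩ := ht)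
      · exact Or.inr (Or.inr (Or.inl ⟨k1, Or.inl ⟨k2, k3⟩⟩))
      · refine Or.inr (Or.inr (Or.inl ⟨k2, Or.inr ?_⟩))
        rw [sub_add_cancel]; exact ⟨k1, k3⟩
    · rw [kr_C] at ht
      obtain ⟨k1, k2, k3⟩ := hk
      rcases ht with ht | ht <;> (simp only [Prod.mk.injEq] at ht; obtain ⟨rfl, rfl⟩ := ht)
      · refine Or.inr (Or.inr (Or.inr ⟨k1, Or.inl ?_⟩))
        rw [sub_add_cancel]; exact ⟨k2, k3⟩
      · refine Or.inr (Or.inr (Or.inr ⟨k2, Or.inr ?_⟩))
        rw [sub_add_cancel, sub_add_cancel]; exact ⟨k1, k3⟩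
  · rintro (⟨h1, ⟨h2, h3⟩ | ⟨h2, h3⟩⟩ | ⟨h1, ⟨h2, h3⟩ | ⟨h2, h3⟩⟩ | ⟨h1, ⟨h2, h3⟩ | ⟨h2, h3⟩⟩ |
      ⟨h1, ⟨h2, h3⟩ | ⟨h2, h3⟩⟩)
    · exact ⟨(.L, (x, y)), ⟨h1, h2, h3⟩, kr_L.2 (Or.inl rfl)⟩
    · refine ⟨(.L, (x, y + 1)), ⟨h2, ?_, h3⟩, kr_L.2 (Or.inr ?_)⟩
      · rw [add_sub_cancel_right]; exact h1
      · rw [add_sub_cancel_right]
    · refine ⟨(.R, (x + 1, y)), ⟨?_, ?_, h3⟩, kr_R.2 (Or.inl ?_)⟩
      · rw [add_sub_cancel_right]; exact h1
      · rw [add_sub_cancel_right]; exact h2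
      · rw [add_sub_cancel_right]
    · refine ⟨(.R, (x + 1, y + 1)), ⟨?_, ?_, h3⟩, kr_R.2 (Or.inr ?_)⟩
      · rw [add_sub_cancel_right]; exact h2
      · rw [add_sub_cancel_right, add_sub_cancel_right]; exact h1
      · rw [add_sub_cancel_right, add_sub_cancel_right]
    · exact ⟨(.F, (x, y)), ⟨h1, h2, h3⟩, kr_F.2 (Or.inl rfl)⟩
    · refine ⟨(.F, (x + 1, y)), ⟨h2, ?_, h3⟩, kr_F.2 (Or.inr ?_)⟩
      · rw [add_sub_cancel_right]; exact h1
      · rw [add_sub_cancel_right]
    · refine ⟨(.C, (x, y + 1)), ⟨?_, ?_, h3⟩, kr_C.2 (Or.inl ?_)⟩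
      · rw [add_sub_cancel_right]; exact h1
      · rw [add_sub_cancel_right]; exact h2
      · rw [add_sub_cancel_right]
    · refine ⟨(.C, (x + 1, y + 1)), ⟨?_, ?_, h3⟩, kr_C.2 (Or.inr ?_)⟩
      · rw [add_sub_cancel_right]; exact h2
      · rw [add_sub_cancel_right, add_sub_cancel_right]; exact h1
      · rw [add_sub_cancel_right, add_sub_cancel_right]

/-- the tiles of the ties are ring tiles -/
lemma TT.rg (h : TT D p x y) : RG D p x y := by
  rw [TT_iff] at h
  rcases h with ⟨h, -⟩ | ⟨h, -⟩ | ⟨h, -⟩ | ⟨h, -⟩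
  · exact ⟨h.out.1, x + 1, y, by omega, by omega, by omega, by omega, h.out.2⟩
  · exact ⟨h.out.1, x - 1, y, by omega, by omega, by omega, by omega, h.out.2⟩
  · exact ⟨h.out.1, x, y + 1, by omega, by omega, by omega, by omega, h.out.2⟩
  · exact ⟨h.out.1, x, y - 1, by omega, by omega, by omega, by omega, h.out.2⟩

lemma RG.not_P (h : RG D p x y) : ¬ InP D p x y := h.1

lemma RG.near (h : RG D p x y) : D.a (D.yP - 1) ≤ x + 1 ∧ x ≤ D.b D.yQ ∧ -2 ≤ y ∧ y ≤ D.h := by
  obtain ⟨-, x', y', h1, h2, h3, h4, h5⟩ := h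
  have := h5.box
  omega

lemma RG.inB (h : RG D p x y) : InB D x y := by
  have := h.near
  unfold InB
  omega

/-- the tiles of a tie -/
lemma CA.tt {k : Ix} (h : CA D p k) {t : ℤ × ℤ} (ht : t = kt k ∨ t = rt k) : TT D p t.1 t.2 :=
  ⟨k, h, ht⟩

/-! ### The outer tiles -/

/-- outer tile of a tie: outside of `P^p` and of the ring, with the colour of the tie -/
structure OutA (D : Win) (p : Bool) (u : ℤ × ℤ) (c : Bool) : Prop where
  np : ¬ InP D p u.1 u.2
  nr : ¬ RG D p u.1 u.2
  col : natc D p u.1 u.2 = c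
  box : InB D u.1 u.2

/-- the four tiles at a tie -/
lemma CA.outer {k : Ix} (h : CA D p k) : ∃ u1 u2 : ℤ × ℤ,
    (∀ e, Tg k.2 e → e = lt (kt k) ∨ e = lt (rt k) ∨ e = lt u1 ∨ e = lt u2) ∧
    OutA D p u1 (decide ((k.2.1 + k.2.2) % 2 = 1)) ∧
    OutA D p u2 (decide ((k.2.1 + k.2.2) % 2 = 1)) := by
  obtain ⟨s, x, y⟩ := k
  have nb : ∀ {x0 y0 x1 y1 : ℤ}, RG D p x0 y0 → x0 - 2 ≤ x1 → x1 ≤ x0 + 2 → y0 - 2 ≤ y1 →
      y1 ≤ y0 + 2 → InB D x1 y1 := by
    intro x0 y0 x1 y1 h1 h2 h3 h4 h5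
    have := h1.near
    unfold InB
    omega
  cases s
  · obtain ⟨k1, k2, m1, m2, m3, m4⟩ := h
    have f := fun {x' y' : ℤ} (a : x' ≤ x) (b : y - 2 ≤ y') (c : y' ≤ y + 1) => far_L k1 k2 a b c
    have rg : RG D p x y :=
      ⟨k1.out.1, x + 1, y, by omega, by omega, by omega, by omega, k1.out.2⟩
    refine ⟨(x - 1, y), (x - 1, y - 1), ?_, ⟨f (by simp) (by simp) (by simp), ?_, m2,
      nb rg (by simp) (by simp only; omega) (by simp) (by simp)⟩,
      ⟨f (by simp) (by simp) (by simp only; omega), ?_, m4,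
      nb rg (by simp) (by simp only; omega) (by simp) (by simp only; omega)⟩⟩
    · intro e he
      unfold Tg at he
      simp only at he
      rcases he with he | he | he | he
      · have := (kr_L (x := x) (y := y) (t := (x, y))).2 (Or.inl rfl)
        rcases this with h | h
        · exact Or.inl (he.trans (congrArg lt h))
        · exact Or.inr (Or.inl (he.trans (congrArg lt h)))
      · exact Or.inr (Or.inr (Or.inl he))
      · have := (kr_L (x := x) (y := y) (t := (x, y - 1))).2 (Or.inr rfl)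
        rcases this with h | h
        · exact Or.inl (he.trans (congrArg lt h))
        · exact Or.inr (Or.inl (he.trans (congrArg lt h)))
      · exact Or.inr (Or.inr (Or.inr he))
    · rintro ⟨-, x', y', r1, r2, r3, r4, r5⟩
      simp only at r1 r2 r3 r4
      exact f (by omega) (by omega) (by omega) r5
    · rintro ⟨-, x', y', r1, r2, r3, r4, r5⟩
      simp only at r1 r2 r3 r4
      exact f (by omega) (by omega) (by omega) r5
  · obtain ⟨k1, k2, m1, m2, m3, m4⟩ := h
    have f := fun {x' y' : ℤ} (a : x - 1 ≤ x') (b : y - 2 ≤ y') (c : y' ≤ y + 1) =>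
      far_R k1 k2 a b c
    have rg : RG D p (x - 1) y :=
      ⟨k1.out.1, x - 1 - 1, y, by omega, by omega, by omega, by omega, k1.out.2⟩
    refine ⟨(x, y), (x, y - 1), ?_, ⟨f (by simp) (by simp) (by simp), ?_, m1,
      nb rg (by simp only; omega) (by simp only; omega) (by simp) (by simp)⟩,
      ⟨f (by simp) (by simp only; omega) (by simp only; omega), ?_, m3,
      nb rg (by simp only; omega) (by simp only; omega) (by simp) (by simp only; omega)⟩⟩
    · intro e he
      unfold Tg at he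
      simp only at he
      rcases he with he | he | he | he
      · exact Or.inr (Or.inr (Or.inl he))
      · have := (kr_R (x := x) (y := y) (t := (x - 1, y))).2 (Or.inl rfl)
        rcases this with h | h
        · exact Or.inl (he.trans (congrArg lt h))
        · exact Or.inr (Or.inl (he.trans (congrArg lt h)))
      · exact Or.inr (Or.inr (Or.inr he))
      · have := (kr_R (x := x) (y := y) (t := (x - 1, y - 1))).2 (Or.inr rfl)
        rcases this with h | h
        · exact Or.inl (he.trans (congrArg lt h))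
        · exact Or.inr (Or.inl (he.trans (congrArg lt h)))
    · rintro ⟨-, x', y', r1, r2, r3, r4, r5⟩
      simp only at r1 r2 r3 r4
      exact f (by omega) (by omega) (by omega) r5
    · rintro ⟨-, x', y', r1, r2, r3, r4, r5⟩
      simp only at r1 r2 r3 r4
      exact f (by omega) (by omega) (by omega) r5
  · obtain ⟨k1, k2, m1, m2, m3, m4⟩ := h
    have f := fun {x' y' : ℤ} (a : x - 2 ≤ x') (b : x' ≤ x + 1) (c : y' ≤ y) => far_F k1 k2 a b c
    have rg : RG D p x y :=
      ⟨k1.out.1, x, y + 1, by omega, by omega, by omega, by omega, k1.out.2⟩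
    refine ⟨(x, y - 1), (x - 1, y - 1), ?_, ⟨f (by simp) (by simp) (by simp), ?_, m3,
      nb rg (by simp) (by simp) (by simp) (by simp only; omega)⟩,
      ⟨f (by simp) (by simp only; omega) (by simp), ?_, m4,
      nb rg (by simp) (by simp only; omega) (by simp) (by simp only; omega)⟩⟩
    · intro e he
      unfold Tg at he
      simp only at he
      rcases he with he | he | he | he
      · have := (kr_F (x := x) (y := y) (t := (x, y))).2 (Or.inl rfl)
        rcases this with h | h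
        · exact Or.inl (he.trans (congrArg lt h))
        · exact Or.inr (Or.inl (he.trans (congrArg lt h)))
      · have := (kr_F (x := x) (y := y) (t := (x - 1, y))).2 (Or.inr rfl)
        rcases this with h | h
        · exact Or.inl (he.trans (congrArg lt h))
        · exact Or.inr (Or.inl (he.trans (congrArg lt h)))
      · exact Or.inr (Or.inr (Or.inl he))
      · exact Or.inr (Or.inr (Or.inr he))
    · rintro ⟨-, x', y', r1, r2, r3, r4, r5⟩
      simp only at r1 r2 r3 r4
      exact f (by omega) (by omega) (by omega) r5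
    · rintro ⟨-, x', y', r1, r2, r3, r4, r5⟩
      simp only at r1 r2 r3 r4
      exact f (by omega) (by omega) (by omega) r5
  · obtain ⟨k1, k2, m1, m2, m3, m4⟩ := h
    have f := fun {x' y' : ℤ} (a : x - 2 ≤ x') (b : x' ≤ x + 1) (c : y - 1 ≤ y') =>
      far_C k1 k2 a b c
    have rg : RG D p x (y - 1) :=
      ⟨k1.out.1, x, y - 1 - 1, by omega, by omega, by omega, by omega, k1.out.2⟩
    refine ⟨(x, y), (x - 1, y), ?_, ⟨f (by simp) (by simp) (by simp), ?_, m1,
      nb rg (by simp) (by simp) (by simp only; omega) (by simp only; omega)⟩,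
      ⟨f (by simp) (by simp only; omega) (by simp), ?_, m2,
      nb rg (by simp) (by simp only; omega) (by simp only; omega) (by simp only; omega)⟩⟩
    · intro e he
      unfold Tg at he
      simp only at he
      rcases he with he | he | he | he
      · exact Or.inr (Or.inr (Or.inl he))
      · exact Or.inr (Or.inr (Or.inr he))
      · have := (kr_C (x := x) (y := y) (t := (x, y - 1))).2 (Or.inl rfl)
        rcases this with h | h
        · exact Or.inl (he.trans (congrArg lt h))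
        · exact Or.inr (Or.inl (he.trans (congrArg lt h)))
      · have := (kr_C (x := x) (y := y) (t := (x - 1, y - 1))).2 (Or.inr rfl)
        rcases this with h | h
        · exact Or.inl (he.trans (congrArg lt h))
        · exact Or.inr (Or.inl (he.trans (congrArg lt h)))
    · rintro ⟨-, x', y', r1, r2, r3, r4, r5⟩
      simp only at r1 r2 r3 r4
      exact f (by omega) (by omega) (by omega) r5
    · rintro ⟨-, x', y', r1, r2, r3, r4, r5⟩
      simp only at r1 r2 r3 r4
      exact f (by omega) (by omega) (by omega) r5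

end Pool.Agent.H74.Win
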