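import Mathlib
import Pool.Agent.H74.Win.RingX
import Pool.Agent.H42.Sp.TieEnv

set_option autoImplicit false
open Finset

/-! # The tied natural environments of both arcs: sets, environments, merging

`XU O p S` : `P^p` and both tiles of all ties are random; `XA O p S` : the tied form. `tied_XA` : the
increments of `XA O p S` with the weights `q'` are those of `XU O p S` with the weights `q`, if
`q' (kt k) = mg (q (kt k)) (q (rt k))`. -/

namespace Pool.Agent.H74.Win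

open Pool.Agent.H75.Perc hiding ph
open Pool.Agent.H75.TwoArm Pool.Agent.Q1 Pool.Agent.H33.Q1
open Pool.Agent.H75.Four Pool.Agent.H69.Q1
open Pool.Agent.H74.R45 (exists_lt)
open Pool.Agent.H46.Sp (Win Out)
open Pool.Agent.H42.Sp (Sd Ix kt rt kt_odd rt_even kt_Tg rt_Tg cap_of OTp plab_at)
open Pool.Agent.H13.R45 (Tg ev gp Ag)
open Pool.Agent.H13.Q1 (Cap mg iW_ties)

variable {D : Win} {p : Bool} {x y : ℤ} {S : Finset (ℤ × ℤ)}

/-! ### Two ties do not share a tile -/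

/-- layer tiles of a given kind -/
def Ly (D : Win) (p : Bool) : Sd → ℤ → ℤ → Prop
  | .L => LyL D p
  | .R => LyR D p
  | .F => LyF D p
  | .C => LyC D p

lemma Ly_kind {s s' : Sd} (h : Ly D p s x y) (h' : Ly D p s' x y) : s = s' := by
  cases s <;> cases s' <;> unfold Ly at h h' <;> first
    | rfl
    | exact (not_LR h h').elim
    | exact (not_LR h' h).elim
    | exact (not_LF h h').elim
    | exact (not_LF h' h).elim
    | exact (not_LC h h').elim
    | exact (not_LC h' h).elim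
    | exact (not_RF h h').elim
    | exact (not_RF h' h).elim
    | exact (not_RC h h').elim
    | exact (not_RC h' h).elim
    | exact (not_FC h h').elim
    | exact (not_FC h' h).elim

/-- data of a tile of a tie -/
lemma CA.info {k : Ix} (h : CA D p k) {t : ℤ × ℤ} (ht : t = kt k ∨ t = rt k) :
    Ly D p k.1 t.1 t.2 ∧ natc D p t.1 t.2 = decide ((k.2.1 + k.2.2) % 2 = 1) ∧
    (match k.1 with
      | .L => k.2.1 = t.1 ∧ (k.2.2 = t.2 ∨ k.2.2 = t.2 + 1)
      | .R => k.2.1 = t.1 + 1 ∧ (k.2.2 = t.2 ∨ k.2.2 = t.2 + 1)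
      | .F => k.2.2 = t.2 ∧ (k.2.1 = t.1 ∨ k.2.1 = t.1 + 1)
      | .C => k.2.2 = t.2 + 1 ∧ (k.2.1 = t.1 ∨ k.2.1 = t.1 + 1)) := by
  obtain ⟨s, x, y⟩ := k
  cases s
  · obtain ⟨k1, k2, m1, m2, m3, m4⟩ := h
    rw [kr_L] at ht
    rcases ht with rfl | rfl
    · exact ⟨k1, m1, rfl, Or.inl rfl⟩
    · exact ⟨k2, m3, rfl, Or.inr (by simp)⟩
  · obtain ⟨k1, k2, m1, m2, m3, m4⟩ := h
    rw [kr_R] at ht
    rcases ht with rfl | rfl
    · exact ⟨k1, m2, by simp, Or.inl rfl⟩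
    · exact ⟨k2, m4, by simp, Or.inr (by simp)⟩
  · obtain ⟨k1, k2, m1, m2, m3, m4⟩ := h
    rw [kr_F] at ht
    rcases ht with rfl | rfl
    · exact ⟨k1, m1, rfl, Or.inl rfl⟩
    · exact ⟨k2, m2, rfl, Or.inr (by simp)⟩
  · obtain ⟨k1, k2, m1, m2, m3, m4⟩ := h
    rw [kr_C] at ht
    rcases ht with rfl | rfl
    · exact ⟨k1, m3, by simp, Or.inl rfl⟩
    · exact ⟨k2, m4, by simp, Or.inr (by simp)⟩

theorem CA_share {k l : Ix} (hk : CA D p k) (hl : CA D p l) {t : ℤ × ℤ} (h1 : t = kt k ∨ t = rt k)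
    (h2 : t = kt l ∨ t = rt l) : k = l := by
  obtain ⟨a1, a2, a3⟩ := hk.info h1
  obtain ⟨b1, b2, b3⟩ := hl.info h2
  have hs := Ly_kind a1 b1
  obtain ⟨s, x, y⟩ := k
  obtain ⟨s', x', y'⟩ := l
  simp only at hs a2 b2 a3 b3
  subst hs
  have hpar : (x + y) % 2 = (x' + y') % 2 := by
    have h3 := a2.symm.trans b2
    rw [decide_eq_decide] at h3
    omega
  cases s <;> simp only at a3 b3
  · have : x = x' ∧ y = y' := by omega
    rw [this.1, this.2]
  · have : x = x' ∧ y = y' := by omega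
    rw [this.1, this.2]
  · have : x = x' ∧ y = y' := by omega
    rw [this.1, this.2]
  · have : x = x' ∧ y = y' := by omega
    rw [this.1, this.2]

/-! ### The finite sets -/

lemma CA.box {k : Ix} (h : CA D p k) : D.a (D.yP - 1) - 4 ≤ k.2.1 ∧ k.2.1 ≤ D.b D.yQ + 3 ∧
    -4 ≤ k.2.2 ∧ k.2.2 ≤ D.h + 2 := by
  have h1 := (h.tt (Or.inl rfl)).rg.near
  obtain ⟨-, -, h2⟩ := h.info (t := kt k) (Or.inl rfl)
  obtain ⟨s, x, y⟩ := k
  cases s <;> simp only at h2 ⊢ <;> omega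

lemma mem_CAs {k : Ix} : k ∈ CAs D p ↔ CA D p k := by
  classical
  unfold CAs
  simp only [mem_filter, mem_product, mem_univ, mem_Icc, true_and]
  refine ⟨fun h => h.2, fun h => ⟨?_, h⟩⟩
  have := h.box
  omega

/-- tiles of `P^p` and of the ties -/
noncomputable def EU (D : Win) (p : Bool) : Finset (ℤ × ℤ) :=
  TB D fun x y => InP D p x y ∨ TT D p x y

/-- frozen tiles -/
noncomputable def FZ (D : Win) (p : Bool) : Finset (ℤ × ℤ) :=
  TB D fun x y => RG D p x y ∧ ¬ TT D p x y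

/-- natural open tiles outside of the ring -/
noncomputable def WF (D : Win) (p : Bool) : Finset (ℤ × ℤ) :=
  TB D fun x y => ¬ InP D p x y ∧ ¬ RG D p x y ∧ natc D p x y = true

/-- open labels, both tiles of the ties are random; `S` : frozen open tiles -/
noncomputable def WU (D : Win) (p : Bool) (S : Finset (ℤ × ℤ)) : Finset (ℤ × ℤ) := WF D p ∪ S

lemma mem_EU : lt (x, y) ∈ EU D p ↔ InP D p x y ∨ TT D p x y := by
  unfold EU
  rw [mem_TB]
  refine ⟨fun h => h.2, fun h => ⟨?_, h⟩⟩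
  rcases h with h | h
  · exact h.inB
  · exact h.rg.inB

lemma mem_FZ : lt (x, y) ∈ FZ D p ↔ RG D p x y ∧ ¬ TT D p x y := by
  unfold FZ
  rw [mem_TB]
  exact ⟨fun h => h.2, fun h => ⟨h.1.inB, h⟩⟩

lemma mem_WF : lt (x, y) ∈ WF D p ↔
    InB D x y ∧ ¬ InP D p x y ∧ ¬ RG D p x y ∧ natc D p x y = true := by
  unfold WF; exact mem_TB

lemma mem_WU : lt (x, y) ∈ WU D p S ↔
    (InB D x y ∧ ¬ InP D p x y ∧ ¬ RG D p x y ∧ natc D p x y = true) ∨ lt (x, y) ∈ S := by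
  unfold WU
  rw [mem_union, mem_WF]

lemma EN_sub_EU : EN D p ⊆ EU D p := by
  intro e he
  obtain ⟨x, y, rfl⟩ := exists_lt (odd_TB he)
  rw [mem_EU]
  exact Or.inl (mem_EN.1 he)

lemma EU_sub : EU D p ⊆ GB D := TB_sub
lemma FZ_sub : FZ D p ⊆ GB D := TB_sub
lemma WF_sub : WF D p ⊆ GB D := TB_sub

lemma WU_sub (hS : S ⊆ FZ D p) : WU D p S ⊆ GB D := union_subset WF_sub (hS.trans FZ_sub)

lemma disj_EF : Disjoint (EU D p) (FZ D p) := by
  rw [disjoint_left]
  intro e he hf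
  obtain ⟨x, y, rfl⟩ := exists_lt (odd_TB he)
  rw [mem_EU] at he
  rw [mem_FZ] at hf
  rcases he with h | h
  · exact hf.1.1 h
  · exact hf.2 h

lemma disj_U (hS : S ⊆ FZ D p) : Disjoint (EU D p) (WU D p S) := by
  unfold WU
  rw [disjoint_union_right]
  refine ⟨?_, disj_EF.mono_right hS⟩
  rw [disjoint_left]
  intro e he hf
  obtain ⟨x, y, rfl⟩ := exists_lt (odd_TB he)
  rw [mem_EU] at he
  rw [mem_WF] at hf
  rcases he with h | h
  · exact hf.2.1 h
  · exact hf.2.2.1 h.rg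

/-- outer tiles of a tie: neither random nor frozen, open iff the colour is wired -/
lemma OutA.spec {u : ℤ × ℤ} {c : Bool} (h : OutA D p u c) (O : OutB D) (hS : S ⊆ FZ D p) :
    lt u ∉ EU D p ∧ (lt u ∈ WU D p S ∪ O.Wo ↔ c = true) := by
  obtain ⟨x, y⟩ := u
  have h1 := h.np
  have h2 := h.nr
  have h3 := h.col
  have h4 := h.box
  simp only at h1 h2 h3 h4
  refine ⟨?_, ?_⟩
  · rw [mem_EU]
    rintro (h5 | h5)
    · exact h1 h5
    · exact h2 h5.rg
  · rw [mem_union, mem_WU]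
    constructor
    · rintro ((h5 | h5) | h5)
      · rw [← h3]; exact h5.2.2.2
      · exact absurd (mem_FZ.1 (hS h5)).1 h2
      · exact absurd h4 (O.far _ _ h5)
    · intro h5
      exact Or.inl (Or.inl ⟨h4, h1, h2, by rw [h3, h5]⟩)

/-- **All ties are caps** -/
theorem cap_CA (O : OutB D) (hS : S ⊆ FZ D p) {k : Ix} (hk : CA D p k) :
    Cap (EU D p) (WU D p S ∪ O.Wo) (ev k.2) (gp k.2) (lt (kt k)) (lt (rt k)) := by
  obtain ⟨u1, u2, hall, o1, o2⟩ := hk.outer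
  have s1 := o1.spec O hS
  have s2 := o2.spec O hS
  have m : ∀ {t : ℤ × ℤ}, (t = kt k ∨ t = rt k) → lt t ∈ EU D p := by
    intro t ht
    have := hk.tt ht
    obtain ⟨a, b⟩ := t
    exact mem_EU.2 (Or.inr this)
  refine cap_of (kt_Tg k) (rt_Tg k) (fun h => ?_) (m (Or.inl rfl)) (m (Or.inr rfl)) hall s1.1 s1.2 s2.1
    s2.2 ?_
  · have h1 := kt_odd k
    have h2 := rt_even k
    rw [h] at h1
    omega
  · simp

/-- the root corner is not at a tie -/
theorem noroot_CA (O : OutB D) {k : Ix} (hk : CA D p k) : ¬ Ag k.2 O.c0 := by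
  intro h
  apply O.hroot
  obtain ⟨u1, u2, hall, o1, o2⟩ := hk.outer
  have m : ∀ {t : ℤ × ℤ}, (t = kt k ∨ t = rt k) → lt t ∈ GB D := by
    intro t ht
    have := (hk.tt ht).rg.inB
    obtain ⟨a, b⟩ := t
    exact mem_GB.2 this
  rcases hall _ (plab_at h) with h1 | h1 | h1 | h1
  · rw [h1]; exact m (Or.inl rfl)
  · rw [h1]; exact m (Or.inr rfl)
  · rw [h1]; exact mem_GB.2 o1.box
  · rw [h1]; exact mem_GB.2 o2.box

/-! ### The environments -/

/-- `P^p` and both tiles of all ties are random -/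
noncomputable def XU (O : OutB D) (p : Bool) (S : Finset (ℤ × ℤ)) (hS : S ⊆ FZ D p) : Env :=
  XB O (EU D p) (WU D p S) EU_sub (WU_sub hS) (disj_U hS)

/-- random labels of the tied form -/
noncomputable def EA (D : Win) (p : Bool) : Finset (ℤ × ℤ) :=
  EU D p \ (CAs D p).image (fun k => lt (rt k))

/-- open labels of the tied form -/
noncomputable def WA (D : Win) (p : Bool) (S : Finset (ℤ × ℤ)) : Finset (ℤ × ℤ) :=
  WU D p S ∪ OTp (CAs D p)

lemma EA_sub : EA D p ⊆ EU D p := sdiff_subset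

lemma OTp_sub_EU : OTp (CAs D p) ⊆ EU D p := by
  intro e he
  unfold OTp at he
  obtain ⟨k, hk, rfl⟩ := mem_image.1 he
  have h := mem_CAs.1 (mem_filter.1 hk).1
  exact mem_EU.2 (Or.inr (h.tt (Or.inr rfl)))

lemma WA_sub (hS : S ⊆ FZ D p) : WA D p S ⊆ GB D :=
  union_subset (WU_sub hS) (OTp_sub_EU.trans EU_sub)

lemma disj_A (hS : S ⊆ FZ D p) : Disjoint (EA D p) (WA D p S) := by
  unfold WA
  rw [disjoint_union_right]
  refine ⟨(disj_U hS).mono_left EA_sub, ?_⟩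
  rw [disjoint_left]
  intro e he he'
  unfold EA at he
  unfold OTp at he'
  obtain ⟨k, hk, rfl⟩ := mem_image.1 he'
  exact (mem_sdiff.1 he).2 (mem_image_of_mem _ (mem_filter.1 hk).1)

/-- **The tied natural environment**, ties on all walls of both arcs, frozen open tiles `S` -/
noncomputable def XA (O : OutB D) (p : Bool) (S : Finset (ℤ × ℤ)) (hS : S ⊆ FZ D p) : Env :=
  XB O (EA D p) (WA D p S) (EA_sub.trans EU_sub) (WA_sub hS) (disj_A hS)

variable {O : OutB D} {hS : S ⊆ FZ D p}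

@[simp] lemma XU_E : (XU O p S hS).E = EU D p := rfl
@[simp] lemma XU_c0 : (XU O p S hS).c0 = O.c0 := rfl
@[simp] lemma XU_k0 : (XU O p S hS).k0 = O.k0 := rfl
@[simp] lemma XU_T : (XU O p S hS).T = 4 := rfl
@[simp] lemma XA_E : (XA O p S hS).E = EA D p := rfl
@[simp] lemma XA_c0 : (XA O p S hS).c0 = O.c0 := rfl
@[simp] lemma XA_k0 : (XA O p S hS).k0 = O.k0 := rfl
@[simp] lemma XA_T : (XA O p S hS).T = 4 := rfl

/-- the tied form, as sets -/
theorem iW_tied (hS : S ⊆ FZ D p) {q q' : ℤ × ℤ → ℂ} {z : ℤ × ℤ}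
    (hz : ∀ k, CA D p k → ¬ Ag k.2 z)
    (hq : ∀ k, CA D p k → q' (lt (kt k)) = mg (ev k.2) (q (lt (kt k))) (q (lt (rt k))))
    (hq' : ∀ e ∈ EU D p, (∀ k, CA D p k → e ≠ lt (kt k) ∧ e ≠ lt (rt k)) → q' e = q e) :
    Pool.Agent.H13.Q1.iW (EA D p) (WA D p S ∪ O.Wo) q' O.c0 O.k0 z =
      Pool.Agent.H13.Q1.iW (EU D p) (WU D p S ∪ O.Wo) q O.c0 O.k0 z := by
  have hset : WA D p S ∪ O.Wo = (WU D p S ∪ O.Wo) ∪ OTp (CAs D p) := by
    unfold WA
    ext e
    simp only [mem_union]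
    tauto
  rw [hset]
  unfold OTp EA
  exact iW_ties (CAs D p) (fun k => ev k.2) (fun k => gp k.2) (fun k => lt (kt k))
    (fun k => lt (rt k)) (fun k hk => cap_CA O hS (mem_CAs.1 hk)) (XB_disj O EU_sub (disj_U hS))
    (fun k hk l hl hne => ⟨fun h => hne (CA_share (mem_CAs.1 hk) (mem_CAs.1 hl) (Or.inl rfl)
        (Or.inl (lt_inj h))),
      fun h => by
        have e1 := kt_odd k
        have e2 := rt_even l
        rw [lt_inj h] at e1
        omega,
      fun h => hne (CA_share (mem_CAs.1 hk) (mem_CAs.1 hl) (Or.inr rfl) (Or.inr (lt_inj h)))⟩)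
    (fun k hk => noroot_CA O (mem_CAs.1 hk)) (fun k hk => hz k (mem_CAs.1 hk))
    (fun k hk => hq k (mem_CAs.1 hk)) (fun e he hn => hq' e he fun k hk => hn k (mem_CAs.2 hk))

/-- **Merging of all ties** -/
theorem tied_XA {q q' : ℤ × ℤ → ℂ} {z : ℤ × ℤ} (hz : ∀ k, CA D p k → ¬ Ag k.2 z)
    (hq : ∀ k, CA D p k → q' (lt (kt k)) = mg (ev k.2) (q (lt (kt k))) (q (lt (rt k))))
    (hq' : ∀ e ∈ EU D p, (∀ k, CA D p k → e ≠ lt (kt k) ∧ e ≠ lt (rt k)) → q' e = q e) :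
    (XA O p S hS).incW q' z = (XU O p S hS).incW q z := by
  unfold XA XU
  rw [XB_incW, XB_incW]
  exact iW_tied hS hz hq hq'

end Pool.Agent.H74.Win
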