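import Mathlib
import Pool.Agent.H74.Win.RingY

set_option autoImplicit false
open Finset

/-! # Membership in the tied form; the natural windows with some walls pushed out

`XO O p A S` : both tiles of the ties of `A` are random with the weight `1/2`, the tiles of the other
ties have their natural colour. `XO_XA` : these are the increments of `XA O p S` with the weight `1/4` on the
ties of `A` and `0` on the other ties. `qs D p s` : the weights of `XA`, `s k` on the tie `k` (kept label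
open with the weight `s k` at a vertex, `1 - s k` at a face), `1/2` on `P^p`. -/

namespace Pool.Agent.H74.Win

open Pool.Agent.H75.Perc hiding ph
open Pool.Agent.H75.TwoArm Pool.Agent.Q1 Pool.Agent.H33.Q1
open Pool.Agent.H75.Four hiding ev
open Pool.Agent.H69.Q1
open Pool.Agent.H74.R45 (exists_lt iW_det)
open Pool.Agent.H46.Sp (Win Out)
open Pool.Agent.H42.Sp (Sd Ix kt rt kt_odd rt_even kt_Tg rt_Tg cap_of OTp plab_at)
open Pool.Agent.H13.R45 (Tg ev gp Ag ev_true ev_false)
open Pool.Agent.H13.Q1 (Cap mg iW_ties)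

variable {D : Win} {p : Bool} {x y : ℤ} {S : Finset (ℤ × ℤ)} {A : Ix → Prop}

/-! ### Membership in the tied form -/

lemma kt_par {k : Ix} (h : (x, y) = kt k) : (x + y) % 2 = 1 := by
  have := kt_odd k
  rwa [← h] at this

lemma rt_par {k : Ix} (h : (x, y) = rt k) : (x + y) % 2 = 0 := by
  have := rt_even k
  rwa [← h] at this

lemma mem_EA : lt (x, y) ∈ EA D p ↔ InP D p x y ∨ (TT D p x y ∧ (x + y) % 2 = 1) := by
  unfold EA
  rw [mem_sdiff, mem_EU, mem_image]
  constructor
  · rintro ⟨h | ⟨k, hk, ht⟩, h2⟩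
    · exact Or.inl h
    · refine Or.inr ⟨⟨k, hk, ht⟩, ?_⟩
      rcases ht with ht | ht
      · exact kt_par ht
      · exact (h2 ⟨k, mem_CAs.2 hk, by rw [ht]⟩).elim
  · rintro (h | ⟨h, h2⟩)
    · refine ⟨Or.inl h, ?_⟩
      rintro ⟨k, hk, ht⟩
      have h1 : TT D p x y := ⟨k, mem_CAs.1 hk, Or.inr (lt_inj ht).symm⟩
      exact h1.rg.1 h
    · refine ⟨Or.inr h, ?_⟩
      rintro ⟨k, hk, ht⟩
      have := rt_par (lt_inj ht).symm
      omega

/-- the natural colour of the tiles of a tie -/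
lemma CA.natc {k : Ix} (h : CA D p k) (ht : (x, y) = kt k ∨ (x, y) = rt k) :
    natc D p x y = !(ev k.2) := by
  obtain ⟨-, h2, -⟩ := h.info ht
  simp only at h2
  rw [h2]
  unfold ev
  rcases Int.emod_two_eq_zero_or_one (k.2.1 + k.2.2) with e | e
  · rw [e]; simp
  · rw [e]; simp

lemma mem_OTp_CAs : lt (x, y) ∈ OTp (CAs D p) ↔
    TT D p x y ∧ (x + y) % 2 = 0 ∧ natc D p x y = false := by
  unfold OTp
  rw [mem_image]
  constructor
  · rintro ⟨k, hk, ht⟩
    have ht' := (lt_inj ht).symm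
    rw [mem_filter, mem_CAs] at hk
    refine ⟨⟨k, hk.1, Or.inr ht'⟩, rt_par ht', ?_⟩
    rw [hk.1.natc (Or.inr ht'), hk.2]
    rfl
  · rintro ⟨⟨k, hk, ht⟩, h2, h3⟩
    rcases ht with ht | ht
    · have := kt_par ht
      omega
    · refine ⟨k, mem_filter.2 ⟨mem_CAs.2 hk, ?_⟩, by rw [ht]⟩
      rw [hk.natc (Or.inr ht)] at h3
      simpa using h3

/-- open labels of the tied form -/
lemma mem_WA : lt (x, y) ∈ WA D p S ↔
    lt (x, y) ∈ WU D p S ∨ (TT D p x y ∧ (x + y) % 2 = 0 ∧ natc D p x y = false) := by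
  unfold WA
  rw [mem_union, mem_OTp_CAs]

/-! ### The weights -/

open Classical in
/-- the weights of the tied form, weight `s k` on the tie `k` -/
noncomputable def qs (D : Win) (p : Bool) (s : Ix → ℂ) (e : ℤ × ℤ) : ℂ :=
  if h : ∃ k, CA D p k ∧ e = lt (kt k) then
    (if ev h.choose.2 = true then s h.choose else 1 - s h.choose) else 1 / 2

lemma kt_inj' {k l : Ix} (hk : CA D p k) (hl : CA D p l) (h : kt k = kt l) : k = l :=
  CA_share hk hl (t := kt k) (Or.inl rfl) (Or.inl h)

lemma qs_kt {s : Ix → ℂ} {k : Ix} (hk : CA D p k) :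
    qs D p s (lt (kt k)) = if ev k.2 = true then s k else 1 - s k := by
  have h : ∃ l, CA D p l ∧ lt (kt k) = lt (kt l) := ⟨k, hk, rfl⟩
  unfold qs
  rw [dif_pos h]
  have h2 := h.choose_spec
  rw [← kt_inj' hk h2.1 (lt_inj h2.2)]

lemma qs_P {s : Ix → ℂ} (h : InP D p x y) : qs D p s (lt (x, y)) = 1 / 2 := by
  unfold qs
  rw [dif_neg]
  rintro ⟨k, hk, ht⟩
  have h1 : TT D p x y := ⟨k, hk, Or.inl (lt_inj ht)⟩
  exact h1.rg.1 h

/-! ### Natural windows, the walls of some ties pushed out -/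

/-- tiles of the ties of `A` -/
def TA (D : Win) (p : Bool) (A : Ix → Prop) (x y : ℤ) : Prop :=
  ∃ k, CA D p k ∧ A k ∧ ((x, y) = kt k ∨ (x, y) = rt k)

lemma TA.tt (h : TA D p A x y) : TT D p x y := by
  obtain ⟨k, h1, -, h3⟩ := h
  exact ⟨k, h1, h3⟩

lemma TA_tie {k : Ix} (hk : CA D p k) (ht : (x, y) = kt k ∨ (x, y) = rt k) : TA D p A x y ↔ A k := by
  constructor
  · rintro ⟨l, hl, hA, hl2⟩
    rw [CA_share hk hl ht hl2]; exact hA
  · exact fun h => ⟨k, hk, h, ht⟩

/-- random labels -/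
noncomputable def EO (D : Win) (p : Bool) (A : Ix → Prop) : Finset (ℤ × ℤ) :=
  TB D fun x y => InP D p x y ∨ TA D p A x y

/-- open labels: also the open tiles of the other ties -/
noncomputable def WO (D : Win) (p : Bool) (A : Ix → Prop) (S : Finset (ℤ × ℤ)) : Finset (ℤ × ℤ) :=
  WU D p S ∪ TB D fun x y => TT D p x y ∧ ¬ TA D p A x y ∧ natc D p x y = true

lemma mem_EO : lt (x, y) ∈ EO D p A ↔ InP D p x y ∨ TA D p A x y := by
  unfold EO
  rw [mem_TB]
  refine ⟨fun h => h.2, fun h => ⟨?_, h⟩⟩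
  rcases h with h | h
  · exact h.inB
  · exact h.tt.rg.inB

lemma mem_WO : lt (x, y) ∈ WO D p A S ↔
    lt (x, y) ∈ WU D p S ∨ (TT D p x y ∧ ¬ TA D p A x y ∧ natc D p x y = true) := by
  unfold WO
  rw [mem_union, mem_TB]
  constructor
  · rintro (h | h)
    · exact Or.inl h
    · exact Or.inr h.2
  · rintro (h | h)
    · exact Or.inl h
    · exact Or.inr ⟨h.1.rg.inB, h⟩

lemma EO_sub_EU : EO D p A ⊆ EU D p := by
  intro e he
  obtain ⟨x, y, rfl⟩ := exists_lt (odd_TB he)
  rw [mem_EU]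
  rw [mem_EO] at he
  rcases he with h | h
  · exact Or.inl h
  · exact Or.inr h.tt

lemma EN_sub_EO : EN D p ⊆ EO D p A := by
  intro e he
  obtain ⟨x, y, rfl⟩ := exists_lt (odd_TB he)
  rw [mem_EO]
  exact Or.inl (mem_EN.1 he)

lemma WO_sub (hS : S ⊆ FZ D p) : WO D p A S ⊆ GB D := union_subset (WU_sub hS) TB_sub

lemma disj_O (hS : S ⊆ FZ D p) : Disjoint (EO D p A) (WO D p A S) := by
  unfold WO
  rw [disjoint_union_right]
  refine ⟨(disj_U hS).mono_left EO_sub_EU, ?_⟩
  rw [disjoint_left]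
  intro e he hf
  obtain ⟨x, y, rfl⟩ := exists_lt (odd_TB he)
  rw [mem_EO] at he
  rw [mem_TB] at hf
  rcases he with h | h
  · exact hf.2.1.rg.1 h
  · exact hf.2.2.1 h

/-- **Natural windows** with the ties of `A` pushed out, frozen open tiles `S` -/
noncomputable def XO (O : OutB D) (p : Bool) (A : Ix → Prop) (S : Finset (ℤ × ℤ)) (hS : S ⊆ FZ D p) :
    Env :=
  XB O (EO D p A) (WO D p A S) (EO_sub_EU.trans EU_sub) (WO_sub hS) (disj_O hS)

variable {O : OutB D} {hS : S ⊆ FZ D p}

@[simp] lemma XO_E : (XO O p A S hS).E = EO D p A := rfl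
@[simp] lemma XO_c0 : (XO O p A S hS).c0 = O.c0 := rfl
@[simp] lemma XO_k0 : (XO O p A S hS).k0 = O.k0 := rfl
@[simp] lemma XO_T : (XO O p A S hS).T = 4 := rfl

open Classical in
/-- weights of the ties: `1/4` on `A` -/
noncomputable def sA (A : Ix → Prop) (k : Ix) : ℂ := if A k then 1 / 4 else 0

/-- the sets of `XO` from the sets of `XU` -/
lemma WO_eq (O : OutB D) (hS : S ⊆ FZ D p) {P : ℤ × ℤ → Prop} [DecidablePred P]
    (hP : ∀ e, P e ↔ e ∈ WO D p A S) :
    (WU D p S ∪ O.Wo) ∪ (EU D p \ EO D p A).filter P = WO D p A S ∪ O.Wo := by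
  ext e
  simp only [mem_union, mem_filter, mem_sdiff, hP]
  constructor
  · rintro ((h | h) | h)
    · exact Or.inl (mem_union_left _ h)
    · exact Or.inr h
    · exact Or.inl h.2
  · rintro (h | h)
    · by_cases h2 : e ∈ WU D p S
      · exact Or.inl (Or.inl h2)
      · right
        obtain ⟨x, y, rfl⟩ := exists_lt (odd_GB (WO_sub hS h))
        have h' := h
        rw [mem_WO] at h
        rcases h with h | h
        · exact absurd h h2
        · refine ⟨⟨mem_EU.2 (Or.inr h.1), ?_⟩, h'⟩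
          rw [mem_EO]
          rintro (h3 | h3)
          · exact h.1.rg.1 h3
          · exact h.2.1 h3
    · exact Or.inl (Or.inr h)

/-- **The natural windows in the tied form** -/
theorem XO_XA {z : ℤ × ℤ} (hz : ∀ k, CA D p k → ¬ Ag k.2 z) :
    (XO O p A S hS).inc z = (XA O p S hS).incW (qs D p (sA A)) z := by
  classical
  set q : ℤ × ℤ → ℂ := fun e => if e ∈ EO D p A then 1 / 2 else if e ∈ WO D p A S then 1 else 0 with hq
  have e1 : (XA O p S hS).incW (qs D p (sA A)) z = (XU O p S hS).incW q z := by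
    refine tied_XA hz (fun k hk => ?_) (fun e he hn => ?_)
    · rw [qs_kt hk]
      have val : ∀ t : ℤ × ℤ, (t = kt k ∨ t = rt k) → q (lt t) =
          if A k then 1 / 2 else if ev k.2 = true then 0 else 1 := by
        rintro ⟨x, y⟩ ht
        have hT : TT D p x y := ⟨k, hk, ht⟩
        have hO : lt (x, y) ∈ EO D p A ↔ A k := by
          rw [mem_EO, TA_tie hk ht]
          exact ⟨fun h => h.resolve_left hT.rg.1, Or.inr⟩
        have hnU : lt (x, y) ∉ WU D p S := fun h =>
          (disjoint_left.1 (disj_U hS)) (mem_EU.2 (Or.inr hT)) h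
        have hW : lt (x, y) ∈ WO D p A S ↔ (¬ A k ∧ ev k.2 = false) := by
          rw [mem_WO, TA_tie hk ht, hk.natc ht]
          constructor
          · rintro (h | h)
            · exact absurd h hnU
            · exact ⟨h.2.1, by simpa using h.2.2⟩
          · rintro ⟨h1, h2⟩
            exact Or.inr ⟨hT, h1, by rw [h2]; rfl⟩
        simp only [hq]
        by_cases hA : A k
        · rw [if_pos (hO.2 hA), if_pos hA]
        · rw [if_neg (fun h => hA (hO.1 h)), if_neg hA]
          cases hev : ev k.2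
          · rw [if_pos (hW.2 ⟨hA, hev⟩)]; simp
          · rw [if_neg (fun h => by have := (hW.1 h).2; rw [hev] at this; simp at this)]; simp
      rw [val _ (Or.inl rfl), val _ (Or.inr rfl)]
      unfold sA mg
      by_cases hA : A k
      · simp only [if_pos hA]
        split_ifs <;> norm_num
      · simp only [if_neg hA]
        split_ifs <;> norm_num
    · obtain ⟨x, y, rfl⟩ := exists_lt (odd_TB he)
      have hnT : ¬ TT D p x y := by
        rintro ⟨k, hk, ht⟩
        rcases ht with ht | ht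
        · exact (hn k hk).1 (by rw [ht])
        · exact (hn k hk).2 (by rw [ht])
      have hP : InP D p x y := (mem_EU.1 he).resolve_right hnT
      rw [qs_P hP]
      simp only [hq]
      rw [if_pos (mem_EO.2 (Or.inl hP))]
  rw [e1, inc_eq_incW]
  unfold XO XU
  rw [XB_incW, XB_incW, iW_det (D := EU D p \ EO D p A) (p := fun e => e ∈ WO D p A S) sdiff_subset
    (q := q) (fun e he => ?_), WO_eq O hS (fun _ => Iff.rfl), Finset.sdiff_sdiff_eq_self EO_sub_EU]
  · unfold Pool.Agent.H13.Q1.iW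
    refine Ec_congr_q (fun e he => ?_) _
    simp only [hq]
    rw [if_pos he]
  · simp only [hq]
    rw [if_neg (mem_sdiff.1 he).2]

end Pool.Agent.H74.Win
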