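import Mathlib
import Pool.Agent.H74.Win.RingZ

set_option autoImplicit false
open Finset

/-! # Flat places of a window

Coordinates of `P`: a tile `(x, Y)` of `P` is the tile `(x, Y - sh p)` of `P^p`. `KL`, `KR`, `KF`, `KC`, `KFL`,
`KFR`, `KCL`, `KCR` : in the `11 × 11` neighbourhood of the tile the boundary of `P` is one straight line: left
or right side, bottom, top, floor ledge on the left or right, ceiling ledge on the left or right, with one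
colour. `KI`, `KO` : the neighbourhood is inside or outside of `P`. `flat_col` : at a flat boundary tile all
tiles outside of `P` at distance at most `3` have the same natural colour, the same one in both worlds. -/

namespace Pool.Agent.H74.Win

open Pool.Agent.H46.Sp (Win)
open Pool.Agent.H46.Sp.Win (m_lo m_hi M_lo M_hi)

variable {D : Win} {p : Bool} {x y x' Y Y' Y0 : ℤ}

/-- tiles of `P` -/
def PT (D : Win) (x Y : ℤ) : Prop := 0 ≤ Y ∧ Y < D.h ∧ D.a Y ≤ x ∧ x < D.b Y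

/-- left side -/
structure KL (D : Win) (x Y : ℤ) : Prop where
  lo : 5 ≤ Y
  hi : Y + 5 < D.h
  x1 : D.a Y ≤ x + 5
  x2 : x ≤ D.a Y + 5
  row : ∀ Z, Y - 5 ≤ Z → Z ≤ Y + 5 → D.a Z = D.a Y ∧ x + 5 < D.b Z
  col : ∀ Z, Y - 5 ≤ Z → Z ≤ Y + 4 → D.cl Z = D.cl Y

/-- right side -/
structure KR (D : Win) (x Y : ℤ) : Prop where
  lo : 5 ≤ Y
  hi : Y + 5 < D.h
  x1 : D.b Y ≤ x + 5
  x2 : x ≤ D.b Y + 5
  row : ∀ Z, Y - 5 ≤ Z → Z ≤ Y + 5 → D.b Z = D.b Y ∧ D.a Z + 5 < x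
  col : ∀ Z, Y - 5 ≤ Z → Z ≤ Y + 4 → D.cr Z = D.cr Y

/-- bottom -/
structure KF (D : Win) (x Y : ℤ) : Prop where
  lo : -5 ≤ Y
  hi : Y ≤ 5
  hh : Y + 5 < D.h
  row : ∀ Z, 0 ≤ Z → Z ≤ Y + 5 → D.a Z + 5 < x ∧ x + 5 < D.b Z

/-- top -/
structure KC (D : Win) (x Y : ℤ) : Prop where
  lo : D.h ≤ Y + 5
  hi : Y < D.h + 5
  hh : 5 ≤ Y
  row : ∀ Z, Y - 5 ≤ Z → Z < D.h → D.a Z + 5 < x ∧ x + 5 < D.b Z

/-- floor ledge at the height `Y0`, outside on the left -/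
structure KFL (D : Win) (x Y Y0 : ℤ) : Prop where
  lo : 5 ≤ Y
  hi : Y + 5 < D.h
  y1 : Y0 ≤ Y + 5
  y2 : Y < Y0 + 5
  up : ∀ Z, Y0 ≤ Z → Z ≤ Y + 5 → Y - 5 ≤ Z → D.a Z + 5 < x ∧ x + 5 < D.b Z
  dn : ∀ Z, Y - 5 ≤ Z → Z < Y0 → x + 5 < D.a Z
  col : ∀ Z, Y - 5 ≤ Z → Z + 2 ≤ Y0 → D.cl Z = D.cl (Y0 - 2)

/-- floor ledge at the height `Y0`, outside on the right -/
structure KFR (D : Win) (x Y Y0 : ℤ) : Prop where
  lo : 5 ≤ Y
  hi : Y + 5 < D.h
  y1 : Y0 ≤ Y + 5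
  y2 : Y < Y0 + 5
  up : ∀ Z, Y0 ≤ Z → Z ≤ Y + 5 → Y - 5 ≤ Z → D.a Z + 5 < x ∧ x + 5 < D.b Z
  dn : ∀ Z, Y - 5 ≤ Z → Z < Y0 → D.b Z + 5 < x
  col : ∀ Z, Y - 5 ≤ Z → Z + 2 ≤ Y0 → D.cr Z = D.cr (Y0 - 2)

/-- ceiling ledge at the height `Y0`, outside on the left -/
structure KCL (D : Win) (x Y Y0 : ℤ) : Prop where
  lo : 5 ≤ Y
  hi : Y + 5 < D.h
  y1 : Y0 ≤ Y + 5
  y2 : Y < Y0 + 5
  dn : ∀ Z, Y - 5 ≤ Z → Z < Y0 → Z ≤ Y + 5 → D.a Z + 5 < x ∧ x + 5 < D.b Z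
  up : ∀ Z, Y0 ≤ Z → Z ≤ Y + 5 → x + 5 < D.a Z
  col : ∀ Z, Y0 ≤ Z → Z ≤ Y + 5 → D.cl Z = D.cl Y0

/-- ceiling ledge at the height `Y0`, outside on the right -/
structure KCR (D : Win) (x Y Y0 : ℤ) : Prop where
  lo : 5 ≤ Y
  hi : Y + 5 < D.h
  y1 : Y0 ≤ Y + 5
  y2 : Y < Y0 + 5
  dn : ∀ Z, Y - 5 ≤ Z → Z < Y0 → Z ≤ Y + 5 → D.a Z + 5 < x ∧ x + 5 < D.b Z
  up : ∀ Z, Y0 ≤ Z → Z ≤ Y + 5 → D.b Z + 5 < x
  col : ∀ Z, Y0 ≤ Z → Z ≤ Y + 5 → D.cr Z = D.cr Y0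

/-- inside -/
def KI (D : Win) (x Y : ℤ) : Prop :=
  ∀ Z, Y - 5 ≤ Z → Z ≤ Y + 5 → 0 ≤ Z ∧ Z < D.h ∧ D.a Z + 5 ≤ x ∧ x + 5 < D.b Z

/-- outside -/
def KO (D : Win) (x Y : ℤ) : Prop :=
  ∀ Z, Y - 5 ≤ Z → Z ≤ Y + 5 → 0 ≤ Z → Z < D.h → x + 5 < D.a Z ∨ D.b Z + 5 ≤ x

/-- flat boundary tiles -/
def FlatB (D : Win) (x Y : ℤ) : Prop :=
  KL D x Y ∨ KR D x Y ∨ KF D x Y ∨ KC D x Y ∨ (∃ Y0, KFL D x Y Y0) ∨ (∃ Y0, KFR D x Y Y0) ∨
    (∃ Y0, KCL D x Y Y0) ∨ (∃ Y0, KCR D x Y Y0)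

/-- flat tiles -/
def Flat (D : Win) (x Y : ℤ) : Prop := FlatB D x Y ∨ KI D x Y ∨ KO D x Y

/-! ### The natural colours at flat places -/

lemma natc_f : natc D false x Y = if Y < -1 then D.cb else if D.h ≤ Y then D.ct
    else if x < D.m Y then D.cl Y else if D.M Y ≤ x then D.cr Y
    else if Y = -1 then D.cb else if x < D.a Y then D.cl (Y - 1) else D.cr (Y - 1) := by
  unfold natc
  simp only [Bool.false_eq_true, if_false]

lemma natc_t : natc D true x (Y - 1) = if Y - 1 < -1 then D.cb else if D.h ≤ Y - 1 then D.ct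
    else if x < D.m (Y - 1) then D.cl (Y - 1) else if D.M (Y - 1) ≤ x then D.cr (Y - 1)
    else if Y - 1 = D.h - 1 then D.ct else if x < D.a Y then D.cl Y else D.cr Y := by
  unfold natc
  simp only [if_true, sub_add_cancel]

lemma m_f (D : Win) (Y : ℤ) : (Y + 1 < D.yP ∧ D.m Y = D.a (Y + 1)) ∨ (D.yP ≤ Y + 1 ∧ D.m Y = D.a Y) := by
  rcases lt_or_ge (Y + 1) D.yP with h | h
  · exact Or.inl ⟨h, m_lo h⟩
  · exact Or.inr ⟨h, m_hi h⟩

lemma m_t (D : Win) (Y : ℤ) : (Y < D.yP ∧ D.m (Y - 1) = D.a Y) ∨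
    (D.yP ≤ Y ∧ D.m (Y - 1) = D.a (Y - 1)) := by
  have := m_f D (Y - 1)
  rwa [sub_add_cancel] at this

lemma M_f (D : Win) (Y : ℤ) : (Y < D.yQ ∧ D.M Y = D.b (Y + 1)) ∨ (D.yQ ≤ Y ∧ D.M Y = D.b Y) := by
  rcases lt_or_ge Y D.yQ with h | h
  · exact Or.inl ⟨h, M_lo h⟩
  · exact Or.inr ⟨h, M_hi h⟩

lemma M_t (D : Win) (Y : ℤ) : (Y - 1 < D.yQ ∧ D.M (Y - 1) = D.b Y) ∨
    (D.yQ ≤ Y - 1 ∧ D.M (Y - 1) = D.b (Y - 1)) := by
  have := M_f D (Y - 1)
  rwa [sub_add_cancel] at this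

lemma sh_cases' (p : Bool) (x Y : ℤ) : natc D p x (Y - sh p) = natc D false x Y ∨
    natc D p x (Y - sh p) = natc D true x (Y - 1) := by
  cases p
  · left; rw [sh_false, sub_zero]
  · right; rw [sh_true]

lemma col_KL (h : KL D x Y) (h1 : x ≤ x' + 3) (h2 : x' ≤ x + 3) (h3 : Y ≤ Y' + 3) (h4 : Y' ≤ Y + 3)
    (hn : ¬ PT D x' Y') : natc D p x' (Y' - sh p) = D.cl Y := by
  obtain ⟨lo, hi, x1, x2, row, col⟩ := h
  have r0 := row (Y' - 1) (by omega) (by omega)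
  have r1 := row Y' (by omega) (by omega)
  have r2 := row (Y' + 1) (by omega) (by omega)
  unfold PT at hn
  rcases sh_cases' (D := D) p x' Y' with h | h <;> rw [h]
  · rw [natc_f]
    have e1 := m_f D Y'
    have e2 := M_f D Y'
    split_ifs <;> first
      | (exfalso; omega)
      | exact col _ (by omega) (by omega)
  · rw [natc_t]
    have e1 := m_t D Y'
    have e2 := M_t D Y'
    split_ifs <;> first
      | (exfalso; omega)
      | exact col _ (by omega) (by omega)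

lemma col_KR (h : KR D x Y) (h1 : x ≤ x' + 3) (h2 : x' ≤ x + 3) (h3 : Y ≤ Y' + 3) (h4 : Y' ≤ Y + 3)
    (hn : ¬ PT D x' Y') : natc D p x' (Y' - sh p) = D.cr Y := by
  obtain ⟨lo, hi, x1, x2, row, col⟩ := h
  have r0 := row (Y' - 1) (by omega) (by omega)
  have r1 := row Y' (by omega) (by omega)
  have r2 := row (Y' + 1) (by omega) (by omega)
  unfold PT at hn
  rcases sh_cases' (D := D) p x' Y' with h | h <;> rw [h]
  · rw [natc_f]
    have e1 := m_f D Y'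
    have e2 := M_f D Y'
    split_ifs <;> first
      | (exfalso; omega)
      | exact col _ (by omega) (by omega)
  · rw [natc_t]
    have e1 := m_t D Y'
    have e2 := M_t D Y'
    split_ifs <;> first
      | (exfalso; omega)
      | exact col _ (by omega) (by omega)

lemma col_KF (h : KF D x Y) (h1 : x ≤ x' + 3) (h2 : x' ≤ x + 3) (h3 : Y ≤ Y' + 3) (h4 : Y' ≤ Y + 3)
    (hn : ¬ PT D x' Y') : natc D p x' (Y' - sh p) = D.cb := by
  have hP := D.P0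
  have hQ := D.Q0
  obtain ⟨lo, hi, hh, row⟩ := h
  have r0 := row 0 le_rfl (by omega)
  have r1 := row Y'
  unfold PT at hn
  rcases sh_cases' (D := D) p x' Y' with h | h <;> rw [h]
  · rw [natc_f]
    rcases eq_or_ne Y' (-1) with rfl | hne
    · have e1 := m_f D (-1)
      have e2 := M_f D (-1)
      rw [neg_add_cancel] at e1 e2
      split_ifs <;> first
        | (exfalso; omega)
        | rfl
    · split_ifs <;> first
        | (exfalso; omega)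
        | rfl
  · rw [natc_t]
    split_ifs <;> first
      | (exfalso; omega)
      | rfl

lemma col_KC (h : KC D x Y) (h1 : x ≤ x' + 3) (h2 : x' ≤ x + 3) (h3 : Y ≤ Y' + 3) (h4 : Y' ≤ Y + 3)
    (hn : ¬ PT D x' Y') : natc D p x' (Y' - sh p) = D.ct := by
  have hP := D.P1
  have hQ := D.Q1
  obtain ⟨lo, hi, hh, row⟩ := h
  have r0 := row (D.h - 1)
  have r1 := row Y'
  unfold PT at hn
  rcases sh_cases' (D := D) p x' Y' with h | h <;> rw [h]
  · rw [natc_f]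
    split_ifs <;> first
      | (exfalso; omega)
      | rfl
  · rw [natc_t]
    rcases eq_or_ne Y' D.h with hY | hne
    · subst hY
      have e1 := m_t D D.h
      have e2 := M_t D D.h
      split_ifs <;> first
        | (exfalso; omega)
        | rfl
    · split_ifs <;> first
        | (exfalso; omega)
        | rfl

lemma KFL.hP (h : KFL D x Y Y0) : Y0 < D.yP := by
  obtain ⟨lo, hi, y1, y2, up, dn, -⟩ := h
  have r1 := dn (Y0 - 1) (by omega) (by omega)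
  by_cases c : Y - 5 ≤ Y0
  · have r2 := up Y0 le_rfl y1 c
    have := a_drop (D := D) (y := Y0 - 1) (by omega) (by omega) (by rw [sub_add_cancel]; omega)
    omega
  · omega

lemma KFR.hQ (h : KFR D x Y Y0) : Y0 ≤ D.yQ := by
  obtain ⟨lo, hi, y1, y2, up, dn, -⟩ := h
  have r1 := dn (Y0 - 1) (by omega) (by omega)
  have r2 := up Y0 le_rfl y1 (by omega)
  have := b_rise (D := D) (y := Y0 - 1) (by omega) (by rw [sub_add_cancel]; omega)
  omega

lemma KCL.hP (h : KCL D x Y Y0) : D.yP ≤ Y0 := by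
  obtain ⟨lo, hi, y1, y2, dn, up, -⟩ := h
  have r1 := dn (Y0 - 1) (by omega) (by omega) (by omega)
  have r2 := up Y0 le_rfl y1
  have := a_rise (D := D) (y := Y0 - 1) (by omega) (by rw [sub_add_cancel]; omega)
  omega

lemma KCR.hQ (h : KCR D x Y Y0) : D.yQ < Y0 := by
  obtain ⟨lo, hi, y1, y2, dn, up, -⟩ := h
  have r1 := dn (Y0 - 1) (by omega) (by omega) (by omega)
  have r2 := up Y0 le_rfl y1
  have := b_drop (D := D) (y := Y0 - 1) (by omega) (by rw [sub_add_cancel]; omega)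
  omega

lemma col_KFL (h : KFL D x Y Y0) (h1 : x ≤ x' + 3) (h2 : x' ≤ x + 3) (h3 : Y ≤ Y' + 3)
    (h4 : Y' ≤ Y + 3) (hn : ¬ PT D x' Y') : natc D p x' (Y' - sh p) = D.cl (Y0 - 2) := by
  have hP := h.hP
  obtain ⟨lo, hi, y1, y2, up, dn, col⟩ := h
  have u0 := up (Y' - 1)
  have u1 := up Y'
  have u2 := up (Y' + 1)
  have d0 := dn (Y' - 1)
  have d1 := dn Y'
  have d2 := dn (Y' + 1)
  have b0 := D.ab (Y' - 1) (by omega) (by omega)
  have b1 := D.ab Y' (by omega) (by omega)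
  have b2 := D.ab (Y' + 1) (by omega) (by omega)
  unfold PT at hn
  rcases sh_cases' (D := D) p x' Y' with h | h <;> rw [h]
  · rw [natc_f]
    have e1 := m_f D Y'
    have e2 := M_f D Y'
    split_ifs <;> first
      | (exfalso; omega)
      | exact col _ (by omega) (by omega)
  · rw [natc_t]
    have e1 := m_t D Y'
    have e2 := M_t D Y'
    split_ifs <;> first
      | (exfalso; omega)
      | exact col _ (by omega) (by omega)

lemma col_KFR (h : KFR D x Y Y0) (h1 : x ≤ x' + 3) (h2 : x' ≤ x + 3) (h3 : Y ≤ Y' + 3)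
    (h4 : Y' ≤ Y + 3) (hn : ¬ PT D x' Y') : natc D p x' (Y' - sh p) = D.cr (Y0 - 2) := by
  have hQ := h.hQ
  obtain ⟨lo, hi, y1, y2, up, dn, col⟩ := h
  have u0 := up (Y' - 1)
  have u1 := up Y'
  have u2 := up (Y' + 1)
  have d0 := dn (Y' - 1)
  have d1 := dn Y'
  have d2 := dn (Y' + 1)
  have b0 := D.ab (Y' - 1) (by omega) (by omega)
  have b1 := D.ab Y' (by omega) (by omega)
  have b2 := D.ab (Y' + 1) (by omega) (by omega)
  unfold PT at hn
  rcases sh_cases' (D := D) p x' Y' with h | h <;> rw [h]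
  · rw [natc_f]
    have e1 := m_f D Y'
    have e2 := M_f D Y'
    split_ifs <;> first
      | (exfalso; omega)
      | exact col _ (by omega) (by omega)
  · rw [natc_t]
    have e1 := m_t D Y'
    have e2 := M_t D Y'
    split_ifs <;> first
      | (exfalso; omega)
      | exact col _ (by omega) (by omega)

lemma col_KCL (h : KCL D x Y Y0) (h1 : x ≤ x' + 3) (h2 : x' ≤ x + 3) (h3 : Y ≤ Y' + 3)
    (h4 : Y' ≤ Y + 3) (hn : ¬ PT D x' Y') : natc D p x' (Y' - sh p) = D.cl Y0 := by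
  have hP := h.hP
  obtain ⟨lo, hi, y1, y2, dn, up, col⟩ := h
  have u0 := up (Y' - 1)
  have u1 := up Y'
  have u2 := up (Y' + 1)
  have d0 := dn (Y' - 1)
  have d1 := dn Y'
  have d2 := dn (Y' + 1)
  have b0 := D.ab (Y' - 1) (by omega) (by omega)
  have b1 := D.ab Y' (by omega) (by omega)
  have b2 := D.ab (Y' + 1) (by omega) (by omega)
  unfold PT at hn
  rcases sh_cases' (D := D) p x' Y' with h | h <;> rw [h]
  · rw [natc_f]
    have e1 := m_f D Y'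
    have e2 := M_f D Y'
    split_ifs <;> first
      | (exfalso; omega)
      | exact col _ (by omega) (by omega)
  · rw [natc_t]
    have e1 := m_t D Y'
    have e2 := M_t D Y'
    split_ifs <;> first
      | (exfalso; omega)
      | exact col _ (by omega) (by omega)

lemma col_KCR (h : KCR D x Y Y0) (h1 : x ≤ x' + 3) (h2 : x' ≤ x + 3) (h3 : Y ≤ Y' + 3)
    (h4 : Y' ≤ Y + 3) (hn : ¬ PT D x' Y') : natc D p x' (Y' - sh p) = D.cr Y0 := by
  have hQ := h.hQ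
  obtain ⟨lo, hi, y1, y2, dn, up, col⟩ := h
  have u0 := up (Y' - 1)
  have u1 := up Y'
  have u2 := up (Y' + 1)
  have d0 := dn (Y' - 1)
  have d1 := dn Y'
  have d2 := dn (Y' + 1)
  have b0 := D.ab (Y' - 1) (by omega) (by omega)
  have b1 := D.ab Y' (by omega) (by omega)
  have b2 := D.ab (Y' + 1) (by omega) (by omega)
  unfold PT at hn
  rcases sh_cases' (D := D) p x' Y' with h | h <;> rw [h]
  · rw [natc_f]
    have e1 := m_f D Y'
    have e2 := M_f D Y'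
    split_ifs <;> first
      | (exfalso; omega)
      | exact col _ (by omega) (by omega)
  · rw [natc_t]
    have e1 := m_t D Y'
    have e2 := M_t D Y'
    split_ifs <;> first
      | (exfalso; omega)
      | exact col _ (by omega) (by omega)

/-- **One natural colour** outside of `P` near a flat boundary tile, the same one in both worlds -/
theorem flat_col (h : FlatB D x Y) : ∃ c : Bool, ∀ (p : Bool) (x' Y' : ℤ), x ≤ x' + 3 → x' ≤ x + 3 →
    Y ≤ Y' + 3 → Y' ≤ Y + 3 → ¬ PT D x' Y' → natc D p x' (Y' - sh p) = c := by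
  rcases h with h | h | h | h | ⟨Y0, h⟩ | ⟨Y0, h⟩ | ⟨Y0, h⟩ | ⟨Y0, h⟩
  · exact ⟨_, fun p x' Y' h1 h2 h3 h4 hn => col_KL h h1 h2 h3 h4 hn⟩
  · exact ⟨_, fun p x' Y' h1 h2 h3 h4 hn => col_KR h h1 h2 h3 h4 hn⟩
  · exact ⟨_, fun p x' Y' h1 h2 h3 h4 hn => col_KF h h1 h2 h3 h4 hn⟩
  · exact ⟨_, fun p x' Y' h1 h2 h3 h4 hn => col_KC h h1 h2 h3 h4 hn⟩
  · exact ⟨_, fun p x' Y' h1 h2 h3 h4 hn => col_KFL h h1 h2 h3 h4 hn⟩
  · exact ⟨_, fun p x' Y' h1 h2 h3 h4 hn => col_KFR h h1 h2 h3 h4 hn⟩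
  · exact ⟨_, fun p x' Y' h1 h2 h3 h4 hn => col_KCL h h1 h2 h3 h4 hn⟩
  · exact ⟨_, fun p x' Y' h1 h2 h3 h4 hn => col_KCR h h1 h2 h3 h4 hn⟩

end Pool.Agent.H74.Win
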