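import Mathlib
import Pool.Agent.H74.Win.Flat
import Pool.Agent.H31.Sp.Coarse

set_option autoImplicit false
open Finset

/-! # Scaled polyominoes are flat away from their corners

`CorL H A X K`, `CorR` : the lattice point `(X, K)` is a corner of the polyomino on its left (right) boundary,
or at its bottom or top. `flat_or` : if the side `n` of the cells is at least `30`, then every tile is flat or
within distance `8` of a corner `(n X, n K)`. -/

namespace Pool.Agent.H74.Win

open Pool.Agent.H46.Sp (Win)
open Pool.Agent.H46.Sp.Win (m_lo m_hi M_lo M_hi)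
open Pool.Agent.H31.Sp (Coarse CoarseC)

/-- corners of the polyomino on the left boundary -/
def CorL (H : ℤ) (A : ℤ → ℤ) (X K : ℤ) : Prop :=
  0 ≤ K ∧ K ≤ H ∧ ((X = A K ∧ K < H) ∨ (X = A (K - 1) ∧ 0 < K)) ∧ (0 < K → K < H → A (K - 1) ≠ A K)

/-- corners of the polyomino on the right boundary -/
def CorR (H : ℤ) (B : ℤ → ℤ) (X K : ℤ) : Prop :=
  0 ≤ K ∧ K ≤ H ∧ ((X = B K ∧ K < H) ∨ (X = B (K - 1) ∧ 0 < K)) ∧ (0 < K → K < H → B (K - 1) ≠ B K)

/-- the tile `(x, Y)` is within distance `8` of a corner -/
def NearC (n H : ℤ) (A B : ℤ → ℤ) (x Y : ℤ) : Prop :=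
  ∃ X K, (CorL H A X K ∨ CorR H B X K) ∧ x ≤ n * X + 8 ∧ n * X ≤ x + 8 ∧ Y ≤ n * K + 8 ∧ n * K ≤ Y + 8

variable {D : Win} {n H : ℤ} {A B : ℤ → ℤ} {YP YQ : ℤ} {CL CR : ℤ → Bool} {x Y Z k lo hi c : ℤ}

lemma mul_gap (hn : 0 < n) {u v : ℤ} (h : u < v) : n * u + n ≤ n * v := by nlinarith

lemma div_rng (hn : 0 < n) (h1 : n * k ≤ Z) (h2 : Z < n * k + n) : Z / n = k ∧ Z % n = Z - n * k := by
  have e : Z = (Z - n * k) + n * k := by ring
  constructor
  · rw [e, Int.add_mul_ediv_left _ _ hn.ne', Int.ediv_eq_zero_of_lt (by omega) (by omega), zero_add]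
  · rw [e, Int.add_mul_emod_self_left, Int.emod_eq_of_lt (by omega) (by omega)]
    ring

/-- the colour of a straight left side -/
lemma cl_const (h0 : 0 ≤ lo) (h1 : hi < D.h) (h : ∀ Z, lo ≤ Z → Z ≤ hi → D.a Z = c) :
    ∀ m : ℕ, lo + m + 1 ≤ hi → D.cl (lo + m) = D.cl lo := by
  intro m
  induction m with
  | zero => intro _; rw [Nat.cast_zero, add_zero]
  | succ m ih =>
    intro h2
    push_cast at h2 ⊢
    rw [← ih (by omega), ← add_assoc]
    refine (D.scl (lo + m) (by omega) (by omega) ?_).symm
    have e1 := m_f D (lo + m)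
    have e2 := m_f D (lo + m + 1)
    have r0 := h (lo + m) (by omega) (by omega)
    have r1 := h (lo + m + 1) (by omega) (by omega)
    have r2 := h (lo + m + 1 + 1) (by omega) (by omega)
    change D.m (lo + m) = D.m (lo + m + 1)
    omega

/-- the colour of a straight right side -/
lemma cr_const (h0 : 0 ≤ lo) (h1 : hi < D.h) (h : ∀ Z, lo ≤ Z → Z ≤ hi → D.b Z = c) :
    ∀ m : ℕ, lo + m + 1 ≤ hi → D.cr (lo + m) = D.cr lo := by
  intro m
  induction m with
  | zero => intro _; rw [Nat.cast_zero, add_zero]
  | succ m ih =>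
    intro h2
    push_cast at h2 ⊢
    rw [← ih (by omega), ← add_assoc]
    refine (D.scr (lo + m) (by omega) (by omega) ?_).symm
    have e1 := M_f D (lo + m)
    have e2 := M_f D (lo + m + 1)
    have r0 := h (lo + m) (by omega) (by omega)
    have r1 := h (lo + m + 1) (by omega) (by omega)
    have r2 := h (lo + m + 1 + 1) (by omega) (by omega)
    change D.M (lo + m) = D.M (lo + m + 1)
    omega

lemma KL_of (h0 : 5 ≤ Y) (h1 : Y + 5 < D.h) (h2 : D.a Y ≤ x + 5) (h3 : x ≤ D.a Y + 5)
    (h : ∀ Z, Y - 5 ≤ Z → Z ≤ Y + 5 → D.a Z = D.a Y ∧ x + 5 < D.b Z) : KL D x Y := by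
  refine ⟨h0, h1, h2, h3, h, ?_⟩
  have key : ∀ Z, Y - 5 ≤ Z → Z ≤ Y + 4 → D.cl Z = D.cl (Y - 5) := by
    intro Z h4 h5
    have := cl_const (D := D) (lo := Y - 5) (hi := Y + 5) (c := D.a Y) (by omega) h1
      (fun Z a b => (h Z a b).1) (Z - (Y - 5)).toNat (by omega)
    rwa [Int.toNat_of_nonneg (by omega), show Y - 5 + (Z - (Y - 5)) = Z by ring] at this
  intro Z h4 h5
  rw [key Z h4 h5, key Y (by omega) (by omega)]

lemma KR_of (h0 : 5 ≤ Y) (h1 : Y + 5 < D.h) (h2 : D.b Y ≤ x + 5) (h3 : x ≤ D.b Y + 5)
    (h : ∀ Z, Y - 5 ≤ Z → Z ≤ Y + 5 → D.b Z = D.b Y ∧ D.a Z + 5 < x) : KR D x Y := by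
  refine ⟨h0, h1, h2, h3, h, ?_⟩
  have key : ∀ Z, Y - 5 ≤ Z → Z ≤ Y + 4 → D.cr Z = D.cr (Y - 5) := by
    intro Z h4 h5
    have := cr_const (D := D) (lo := Y - 5) (hi := Y + 5) (c := D.b Y) (by omega) h1
      (fun Z a b => (h Z a b).1) (Z - (Y - 5)).toNat (by omega)
    rwa [Int.toNat_of_nonneg (by omega), show Y - 5 + (Z - (Y - 5)) = Z by ring] at this
  intro Z h4 h5
  rw [key Z h4 h5, key Y (by omega) (by omega)]

/-- rows above the line `n k` -/
lemma row_up (C : Coarse D n H A B) (h30 : 30 ≤ n) (hk : 0 ≤ k) (hkH : k < H) (h1 : n * k ≤ Z)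
    (h2 : Z ≤ n * k + 20) : 0 ≤ Z ∧ Z < D.h ∧
    (D.a Z = n * A k ∨ (D.a Z = n * A k - 1 ∧ Z = n * k ∧ 0 < k ∧ A (k - 1) < A k)) ∧
    (D.b Z = n * B k ∨ (D.b Z = n * B k + 1 ∧ Z = n * k ∧ 0 < k ∧ B k < B (k - 1))) := by
  have hn : 0 < n := by omega
  obtain ⟨e1, e2⟩ := div_rng (k := k) hn h1 (by omega)
  have g1 : 0 ≤ n * k := mul_nonneg hn.le hk
  have g2 := mul_gap hn hkH
  have hh := C.hh
  have c1 : 0 ≤ Z := by omega
  have c2 : Z < D.h := by omega
  have ha := C.a Z c1 c2
  have hb := C.b Z c1 c2
  rw [e1, e2] at ha hb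
  refine ⟨c1, c2, ?_, ?_⟩
  · rcases ha with ha | ⟨ha, ⟨h3, -⟩ | ⟨h3, h4⟩⟩
    · exact Or.inl ha
    · omega
    · exact Or.inr ⟨ha, by omega, h4⟩
  · rcases hb with ha | ⟨ha, ⟨h3, -⟩ | ⟨h3, h4⟩⟩
    · exact Or.inl ha
    · omega
    · exact Or.inr ⟨ha, by omega, h4⟩

/-- rows below the line `n k` -/
lemma row_dn (C : Coarse D n H A B) (h30 : 30 ≤ n) (hk : 0 < k) (hkH : k ≤ H) (h1 : n * k ≤ Z + 20)
    (h2 : Z < n * k) : 0 ≤ Z ∧ Z < D.h ∧
    (D.a Z = n * A (k - 1) ∨ (D.a Z = n * A (k - 1) - 1 ∧ Z = n * k - 1 ∧ k < H ∧ A k < A (k - 1))) ∧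
    (D.b Z = n * B (k - 1) ∨ (D.b Z = n * B (k - 1) + 1 ∧ Z = n * k - 1 ∧ k < H ∧ B (k - 1) < B k)) := by
  have hn : 0 < n := by omega
  have e0 : n * k = n * (k - 1) + n := by ring
  obtain ⟨e1, e2⟩ := div_rng (k := k - 1) (Z := Z) hn (by omega) (by omega)
  have g1 : 0 ≤ n * (k - 1) := mul_nonneg hn.le (by omega)
  have g2 : n * k ≤ n * H := mul_le_mul_of_nonneg_left hkH hn.le
  have hh := C.hh
  have c1 : 0 ≤ Z := by omega
  have c2 : Z < D.h := by omega
  have ha := C.a Z c1 c2
  have hb := C.b Z c1 c2
  rw [e1, e2, sub_add_cancel] at ha hb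
  refine ⟨c1, c2, ?_, ?_⟩
  · rcases ha with ha | ⟨ha, ⟨h3, h4⟩ | ⟨h3, h4, -⟩⟩
    · exact Or.inl ha
    · exact Or.inr ⟨ha, by omega, h4⟩
    · omega
  · rcases hb with ha | ⟨ha, ⟨h3, h4⟩ | ⟨h3, h4, -⟩⟩
    · exact Or.inl ha
    · exact Or.inr ⟨ha, by omega, h4⟩
    · omega

/-- rows between the lines -/
lemma row_mid (C : Coarse D n H A B) (h30 : 30 ≤ n) (hk : 0 ≤ k) (hkH : k < H) (h1 : n * k < Z)
    (h2 : Z + 1 < n * k + n) : 0 ≤ Z ∧ Z < D.h ∧ D.a Z = n * A k ∧ D.b Z = n * B k := by
  have hn : 0 < n := by omega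
  obtain ⟨e1, e2⟩ := div_rng (k := k) hn h1.le (by omega)
  have g1 : 0 ≤ n * k := mul_nonneg hn.le hk
  have g2 := mul_gap hn hkH
  have hh := C.hh
  have c1 : 0 ≤ Z := by omega
  have c2 : Z < D.h := by omega
  have ha := C.a Z c1 c2
  have hb := C.b Z c1 c2
  rw [e1, e2] at ha hb
  refine ⟨c1, c2, ?_, ?_⟩
  · rcases ha with ha | ⟨ha, ⟨h3, -⟩ | ⟨h3, h4⟩⟩
    · exact ha
    · omega
    · omega
  · rcases hb with ha | ⟨ha, ⟨h3, -⟩ | ⟨h3, h4⟩⟩
    · exact ha
    · omega
    · omega

/-- all rows of the neighbourhood are between two lines -/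
lemma flat_mid (C : Coarse D n H A B) (h30 : 30 ≤ n) (h1 : n * k + 6 < Y) (h2 : Y + 6 < n * k + n) :
    Flat D x Y := by
  have hn : 0 < n := by omega
  have hh := C.hh
  by_cases hk : 0 ≤ k
  · by_cases hkH : k < H
    · have row := fun (Z : ℤ) (a : Y - 5 ≤ Z) (b : Z ≤ Y + 5) =>
        row_mid C h30 hk hkH (Z := Z) (by omega) (by omega)
      have g := mul_gap hn (C.AB k hk hkH)
      have rY := row Y (by omega) (by omega)
      have rl := row (Y - 5) (by omega) (by omega)
      have ru := row (Y + 5) (by omega) (by omega)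
      by_cases c1 : x + 5 < n * A k
      · exact Or.inr (Or.inr fun Z a b _ _ => Or.inl (by have := row Z a b; omega))
      · by_cases c2 : x ≤ n * A k + 5
        · refine Or.inl (Or.inl (KL_of (by omega) (by omega) (by omega) (by omega) fun Z a b => ?_))
          have := row Z a b
          omega
        · by_cases c3 : n * B k + 5 < x
          · exact Or.inr (Or.inr fun Z a b _ _ => Or.inr (by have := row Z a b; omega))
          · by_cases c4 : n * B k ≤ x + 5
            · refine Or.inl (Or.inr (Or.inl (KR_of (by omega) (by omega) (by omega) (by omega)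
                fun Z a b => ?_)))
              have := row Z a b
              omega
            · refine Or.inr (Or.inl fun Z a b => ?_)
              have := row Z a b
              omega
    · refine Or.inr (Or.inr fun Z a b _ h4 => ?_)
      have g : n * H ≤ n * k := mul_le_mul_of_nonneg_left (by omega) hn.le
      omega
  · refine Or.inr (Or.inr fun Z a b h3 _ => ?_)
    have g := mul_gap hn (u := k) (v := 0) (by omega)
    rw [mul_zero] at g
    omega

/-- the line at the bottom -/
lemma flat_bot (C : Coarse D n H A B) (h30 : 30 ≤ n) (h1 : -6 ≤ Y) (h2 : Y ≤ 6) :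
    Flat D x Y ∨ NearC n H A B x Y := by
  have hn : 0 < n := by omega
  have hh := C.hh
  have HH := C.HH
  have g := mul_gap hn (C.AB 0 le_rfl HH)
  have g2 := mul_gap hn HH
  rw [mul_zero] at g2
  have row := fun (Z : ℤ) (a : 0 ≤ Z) (b : Z ≤ 20) =>
    row_up C h30 le_rfl HH (Z := Z) (by omega) (by omega)
  by_cases c1 : x + 8 < n * A 0
  · refine Or.inl (Or.inr (Or.inr fun Z a b h3 _ => Or.inl ?_))
    have := row Z h3 (by omega)
    omega
  · by_cases c2 : x ≤ n * A 0 + 8
    · exact Or.inr ⟨A 0, 0, Or.inl ⟨le_rfl, HH.le, Or.inl ⟨rfl, HH⟩, fun h => absurd h (lt_irrefl _)⟩,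
        by omega, by omega, by omega, by omega⟩
    · by_cases c3 : n * B 0 + 8 < x
      · refine Or.inl (Or.inr (Or.inr fun Z a b h3 _ => Or.inr ?_))
        have := row Z h3 (by omega)
        omega
      · by_cases c4 : n * B 0 ≤ x + 8
        · exact Or.inr ⟨B 0, 0, Or.inr ⟨le_rfl, HH.le, Or.inl ⟨rfl, HH⟩,
            fun h => absurd h (lt_irrefl _)⟩, by omega, by omega, by omega, by omega⟩
        · left
          by_cases c5 : Y = 6
          · refine Or.inr (Or.inl fun Z a b => ?_)
            have := row Z (by omega) (by omega)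
            omega
          · by_cases c6 : Y = -6
            · exact Or.inr (Or.inr fun Z a b h3 _ => by omega)
            · refine Or.inl (Or.inr (Or.inr (Or.inl ⟨by omega, by omega, by omega, fun Z a b => ?_⟩)))
              have := row Z a (by omega)
              omega

/-- the line at the top -/
lemma flat_top (C : Coarse D n H A B) (h30 : 30 ≤ n) (h1 : D.h ≤ Y + 6) (h2 : Y ≤ D.h + 6) :
    Flat D x Y ∨ NearC n H A B x Y := by
  have hn : 0 < n := by omega
  have hh := C.hh
  have HH := C.HH
  have g := mul_gap hn (C.AB (H - 1) (by omega) (by omega))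
  have g2 := mul_gap hn HH
  rw [mul_zero] at g2
  have row := fun (Z : ℤ) (a : D.h ≤ Z + 20) (b : Z < D.h) =>
    row_dn C h30 HH le_rfl (Z := Z) (by omega) (by omega)
  by_cases c1 : x + 8 < n * A (H - 1)
  · refine Or.inl (Or.inr (Or.inr fun Z a b _ h3 => Or.inl ?_))
    have := row Z (by omega) h3
    omega
  · by_cases c2 : x ≤ n * A (H - 1) + 8
    · exact Or.inr ⟨A (H - 1), H, Or.inl ⟨HH.le, le_rfl, Or.inr ⟨rfl, HH⟩,
        fun _ h => absurd h (lt_irrefl _)⟩, by omega, by omega, by omega, by omega⟩
    · by_cases c3 : n * B (H - 1) + 8 < x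
      · refine Or.inl (Or.inr (Or.inr fun Z a b _ h3 => Or.inr ?_))
        have := row Z (by omega) h3
        omega
      · by_cases c4 : n * B (H - 1) ≤ x + 8
        · exact Or.inr ⟨B (H - 1), H, Or.inr ⟨HH.le, le_rfl, Or.inr ⟨rfl, HH⟩,
            fun _ h => absurd h (lt_irrefl _)⟩, by omega, by omega, by omega, by omega⟩
        · left
          by_cases c5 : Y = D.h - 6
          · refine Or.inr (Or.inl fun Z a b => ?_)
            have := row Z (by omega) (by omega)
            omega
          · by_cases c6 : D.h + 5 ≤ Y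
            · exact Or.inr (Or.inr fun Z a b _ h3 => by omega)
            · refine Or.inl (Or.inr (Or.inr (Or.inr (Or.inl ⟨by omega, by omega, by omega,
                fun Z a b => ?_⟩))))
              have := row Z (by omega) b
              omega

/-- the left boundary at an inner line -/
lemma flat_lineL (C : CoarseC D n H A B YP YQ CL CR) (h30 : 30 ≤ n) (hk : 0 < k) (hkH : k < H)
    (h1 : n * k ≤ Y + 6) (h2 : Y ≤ n * k + 6) : (Flat D x Y ∨ NearC n H A B x Y) ∨
      (n * A (k - 1) + 5 < x ∧ n * A k + 5 < x) := by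
  have hn : 0 < n := by omega
  have up := fun (Z : ℤ) (a : n * k ≤ Z) (b : Z ≤ Y + 5) =>
    row_up C.toCoarse h30 hk.le hkH (Z := Z) a (by omega)
  have dn := fun (Z : ℤ) (a : Y - 5 ≤ Z) (b : Z < n * k) =>
    row_dn C.toCoarse h30 hk hkH.le (Z := Z) (by omega) b
  have g1 := mul_gap hn (C.AB k hk.le hkH)
  have g0 := mul_gap hn (C.AB (k - 1) (by omega) (by omega))
  have g01 : n * A (k - 1) + n ≤ n * B k := mul_gap hn (by
    have := C.ov1 (k - 1) (by omega) (by omega); rwa [sub_add_cancel] at this)
  have g10 : n * A k + n ≤ n * B (k - 1) := mul_gap hn (by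
    have := C.ov2 (k - 1) (by omega) (by omega); rwa [sub_add_cancel] at this)
  have rl := row_dn C.toCoarse h30 hk hkH.le (Z := n * k - 12) (by omega) (by omega)
  have ru := row_up C.toCoarse h30 hk.le hkH (Z := n * k + 12) (by omega) (by omega)
  have r0 := row_up C.toCoarse h30 hk.le hkH (Z := n * k) (by omega) (by omega)
  have rm := row_dn C.toCoarse h30 hk hkH.le (Z := n * k - 1) (by omega) (by omega)
  have hupdn : ∀ Z, Y - 5 ≤ Z → Z ≤ Y + 5 → (n * k ≤ Z ∨ Z < n * k) := fun Z _ _ => by omega
  rcases lt_trichotomy (A (k - 1)) (A k) with hA | hA | hA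
  · -- ceiling ledge
    have gA := mul_gap hn hA
    by_cases c1 : x + 8 < n * A (k - 1)
    · refine Or.inl (Or.inl (Or.inr (Or.inr fun Z a b _ _ => Or.inl ?_)))
      rcases hupdn Z a b with h | h
      · have := up Z h b; omega
      · have := dn Z a h; omega
    · by_cases c2 : x ≤ n * A (k - 1) + 8
      · exact Or.inl (Or.inr ⟨A (k - 1), k, Or.inl ⟨hk.le, hkH.le, Or.inr ⟨rfl, hk⟩,
          fun _ _ => hA.ne⟩, by omega, by omega, by omega, by omega⟩)
      · by_cases c3 : x + 8 < n * A k
        · left; left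
          by_cases c5 : Y = n * k - 6
          · refine Or.inr (Or.inl fun Z a b => ?_)
            have := dn Z a (by omega); omega
          · by_cases c6 : n * k + 5 ≤ Y
            · refine Or.inr (Or.inr fun Z a b _ _ => Or.inl ?_)
              have := up Z (by omega) b; omega
            · refine Or.inl (Or.inr (Or.inr (Or.inr (Or.inr (Or.inr (Or.inr (Or.inl
                ⟨n * k, by omega, by omega, by omega, by omega, fun Z a b _ => ?_, fun Z a b => ?_,
                  fun Z a b => ?_⟩)))))))
              · have := dn Z a b; omega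
              · have := up Z a b; omega
              · have hyP : D.yP ≤ n * k := by
                  have := a_rise (D := D) (y := n * k - 1) (by omega) (by rw [sub_add_cancel]; omega)
                  omega
                rw [C.cl Z (by omega) (by have := up Z a b; omega), C.cl (n * k) (by omega) (by omega),
                  if_neg (by omega), if_neg (by omega), (div_rng (k := k) hn a (by omega)).1,
                  (div_rng (k := k) hn le_rfl (by omega)).1]
        · by_cases c4 : x ≤ n * A k + 8
          · exact Or.inl (Or.inr ⟨A k, k, Or.inl ⟨hk.le, hkH.le, Or.inl ⟨rfl, hkH⟩,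
              fun _ _ => hA.ne⟩, by omega, by omega, by omega, by omega⟩)
          · exact Or.inr (by omega)
  · -- straight side
    have eA : n * A (k - 1) = n * A k := by rw [hA]
    by_cases c1 : x + 5 < n * A k
    · refine Or.inl (Or.inl (Or.inr (Or.inr fun Z a b _ _ => Or.inl ?_)))
      rcases hupdn Z a b with h | h
      · have := up Z h b; omega
      · have := dn Z a h; omega
    · by_cases c2 : x ≤ n * A k + 5
      · have row : ∀ Z, Y - 5 ≤ Z → Z ≤ Y + 5 → D.a Z = n * A k ∧ x + 5 < D.b Z := by
          intro Z a b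
          rcases hupdn Z a b with h | h
          · have := up Z h b; omega
          · have := dn Z a h; omega
        have rY := row Y (by omega) (by omega)
        refine Or.inl (Or.inl (Or.inl (Or.inl (KL_of (by omega) (by omega) (by omega) (by omega)
          fun Z a b => ?_))))
        have := row Z a b
        omega
      · exact Or.inr (by omega)
  · -- floor ledge
    have gA := mul_gap hn hA
    by_cases c1 : x + 8 < n * A k
    · refine Or.inl (Or.inl (Or.inr (Or.inr fun Z a b _ _ => Or.inl ?_)))
      rcases hupdn Z a b with h | h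
      · have := up Z h b; omega
      · have := dn Z a h; omega
    · by_cases c2 : x ≤ n * A k + 8
      · exact Or.inl (Or.inr ⟨A k, k, Or.inl ⟨hk.le, hkH.le, Or.inl ⟨rfl, hkH⟩,
          fun _ _ => hA.ne'⟩, by omega, by omega, by omega, by omega⟩)
      · by_cases c3 : x + 8 < n * A (k - 1)
        · left; left
          by_cases c5 : n * k + 5 ≤ Y
          · refine Or.inr (Or.inl fun Z a b => ?_)
            have := up Z (by omega) b; omega
          · by_cases c6 : Y = n * k - 6
            · refine Or.inr (Or.inr fun Z a b _ _ => Or.inl ?_)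
              have := dn Z a (by omega); omega
            · refine Or.inl (Or.inr (Or.inr (Or.inr (Or.inr (Or.inl
                ⟨n * k, by omega, by omega, by omega, by omega, fun Z a b _ => ?_, fun Z a b => ?_,
                  fun Z a b => ?_⟩)))))
              · have := up Z a b; omega
              · have := dn Z a b; omega
              · have hyP : n * k < D.yP := by
                  have := a_drop (D := D) (y := n * k - 1) (by omega) (by omega)
                    (by rw [sub_add_cancel]; omega)
                  omega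
                rw [C.cl Z (by omega) (by omega), C.cl (n * k - 2) (by omega) (by omega),
                  if_pos (by omega), if_pos (by omega),
                  (div_rng (n := n) (k := k - 1) (Z := Z + 1) hn (by rw [mul_sub, mul_one]; omega)
                    (by rw [mul_sub, mul_one]; omega)).1,
                  (div_rng (n := n) (k := k - 1) (Z := n * k - 2 + 1) hn (by rw [mul_sub, mul_one]; omega)
                    (by rw [mul_sub, mul_one]; omega)).1]
        · by_cases c4 : x ≤ n * A (k - 1) + 8
          · exact Or.inl (Or.inr ⟨A (k - 1), k, Or.inl ⟨hk.le, hkH.le, Or.inr ⟨rfl, hk⟩,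
              fun _ _ => hA.ne'⟩, by omega, by omega, by omega, by omega⟩)
          · exact Or.inr (by omega)

/-- the right boundary at an inner line -/
lemma flat_lineR (C : CoarseC D n H A B YP YQ CL CR) (h30 : 30 ≤ n) (hk : 0 < k) (hkH : k < H)
    (h1 : n * k ≤ Y + 6) (h2 : Y ≤ n * k + 6) (hl : n * A (k - 1) + 5 < x ∧ n * A k + 5 < x) :
    Flat D x Y ∨ NearC n H A B x Y := by
  have hn : 0 < n := by omega
  have up := fun (Z : ℤ) (a : n * k ≤ Z) (b : Z ≤ Y + 5) =>
    row_up C.toCoarse h30 hk.le hkH (Z := Z) a (by omega)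
  have dn := fun (Z : ℤ) (a : Y - 5 ≤ Z) (b : Z < n * k) =>
    row_dn C.toCoarse h30 hk hkH.le (Z := Z) (by omega) b
  have rl := row_dn C.toCoarse h30 hk hkH.le (Z := n * k - 12) (by omega) (by omega)
  have ru := row_up C.toCoarse h30 hk.le hkH (Z := n * k + 12) (by omega) (by omega)
  have r0 := row_up C.toCoarse h30 hk.le hkH (Z := n * k) (by omega) (by omega)
  have rm := row_dn C.toCoarse h30 hk hkH.le (Z := n * k - 1) (by omega) (by omega)
  have hupdn : ∀ Z, Y - 5 ≤ Z → Z ≤ Y + 5 → (n * k ≤ Z ∨ Z < n * k) := fun Z _ _ => by omega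
  have inside : x + 5 < n * B (k - 1) → x + 5 < n * B k → Flat D x Y := by
    intro i1 i2
    refine Or.inr (Or.inl fun Z a b => ?_)
    rcases hupdn Z a b with h | h
    · have := up Z h b; omega
    · have := dn Z a h; omega
  rcases lt_trichotomy (B (k - 1)) (B k) with hB | hB | hB
  · -- floor ledge
    have gB := mul_gap hn hB
    by_cases c1 : n * B k + 8 < x
    · refine Or.inl (Or.inr (Or.inr fun Z a b _ _ => Or.inr ?_))
      rcases hupdn Z a b with h | h
      · have := up Z h b; omega
      · have := dn Z a h; omega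
    · by_cases c2 : n * B k ≤ x + 8
      · exact Or.inr ⟨B k, k, Or.inr ⟨hk.le, hkH.le, Or.inl ⟨rfl, hkH⟩,
          fun _ _ => hB.ne⟩, by omega, by omega, by omega, by omega⟩
      · by_cases c3 : n * B (k - 1) + 8 < x
        · left
          by_cases c5 : n * k + 5 ≤ Y
          · refine Or.inr (Or.inl fun Z a b => ?_)
            have := up Z (by omega) b; omega
          · by_cases c6 : Y = n * k - 6
            · refine Or.inr (Or.inr fun Z a b _ _ => Or.inr ?_)
              have := dn Z a (by omega); omega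
            · refine Or.inl (Or.inr (Or.inr (Or.inr (Or.inr (Or.inr (Or.inl
                ⟨n * k, by omega, by omega, by omega, by omega, fun Z a b _ => ?_, fun Z a b => ?_,
                  fun Z a b => ?_⟩))))))
              · have := up Z a b; omega
              · have := dn Z a b; omega
              · have hyQ : n * k ≤ D.yQ := by
                  have := b_rise (D := D) (y := n * k - 1) (by omega) (by rw [sub_add_cancel]; omega)
                  omega
                rw [C.cr Z (by omega) (by omega), C.cr (n * k - 2) (by omega) (by omega),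
                  if_pos (by omega), if_pos (by omega),
                  (div_rng (n := n) (k := k - 1) (Z := Z + 1) hn (by rw [mul_sub, mul_one]; omega)
                    (by rw [mul_sub, mul_one]; omega)).1,
                  (div_rng (n := n) (k := k - 1) (Z := n * k - 2 + 1) hn (by rw [mul_sub, mul_one]; omega)
                    (by rw [mul_sub, mul_one]; omega)).1]
        · by_cases c4 : n * B (k - 1) ≤ x + 8
          · exact Or.inr ⟨B (k - 1), k, Or.inr ⟨hk.le, hkH.le, Or.inr ⟨rfl, hk⟩,
              fun _ _ => hB.ne⟩, by omega, by omega, by omega, by omega⟩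
          · exact Or.inl (inside (by omega) (by omega))
  · -- straight side
    have eB : n * B (k - 1) = n * B k := by rw [hB]
    by_cases c1 : n * B k + 5 < x
    · refine Or.inl (Or.inr (Or.inr fun Z a b _ _ => Or.inr ?_))
      rcases hupdn Z a b with h | h
      · have := up Z h b; omega
      · have := dn Z a h; omega
    · by_cases c2 : n * B k ≤ x + 5
      · have row : ∀ Z, Y - 5 ≤ Z → Z ≤ Y + 5 → D.b Z = n * B k ∧ D.a Z + 5 < x := by
          intro Z a b
          rcases hupdn Z a b with h | h
          · have := up Z h b; omega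
          · have := dn Z a h; omega
        have rY := row Y (by omega) (by omega)
        refine Or.inl (Or.inl (Or.inr (Or.inl (KR_of (by omega) (by omega) (by omega) (by omega)
          fun Z a b => ?_))))
        have := row Z a b
        omega
      · exact Or.inl (inside (by omega) (by omega))
  · -- ceiling ledge
    have gB := mul_gap hn hB
    by_cases c1 : n * B (k - 1) + 8 < x
    · refine Or.inl (Or.inr (Or.inr fun Z a b _ _ => Or.inr ?_))
      rcases hupdn Z a b with h | h
      · have := up Z h b; omega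
      · have := dn Z a h; omega
    · by_cases c2 : n * B (k - 1) ≤ x + 8
      · exact Or.inr ⟨B (k - 1), k, Or.inr ⟨hk.le, hkH.le, Or.inr ⟨rfl, hk⟩,
          fun _ _ => hB.ne'⟩, by omega, by omega, by omega, by omega⟩
      · by_cases c3 : n * B k + 8 < x
        · left
          by_cases c5 : Y = n * k - 6
          · refine Or.inr (Or.inl fun Z a b => ?_)
            have := dn Z a (by omega); omega
          · by_cases c6 : n * k + 5 ≤ Y
            · refine Or.inr (Or.inr fun Z a b _ _ => Or.inr ?_)
              have := up Z (by omega) b; omega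
            · refine Or.inl (Or.inr (Or.inr (Or.inr (Or.inr (Or.inr (Or.inr (Or.inr
                ⟨n * k, by omega, by omega, by omega, by omega, fun Z a b _ => ?_, fun Z a b => ?_,
                  fun Z a b => ?_⟩)))))))
              · have := dn Z a b; omega
              · have := up Z a b; omega
              · have hyQ : D.yQ < n * k := by
                  have := b_drop (D := D) (y := n * k - 1) (by omega) (by rw [sub_add_cancel]; omega)
                  omega
                rw [C.cr Z (by omega) (by have := up Z a b; omega), C.cr (n * k) (by omega) (by omega),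
                  if_neg (by omega), if_neg (by omega), (div_rng (k := k) hn a (by omega)).1,
                  (div_rng (k := k) hn le_rfl (by omega)).1]
        · by_cases c4 : n * B k ≤ x + 8
          · exact Or.inr ⟨B k, k, Or.inr ⟨hk.le, hkH.le, Or.inl ⟨rfl, hkH⟩,
              fun _ _ => hB.ne'⟩, by omega, by omega, by omega, by omega⟩
          · exact Or.inl (inside (by omega) (by omega))

/-- **Every tile is flat or near a corner** -/
theorem flat_or (C : CoarseC D n H A B YP YQ CL CR) (h30 : 30 ≤ n) (x Y : ℤ) :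
    Flat D x Y ∨ NearC n H A B x Y := by
  have hn : 0 < n := by omega
  have hh := C.hh
  have e1 := Int.emod_add_mul_ediv (Y + 6) n
  have e2 := Int.emod_nonneg (Y + 6) hn.ne'
  have e3 := Int.emod_lt_of_pos (Y + 6) hn
  set k := (Y + 6) / n with hk
  by_cases c : n * k + 6 < Y
  · exact Or.inl (flat_mid C.toCoarse h30 c (by omega))
  · by_cases k0 : k < 0
    · left
      refine Or.inr (Or.inr fun Z a b h3 _ => ?_)
      have g := mul_gap hn (u := k) (v := 0) k0
      rw [mul_zero] at g
      omega
    · by_cases k1 : k = 0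
      · rw [k1, mul_zero] at e1 c
        exact flat_bot C.toCoarse h30 (by omega) (by omega)
      · by_cases k2 : k = H
        · rw [k2, ← hh] at e1 c
          exact flat_top C.toCoarse h30 (by omega) (by omega)
        · by_cases k3 : H < k
          · left
            refine Or.inr (Or.inr fun Z a b _ h4 => ?_)
            have g := mul_gap hn (u := H) (v := k) k3
            omega
          · rcases flat_lineL (x := x) (Y := Y) C h30 (k := k) (by omega) (by omega) (by omega) (by omega) with h | h
            · exact h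
            · exact flat_lineR C h30 (k := k) (by omega) (by omega) (by omega) (by omega) h

end Pool.Agent.H74.Win
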