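import Mathlib
import Pool.Agent.H74.Win.Flat
import Pool.Agent.H44.FM.WGlue

set_option autoImplicit false
open Finset

/-! # The natural windows with pushed walls at flat places

`grp D p k` : group of the tie `k` (floor, ceiling, left and right walls of the lower and of the upper arc).
`EP D s x Y` : tile of `P` or layer tile of a kind in `s`, coordinates of `P`. `EO_flat` : at a flat tile the random
tiles of the natural window with the groups `s` out are those of `EP`. `EP_V` : pushing the floors down =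
pushing the ceilings up and moving down by one row; `EP_H` : the same for the left and right walls. -/

namespace Pool.Agent.H74.Win

open Pool.Agent.H75.Perc hiding ph
open Pool.Agent.H75.TwoArm Pool.Agent.Q1 Pool.Agent.H33.Q1
open Pool.Agent.H75.Four hiding ev
open Pool.Agent.H69.Q1
open Pool.Agent.H74.R45 (exists_lt iW_det)
open Pool.Agent.H46.Sp (Win Out)
open Pool.Agent.H42.Sp (Sd Ix kt rt kt_odd rt_even kt_Tg rt_Tg cap_of OTp plab_at)
open Pool.Agent.H13.R45 (Tg ev gp Ag ev_true ev_false)
open Pool.Agent.H44.FM.WG (Gr)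
open Pool.Agent.H44.FM.WG.Gr

variable {D : Win} {p : Bool} {x y x' Y Y' Y0 : ℤ} {s : Finset Gr}

/-! ### Groups -/

/-- the group of a left layer tile in the row `Y` -/
def gL (D : Win) (Y : ℤ) : Gr := if Y < D.yP then ll else lu

/-- the group of a right layer tile in the row `Y` -/
def gR (D : Win) (Y : ℤ) : Gr := if Y < D.yQ then rl else ru

/-- the group of a tie -/
def grp (D : Win) (p : Bool) : Ix → Gr
  | (.L, (_, y)) => gL D (y + sh p)
  | (.R, (_, y)) => gR D (y + sh p)
  | (.F, _) => fo
  | (.C, _) => ce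

/-- the ties of the groups `s` -/
def gA (D : Win) (p : Bool) (s : Finset Gr) (k : Ix) : Prop := grp D p k ∈ s

/-- the group of a layer tile of the kind `k` in the row `Y` -/
def gk (D : Win) : Sd → ℤ → Gr
  | .L, Y => gL D Y
  | .R, Y => gR D Y
  | .F, _ => fo
  | .C, _ => ce

/-- the group of a tie is the group of its tiles -/
lemma grp_tile {k : Ix} (hk : CA D p k) (ht : (x, y) = kt k ∨ (x, y) = rt k) :
    grp D p k = gk D k.1 (y + sh p) := by
  obtain ⟨-, -, h3⟩ := hk.info ht
  obtain ⟨t, x', y'⟩ := k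
  cases t
  · simp only at h3
    obtain ⟨h1, h2⟩ := h3
    obtain ⟨⟨a1, a2, a3, a4, a5⟩, ⟨b1, b2, b3, b4, b5⟩, -⟩ := hk
    have hP0 := D.P0
    have hne : y' + sh p ≠ D.yP := by
      intro he
      have hp := D.aP (by omega)
      have hh := a5 (by omega)
      rw [he] at hh
      omega
    change gL D (y' + sh p) = gL D (y + sh p)
    rcases h2 with h2 | h2
    · rw [h2]
    · subst h2
      unfold gL
      by_cases c : y + sh p < D.yP
      · rw [if_pos (by omega), if_pos c]
      · rw [if_neg (by omega), if_neg c]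
  · simp only at h3
    obtain ⟨h1, h2⟩ := h3
    obtain ⟨⟨a1, a2, a3, a4, a5⟩, ⟨b1, b2, b3, b4, b5⟩, -⟩ := hk
    have hne : y' + sh p ≠ D.yQ := by
      intro he
      have hp := D.bQ (by omega)
      have hh := b4 (by omega)
      rw [show y' - 1 + sh p + 1 = y' + sh p by ring, show y' - 1 + sh p = y' + sh p - 1 by ring, he] at hh
      omega
    change gR D (y' + sh p) = gR D (y + sh p)
    rcases h2 with h2 | h2
    · rw [h2]
    · subst h2
      unfold gR
      by_cases c : y + sh p < D.yQ
      · rw [if_pos (by omega), if_pos c]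
      · rw [if_neg (by omega), if_neg c]
  · rfl
  · rfl

/-! ### Layer tiles at flat places -/

lemma inP_PT : InP D p x y ↔ PT D x (y + sh p) := Iff.rfl

/-- a monochromatic neighbourhood gives a tie -/
lemma mono_of {c : Bool} (h : ∀ x' y', x ≤ x' + 1 → x' ≤ x + 1 → y ≤ y' + 1 → y' ≤ y + 1 →
    (x' = x ∨ x' = x - 1) → (y' = y ∨ y' = y - 1) → natc D p x' y' = c)
    (hc : (x + y) % 2 = 1 ↔ c = true) : Mono D p x y := by
  have e : decide ((x + y) % 2 = 1) = c := by
    by_cases h1 : (x + y) % 2 = 1
    · rw [decide_eq_true h1, hc.1 h1]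
    · rw [decide_eq_false h1]
      cases c
      · rfl
      · exact absurd (hc.2 rfl) h1
  unfold Mono
  rw [e]
  exact ⟨h _ _ (by omega) (by omega) (by omega) (by omega) (Or.inl rfl) (Or.inl rfl),
    h _ _ (by omega) (by omega) (by omega) (by omega) (Or.inr rfl) (Or.inl rfl),
    h _ _ (by omega) (by omega) (by omega) (by omega) (Or.inl rfl) (Or.inr rfl),
    h _ _ (by omega) (by omega) (by omega) (by omega) (Or.inr rfl) (Or.inr rfl)⟩

/-- kind `L` : the neighbours in the column are of the same kind, the tiles on the left are outside -/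
lemma flat_L (h : Flat D x Y) (hl : LyL D p x (Y - sh p)) : FlatB D x Y ∧
    LyL D p x (Y - sh p - 1) ∧ LyL D p x (Y - sh p + 1) ∧
    ∀ x' Y', x' ≤ x → Y ≤ Y' + 1 → Y' ≤ Y + 1 → ¬ PT D x' Y' := by
  obtain ⟨l1, l2, l3, l4, l5⟩ := hl
  rw [sub_add_cancel] at l1 l2 l3 l4 l5
  have key : KL D x Y := by
    rcases h with (h | h | h | h | ⟨Y0, h⟩ | ⟨Y0, h⟩ | ⟨Y0, h⟩ | ⟨Y0, h⟩) | h | h
    · exact h
    · obtain ⟨lo, hi, x1, x2, row, -⟩ := h
      have := row Y (by omega) (by omega)
      omega
    · obtain ⟨lo, hi, hh, row⟩ := h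
      have := row Y (by omega) (by omega)
      omega
    · obtain ⟨lo, hi, hh, row⟩ := h
      have := row Y (by omega) (by omega)
      omega
    · obtain ⟨lo, hi, y1, y2, up, dn, -⟩ := h
      have := up Y
      have := dn Y
      omega
    · obtain ⟨lo, hi, y1, y2, up, dn, -⟩ := h
      have := up Y
      have := dn Y
      have := D.ab Y l1 l2
      omega
    · obtain ⟨lo, hi, y1, y2, dn, up, -⟩ := h
      have := up Y
      have := dn Y
      omega
    · obtain ⟨lo, hi, y1, y2, dn, up, -⟩ := h
      have := up Y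
      have := dn Y
      have := D.ab Y l1 l2
      omega
    · have := h Y (by omega) (by omega)
      omega
    · have := h Y (by omega) (by omega) l1 l2
      have := D.ab Y l1 l2
      omega
  obtain ⟨lo, hi, x1, x2, row, -⟩ := id key
  have r0 := row (Y - 1) (by omega) (by omega)
  have r1 := row Y (by omega) (by omega)
  have r2 := row (Y + 1) (by omega) (by omega)
  have r3 := row (Y - 2) (by omega) (by omega)
  have r4 := row (Y + 2) (by omega) (by omega)
  refine ⟨Or.inl key, ?_, ?_, ?_⟩
  · unfold LyL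
    rw [show Y - sh p - 1 + sh p = Y - 1 by ring, show Y - 1 + 1 = Y by ring, show Y - 1 - 1 = Y - 2 by ring]
    omega
  · unfold LyL
    rw [show Y - sh p + 1 + sh p = Y + 1 by ring, show Y + 1 + 1 = Y + 2 by ring, show Y + 1 - 1 = Y by ring]
    omega
  · intro x' Y' h1 h2 h3 h4
    unfold PT at h4
    have r5 := row Y' (by omega) (by omega)
    omega

lemma flat_R (h : Flat D x Y) (hl : LyR D p x (Y - sh p)) : FlatB D x Y ∧
    LyR D p x (Y - sh p - 1) ∧ LyR D p x (Y - sh p + 1) ∧
    ∀ x' Y', x ≤ x' → Y ≤ Y' + 1 → Y' ≤ Y + 1 → ¬ PT D x' Y' := by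
  obtain ⟨l1, l2, l3, l4, l5⟩ := hl
  rw [sub_add_cancel] at l1 l2 l3 l4 l5
  have key : KR D x Y := by
    rcases h with (h | h | h | h | ⟨Y0, h⟩ | ⟨Y0, h⟩ | ⟨Y0, h⟩ | ⟨Y0, h⟩) | h | h
    · obtain ⟨lo, hi, x1, x2, row, -⟩ := h
      have := row Y (by omega) (by omega)
      omega
    · exact h
    · obtain ⟨lo, hi, hh, row⟩ := h
      have := row Y (by omega) (by omega)
      omega
    · obtain ⟨lo, hi, hh, row⟩ := h
      have := row Y (by omega) (by omega)
      omega
    · obtain ⟨lo, hi, y1, y2, up, dn, -⟩ := h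
      have := up Y
      have := dn Y
      have := D.ab Y l1 l2
      omega
    · obtain ⟨lo, hi, y1, y2, up, dn, -⟩ := h
      have := up Y
      have := dn Y
      omega
    · obtain ⟨lo, hi, y1, y2, dn, up, -⟩ := h
      have := up Y
      have := dn Y
      have := D.ab Y l1 l2
      omega
    · obtain ⟨lo, hi, y1, y2, dn, up, -⟩ := h
      have := up Y
      have := dn Y
      omega
    · have := h Y (by omega) (by omega)
      omega
    · have := h Y (by omega) (by omega) l1 l2
      have := D.ab Y l1 l2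
      omega
  obtain ⟨lo, hi, x1, x2, row, -⟩ := id key
  have r0 := row (Y - 1) (by omega) (by omega)
  have r1 := row Y (by omega) (by omega)
  have r2 := row (Y + 1) (by omega) (by omega)
  have r3 := row (Y - 2) (by omega) (by omega)
  have r4 := row (Y + 2) (by omega) (by omega)
  refine ⟨Or.inr (Or.inl key), ?_, ?_, ?_⟩
  · unfold LyR
    rw [show Y - sh p - 1 + sh p = Y - 1 by ring, show Y - 1 + 1 = Y by ring, show Y - 1 - 1 = Y - 2 by ring]
    omega
  · unfold LyR
    rw [show Y - sh p + 1 + sh p = Y + 1 by ring, show Y + 1 + 1 = Y + 2 by ring, show Y + 1 - 1 = Y by ring]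
    omega
  · intro x' Y' h1 h2 h3 h4
    unfold PT at h4
    have r5 := row Y' (by omega) (by omega)
    omega

lemma flat_F (h : Flat D x Y) (hl : LyF D p x (Y - sh p)) : FlatB D x Y ∧
    LyF D p (x - 1) (Y - sh p) ∧ LyF D p (x + 1) (Y - sh p) ∧
    ∀ x' Y', x ≤ x' + 1 → x' ≤ x + 1 → (Y' = Y ∨ Y' = Y - 1) → ¬ PT D x' Y' := by
  obtain ⟨l1, l2, l3, l4, l5⟩ := hl
  rw [sub_add_cancel] at l1 l2 l3 l4 l5
  unfold LyF
  rw [sub_add_cancel]
  unfold PT
  rcases h with h | h | h
  · refine ⟨h, ?_⟩
    rcases h with (h | h | h | h | ⟨Y0, h⟩ | ⟨Y0, h⟩ | ⟨Y0, h⟩ | ⟨Y0, h⟩)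
    · obtain ⟨lo, hi, x1, x2, row, -⟩ := h
      have := row Y (by omega) (by omega)
      have := row (Y + 1) (by omega) (by omega)
      omega
    · obtain ⟨lo, hi, x1, x2, row, -⟩ := h
      have := row Y (by omega) (by omega)
      have := row (Y + 1) (by omega) (by omega)
      omega
    · obtain ⟨lo, hi, hh, row⟩ := h
      have r1 := row Y
      have r2 := row (Y + 1) (by omega) (by omega)
      refine ⟨by omega, by omega, fun x' Y' _ _ _ _ => by omega⟩
    · obtain ⟨lo, hi, hh, row⟩ := h
      have := row Y (by omega) (by omega)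
      have := row (Y + 1) (by omega) (by omega)
      omega
    · obtain ⟨lo, hi, y1, y2, up, dn, -⟩ := h
      have u1 := up Y
      have d1 := dn Y
      have u2 := up (Y + 1)
      have d2 := dn (Y + 1)
      have d3 := dn (Y - 1)
      refine ⟨by omega, by omega, fun x' Y' a1 a2 a3 a4 => ?_⟩
      rcases a3 with rfl | rfl <;> omega
    · obtain ⟨lo, hi, y1, y2, up, dn, -⟩ := h
      have u1 := up Y
      have d1 := dn Y
      have u2 := up (Y + 1)
      have d2 := dn (Y + 1)
      have d3 := dn (Y - 1)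
      refine ⟨by omega, by omega, fun x' Y' a1 a2 a3 a4 => ?_⟩
      rcases a3 with rfl | rfl <;> omega
    · obtain ⟨lo, hi, y1, y2, dn, up, -⟩ := h
      have := up Y
      have := dn Y
      have := up (Y + 1)
      have := dn (Y + 1)
      omega
    · obtain ⟨lo, hi, y1, y2, dn, up, -⟩ := h
      have := up Y
      have := dn Y
      have := up (Y + 1)
      have := dn (Y + 1)
      omega
  · have := h Y (by omega) (by omega)
    omega
  · have := h (Y + 1) (by omega) (by omega) (by omega) l2
    omega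

lemma flat_C (h : Flat D x Y) (hl : LyC D p x (Y - sh p)) : FlatB D x Y ∧
    LyC D p (x - 1) (Y - sh p) ∧ LyC D p (x + 1) (Y - sh p) ∧
    ∀ x' Y', x ≤ x' + 1 → x' ≤ x + 1 → (Y' = Y ∨ Y' = Y + 1) → ¬ PT D x' Y' := by
  obtain ⟨l1, l2, l3, l4, l5⟩ := hl
  rw [sub_add_cancel] at l1 l2 l3 l4 l5
  unfold LyC
  rw [sub_add_cancel]
  unfold PT
  rcases h with h | h | h
  · refine ⟨h, ?_⟩
    rcases h with (h | h | h | h | ⟨Y0, h⟩ | ⟨Y0, h⟩ | ⟨Y0, h⟩ | ⟨Y0, h⟩)
    · obtain ⟨lo, hi, x1, x2, row, -⟩ := h
      have := row Y (by omega) (by omega)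
      have := row (Y - 1) (by omega) (by omega)
      omega
    · obtain ⟨lo, hi, x1, x2, row, -⟩ := h
      have := row Y (by omega) (by omega)
      have := row (Y - 1) (by omega) (by omega)
      omega
    · obtain ⟨lo, hi, hh, row⟩ := h
      have := row Y (by omega) (by omega)
      have := row (Y - 1) (by omega) (by omega)
      omega
    · obtain ⟨lo, hi, hh, row⟩ := h
      have r1 := row Y
      have r2 := row (Y - 1) (by omega) (by omega)
      refine ⟨by omega, by omega, fun x' Y' _ _ _ _ => by omega⟩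
    · obtain ⟨lo, hi, y1, y2, up, dn, -⟩ := h
      have := up Y
      have := dn Y
      have := up (Y - 1)
      have := dn (Y - 1)
      omega
    · obtain ⟨lo, hi, y1, y2, up, dn, -⟩ := h
      have := up Y
      have := dn Y
      have := up (Y - 1)
      have := dn (Y - 1)
      omega
    · obtain ⟨lo, hi, y1, y2, dn, up, -⟩ := h
      have u1 := up Y
      have d1 := dn Y
      have u2 := up (Y - 1)
      have d2 := dn (Y - 1)
      have u3 := up (Y + 1)
      refine ⟨by omega, by omega, fun x' Y' a1 a2 a3 a4 => ?_⟩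
      rcases a3 with rfl | rfl <;> omega
    · obtain ⟨lo, hi, y1, y2, dn, up, -⟩ := h
      have u1 := up Y
      have d1 := dn Y
      have u2 := up (Y - 1)
      have d2 := dn (Y - 1)
      have u3 := up (Y + 1)
      refine ⟨by omega, by omega, fun x' Y' a1 a2 a3 a4 => ?_⟩
      rcases a3 with rfl | rfl <;> omega
  · have := h Y (by omega) (by omega)
    omega
  · have := h (Y - 1) (by omega) (by omega) (by omega) (by omega)
    omega

/-- **Layer tiles at flat places belong to ties** -/
theorem flat_tie {t : Sd} (h : Flat D x Y) (hl : Ly D p t x (Y - sh p)) :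
    ∃ k, CA D p k ∧ k.1 = t ∧ ((x, Y - sh p) = kt k ∨ (x, Y - sh p) = rt k) := by
  cases t
  · obtain ⟨hf, h1, h2, h3⟩ := flat_L h hl
    obtain ⟨c, hc⟩ := flat_col hf
    have hl' : LyL D p x (Y - sh p) := hl
    have key : ∀ x' y', x' ≤ x → x ≤ x' + 3 → Y - sh p ≤ y' + 1 → y' ≤ Y - sh p + 1 →
        natc D p x' y' = c := by
      intro x' y' a1 a2 a3 a4
      have := hc p x' (y' + sh p) (by omega) (by omega) (by omega) (by omega)
        (h3 _ _ a1 (by omega) (by omega))
      rwa [add_sub_cancel_right] at this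
    by_cases hp : (x + (Y - sh p)) % 2 = 1 ↔ c = true
    · refine ⟨(.L, (x, Y - sh p)), ⟨hl', h1, mono_of (c := c) (fun x' y' a1 a2 a3 a4 a5 a6 =>
        key _ _ (by omega) (by omega) (by omega) (by omega)) hp⟩, rfl, kr_L.2 (Or.inl rfl)⟩
    · have hp' : (x + (Y - sh p + 1)) % 2 = 1 ↔ c = true := by
        constructor
        · intro hh; by_contra hcc; exact hp ⟨fun h4 => by omega, fun h4 => absurd h4 hcc⟩
        · intro hh; by_contra hcc; exact hp ⟨fun _ => hh, fun _ => by omega⟩
      refine ⟨(.L, (x, Y - sh p + 1)), ⟨h2, by rw [add_sub_cancel_right]; exact hl',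
        mono_of (c := c) (fun x' y' a1 a2 a3 a4 a5 a6 =>
          key _ _ (by omega) (by omega) (by omega) (by omega)) hp'⟩, rfl, kr_L.2 (Or.inr ?_)⟩
      rw [add_sub_cancel_right]
  · obtain ⟨hf, h1, h2, h3⟩ := flat_R h hl
    obtain ⟨c, hc⟩ := flat_col hf
    have hl' : LyR D p x (Y - sh p) := hl
    have key : ∀ x' y', x ≤ x' → x' ≤ x + 3 → Y - sh p ≤ y' + 1 → y' ≤ Y - sh p + 1 →
        natc D p x' y' = c := by
      intro x' y' a1 a2 a3 a4
      have := hc p x' (y' + sh p) (by omega) (by omega) (by omega) (by omega)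
        (h3 _ _ a1 (by omega) (by omega))
      rwa [add_sub_cancel_right] at this
    by_cases hp : (x + 1 + (Y - sh p)) % 2 = 1 ↔ c = true
    · refine ⟨(.R, (x + 1, Y - sh p)), ⟨by rw [add_sub_cancel_right]; exact hl',
        by rw [add_sub_cancel_right]; exact h1, mono_of (c := c) (fun x' y' a1 a2 a3 a4 a5 a6 =>
        key _ _ (by omega) (by omega) (by omega) (by omega)) hp⟩, rfl, kr_R.2 (Or.inl ?_)⟩
      rw [add_sub_cancel_right]
    · have hp' : (x + 1 + (Y - sh p + 1)) % 2 = 1 ↔ c = true := by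
        constructor
        · intro hh; by_contra hcc; exact hp ⟨fun h4 => by omega, fun h4 => absurd h4 hcc⟩
        · intro hh; by_contra hcc; exact hp ⟨fun _ => hh, fun _ => by omega⟩
      refine ⟨(.R, (x + 1, Y - sh p + 1)), ⟨by rw [add_sub_cancel_right]; exact h2,
        by rw [add_sub_cancel_right, add_sub_cancel_right]; exact hl',
        mono_of (c := c) (fun x' y' a1 a2 a3 a4 a5 a6 =>
          key _ _ (by omega) (by omega) (by omega) (by omega)) hp'⟩, rfl, kr_R.2 (Or.inr ?_)⟩
      rw [add_sub_cancel_right, add_sub_cancel_right]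
  · obtain ⟨hf, h1, h2, h3⟩ := flat_F h hl
    obtain ⟨c, hc⟩ := flat_col hf
    have hl' : LyF D p x (Y - sh p) := hl
    have key : ∀ x' y', x ≤ x' + 1 → x' ≤ x + 1 → (y' = Y - sh p ∨ y' = Y - sh p - 1) →
        natc D p x' y' = c := by
      intro x' y' a1 a2 a3
      have := hc p x' (y' + sh p) (by omega) (by omega) (by omega) (by omega)
        (h3 _ _ a1 a2 (by omega))
      rwa [add_sub_cancel_right] at this
    by_cases hp : (x + (Y - sh p)) % 2 = 1 ↔ c = true
    · exact ⟨(.F, (x, Y - sh p)), ⟨hl', h1, mono_of (c := c) (fun x' y' a1 a2 a3 a4 a5 a6 =>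
        key _ _ (by omega) (by omega) a6) hp⟩, rfl, kr_F.2 (Or.inl rfl)⟩
    · have hp' : (x + 1 + (Y - sh p)) % 2 = 1 ↔ c = true := by
        constructor
        · intro hh; by_contra hcc; exact hp ⟨fun h4 => by omega, fun h4 => absurd h4 hcc⟩
        · intro hh; by_contra hcc; exact hp ⟨fun _ => hh, fun _ => by omega⟩
      refine ⟨(.F, (x + 1, Y - sh p)), ⟨h2, by rw [add_sub_cancel_right]; exact hl',
        mono_of (c := c) (fun x' y' a1 a2 a3 a4 a5 a6 =>
          key _ _ (by omega) (by omega) a6) hp'⟩, rfl, kr_F.2 (Or.inr ?_)⟩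
      rw [add_sub_cancel_right]
  · obtain ⟨hf, h1, h2, h3⟩ := flat_C h hl
    obtain ⟨c, hc⟩ := flat_col hf
    have hl' : LyC D p x (Y - sh p) := hl
    have key : ∀ x' y', x ≤ x' + 1 → x' ≤ x + 1 → (y' = Y - sh p ∨ y' = Y - sh p + 1) →
        natc D p x' y' = c := by
      intro x' y' a1 a2 a3
      have := hc p x' (y' + sh p) (by omega) (by omega) (by omega) (by omega)
        (h3 _ _ a1 a2 (by omega))
      rwa [add_sub_cancel_right] at this
    by_cases hp : (x + (Y - sh p + 1)) % 2 = 1 ↔ c = true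
    · refine ⟨(.C, (x, Y - sh p + 1)), ⟨by rw [add_sub_cancel_right]; exact hl',
        by rw [add_sub_cancel_right]; exact h1, mono_of (c := c) (fun x' y' a1 a2 a3 a4 a5 a6 =>
        key _ _ (by omega) (by omega) (by omega)) hp⟩, rfl, kr_C.2 (Or.inl ?_)⟩
      rw [add_sub_cancel_right]
    · have hp' : (x + 1 + (Y - sh p + 1)) % 2 = 1 ↔ c = true := by
        constructor
        · intro hh; by_contra hcc; exact hp ⟨fun h4 => by omega, fun h4 => absurd h4 hcc⟩
        · intro hh; by_contra hcc; exact hp ⟨fun _ => hh, fun _ => by omega⟩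
      refine ⟨(.C, (x + 1, Y - sh p + 1)), ⟨by rw [add_sub_cancel_right]; exact h2,
        by rw [add_sub_cancel_right, add_sub_cancel_right]; exact hl',
        mono_of (c := c) (fun x' y' a1 a2 a3 a4 a5 a6 =>
          key _ _ (by omega) (by omega) (by omega)) hp'⟩, rfl, kr_C.2 (Or.inr ?_)⟩
      rw [add_sub_cancel_right, add_sub_cancel_right]

/-! ### The random tiles at flat places -/

/-- tile of `P` or layer tile of a group of `s` -/
def EP (D : Win) (s : Finset Gr) (x Y : ℤ) : Prop :=
  PT D x Y ∨ ∃ t : Sd, Ly D false t x Y ∧ gk D t Y ∈ s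

/-- the layer tiles in the coordinates of `P` -/
lemma Ly_sh {t : Sd} : Ly D p t x (Y - sh p) ↔ Ly D false t x Y := by
  cases t
  · change LyL D p x (Y - sh p) ↔ LyL D false x Y
    unfold LyL; rw [sub_add_cancel, sh_false, add_zero]
  · change LyR D p x (Y - sh p) ↔ LyR D false x Y
    unfold LyR; rw [sub_add_cancel, sh_false, add_zero]
  · change LyF D p x (Y - sh p) ↔ LyF D false x Y
    unfold LyF; rw [sub_add_cancel, sh_false, add_zero]
  · change LyC D p x (Y - sh p) ↔ LyC D false x Y
    unfold LyC; rw [sub_add_cancel, sh_false, add_zero]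

/-- **The random tiles of the natural windows at flat places** -/
theorem EO_flat (h : Flat D x Y) : lt (x, Y - sh p) ∈ EO D p (gA D p s) ↔ EP D s x Y := by
  rw [mem_EO]
  unfold EP
  refine or_congr (by rw [inP_PT, sub_add_cancel]) ?_
  constructor
  · rintro ⟨k, hk, hA, ht⟩
    refine ⟨k.1, Ly_sh.1 (hk.info ht).1, ?_⟩
    have := grp_tile hk ht
    rw [sub_add_cancel] at this
    rw [← this]; exact hA
  · rintro ⟨t, ht, hg⟩
    obtain ⟨k, hk, rfl, hk2⟩ := flat_tie h (Ly_sh.2 ht)
    refine ⟨k, hk, ?_, hk2⟩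
    have := grp_tile hk hk2
    rw [sub_add_cancel] at this
    unfold gA
    rw [this]; exact hg

lemma EP_iff : EP D s x Y ↔ PT D x Y ∨ (LyL D false x Y ∧ gL D Y ∈ s) ∨
    (LyR D false x Y ∧ gR D Y ∈ s) ∨ (LyF D false x Y ∧ fo ∈ s) ∨ (LyC D false x Y ∧ ce ∈ s) := by
  unfold EP
  refine or_congr Iff.rfl ?_
  constructor
  · rintro ⟨t, h1, h2⟩
    cases t
    · exact Or.inl ⟨h1, h2⟩
    · exact Or.inr (Or.inl ⟨h1, h2⟩)
    · exact Or.inr (Or.inr (Or.inl ⟨h1, h2⟩))
    · exact Or.inr (Or.inr (Or.inr ⟨h1, h2⟩))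
  · rintro (h | h | h | h)
    · exact ⟨.L, h⟩
    · exact ⟨.R, h⟩
    · exact ⟨.F, h⟩
    · exact ⟨.C, h⟩

/-! ### Pushing the walls of one side = pushing those of the other side and moving -/

/-- the vertical groups -/
def gV : Finset Gr := {ll, lu, rl, ru}

/-- the horizontal groups -/
def gH : Finset Gr := {fo, ce}

lemma gV_fo {s : Finset Gr} (h : s ⊆ gV) : fo ∉ s ∧ ce ∉ s := by
  constructor <;> intro h1 <;> have := h h1 <;> simp [gV] at this

lemma gH_v {s : Finset Gr} (h : s ⊆ gH) : ll ∉ s ∧ lu ∉ s ∧ rl ∉ s ∧ ru ∉ s := by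
  refine ⟨?_, ?_, ?_, ?_⟩ <;> intro h1 <;> have := h h1 <;> simp [gH] at this

lemma gL_mem (D : Win) (Y : ℤ) : gL D Y = ll ∨ gL D Y = lu := by
  unfold gL; split_ifs <;> simp

lemma gR_mem (D : Win) (Y : ℤ) : gR D Y = rl ∨ gR D Y = ru := by
  unfold gR; split_ifs <;> simp

/-- the sets of groups, as propositions -/
lemma EP_V_iff {s : Finset Gr} (hs : s ⊆ gV) {g : Gr} (hg : g = fo ∨ g = ce) :
    EP D ({g} ∪ s) x Y ↔ PT D x Y ∨ (LyL D false x Y ∧ gL D Y ∈ s) ∨
      (LyR D false x Y ∧ gR D Y ∈ s) ∨ (LyF D false x Y ∧ g = fo) ∨ (LyC D false x Y ∧ g = ce) := by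
  obtain ⟨n1, n2⟩ := gV_fo hs
  rw [EP_iff]
  have e1 : gL D Y ∈ ({g} : Finset Gr) ∪ s ↔ gL D Y ∈ s := by
    rcases gL_mem D Y with h | h <;> rw [h] <;> rcases hg with rfl | rfl <;> simp
  have e2 : gR D Y ∈ ({g} : Finset Gr) ∪ s ↔ gR D Y ∈ s := by
    rcases gR_mem D Y with h | h <;> rw [h] <;> rcases hg with rfl | rfl <;> simp
  have e3 : fo ∈ ({g} : Finset Gr) ∪ s ↔ g = fo := by
    rcases hg with rfl | rfl <;> simp [n1]
  have e4 : ce ∈ ({g} : Finset Gr) ∪ s ↔ g = ce := by
    rcases hg with rfl | rfl <;> simp [n2]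
  rw [e1, e2, e3, e4]

/-- **Floors and ceilings** -/
theorem EP_V {s : Finset Gr} (hs : s ⊆ gV) (h : Flat D x Y) :
    EP D ({fo} ∪ s) x Y ↔ EP D ({ce} ∪ s) x (Y + 1) := by
  rw [EP_V_iff hs (Or.inl rfl), EP_V_iff hs (Or.inr rfl)]
  simp only [reduceCtorEq, and_false, or_false, false_or, and_true]
  unfold PT LyL LyR LyF LyC
  rw [sh_false, add_zero, add_zero]
  rw [show Y + 1 - 1 = Y by ring, show Y + 1 + 1 = Y + 2 by ring]
  rcases h with (h | h | h | h | ⟨Y0, h⟩ | ⟨Y0, h⟩ | ⟨Y0, h⟩ | ⟨Y0, h⟩) | h | h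
  · obtain ⟨lo, hi, x1, x2, row, -⟩ := h
    have r0 := row (Y - 1) (by omega) (by omega)
    have r1 := row Y (by omega) (by omega)
    have r2 := row (Y + 1) (by omega) (by omega)
    have r3 := row (Y + 2) (by omega) (by omega)
    have hg : gL D Y = gL D (Y + 1) := by
      unfold gL
      have hP := D.aP
      have hne : Y + 1 ≠ D.yP := by
        intro he
        have := hP (by omega)
        rw [← he, add_sub_cancel_right] at this
        omega
      by_cases c : Y < D.yP
      · rw [if_pos c, if_pos (by omega)]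
      · rw [if_neg c, if_neg (by omega)]
    rw [← hg]
    constructor
    · rintro (h | h | h | h)
      · exact Or.inl (by omega)
      · exact Or.inr (Or.inl ⟨by omega, h.2⟩)
      · omega
      · omega
    · rintro (h | h | h | h)
      · exact Or.inl (by omega)
      · exact Or.inr (Or.inl ⟨by omega, h.2⟩)
      · omega
      · omega
  · obtain ⟨lo, hi, x1, x2, row, -⟩ := h
    have r0 := row (Y - 1) (by omega) (by omega)
    have r1 := row Y (by omega) (by omega)
    have r2 := row (Y + 1) (by omega) (by omega)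
    have r3 := row (Y + 2) (by omega) (by omega)
    have hg : gR D Y = gR D (Y + 1) := by
      unfold gR
      have hQ := D.bQ
      have hne : Y + 1 ≠ D.yQ := by
        intro he
        have := hQ (by omega)
        rw [← he, add_sub_cancel_right] at this
        omega
      by_cases c : Y < D.yQ
      · rw [if_pos c, if_pos (by omega)]
      · rw [if_neg c, if_neg (by omega)]
    rw [← hg]
    constructor
    · rintro (h | h | h | h)
      · exact Or.inl (by omega)
      · omega
      · exact Or.inr (Or.inr (Or.inl ⟨by omega, h.2⟩))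
      · omega
    · rintro (h | h | h | h)
      · exact Or.inl (by omega)
      · omega
      · exact Or.inr (Or.inr (Or.inl ⟨by omega, h.2⟩))
      · omega
  · obtain ⟨lo, hi, hh, row⟩ := h
    have r1 := row Y
    have r2 := row (Y + 1)
    have r3 := row (Y + 2)
    constructor
    · rintro (h | h | h | h) <;> first | exact Or.inl (by omega) | omega
    · rintro (h | h | h | h) <;> first
        | (exfalso; omega)
        | (by_cases c : 0 ≤ Y
           · exact Or.inl (by omega)
           · exact Or.inr (Or.inr (Or.inr (by omega))))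
  · obtain ⟨lo, hi, hh, row⟩ := h
    have r0 := row (Y - 1)
    have r1 := row Y
    have r2 := row (Y + 1)
    constructor
    · rintro (h | h | h | h) <;> first
        | (exfalso; omega)
        | (by_cases c : Y + 1 < D.h
           · exact Or.inl (by omega)
           · exact Or.inr (Or.inr (Or.inr (by omega))))
    · rintro (h | h | h | h) <;> first | exact Or.inl (by omega) | (exfalso; omega)
  · obtain ⟨lo, hi, y1, y2, up, dn, -⟩ := h
    have b0 := D.ab Y (by omega) (by omega)
    have b1 := D.ab (Y + 1) (by omega) (by omega)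
    have u0 := up Y
    have u1 := up (Y + 1)
    have u2 := up (Y + 2)
    have d0 := dn Y
    have d1 := dn (Y + 1)
    have d2 := dn (Y + 2)
    constructor
    · rintro (h | h | h | h) <;> first | (exfalso; omega) | exact Or.inl (by omega)
    · rintro (h | h | h | h) <;> first
        | (exfalso; omega)
        | (by_cases c : Y0 ≤ Y
           · exact Or.inl (by omega)
           · exact Or.inr (Or.inr (Or.inr (by omega))))
  · obtain ⟨lo, hi, y1, y2, up, dn, -⟩ := h
    have b0 := D.ab Y (by omega) (by omega)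
    have b1 := D.ab (Y + 1) (by omega) (by omega)
    have u0 := up Y
    have u1 := up (Y + 1)
    have u2 := up (Y + 2)
    have d0 := dn Y
    have d1 := dn (Y + 1)
    have d2 := dn (Y + 2)
    constructor
    · rintro (h | h | h | h) <;> first | (exfalso; omega) | exact Or.inl (by omega)
    · rintro (h | h | h | h) <;> first
        | (exfalso; omega)
        | (by_cases c : Y0 ≤ Y
           · exact Or.inl (by omega)
           · exact Or.inr (Or.inr (Or.inr (by omega))))
  · obtain ⟨lo, hi, y1, y2, dn, up, -⟩ := h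
    have b0 := D.ab Y (by omega) (by omega)
    have b1 := D.ab (Y + 1) (by omega) (by omega)
    have u0 := up Y
    have u1 := up (Y + 1)
    have u2 := up (Y + 2)
    have d0 := dn Y
    have d1 := dn (Y + 1)
    have d2 := dn (Y + 2)
    constructor
    · rintro (h | h | h | h) <;> first
        | (exfalso; omega)
        | (by_cases c : Y + 1 < Y0
           · exact Or.inl (by omega)
           · exact Or.inr (Or.inr (Or.inr (by omega))))
    · rintro (h | h | h | h) <;> first | (exfalso; omega) | exact Or.inl (by omega)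
  · obtain ⟨lo, hi, y1, y2, dn, up, -⟩ := h
    have b0 := D.ab Y (by omega) (by omega)
    have b1 := D.ab (Y + 1) (by omega) (by omega)
    have u0 := up Y
    have u1 := up (Y + 1)
    have u2 := up (Y + 2)
    have d0 := dn Y
    have d1 := dn (Y + 1)
    have d2 := dn (Y + 2)
    constructor
    · rintro (h | h | h | h) <;> first
        | (exfalso; omega)
        | (by_cases c : Y + 1 < Y0
           · exact Or.inl (by omega)
           · exact Or.inr (Or.inr (Or.inr (by omega))))
    · rintro (h | h | h | h) <;> first | (exfalso; omega) | exact Or.inl (by omega)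
  · have r1 := h Y (by omega) (by omega)
    have r2 := h (Y + 1) (by omega) (by omega)
    exact ⟨fun _ => Or.inl (by omega), fun _ => Or.inl (by omega)⟩
  · have b0 := D.ab Y
    have b1 := D.ab (Y + 1)
    have r0 := h (Y - 1) (by omega) (by omega)
    have r1 := h Y (by omega) (by omega)
    have r2 := h (Y + 1) (by omega) (by omega)
    have r3 := h (Y + 2) (by omega) (by omega)
    constructor
    · rintro (h | h | h | h) <;> (exfalso; omega)
    · rintro (h | h | h | h) <;> (exfalso; omega)

lemma EP_R_iff {s : Finset Gr} (hs : s ⊆ gH) :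
    EP D ({rl, ru} ∪ s) x Y ↔ PT D x Y ∨ LyR D false x Y ∨ (LyF D false x Y ∧ fo ∈ s) ∨
      (LyC D false x Y ∧ ce ∈ s) := by
  obtain ⟨n1, n2, n3, n4⟩ := gH_v hs
  rw [EP_iff]
  have e1 : ¬ gL D Y ∈ ({rl, ru} : Finset Gr) ∪ s := by
    rcases gL_mem D Y with h | h <;> rw [h] <;> simp [n1, n2]
  have e2 : gR D Y ∈ ({rl, ru} : Finset Gr) ∪ s := by
    rcases gR_mem D Y with h | h <;> rw [h] <;> simp
  have e3 : fo ∈ ({rl, ru} : Finset Gr) ∪ s ↔ fo ∈ s := by simp
  have e4 : ce ∈ ({rl, ru} : Finset Gr) ∪ s ↔ ce ∈ s := by simp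
  rw [e3, e4]
  constructor
  · rintro (h | h | h | h | h)
    · exact Or.inl h
    · exact absurd h.2 e1
    · exact Or.inr (Or.inl h.1)
    · exact Or.inr (Or.inr (Or.inl h))
    · exact Or.inr (Or.inr (Or.inr h))
  · rintro (h | h | h | h)
    · exact Or.inl h
    · exact Or.inr (Or.inr (Or.inl ⟨h, e2⟩))
    · exact Or.inr (Or.inr (Or.inr (Or.inl h)))
    · exact Or.inr (Or.inr (Or.inr (Or.inr h)))

lemma EP_L_iff {s : Finset Gr} (hs : s ⊆ gH) :
    EP D ({ll, lu} ∪ s) x Y ↔ PT D x Y ∨ LyL D false x Y ∨ (LyF D false x Y ∧ fo ∈ s) ∨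
      (LyC D false x Y ∧ ce ∈ s) := by
  obtain ⟨n1, n2, n3, n4⟩ := gH_v hs
  rw [EP_iff]
  have e1 : ¬ gR D Y ∈ ({ll, lu} : Finset Gr) ∪ s := by
    rcases gR_mem D Y with h | h <;> rw [h] <;> simp [n3, n4]
  have e2 : gL D Y ∈ ({ll, lu} : Finset Gr) ∪ s := by
    rcases gL_mem D Y with h | h <;> rw [h] <;> simp
  have e3 : fo ∈ ({ll, lu} : Finset Gr) ∪ s ↔ fo ∈ s := by simp
  have e4 : ce ∈ ({ll, lu} : Finset Gr) ∪ s ↔ ce ∈ s := by simp
  rw [e3, e4]
  constructor
  · rintro (h | h | h | h | h)
    · exact Or.inl h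
    · exact Or.inr (Or.inl h.1)
    · exact absurd h.2 e1
    · exact Or.inr (Or.inr (Or.inl h))
    · exact Or.inr (Or.inr (Or.inr h))
  · rintro (h | h | h | h)
    · exact Or.inl h
    · exact Or.inr (Or.inl ⟨h, e2⟩)
    · exact Or.inr (Or.inr (Or.inr (Or.inl h)))
    · exact Or.inr (Or.inr (Or.inr (Or.inr h)))

/-- **Right and left walls** -/
theorem EP_H {s : Finset Gr} (hs : s ⊆ gH) (h : Flat D x Y) :
    EP D ({rl, ru} ∪ s) x Y ↔ EP D ({ll, lu} ∪ s) (x - 1) Y := by
  rw [EP_R_iff hs, EP_L_iff hs]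
  unfold PT LyL LyR LyF LyC
  simp only [sh_false, add_zero]
  rcases h with (h | h | h | h | ⟨Y0, h⟩ | ⟨Y0, h⟩ | ⟨Y0, h⟩ | ⟨Y0, h⟩) | h | h
  · obtain ⟨lo, hi, x1, x2, row, -⟩ := h
    have r0 := row (Y - 1) (by omega) (by omega)
    have r1 := row Y (by omega) (by omega)
    have r2 := row (Y + 1) (by omega) (by omega)
    constructor
    · rintro (h | h | h | h)
      · by_cases c : D.a Y ≤ x - 1
        · exact Or.inl (by omega)
        · exact Or.inr (Or.inl (by omega))
      all_goals (exfalso; omega)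
    · rintro (h | h | h | h)
      · exact Or.inl (by omega)
      · exact Or.inl (by omega)
      all_goals (exfalso; omega)
  · obtain ⟨lo, hi, x1, x2, row, -⟩ := h
    have r0 := row (Y - 1) (by omega) (by omega)
    have r1 := row Y (by omega) (by omega)
    have r2 := row (Y + 1) (by omega) (by omega)
    constructor
    · rintro (h | h | h | h)
      · exact Or.inl (by omega)
      · exact Or.inl (by omega)
      all_goals (exfalso; omega)
    · rintro (h | h | h | h)
      · by_cases c : x < D.b Y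
        · exact Or.inl (by omega)
        · exact Or.inr (Or.inl (by omega))
      all_goals (exfalso; omega)
  · obtain ⟨lo, hi, hh, row⟩ := h
    have r0 := row (Y - 1)
    have r1 := row Y
    have r2 := row (Y + 1)
    constructor
    · rintro (h | h | h | h)
      · exact Or.inl (by omega)
      · exfalso; omega
      · exact Or.inr (Or.inr (Or.inl ⟨by omega, h.2⟩))
      · exfalso; omega
    · rintro (h | h | h | h)
      · exact Or.inl (by omega)
      · exfalso; omega
      · exact Or.inr (Or.inr (Or.inl ⟨by omega, h.2⟩))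
      · exfalso; omega
  · obtain ⟨lo, hi, hh, row⟩ := h
    have r0 := row (Y - 1)
    have r1 := row Y
    have r2 := row (Y + 1)
    constructor
    · rintro (h | h | h | h)
      · exact Or.inl (by omega)
      · exfalso; omega
      · exfalso; omega
      · exact Or.inr (Or.inr (Or.inr ⟨by omega, h.2⟩))
    · rintro (h | h | h | h)
      · exact Or.inl (by omega)
      · exfalso; omega
      · exfalso; omega
      · exact Or.inr (Or.inr (Or.inr ⟨by omega, h.2⟩))
  · obtain ⟨lo, hi, y1, y2, up, dn, -⟩ := h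
    have b0 := D.ab Y (by omega) (by omega)
    have b1 := D.ab (Y + 1) (by omega) (by omega)
    have b2 := D.ab (Y - 1) (by omega) (by omega)
    have u0 := up Y
    have u1 := up (Y + 1)
    have u2 := up (Y - 1)
    have d0 := dn Y
    have d1 := dn (Y + 1)
    have d2 := dn (Y - 1)
    constructor
    · rintro (h | h | h | h)
      · exact Or.inl (by omega)
      · exfalso; omega
      · exact Or.inr (Or.inr (Or.inl ⟨by omega, h.2⟩))
      · exfalso; omega
    · rintro (h | h | h | h)
      · exact Or.inl (by omega)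
      · exfalso; omega
      · exact Or.inr (Or.inr (Or.inl ⟨by omega, h.2⟩))
      · exfalso; omega
  · obtain ⟨lo, hi, y1, y2, up, dn, -⟩ := h
    have b0 := D.ab Y (by omega) (by omega)
    have b1 := D.ab (Y + 1) (by omega) (by omega)
    have b2 := D.ab (Y - 1) (by omega) (by omega)
    have u0 := up Y
    have u1 := up (Y + 1)
    have u2 := up (Y - 1)
    have d0 := dn Y
    have d1 := dn (Y + 1)
    have d2 := dn (Y - 1)
    constructor
    · rintro (h | h | h | h)
      · exact Or.inl (by omega)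
      · exfalso; omega
      · exact Or.inr (Or.inr (Or.inl ⟨by omega, h.2⟩))
      · exfalso; omega
    · rintro (h | h | h | h)
      · exact Or.inl (by omega)
      · exfalso; omega
      · exact Or.inr (Or.inr (Or.inl ⟨by omega, h.2⟩))
      · exfalso; omega
  · obtain ⟨lo, hi, y1, y2, dn, up, -⟩ := h
    have b0 := D.ab Y (by omega) (by omega)
    have b1 := D.ab (Y + 1) (by omega) (by omega)
    have b2 := D.ab (Y - 1) (by omega) (by omega)
    have u0 := up Y
    have u1 := up (Y + 1)
    have u2 := up (Y - 1)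
    have d0 := dn Y
    have d1 := dn (Y + 1)
    have d2 := dn (Y - 1)
    constructor
    · rintro (h | h | h | h)
      · exact Or.inl (by omega)
      · exfalso; omega
      · exfalso; omega
      · exact Or.inr (Or.inr (Or.inr ⟨by omega, h.2⟩))
    · rintro (h | h | h | h)
      · exact Or.inl (by omega)
      · exfalso; omega
      · exfalso; omega
      · exact Or.inr (Or.inr (Or.inr ⟨by omega, h.2⟩))
  · obtain ⟨lo, hi, y1, y2, dn, up, -⟩ := h
    have b0 := D.ab Y (by omega) (by omega)
    have b1 := D.ab (Y + 1) (by omega) (by omega)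
    have b2 := D.ab (Y - 1) (by omega) (by omega)
    have u0 := up Y
    have u1 := up (Y + 1)
    have u2 := up (Y - 1)
    have d0 := dn Y
    have d1 := dn (Y + 1)
    have d2 := dn (Y - 1)
    constructor
    · rintro (h | h | h | h)
      · exact Or.inl (by omega)
      · exfalso; omega
      · exfalso; omega
      · exact Or.inr (Or.inr (Or.inr ⟨by omega, h.2⟩))
    · rintro (h | h | h | h)
      · exact Or.inl (by omega)
      · exfalso; omega
      · exfalso; omega
      · exact Or.inr (Or.inr (Or.inr ⟨by omega, h.2⟩))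
  · have r1 := h Y (by omega) (by omega)
    exact ⟨fun _ => Or.inl (by omega), fun _ => Or.inl (by omega)⟩
  · have b0 := D.ab Y
    have r0 := h (Y - 1) (by omega) (by omega)
    have r1 := h Y (by omega) (by omega)
    have r2 := h (Y + 1) (by omega) (by omega)
    constructor
    · rintro (h | h | h | h) <;> (exfalso; omega)
    · rintro (h | h | h | h) <;> (exfalso; omega)

end Pool.Agent.H74.Win
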