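import Mathlib
import Pool.Agent.H74.Win.FlatE
import Pool.Agent.H74.Win.FlatC
import Pool.Agent.H33.Sp.Shift

set_option autoImplicit false
open Finset

/-! # Natural windows of the two worlds: comparison (S1, S2)

`XN O p s` : natural window of the world `p`, the walls of the groups `s` pushed out. `Sm` : tiles within
distance `10` of a corner of the polyomino. `v0_E`, `v0_W` : the world `true` with the ceilings out and the world
`false` with the floors out (and the same vertical walls) have the same random tiles away from the corners, and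
the same open tiles wherever both are not random. `Tw` : the three pairs which agree after a translation by
`(tx, ty)`: the windows `(pA, sA)` and `(pB, sB)` moved by `(tx, ty)`. `EC`, `KT`, `WC` : the environment which has
the random and open tiles of the translate of `(pB, sB)` on `KT` (random tiles and their neighbours), and the
open tiles of `(pA, sA)` outside of `KT`. `Tw.small` : it agrees with `(pA, sA)` away from the corners. -/

namespace Pool.Agent.H74.Win

open Pool.Agent.H75.Perc hiding ph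
open Pool.Agent.H75.TwoArm Pool.Agent.Q1 Pool.Agent.H33.Q1
open Pool.Agent.H75.Four hiding ev
open Pool.Agent.H69.Q1
open Pool.Agent.H74.R45 (exists_lt iW_det)
open Pool.Agent.H46.Sp (Win Out)
open Pool.Agent.H42.Sp (Sd Ix kt rt kt_odd rt_even kt_Tg rt_Tg cap_of OTp plab_at)
open Pool.Agent.H13.R45 (Tg ev gp Ag ev_true ev_false)
open Pool.Agent.H44.FM.WG (Gr)
open Pool.Agent.H44.FM.WG.Gr
open Pool.Agent.H31.Sp (Coarse CoarseC)
open Pool.Agent.H33.Sp (shl mem_shl)

variable {D : Win} {n H : ℤ} {A B : ℤ → ℤ} {YP YQ : ℤ} {CL CR : ℤ → Bool}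
variable {p : Bool} {x y x' Y Y' Y0 : ℤ} {s : Finset Gr} {Q : Ix → Prop}

/-! ### Small tiles -/

/-- within distance `10` of a corner -/
def Sm (n H : ℤ) (A B : ℤ → ℤ) (x y : ℤ) : Prop :=
  ∃ X K, (CorL H A X K ∨ CorR H B X K) ∧ x ≤ n * X + 10 ∧ n * X ≤ x + 10 ∧ y ≤ n * K + 10 ∧ n * K ≤ y + 10

/-- all tiles at distance at most `2` are flat -/
def Fl2 (D : Win) (x y : ℤ) : Prop :=
  ∀ x' Y', x ≤ x' + 2 → x' ≤ x + 2 → y ≤ Y' + 2 → Y' ≤ y + 2 → Flat D x' Y'

lemma fl2_of (C : CoarseC D n H A B YP YQ CL CR) (h30 : 30 ≤ n) (h : ¬ Sm n H A B x y) :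
    Fl2 D x y := by
  intro x' Y' h1 h2 h3 h4
  refine (flat_or C h30 x' Y').resolve_right ?_
  rintro ⟨X, K, h5, h6, h7, h8, h9⟩
  exact h ⟨X, K, h5, by omega, by omega, by omega, by omega⟩

/-- flat tiles near `P` and outside of it are boundary tiles -/
lemma flatB_of (h : Flat D x Y) (hn : ¬ PT D x Y) (h1 : x ≤ x' + 2) (h2 : x' ≤ x + 2)
    (h3 : Y ≤ Y' + 2) (h4 : Y' ≤ Y + 2) (hp : PT D x' Y') : FlatB D x Y := by
  rcases h with h | h | h
  · exact h
  · exfalso
    have := h Y (by omega) (by omega)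
    exact hn ⟨by omega, by omega, by omega, by omega⟩
  · exfalso
    obtain ⟨a1, a2, a3, a4⟩ := hp
    have := h Y' (by omega) (by omega) a1 a2
    omega

/-! ### The natural windows -/

/-- frozen tiles which are naturally open -/
noncomputable def Snat (D : Win) (p : Bool) : Finset (ℤ × ℤ) :=
  TB D fun x y => RG D p x y ∧ ¬ TT D p x y ∧ natc D p x y = true

lemma Snat_sub : Snat D p ⊆ FZ D p := by
  intro e he
  obtain ⟨x, y, rfl⟩ := exists_lt (odd_TB he)
  unfold Snat at he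
  rw [mem_TB] at he
  exact mem_FZ.2 ⟨he.2.1, he.2.2.1⟩

lemma mem_WOn : lt (x, y) ∈ WO D p Q (Snat D p) ↔
    InB D x y ∧ lt (x, y) ∉ EO D p Q ∧ natc D p x y = true := by
  rw [mem_WO, mem_WU, mem_EO]
  unfold Snat
  rw [mem_TB]
  constructor
  · rintro ((⟨h1, h2, h3, h4⟩ | ⟨h1, h2, h3, h4⟩) | ⟨h1, h2, h3⟩)
    · exact ⟨h1, fun h => h.elim h2 (fun h => h3 h.tt.rg), h4⟩
    · exact ⟨h1, fun h => h.elim h2.1 (fun h => h3 h.tt), h4⟩
    · exact ⟨h1.rg.inB, fun h => h.elim h1.rg.1 h2, h3⟩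
  · rintro ⟨h1, h2, h3⟩
    rw [not_or] at h2
    by_cases c1 : RG D p x y
    · by_cases c2 : TT D p x y
      · exact Or.inr ⟨c2, h2.2, h3⟩
      · exact Or.inl (Or.inr ⟨h1, c1, c2, h3⟩)
    · exact Or.inl (Or.inl ⟨h1, h2.1, c1, h3⟩)

/-- **The natural window** of the world `p` with the walls of the groups `s` pushed out -/
noncomputable def XN (O : OutB D) (p : Bool) (s : Finset Gr) : Env :=
  XO O p (gA D p s) (Snat D p) Snat_sub

/-! ### The bounds of the random tiles -/

lemma RG.near' (h : RG D p x y) : D.a (D.yP - 1) ≤ x + 1 ∧ x ≤ D.b D.yQ ∧ -1 ≤ y + sh p ∧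
    y + sh p ≤ D.h := by
  obtain ⟨-, x', y', h1, h2, h3, h4, h5⟩ := h
  have h6 := h5.box
  obtain ⟨h7, h8, -, -⟩ := h5
  omega

lemma EO_near (h : lt (x, y) ∈ EO D p Q) : D.a (D.yP - 1) ≤ x + 1 ∧ x ≤ D.b D.yQ ∧
    -1 ≤ y + sh p ∧ y + sh p ≤ D.h := by
  rcases mem_EO.1 h with h | h
  · have h6 := h.box
    obtain ⟨h7, h8, -, -⟩ := h
    omega
  · exact h.tt.rg.near'

lemma EO_top (hs : ce ∉ s) (h : lt (x, y) ∈ EO D p (gA D p s)) : y + sh p < D.h := by
  rcases mem_EO.1 h with h | ⟨k, hk, hA, ht⟩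
  · exact h.2.1
  · have h1 := (hk.info ht).1
    have h2 := grp_tile hk ht
    unfold gA at hA
    rw [h2] at hA
    obtain ⟨t, g⟩ := k
    cases t
    · exact h1.2.1
    · exact h1.2.1
    · have := h1.2.1
      simp only at this
      omega
    · exact absurd hA hs

/-- near `P` -/
lemma EO_P (h : lt (x, y) ∈ EO D p Q) : ∃ x' y', x ≤ x' + 1 ∧ x' ≤ x + 1 ∧ y ≤ y' + 1 ∧ y' ≤ y + 1 ∧
    InP D p x' y' := by
  rcases mem_EO.1 h with h | h
  · exact ⟨x, y, by omega, by omega, by omega, by omega, h⟩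
  · obtain ⟨-, x', y', h1, h2, h3, h4, h5⟩ := h.tt.rg
    exact ⟨x', y', by omega, by omega, by omega, by omega, h5⟩

/-! ### The same place -/

/-- the natural colours of the two worlds agree outside of both windows -/
lemma natc_both (h0 : ¬ InP D false x y) (h1 : ¬ InP D true x y) :
    natc D false x y = natc D true x y := by
  by_cases h : y < -1 ∨ D.h ≤ y ∨ x < D.m y ∨ D.M y ≤ x
  · rw [natc_out h, natc_out h]
  · exfalso
    have := closed_h (D := D) (p := false) (x := x) (y := y + 1) (by rw [sh_false]; omega)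
      (by rw [sh_false]; omega) (by rw [sh_false, add_zero, add_sub_cancel_right]; omega)
      (by rw [sh_false, add_zero, add_sub_cancel_right]; omega)
    rcases this with h2 | h2
    · refine h1 ?_
      unfold InP at h2 ⊢
      rw [sh_false, add_zero] at h2
      rw [sh_true]
      exact h2
    · rw [add_sub_cancel_right] at h2
      exact h0 h2

theorem v0_E (hs : s ⊆ gV) (hf : Fl2 D x y) : lt (x, y) ∈ EO D true (gA D true ({ce} ∪ s)) ↔
    lt (x, y) ∈ EO D false (gA D false ({fo} ∪ s)) := by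
  have h0 := EO_flat (p := false) (s := {fo} ∪ s) (hf x y (by omega) (by omega) (by omega) (by omega))
  have h1 := EO_flat (p := true) (s := {ce} ∪ s)
    (hf x (y + 1) (by omega) (by omega) (by omega) (by omega))
  rw [sh_false, sub_zero] at h0
  rw [sh_true, add_sub_cancel_right] at h1
  rw [h0, h1]
  exact (EP_V hs (hf x y (by omega) (by omega) (by omega) (by omega))).symm

theorem v0_W (hA : lt (x, y) ∉ EO D true (gA D true ({ce} ∪ s)))
    (hB : lt (x, y) ∉ EO D false (gA D false ({fo} ∪ s))) :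
    lt (x, y) ∈ WO D true (gA D true ({ce} ∪ s)) (Snat D true) ↔
      lt (x, y) ∈ WO D false (gA D false ({fo} ∪ s)) (Snat D false) := by
  rw [mem_WOn, mem_WOn]
  have h0 : ¬ InP D false x y := fun h => hB (mem_EO.2 (Or.inl h))
  have h1 : ¬ InP D true x y := fun h => hA (mem_EO.2 (Or.inl h))
  rw [natc_both h0 h1]
  tauto

/-! ### The three translations -/

/-- the pairs of natural windows which agree after a translation -/
inductive Tw : Bool → Finset Gr → Bool → Finset Gr → ℤ → ℤ → Prop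
  | v1 (s : Finset Gr) (hs : s ⊆ gV) : Tw false ({ce} ∪ s) true ({fo} ∪ s) 0 2
  | h0 (s : Finset Gr) (hs : s ⊆ gH) : Tw true ({rl, ru} ∪ s) false ({ll, lu} ∪ s) 1 (-1)
  | h1 (s : Finset Gr) (hs : s ⊆ gH) : Tw false ({rl, ru} ∪ s) true ({ll, lu} ∪ s) 1 1

variable {pA pB : Bool} {sA sB : Finset Gr} {tx ty : ℤ}

theorem Tw.E (h : Tw pA sA pB sB tx ty) (hf : Fl2 D x y) : lt (x, y) ∈ EO D pA (gA D pA sA) ↔
    lt (x - tx, y - ty) ∈ EO D pB (gA D pB sB) := by
  cases h with
  | v1 s hs =>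
    have h0 := EO_flat (p := false) (s := {ce} ∪ s) (hf x y (by omega) (by omega) (by omega) (by omega))
    have h1 := EO_flat (p := true) (s := {fo} ∪ s)
      (hf x (y - 1) (by omega) (by omega) (by omega) (by omega))
    rw [sh_false, sub_zero] at h0
    rw [sh_true, show y - 1 - 1 = y - 2 by ring] at h1
    rw [h0, sub_zero, h1]
    have := EP_V hs (hf x (y - 1) (by omega) (by omega) (by omega) (by omega))
    rw [sub_add_cancel] at this
    exact this.symm
  | h0 s hs =>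
    have h0 := EO_flat (p := true) (s := {rl, ru} ∪ s)
      (hf x (y + 1) (by omega) (by omega) (by omega) (by omega))
    have h1 := EO_flat (p := false) (s := {ll, lu} ∪ s)
      (hf (x - 1) (y + 1) (by omega) (by omega) (by omega) (by omega))
    rw [sh_true, add_sub_cancel_right] at h0
    rw [sh_false, sub_zero] at h1
    rw [h0, show y - -1 = y + 1 by ring, h1]
    exact EP_H hs (hf x (y + 1) (by omega) (by omega) (by omega) (by omega))
  | h1 s hs =>
    have h0 := EO_flat (p := false) (s := {rl, ru} ∪ s)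
      (hf x y (by omega) (by omega) (by omega) (by omega))
    have h1 := EO_flat (p := true) (s := {ll, lu} ∪ s)
      (hf (x - 1) y (by omega) (by omega) (by omega) (by omega))
    rw [sh_false, sub_zero] at h0
    rw [sh_true] at h1
    rw [h0, h1]
    exact EP_H hs (hf x y (by omega) (by omega) (by omega) (by omega))

/-- the displacements -/
lemma Tw.disp (h : Tw pA sA pB sB tx ty) : 0 ≤ tx ∧ tx ≤ 1 ∧ (tx + ty) % 2 = 0 ∧
    (∀ y : ℤ, y ≤ y - ty + sh pB + 1 ∧ y - ty + sh pB ≤ y + 1) ∧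
    (∀ y : ℤ, y + sh pA ≤ y - ty + sh pB + 1 ∧ y - ty + sh pB ≤ y + sh pA) := by
  cases h with
  | v1 s hs => rw [sh_false, sh_true]; exact ⟨by omega, by omega, by omega, by omega, by omega⟩
  | h0 s hs => rw [sh_false, sh_true]; exact ⟨by omega, by omega, by omega, by omega, by omega⟩
  | h1 s hs => rw [sh_false, sh_true]; exact ⟨by omega, by omega, by omega, by omega, by omega⟩

/-- the rows of the translate -/
lemma Tw.rows (h : Tw pA sA pB sB tx ty) (he : lt (x - tx, y - ty) ∈ EO D pB (gA D pB sB)) :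
    D.a (D.yP - 1) ≤ x + 1 ∧ x ≤ D.b D.yQ + 1 ∧ -2 ≤ y ∧ y ≤ D.h := by
  have h1 := EO_near he
  cases h with
  | v1 s hs =>
    have h2 := EO_top (s := {fo} ∪ s) (by simp [(gV_fo hs).2]) he
    rw [sh_true] at h1 h2
    omega
  | h0 s hs => rw [sh_false] at h1; omega
  | h1 s hs => rw [sh_true] at h1; omega

/-- the natural colours agree near the windows -/
theorem Tw.col (h : Tw pA sA pB sB tx ty) (hf : Fl2 D x y) (hA : ¬ InP D pA x y)
    (hB : ¬ InP D pB (x - tx) (y - ty)) {x' y' : ℤ} (h1 : x - tx ≤ x' + 2) (h2 : x' ≤ x - tx + 2)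
    (h3 : y - ty ≤ y' + 2) (h4 : y' ≤ y - ty + 2) (hp : InP D pB x' y') :
    natc D pA x y = natc D pB (x - tx) (y - ty) := by
  obtain ⟨d1, d2, -, d3, d4⟩ := h.disp
  have e3 := d3 y
  have e4 := d4 y
  have hfl : Flat D (x - tx) (y - ty + sh pB) := hf _ _ (by omega) (by omega) (by omega) (by omega)
  have hb : FlatB D (x - tx) (y - ty + sh pB) := flatB_of (x' := x') (Y' := y' + sh pB) hfl hB
    (by omega) (by omega) (by omega) (by omega) hp
  obtain ⟨c, hc⟩ := flat_col hb
  have c1 := hc pB (x - tx) (y - ty + sh pB) (by omega) (by omega) (by omega) (by omega) hB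
  have c2 := hc pA x (y + sh pA) (by omega) (by omega) (by omega) (by omega) hA
  rw [add_sub_cancel_right] at c1 c2
  rw [c1, c2]

/-! ### The translate, filled by the other window -/

/-- the lattice vector of the translation of the tiles by `(tx, ty)` -/
def vt (tx ty : ℤ) : ℤ × ℤ := ((tx - ty) / 2, (tx + ty) / 2)

lemma mem_shl_lt (h : (tx + ty) % 2 = 0) {W : Finset (ℤ × ℤ)} :
    lt (x, y) ∈ shl (vt tx ty) W ↔ lt (x - tx, y - ty) ∈ W := by
  rw [mem_shl]
  have e : (((lt (x, y)).1 - 2 * (vt tx ty).1, (lt (x, y)).2 - 2 * (vt tx ty).2) : ℤ × ℤ) =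
      lt (x - tx, y - ty) := by
    unfold lt vt
    refine Prod.ext ?_ ?_ <;> simp only <;> omega
  rw [e]

/-- random labels of the translate -/
noncomputable def EC (D : Win) (pB : Bool) (sB : Finset Gr) (tx ty : ℤ) : Finset (ℤ × ℤ) :=
  shl (vt tx ty) (EO D pB (gA D pB sB))

/-- the random labels of the translate and their neighbours -/
noncomputable def KT (D : Win) (pB : Bool) (sB : Finset Gr) (tx ty : ℤ) : Finset (ℤ × ℤ) :=
  TB D fun x y => ∃ x' y', x ≤ x' + 1 ∧ x' ≤ x + 1 ∧ y ≤ y' + 1 ∧ y' ≤ y + 1 ∧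
    lt (x', y') ∈ EC D pB sB tx ty

/-- open labels -/
noncomputable def WC (D : Win) (pA : Bool) (sA : Finset Gr) (pB : Bool) (sB : Finset Gr) (tx ty : ℤ) :
    Finset (ℤ × ℤ) :=
  (shl (vt tx ty) (WO D pB (gA D pB sB) (Snat D pB)) ∩ KT D pB sB tx ty) ∪
    (WO D pA (gA D pA sA) (Snat D pA) \ KT D pB sB tx ty)

lemma Tw.mem_EC (h : Tw pA sA pB sB tx ty) :
    lt (x, y) ∈ EC D pB sB tx ty ↔ lt (x - tx, y - ty) ∈ EO D pB (gA D pB sB) := by
  unfold EC
  exact mem_shl_lt h.disp.2.2.1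

lemma odd_shl {v : ℤ × ℤ} {W : Finset (ℤ × ℤ)} (hW : ∀ e ∈ W, (e.1 + e.2) % 2 = 1) {e : ℤ × ℤ}
    (he : e ∈ shl v W) : (e.1 + e.2) % 2 = 1 := by
  rw [mem_shl] at he
  have := hW _ he
  simp only at this
  omega

lemma odd_EC {e : ℤ × ℤ} (he : e ∈ EC D pB sB tx ty) : (e.1 + e.2) % 2 = 1 :=
  odd_shl (fun _ h => odd_TB h) he

/-- the translate of the random tiles is inside of the box, at distance at least `2` from its frame -/
lemma Tw.EC_in (h : Tw pA sA pB sB tx ty) (he : lt (x, y) ∈ EC D pB sB tx ty) :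
    D.a (D.yP - 1) ≤ x + 1 ∧ x ≤ D.b D.yQ + 1 ∧ -2 ≤ y ∧ y ≤ D.h :=
  h.rows (h.mem_EC.1 he)

lemma Tw.mem_KT (h : Tw pA sA pB sB tx ty) : lt (x, y) ∈ KT D pB sB tx ty ↔
    ∃ x' y', x ≤ x' + 1 ∧ x' ≤ x + 1 ∧ y ≤ y' + 1 ∧ y' ≤ y + 1 ∧ lt (x', y') ∈ EC D pB sB tx ty := by
  unfold KT
  rw [mem_TB]
  refine ⟨fun h => h.2, fun h1 => ⟨?_, h1⟩⟩
  obtain ⟨x', y', a1, a2, a3, a4, a5⟩ := h1
  have := h.EC_in a5
  unfold InB
  omega

lemma Tw.KT_in (h : Tw pA sA pB sB tx ty) (he : lt (x, y) ∈ KT D pB sB tx ty) :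
    D.a (D.yP - 1) ≤ x + 2 ∧ x ≤ D.b D.yQ + 2 ∧ -3 ≤ y ∧ y ≤ D.h + 1 := by
  obtain ⟨x', y', a1, a2, a3, a4, a5⟩ := h.mem_KT.1 he
  have := h.EC_in a5
  omega

lemma Tw.EC_sub (h : Tw pA sA pB sB tx ty) : EC D pB sB tx ty ⊆ KT D pB sB tx ty := by
  intro e he
  obtain ⟨x, y, rfl⟩ := exists_lt (odd_EC he)
  exact h.mem_KT.2 ⟨x, y, by omega, by omega, by omega, by omega, he⟩

lemma KT_sub_GB : KT D pB sB tx ty ⊆ GB D := TB_sub

lemma WC_sub_GB : WC D pA sA pB sB tx ty ⊆ GB D := by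
  unfold WC
  exact union_subset (inter_subset_right.trans KT_sub_GB) (sdiff_subset.trans (WO_sub Snat_sub))

lemma Tw.disjC (h : Tw pA sA pB sB tx ty) : Disjoint (EC D pB sB tx ty) (WC D pA sA pB sB tx ty) := by
  unfold WC
  rw [disjoint_union_right]
  constructor
  · rw [disjoint_left]
    intro e he he'
    unfold EC at he
    have h2 := (mem_inter.1 he').1
    rw [mem_shl] at he h2
    exact disjoint_left.1 (disj_O Snat_sub) he h2
  · rw [disjoint_left]
    intro e he he'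
    exact (mem_sdiff.1 he').2 (h.EC_sub he)

/-- **The middle environment** -/
noncomputable def XC (O : OutB D) (h : Tw pA sA pB sB tx ty) : Env :=
  XB O (EC D pB sB tx ty) (WC D pA sA pB sB tx ty) (h.EC_sub.trans KT_sub_GB) WC_sub_GB h.disjC

/-- on `KT` the open labels are those of the translate -/
lemma WC_on {e : ℤ × ℤ} (he : e ∈ KT D pB sB tx ty) : e ∈ WC D pA sA pB sB tx ty ↔
    e ∈ shl (vt tx ty) (WO D pB (gA D pB sB) (Snat D pB)) := by
  unfold WC
  rw [mem_union, mem_inter, mem_sdiff]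
  tauto

/-- outside of `KT` the open labels are those of the window `(pA, sA)` -/
lemma WC_off {e : ℤ × ℤ} (he : e ∉ KT D pB sB tx ty) : e ∈ WC D pA sA pB sB tx ty ↔
    e ∈ WO D pA (gA D pA sA) (Snat D pA) := by
  unfold WC
  rw [mem_union, mem_inter, mem_sdiff]
  tauto

/-- **The two environments agree away from the corners**, random labels -/
theorem Tw.small_E (h : Tw pA sA pB sB tx ty) (hf : Fl2 D x y) :
    lt (x, y) ∈ EC D pB sB tx ty ↔ lt (x, y) ∈ EO D pA (gA D pA sA) := by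
  rw [h.mem_EC, h.E hf]

/-- open labels -/
theorem Tw.small_W (h : Tw pA sA pB sB tx ty) (hf : Fl2 D x y) :
    lt (x, y) ∈ WC D pA sA pB sB tx ty ↔ lt (x, y) ∈ WO D pA (gA D pA sA) (Snat D pA) := by
  by_cases hK : lt (x, y) ∈ KT D pB sB tx ty
  · rw [WC_on hK, mem_shl_lt h.disp.2.2.1, mem_WOn, mem_WOn, ← h.E hf]
    obtain ⟨x', y', a1, a2, a3, a4, a5⟩ := h.mem_KT.1 hK
    have hin := h.EC_in a5
    have hB : InB D x y := by unfold InB; omega
    by_cases hE : lt (x, y) ∈ EO D pA (gA D pA sA)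
    · simp only [hE, not_true_eq_false, false_and, and_false]
    · have hEB : lt (x - tx, y - ty) ∉ EO D pB (gA D pB sB) := fun h' => hE ((h.E hf).2 h')
      rw [h.mem_EC] at a5
      have hB' : InB D (x - tx) (y - ty) := by
        have b1 := EO_near a5
        have b2 := sh_nonneg pB
        have b3 := sh_le pB
        unfold InB
        omega
      obtain ⟨x2, y2, b1, b2, b3, b4, b5⟩ := EO_P a5
      have hcol := h.col hf (fun h' => hE (mem_EO.2 (Or.inl h')))
        (fun h' => hEB (mem_EO.2 (Or.inl h'))) (x' := x2) (y' := y2) (by omega) (by omega) (by omega)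
        (by omega) b5
      rw [hcol]
      simp only [hB, hB', true_and]
  · exact WC_off hK

/-- the frame of the large box -/
theorem Tw.frame_W (h : Tw pA sA pB sB tx ty) (hfr : x + 3 < D.a (D.yP - 1) ∨ D.b D.yQ + 2 < x ∨
    y < -3 ∨ D.h + 1 < y) : lt (x, y) ∉ EC D pB sB tx ty ∧ lt (x, y) ∉ EO D pA (gA D pA sA) ∧
    (lt (x, y) ∈ WC D pA sA pB sB tx ty ↔ lt (x, y) ∈ WO D pA (gA D pA sA) (Snat D pA)) := by
  refine ⟨fun h1 => ?_, fun h1 => ?_, WC_off fun h1 => ?_⟩
  · have := h.EC_in h1; omega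
  · have := EO_near h1
    have := sh_nonneg pA
    have := sh_le pA
    omega
  · have := h.KT_in h1; omega

end Pool.Agent.H74.Win
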