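import Mathlib
import Pool.Agent.H74.Win.FlatC

set_option autoImplicit false
open Finset

/-! # Changes of the colours of the rows

`cLf D y`, `cRt D y` : the colour of the fill to the left (right) of the row `y`, for all rows. `ChL D b` : the
colour changes between the rows `b - 1` and `b`; it is constant in the `6` rows above and below, and one of the
rows `b + 1`, `b - 1` of the window reaches furthest to the left among the rows near `b`. -/

namespace Pool.Agent.H74.Win

open Pool.Agent.H46.Sp (Win)
open Pool.Agent.H31.Sp (Coarse CoarseC)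

/-- colour to the left of the row `y` -/
def cLf (D : Win) (y : ℤ) : Bool := if y < -1 then D.cb else if D.h ≤ y then D.ct else D.cl y

/-- colour to the right of the row `y` -/
def cRt (D : Win) (y : ℤ) : Bool := if y < -1 then D.cb else if D.h ≤ y then D.ct else D.cr y

/-- change on the left between the rows `b - 1` and `b` -/
structure ChL (D : Win) (b : ℤ) : Prop where
  lo : -1 ≤ b
  hi : b ≤ D.h
  up : ∀ z, b ≤ z → z ≤ b + 6 → cLf D z = cLf D b
  dn : ∀ z, b - 7 ≤ z → z < b → cLf D z = cLf D (b - 1)
  row : ∃ Y0, (Y0 = b + 1 ∨ Y0 = b - 1) ∧ 0 ≤ Y0 ∧ Y0 < D.h ∧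
    ∀ Y, 0 ≤ Y → Y < D.h → b ≤ Y + 8 → Y ≤ b + 8 → D.a Y0 ≤ D.a Y

/-- change on the right between the rows `b - 1` and `b` -/
structure ChR (D : Win) (b : ℤ) : Prop where
  lo : -1 ≤ b
  hi : b ≤ D.h
  up : ∀ z, b ≤ z → z ≤ b + 6 → cRt D z = cRt D b
  dn : ∀ z, b - 7 ≤ z → z < b → cRt D z = cRt D (b - 1)
  row : ∃ Y0, (Y0 = b + 1 ∨ Y0 = b - 1) ∧ 0 ≤ Y0 ∧ Y0 < D.h ∧
    ∀ Y, 0 ≤ Y → Y < D.h → b ≤ Y + 8 → Y ≤ b + 8 → D.b Y ≤ D.b Y0

variable {D : Win} {n H : ℤ} {A B : ℤ → ℤ} {YP YQ : ℤ} {CL CR : ℤ → Bool} {b k y z : ℤ}

lemma div_step (hn : 1 < n) (h : (b + 1) / n ≠ b / n) : b + 1 = n * ((b + 1) / n) := by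
  have e1 := Int.emod_add_mul_ediv (b + 1) n
  have e2 := Int.emod_nonneg (b + 1) (show n ≠ 0 by omega)
  have e3 := Int.emod_lt_of_pos (b + 1) (show 0 < n by omega)
  by_contra hc
  apply h
  have := (div_rng (n := n) (k := (b + 1) / n) (Z := b) (by omega) (by omega) (by omega)).1
  omega

/-- rows at distance at most `20` overlap -/
lemma wide20 (C : Coarse D n H A B) (h30 : 30 ≤ n) (h0 : 0 ≤ y) (h1 : y < D.h) (h2 : 0 ≤ z) (h3 : z < D.h)
    (h4 : y ≤ z + 20) (h5 : z ≤ y + 20) : D.a y + 20 ≤ D.b z := by
  have hn : 0 < n := by omega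
  have hy := C.row h0 h1
  have hz := C.row h2 h3
  have e1 := (C.a_le h0 h1).2
  have e2 := (C.le_b h2 h3).1
  have d1 := Int.emod_add_mul_ediv y n
  have d2 := Int.emod_nonneg y hn.ne'
  have d3 := Int.emod_lt_of_pos y hn
  have d4 := Int.emod_add_mul_ediv z n
  have d5 := Int.emod_nonneg z hn.ne'
  have d6 := Int.emod_lt_of_pos z hn
  have key : A (y / n) < B (z / n) := by
    rcases lt_trichotomy (y / n) (z / n) with h | h | h
    · have g : z / n = y / n + 1 := by
        by_contra hne
        have g1 : n * (y / n + 2) ≤ n * (z / n) := mul_le_mul_of_nonneg_left (by omega) hn.le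
        have g2 : n * (y / n + 2) = n * (y / n) + 2 * n := by ring
        omega
      rw [g]; exact C.ov1 _ hy.1 (by omega)
    · rw [h]; exact C.AB _ hz.1 hz.2
    · have g : y / n = z / n + 1 := by
        by_contra hne
        have g1 : n * (z / n + 2) ≤ n * (y / n) := mul_le_mul_of_nonneg_left (by omega) hn.le
        have g2 : n * (z / n + 2) = n * (z / n) + 2 * n := by ring
        omega
      rw [g]; exact C.ov2 _ hz.1 (by omega)
  have := mul_gap hn key
  omega

/-- the positions of the changes on the left -/
lemma chL_pos (C : CoarseC D n H A B YP YQ CL CR) (h30 : 30 ≤ n) (h : cLf D (b - 1) ≠ cLf D b) :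
    ∃ k, (b = n * k - 1 ∧ 0 ≤ k ∧ k < YP ∧ YP ≤ H) ∨ (b = n * k ∧ YP ≤ k ∧ k ≤ H ∧ 1 ≤ YP) := by
  have hn : 0 < n := by omega
  have hP := C.yP
  have hh := C.hh
  have P0 := D.P0
  have P1 := D.P1
  have hYP : 1 ≤ YP := by
    by_contra hc
    have : n * YP ≤ n * 0 := mul_le_mul_of_nonneg_left (by omega) hn.le
    rw [mul_zero] at this
    omega
  have hYH : YP ≤ H := by
    by_contra hc
    have := mul_gap hn (show H < YP by omega)
    omega
  unfold cLf at h
  by_cases c1 : b < -1
  · rw [if_pos (by omega), if_pos (by omega)] at h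
    exact absurd rfl h
  by_cases c2 : b = -1
  · exact ⟨0, Or.inl ⟨by rw [c2]; ring, le_rfl, by omega, hYH⟩⟩
  by_cases c3 : D.h < b
  · rw [if_neg (by omega), if_pos (by omega), if_neg (by omega), if_pos (by omega)] at h
    exact absurd rfl h
  by_cases c4 : b = D.h
  · exact ⟨H, Or.inr ⟨by omega, hYH, le_rfl, hYP⟩⟩
  rw [if_neg (by omega), if_neg (by omega), if_neg (by omega), if_neg (by omega),
    C.cl b (by omega) (by omega), C.cl (b - 1) (by omega) (by omega), sub_add_cancel] at h
  by_cases c5 : b + 1 < D.yP
  · rw [if_pos c5, if_pos (by omega)] at h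
    have h2 := div_step (n := n) (b := b) (by omega) fun h' => h (by rw [h'])
    refine ⟨(b + 1) / n, Or.inl ⟨by omega, Int.ediv_nonneg (by omega) hn.le, ?_, hYH⟩⟩
    by_contra hc
    have : n * YP ≤ n * ((b + 1) / n) := mul_le_mul_of_nonneg_left (by omega) hn.le
    omega
  · rw [if_neg c5] at h
    by_cases c6 : b < D.yP
    · rw [if_pos c6] at h
      exact absurd rfl h
    · rw [if_neg c6] at h
      have h2 := div_step (n := n) (b := b - 1) (by omega) (by
        rw [sub_add_cancel]; exact fun h' => h (by rw [h']))
      rw [sub_add_cancel] at h2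
      refine ⟨b / n, Or.inr ⟨h2, ?_, ?_, hYP⟩⟩
      · by_contra hc
        have := mul_gap hn (show b / n < YP by omega)
        omega
      · by_contra hc
        have := mul_gap hn (show H < b / n by omega)
        omega

/-- **The changes on the left** -/
theorem chL_of (C : CoarseC D n H A B YP YQ CL CR) (h30 : 30 ≤ n) (h : cLf D (b - 1) ≠ cLf D b) :
    ChL D b := by
  have hn : 0 < n := by omega
  have hP := C.yP
  have hh := C.hh
  obtain ⟨k, ⟨hb, k0, k1, k2⟩ | ⟨hb, k0, k1, k2⟩⟩ := chL_pos C h30 h
  · -- lower corner
    have g1 := mul_gap hn k1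
    have g2 : n * YP ≤ n * H := mul_le_mul_of_nonneg_left k2 hn.le
    have g3 : 0 ≤ n * k := mul_nonneg hn.le k0
    have hst : 0 < k → A k < A (k - 1) := by
      intro hk
      have g4 : n ≤ n * k := by nlinarith
      have h1 : D.cl (b - 1) ≠ D.cl b := by
        unfold cLf at h
        rwa [if_neg (by omega), if_neg (by omega), if_neg (by omega), if_neg (by omega)] at h
      have h2 : Pool.Agent.H46.Sp.mm D.a D.yP (b - 1) ≠ Pool.Agent.H46.Sp.mm D.a D.yP b := by
        intro h'
        have := D.scl (b - 1) (by omega) (by omega)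
        rw [sub_add_cancel] at this
        exact h1 (this h')
      unfold Pool.Agent.H46.Sp.mm at h2
      rw [sub_add_cancel, if_pos (by omega), if_pos (by omega)] at h2
      have h3 := D.aL b (by omega) (by omega)
      have r1 := (row_dn C.toCoarse h30 hk (by omega) (Z := b) (by omega) (by omega)).2.2.1
      have r2 := (row_up C.toCoarse h30 k0 (by omega) (Z := b + 1) (by omega) (by omega)).2.2.1
      by_contra hc
      rcases eq_or_lt_of_le (show A (k - 1) ≤ A k by omega) with e | e
      · rw [← e] at r2
        omega
      · have := mul_gap hn e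
        omega
    have ha : ∀ Y, 0 ≤ Y → Y < D.h → b ≤ Y + 8 → Y ≤ b + 8 → n * A k ≤ D.a Y := by
      intro Y y0 y1 y2 y3
      by_cases c : n * k ≤ Y
      · have r := (row_up C.toCoarse h30 k0 (by omega) (Z := Y) c (by omega)).2.2.1
        rcases r with r | ⟨-, -, r3, r4⟩
        · omega
        · have := hst r3
          omega
      · have hk : 0 < k := by
          by_contra hc
          have : k = 0 := by omega
          subst this
          rw [mul_zero] at c
          omega
        have r := (row_dn C.toCoarse h30 hk (by omega) (Z := Y) (by omega) (by omega)).2.2.1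
        have := mul_gap hn (hst hk)
        omega
    have ha0 : D.a (b + 1) ≤ n * A k := by
      have r := (row_up C.toCoarse h30 k0 (by omega) (Z := b + 1) (by omega) (by omega)).2.2.1
      omega
    have cup : ∀ z, b ≤ z → z ≤ b + 6 → cLf D z = CL k := by
      intro z h1 h2
      unfold cLf
      rw [if_neg (by omega), if_neg (by omega), C.cl z (by omega) (by omega), if_pos (by omega),
        (div_rng (n := n) (k := k) (Z := z + 1) hn (by omega) (by omega)).1]
    have cdn : ∀ z, b - 7 ≤ z → z < b → cLf D z = if k = 0 then D.cb else CL (k - 1) := by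
      intro z h1 h2
      by_cases c : k = 0
      · subst c
        rw [mul_zero] at hb
        rw [if_pos rfl]
        unfold cLf
        rw [if_pos (by omega)]
      · have g4 : n ≤ n * k := by nlinarith [show 1 ≤ k by omega]
        rw [if_neg c]
        unfold cLf
        have e : n * (k - 1) = n * k - n := by ring
        rw [if_neg (by omega), if_neg (by omega), C.cl z (by omega) (by omega), if_pos (by omega),
          (div_rng (n := n) (k := k - 1) (Z := z + 1) hn (by omega) (by omega)).1]
    refine ⟨by omega, by omega, fun z h1 h2 => ?_, fun z h1 h2 => ?_, b + 1, Or.inl rfl, by omega,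
      by omega, fun Y y0 y1 y2 y3 => ha0.trans (ha Y y0 y1 y2 y3)⟩
    · rw [cup z h1 h2, cup b le_rfl (by omega)]
    · rw [cdn z h1 h2, cdn (b - 1) (by omega) (by omega)]
  · -- upper corner
    have g1 : n * YP ≤ n * k := mul_le_mul_of_nonneg_left k0 hn.le
    have g2 : n * k ≤ n * H := mul_le_mul_of_nonneg_left k1 hn.le
    have g3 : n ≤ n * YP := by nlinarith
    have e : n * (k - 1) = n * k - n := by ring
    have hst : k < H → A (k - 1) < A k := by
      intro hk
      have g4 := mul_gap hn hk
      have h1 : D.cl (b - 1) ≠ D.cl b := by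
        unfold cLf at h
        rwa [if_neg (by omega), if_neg (by omega), if_neg (by omega), if_neg (by omega)] at h
      have h2 : Pool.Agent.H46.Sp.mm D.a D.yP (b - 1) ≠ Pool.Agent.H46.Sp.mm D.a D.yP b := by
        intro h'
        have := D.scl (b - 1) (by omega) (by omega)
        rw [sub_add_cancel] at this
        exact h1 (this h')
      unfold Pool.Agent.H46.Sp.mm at h2
      rw [sub_add_cancel, if_neg (by omega), if_neg (by omega)] at h2
      have h3 : D.a (b - 1) < D.a b := by
        rcases eq_or_lt_of_le (show D.yP ≤ b by omega) with c | c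
        · have := D.aP (by omega)
          rwa [c] at this
        · have := D.aU (b - 1) (by omega) (by omega)
          rw [sub_add_cancel] at this
          omega
      have r1 := (row_dn C.toCoarse h30 (k := k) (by omega) (by omega) (Z := b - 1) (by omega) (by omega)).2.2.1
      have r2 := (row_up C.toCoarse h30 (k := k) (by omega) (by omega) (Z := b) (by omega) (by omega)).2.2.1
      by_contra hc
      rcases eq_or_lt_of_le (show A k ≤ A (k - 1) by omega) with e | e
      · rw [← e] at r1
        omega
      · have := mul_gap hn e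
        omega
    have ha : ∀ Y, 0 ≤ Y → Y < D.h → b ≤ Y + 8 → Y ≤ b + 8 → n * A (k - 1) ≤ D.a Y := by
      intro Y y0 y1 y2 y3
      by_cases c : Y < n * k
      · have r := (row_dn C.toCoarse h30 (k := k) (by omega) k1 (Z := Y) (by omega) c).2.2.1
        rcases r with r | ⟨-, -, r3, r4⟩
        · omega
        · have := hst r3
          omega
      · have hk : k < H := by
          by_contra hc
          have : k = H := by omega
          subst this
          omega
        have r := (row_up C.toCoarse h30 (k := k) (by omega) hk (Z := Y) (by omega) (by omega)).2.2.1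
        have := mul_gap hn (hst hk)
        omega
    have ha0 : D.a (b - 1) ≤ n * A (k - 1) := by
      have r := (row_dn C.toCoarse h30 (k := k) (by omega) k1 (Z := b - 1) (by omega) (by omega)).2.2.1
      omega
    have cup : ∀ z, b ≤ z → z ≤ b + 6 → cLf D z = if k = H then D.ct else CL k := by
      intro z h1 h2
      by_cases c : k = H
      · subst c
        rw [if_pos rfl]
        unfold cLf
        rw [if_neg (by omega), if_pos (by omega)]
      · rw [if_neg c]
        have g4 := mul_gap hn (show k < H by omega)
        unfold cLf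
        rw [if_neg (by omega), if_neg (by omega), C.cl z (by omega) (by omega), if_neg (by omega),
          (div_rng (n := n) (k := k) (Z := z) hn (by omega) (by omega)).1]
    have cdn : ∀ z, b - 7 ≤ z → z < b → cLf D z = CL (k - 1) := by
      intro z h1 h2
      unfold cLf
      rw [if_neg (by omega), if_neg (by omega), C.cl z (by omega) (by omega)]
      by_cases c : z + 1 < D.yP
      · rw [if_pos c, (div_rng (n := n) (k := k - 1) (Z := z + 1) hn (by omega) (by
          by_contra hc
          have h5 : D.yP ≤ z + 1 := by
            have : n * k ≤ z + 1 := by omega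
            omega
          omega)).1]
      · rw [if_neg c, (div_rng (n := n) (k := k - 1) (Z := z) hn (by omega) (by omega)).1]
    refine ⟨by omega, by omega, fun z h1 h2 => ?_, fun z h1 h2 => ?_, b - 1, Or.inr rfl, by omega,
      by omega, fun Y y0 y1 y2 y3 => ha0.trans (ha Y y0 y1 y2 y3)⟩
    · rw [cup z h1 h2, cup b le_rfl (by omega)]
    · rw [cdn z h1 h2, cdn (b - 1) (by omega) (by omega)]

/-- the positions of the changes on the right -/
lemma chR_pos (C : CoarseC D n H A B YP YQ CL CR) (h30 : 30 ≤ n) (h : cRt D (b - 1) ≠ cRt D b) :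
    ∃ k, (b = n * k - 1 ∧ 0 ≤ k ∧ k ≤ YQ ∧ YQ < H) ∨ (b = n * k ∧ YQ < k ∧ k ≤ H ∧ 0 ≤ YQ) := by
  have hn : 0 < n := by omega
  have hQ := C.yQ
  have hh := C.hh
  have Q0 := D.Q0
  have Q1 := D.Q1
  have hYQ : 0 ≤ YQ := by
    by_contra hc
    have := mul_gap hn (show YQ < 0 by omega)
    rw [mul_zero] at this
    omega
  have hYH : YQ < H := by
    by_contra hc
    have : n * H ≤ n * YQ := mul_le_mul_of_nonneg_left (by omega) hn.le
    omega
  unfold cRt at h
  by_cases c1 : b < -1
  · rw [if_pos (by omega), if_pos (by omega)] at h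
    exact absurd rfl h
  by_cases c2 : b = -1
  · exact ⟨0, Or.inl ⟨by rw [c2]; ring, le_rfl, hYQ, hYH⟩⟩
  by_cases c3 : D.h < b
  · rw [if_neg (by omega), if_pos (by omega), if_neg (by omega), if_pos (by omega)] at h
    exact absurd rfl h
  by_cases c4 : b = D.h
  · exact ⟨H, Or.inr ⟨by omega, hYH, le_rfl, hYQ⟩⟩
  rw [if_neg (by omega), if_neg (by omega), if_neg (by omega), if_neg (by omega),
    C.cr b (by omega) (by omega), C.cr (b - 1) (by omega) (by omega), sub_add_cancel] at h
  by_cases c5 : b < D.yQ
  · rw [if_pos c5, if_pos (by omega)] at h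
    have h2 := div_step (n := n) (b := b) (by omega) fun h' => h (by rw [h'])
    refine ⟨(b + 1) / n, Or.inl ⟨by omega, Int.ediv_nonneg (by omega) hn.le, ?_, hYH⟩⟩
    by_contra hc
    have := mul_gap hn (show YQ < (b + 1) / n by omega)
    omega
  · rw [if_neg c5] at h
    by_cases c6 : b - 1 < D.yQ
    · rw [if_pos c6] at h
      exact absurd rfl h
    · rw [if_neg c6] at h
      have h2 := div_step (n := n) (b := b - 1) (by omega) (by
        rw [sub_add_cancel]; exact fun h' => h (by rw [h']))
      rw [sub_add_cancel] at h2
      refine ⟨b / n, Or.inr ⟨h2, ?_, ?_, hYQ⟩⟩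
      · by_contra hc
        have : n * (b / n) ≤ n * YQ := mul_le_mul_of_nonneg_left (by omega) hn.le
        omega
      · by_contra hc
        have := mul_gap hn (show H < b / n by omega)
        omega

/-- **The changes on the right** -/
theorem chR_of (C : CoarseC D n H A B YP YQ CL CR) (h30 : 30 ≤ n) (h : cRt D (b - 1) ≠ cRt D b) :
    ChR D b := by
  have hn : 0 < n := by omega
  have hQ := C.yQ
  have hh := C.hh
  obtain ⟨k, ⟨hb, k0, k1, k2⟩ | ⟨hb, k0, k1, k2⟩⟩ := chR_pos C h30 h
  · -- lower corner
    have g1 : n * k ≤ n * YQ := mul_le_mul_of_nonneg_left k1 hn.le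
    have g2 := mul_gap hn k2
    have g3 : 0 ≤ n * k := mul_nonneg hn.le k0
    have hst : 0 < k → B (k - 1) < B k := by
      intro hk
      have g4 : n ≤ n * k := by nlinarith
      have h1 : D.cr (b - 1) ≠ D.cr b := by
        unfold cRt at h
        rwa [if_neg (by omega), if_neg (by omega), if_neg (by omega), if_neg (by omega)] at h
      have h2 : Pool.Agent.H46.Sp.MM D.b D.yQ (b - 1) ≠ Pool.Agent.H46.Sp.MM D.b D.yQ b := by
        intro h'
        have := D.scr (b - 1) (by omega) (by omega)
        rw [sub_add_cancel] at this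
        exact h1 (this h')
      unfold Pool.Agent.H46.Sp.MM at h2
      rw [sub_add_cancel, if_pos (by omega), if_pos (by omega)] at h2
      have h3 : D.b b < D.b (b + 1) := by
        rcases eq_or_lt_of_le (show b + 1 ≤ D.yQ by omega) with c | c
        · have := D.bQ (by omega)
          rw [← c, add_sub_cancel_right] at this
          exact this
        · have := D.bL b (by omega) c
          omega
      have r1 := (row_dn C.toCoarse h30 hk (by omega) (Z := b) (by omega) (by omega)).2.2.2
      have r2 := (row_up C.toCoarse h30 k0 (by omega) (Z := b + 1) (by omega) (by omega)).2.2.2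
      by_contra hc
      rcases eq_or_lt_of_le (show B k ≤ B (k - 1) by omega) with e | e
      · rw [e] at r2
        omega
      · have := mul_gap hn e
        omega
    have ha : ∀ Y, 0 ≤ Y → Y < D.h → b ≤ Y + 8 → Y ≤ b + 8 → D.b Y ≤ n * B k := by
      intro Y y0 y1 y2 y3
      by_cases c : n * k ≤ Y
      · have r := (row_up C.toCoarse h30 k0 (by omega) (Z := Y) c (by omega)).2.2.2
        rcases r with r | ⟨-, -, r3, r4⟩
        · omega
        · have := hst r3
          omega
      · have hk : 0 < k := by
          by_contra hc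
          have : k = 0 := by omega
          subst this
          rw [mul_zero] at c
          omega
        have r := (row_dn C.toCoarse h30 hk (by omega) (Z := Y) (by omega) (by omega)).2.2.2
        have := mul_gap hn (hst hk)
        omega
    have ha0 : n * B k ≤ D.b (b + 1) := by
      have r := (row_up C.toCoarse h30 k0 (by omega) (Z := b + 1) (by omega) (by omega)).2.2.2
      omega
    have cup : ∀ z, b ≤ z → z ≤ b + 6 → cRt D z = CR k := by
      intro z h1 h2
      unfold cRt
      rw [if_neg (by omega), if_neg (by omega), C.cr z (by omega) (by omega)]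
      by_cases c : z < D.yQ
      · rw [if_pos c, (div_rng (n := n) (k := k) (Z := z + 1) hn (by omega) (by omega)).1]
      · rw [if_neg c, (div_rng (n := n) (k := k) (Z := z) hn (by
          by_contra hc
          omega) (by omega)).1]
    have cdn : ∀ z, b - 7 ≤ z → z < b → cRt D z = if k = 0 then D.cb else CR (k - 1) := by
      intro z h1 h2
      by_cases c : k = 0
      · subst c
        rw [mul_zero] at hb
        rw [if_pos rfl]
        unfold cRt
        rw [if_pos (by omega)]
      · have g4 : n ≤ n * k := by nlinarith [show 1 ≤ k by omega]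
        rw [if_neg c]
        unfold cRt
        have e : n * (k - 1) = n * k - n := by ring
        rw [if_neg (by omega), if_neg (by omega), C.cr z (by omega) (by omega), if_pos (by omega),
          (div_rng (n := n) (k := k - 1) (Z := z + 1) hn (by omega) (by omega)).1]
    refine ⟨by omega, by omega, fun z h1 h2 => ?_, fun z h1 h2 => ?_, b + 1, Or.inl rfl, by omega,
      by omega, fun Y y0 y1 y2 y3 => (ha Y y0 y1 y2 y3).trans ha0⟩
    · rw [cup z h1 h2, cup b le_rfl (by omega)]
    · rw [cdn z h1 h2, cdn (b - 1) (by omega) (by omega)]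
  · -- upper corner
    have g1 := mul_gap hn k0
    have g2 : n * k ≤ n * H := mul_le_mul_of_nonneg_left k1 hn.le
    have g3 : 0 ≤ n * YQ := mul_nonneg hn.le k2
    have e : n * (k - 1) = n * k - n := by ring
    have hst : k < H → B k < B (k - 1) := by
      intro hk
      have g4 := mul_gap hn hk
      have h1 : D.cr (b - 1) ≠ D.cr b := by
        unfold cRt at h
        rwa [if_neg (by omega), if_neg (by omega), if_neg (by omega), if_neg (by omega)] at h
      have h2 : Pool.Agent.H46.Sp.MM D.b D.yQ (b - 1) ≠ Pool.Agent.H46.Sp.MM D.b D.yQ b := by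
        intro h'
        have := D.scr (b - 1) (by omega) (by omega)
        rw [sub_add_cancel] at this
        exact h1 (this h')
      unfold Pool.Agent.H46.Sp.MM at h2
      rw [sub_add_cancel, if_neg (by omega), if_neg (by omega)] at h2
      have h3 : D.b b < D.b (b - 1) := by
        have := D.bU (b - 1) (by omega) (by omega)
        rw [sub_add_cancel] at this
        omega
      have r1 := (row_dn C.toCoarse h30 (k := k) (by omega) (by omega) (Z := b - 1) (by omega) (by omega)).2.2.2
      have r2 := (row_up C.toCoarse h30 (k := k) (by omega) (by omega) (Z := b) (by omega) (by omega)).2.2.2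
      by_contra hc
      rcases eq_or_lt_of_le (show B (k - 1) ≤ B k by omega) with e | e
      · rw [← e] at r2
        rw [← e] at r1
        omega
      · have := mul_gap hn e
        omega
    have ha : ∀ Y, 0 ≤ Y → Y < D.h → b ≤ Y + 8 → Y ≤ b + 8 → D.b Y ≤ n * B (k - 1) := by
      intro Y y0 y1 y2 y3
      by_cases c : Y < n * k
      · have r := (row_dn C.toCoarse h30 (k := k) (by omega) k1 (Z := Y) (by omega) c).2.2.2
        rcases r with r | ⟨-, -, r3, r4⟩
        · omega
        · have := hst r3
          omega
      · have hk : k < H := by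
          by_contra hc
          have : k = H := by omega
          subst this
          omega
        have r := (row_up C.toCoarse h30 (k := k) (by omega) hk (Z := Y) (by omega) (by omega)).2.2.2
        have := mul_gap hn (hst hk)
        omega
    have ha0 : n * B (k - 1) ≤ D.b (b - 1) := by
      have r := (row_dn C.toCoarse h30 (k := k) (by omega) k1 (Z := b - 1) (by omega) (by omega)).2.2.2
      omega
    have cup : ∀ z, b ≤ z → z ≤ b + 6 → cRt D z = if k = H then D.ct else CR k := by
      intro z h1 h2
      by_cases c : k = H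
      · subst c
        rw [if_pos rfl]
        unfold cRt
        rw [if_neg (by omega), if_pos (by omega)]
      · rw [if_neg c]
        have g4 := mul_gap hn (show k < H by omega)
        unfold cRt
        rw [if_neg (by omega), if_neg (by omega), C.cr z (by omega) (by omega), if_neg (by omega),
          (div_rng (n := n) (k := k) (Z := z) hn (by omega) (by omega)).1]
    have cdn : ∀ z, b - 7 ≤ z → z < b → cRt D z = CR (k - 1) := by
      intro z h1 h2
      unfold cRt
      rw [if_neg (by omega), if_neg (by omega), C.cr z (by omega) (by omega), if_neg (by omega),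
        (div_rng (n := n) (k := k - 1) (Z := z) hn (by omega) (by omega)).1]
    refine ⟨by omega, by omega, fun z h1 h2 => ?_, fun z h1 h2 => ?_, b - 1, Or.inr rfl, by omega,
      by omega, fun Y y0 y1 y2 y3 => (ha Y y0 y1 y2 y3).trans ha0⟩
    · rw [cup z h1 h2, cup b le_rfl (by omega)]
    · rw [cdn z h1 h2, cdn (b - 1) (by omega) (by omega)]

end Pool.Agent.H74.Win
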