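import Mathlib
import Pool.Agent.H33.Sp.SameNat

set_option autoImplicit false
open Finset

/-! # Recolouring tiles between an open and a closed row

`GS Q π p q` : a step between two corners of parity `π` of a passable tile. `Sup Q S ε` : above (`ε = 1`) or
below (`ε = -1`) each tile of `S` there is a tile of `Q`, on the other side there is none, and the columns next
to a tile of `S` are monotone. `gs_lift` : then `S` can be left out. `Rec E W S ε` : the same for the open labels
`W` and the closed labels; `Rec.co`, `Rec.dco` : `W` and `W ∪ S` have the same connections. -/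

namespace Pool.Agent.H74.Win

open Pool.Agent.H75.Perc hiding ph
open Pool.Agent.H75.TwoArm Pool.Agent.Q1 Pool.Agent.H33.Q1
open Pool.Agent.H75.Four hiding ev Tch
open Pool.Agent.H69.Q1
open Pool.Agent.H33.R45 (rco rdco)
open Pool.Agent.H33.Sp
open Pool.Agent.H13.R45 (gp)
open Pool.Agent.H74.R45 (exists_lt)

/-- a step through a passable tile -/
def GS (Q : ℤ → ℤ → Prop) (π : ℤ) (p q : ℤ × ℤ) : Prop :=
  ∃ x y, Q x y ∧ Tch x y p ∧ Tch x y q ∧ (p.1 + p.2) % 2 = π ∧ (q.1 + q.2) % 2 = π

/-- the tiles of `S` lie between passable and not passable tiles -/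
structure Sup (Q S : ℤ → ℤ → Prop) (ε : ℤ) : Prop where
  ns : ∀ x y, S x y → ¬ Q x y
  up : ∀ x y, S x y → Q x (y + ε)
  dn : ∀ x y, S x y → ¬ Q x (y - ε)
  mid : ∀ x y x', S x y → (x' = x - 1 ∨ x' = x + 1) →
    S x' y ∨ ((Q x' (y - ε) → Q x' y) ∧ (Q x' y → Q x' (y + ε)))
  iso : ∀ x y x' y', S x y → S x' y' → x - 1 ≤ x' → x' ≤ x + 1 → y - 1 ≤ y' → y' ≤ y + 1 → y' = y

variable {Q S : ℤ → ℤ → Prop} {ε π : ℤ} {x y x' y' : ℤ} {p q : ℤ × ℤ}

/-- height of the supported side -/
def sh' (ε y : ℤ) : ℤ := y + (1 + ε) / 2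

/-- corner on the supported side -/
def su (ε π x y : ℤ) : ℤ × ℤ := (x + (x + sh' ε y + π) % 2, sh' ε y)

lemma GS.symm (h : GS Q π p q) : GS Q π q p := by
  obtain ⟨x, y, h1, h2, h3, h4, h5⟩ := h
  exact ⟨x, y, h1, h3, h2, h5, h4⟩

lemma rtg_symm {u v : ℤ × ℤ} (h : Relation.ReflTransGen (GS Q π) u v) :
    Relation.ReflTransGen (GS Q π) v u := by
  induction h with
  | refl => exact Relation.ReflTransGen.refl
  | tail _ h2 ih => exact Relation.ReflTransGen.head h2.symm ih

lemma gs1 {a b c d x y : ℤ} (h : Q x y) (h1 : x ≤ a) (h2 : a ≤ x + 1) (h3 : y ≤ b) (h4 : b ≤ y + 1)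
    (h5 : x ≤ c) (h6 : c ≤ x + 1) (h7 : y ≤ d) (h8 : d ≤ y + 1) (h9 : (a + b) % 2 = π)
    (h10 : (c + d) % 2 = π) : Relation.ReflTransGen (GS Q π) (a, b) (c, d) :=
  Relation.ReflTransGen.single ⟨x, y, h, ⟨h1, h2, h3, h4⟩, ⟨h5, h6, h7, h8⟩, h9, h10⟩

lemma su_tch (hε : ε = 1 ∨ ε = -1) (hπ : π = 0 ∨ π = 1) :
    Tch x y (su ε π x y) ∧ ((su ε π x y).1 + (su ε π x y).2) % 2 = π := by
  unfold Tch su sh'
  rcases hε with rfl | rfl <;> rcases hπ with rfl | rfl <;> simp only <;> omega

/-- two tiles of `S` at the same corner have joined supports -/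
lemma su_step (H : Sup Q S ε) (hε : ε = 1 ∨ ε = -1) (hπ : π = 0 ∨ π = 1) (h : S x y) (h' : S (x + 1) y) :
    Relation.ReflTransGen (GS Q π) (su ε π x y) (su ε π (x + 1) y) := by
  have u1 := H.up _ _ h
  have u2 := H.up _ _ h'
  unfold su sh'
  rcases hε with rfl | rfl
  · rw [show y + (1 + 1) / 2 = y + 1 by omega]
    rcases Int.emod_two_eq_zero_or_one (x + (y + 1) + π) with e | e
    · rw [e, show (x + 1 + (y + 1) + π) % 2 = 1 by omega]
      exact (gs1 (a := x + 0) (b := y + 1) (c := x + 1) (d := y + 2) u1 (by omega) (by omega)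
        (by omega) (by omega) (by omega) (by omega) (by omega) (by omega) (by omega)
        (by omega)).trans (gs1 u2 (by omega) (by omega) (by omega) (by omega) (by omega)
        (by omega) (by omega) (by omega) (by omega) (by omega))
    · rw [e, show (x + 1 + (y + 1) + π) % 2 = 0 by omega, add_zero]
  · rw [show y + (1 + -1) / 2 = y by omega]
    rcases Int.emod_two_eq_zero_or_one (x + y + π) with e | e
    · rw [e, show (x + 1 + y + π) % 2 = 1 by omega]
      exact (gs1 (a := x + 0) (b := y) (c := x + 1) (d := y - 1) u1 (by omega) (by omega)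
        (by omega) (by omega) (by omega) (by omega) (by omega) (by omega) (by omega)
        (by omega)).trans (gs1 u2 (by omega) (by omega) (by omega) (by omega) (by omega)
        (by omega) (by omega) (by omega) (by omega) (by omega))
    · rw [e, show (x + 1 + y + π) % 2 = 0 by omega, add_zero]

lemma su_con (H : Sup Q S ε) (hε : ε = 1 ∨ ε = -1) (hπ : π = 0 ∨ π = 1) {w : ℤ × ℤ} (h : S x y)
    (h' : S x' y') (h1 : Tch x y w) (h2 : Tch x' y' w) :
    Relation.ReflTransGen (GS Q π) (su ε π x y) (su ε π x' y') := by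
  unfold Tch at h1 h2
  have e := H.iso _ _ _ _ h h' (by omega) (by omega) (by omega) (by omega)
  subst e
  rcases (by omega : x' = x ∨ x' = x + 1 ∨ x = x' + 1) with e | e | e
  · subst e; exact Relation.ReflTransGen.refl
  · subst e; exact su_step H hε hπ h h'
  · subst e; exact rtg_symm (su_step H hε hπ h' h)

/-- a corner of a tile of `S` which touches a passable tile is joined to the support -/
lemma su_pass (H : Sup Q S ε) (hε : ε = 1 ∨ ε = -1) (hπ : π = 0 ∨ π = 1) {w : ℤ × ℤ} (hw : (w.1 + w.2) % 2 = π)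
    (h : S x y) (h1 : Tch x y w) (h' : Q x' y') (h2 : Tch x' y' w) :
    Relation.ReflTransGen (GS Q π) w (su ε π x y) := by
  obtain ⟨a, b⟩ := w
  unfold Tch at h1 h2
  simp only at hw h1 h2
  have u1 := H.up _ _ h
  by_cases hb : b = sh' ε y
  · have : ((a, b) : ℤ × ℤ) = su ε π x y := by
      unfold su
      rw [← hb]
      refine Prod.ext ?_ rfl
      simp only
      rcases hπ with rfl | rfl <;> omega
    rw [this]
  -- a passable tile in the row of `S`
  obtain ⟨x2, k1, k2, k3, k4, k5⟩ : ∃ x2, Q x2 y ∧ (x2 = x - 1 ∨ x2 = x + 1) ∧ x2 ≤ a ∧ a ≤ x2 + 1 ∧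
      Q x2 (y + ε) := by
    have key : ∀ x2, Q x2 y → x2 ≤ a → a ≤ x2 + 1 → ∃ x2, Q x2 y ∧ (x2 = x - 1 ∨ x2 = x + 1) ∧ x2 ≤ a ∧
        a ≤ x2 + 1 ∧ Q x2 (y + ε) := by
      intro x2 g1 g2 g3
      have g4 : x2 = x - 1 ∨ x2 = x + 1 := by
        by_contra hc
        have : x2 = x := by omega
        subst this
        exact H.ns _ _ h g1
      refine ⟨x2, g1, g4, g2, g3, ?_⟩
      rcases H.mid _ _ _ h g4 with g5 | g5
      · exact absurd g1 (H.ns _ _ g5)
      · exact g5.2 g1
    by_cases hy : y' = y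
    · subst hy
      exact key x' h' (by omega) (by omega)
    · have hy' : y' = y - ε := by
        unfold sh' at hb
        rcases hε with rfl | rfl <;> omega
      subst hy'
      have g4 : x' = x - 1 ∨ x' = x + 1 := by
        by_contra hc
        have : x' = x := by omega
        subst this
        exact H.dn _ _ h h'
      rcases H.mid _ _ _ h g4 with g5 | g5
      · exact absurd h' (H.dn _ _ g5)
      · exact key x' (g5.1 h') (by omega) (by omega)
  unfold sh' at hb
  unfold su sh'
  rcases hε with rfl | rfl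
  · rw [show y + (1 + 1) / 2 = y + 1 by omega] at hb ⊢
    have hb' : b = y := by omega
    subst hb'
    rcases k2 with rfl | rfl
    · have ha : a = x := by omega
      subst ha
      rw [show (a + (b + 1) + π) % 2 = 1 by omega]
      exact (gs1 (c := a - 1) (d := b + 1) k1 (by omega) (by omega) (by omega) (by omega) (by omega)
        (by omega) (by omega) (by omega) (by omega) (by omega)).trans
        ((gs1 (c := a) (d := b + 2) k5 (by omega) (by omega) (by omega) (by omega) (by omega)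
        (by omega) (by omega) (by omega) (by omega) (by omega)).trans
        (gs1 u1 (by omega) (by omega) (by omega) (by omega) (by omega)
        (by omega) (by omega) (by omega) (by omega) (by omega)))
    · have ha : a = x + 1 := by omega
      subst ha
      rw [show (x + (b + 1) + π) % 2 = 0 by omega, add_zero]
      exact (gs1 (c := x + 2) (d := b + 1) k1 (by omega) (by omega) (by omega) (by omega) (by omega)
        (by omega) (by omega) (by omega) (by omega) (by omega)).trans
        ((gs1 (c := x + 1) (d := b + 2) k5 (by omega) (by omega) (by omega) (by omega) (by omega)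
        (by omega) (by omega) (by omega) (by omega) (by omega)).trans
        (gs1 u1 (by omega) (by omega) (by omega) (by omega) (by omega)
        (by omega) (by omega) (by omega) (by omega) (by omega)))
  · rw [show y + (1 + -1) / 2 = y by omega] at hb ⊢
    have hb' : b = y + 1 := by omega
    subst hb'
    rcases k2 with rfl | rfl
    · have ha : a = x := by omega
      subst ha
      rw [show (a + y + π) % 2 = 1 by omega]
      exact (gs1 (c := a - 1) (d := y) k1 (by omega) (by omega) (by omega) (by omega) (by omega)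
        (by omega) (by omega) (by omega) (by omega) (by omega)).trans
        ((gs1 (c := a) (d := y - 1) k5 (by omega) (by omega) (by omega) (by omega) (by omega)
        (by omega) (by omega) (by omega) (by omega) (by omega)).trans
        (gs1 u1 (by omega) (by omega) (by omega) (by omega) (by omega)
        (by omega) (by omega) (by omega) (by omega) (by omega)))
    · have ha : a = x + 1 := by omega
      subst ha
      rw [show (x + y + π) % 2 = 0 by omega, add_zero]
      exact (gs1 (c := x + 2) (d := y) k1 (by omega) (by omega) (by omega) (by omega) (by omega)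
        (by omega) (by omega) (by omega) (by omega) (by omega)).trans
        ((gs1 (c := x + 1) (d := y - 1) k5 (by omega) (by omega) (by omega) (by omega) (by omega)
        (by omega) (by omega) (by omega) (by omega) (by omega)).trans
        (gs1 u1 (by omega) (by omega) (by omega) (by omega) (by omega)
        (by omega) (by omega) (by omega) (by omega) (by omega)))

/-- **The tiles of `S` can be left out.** -/
theorem gs_lift (H : Sup Q S ε) (hε : ε = 1 ∨ ε = -1) (hπ : π = 0 ∨ π = 1) {u v : ℤ × ℤ}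
    (hu : ∀ x y, S x y → ¬ Tch x y u) (hv : ∀ x y, S x y → ¬ Tch x y v)
    (h : Relation.ReflTransGen (GS (fun x y => Q x y ∨ S x y) π) u v) :
    Relation.ReflTransGen (GS Q π) u v := by
  have key : ∀ w, Relation.ReflTransGen (GS (fun x y => Q x y ∨ S x y) π) u w →
      (∀ x y, S x y → Tch x y w → Relation.ReflTransGen (GS Q π) u (su ε π x y)) ∧
      ((∀ x y, S x y → ¬ Tch x y w) → Relation.ReflTransGen (GS Q π) u w) := by
    intro w hw
    induction hw with
    | refl => exact ⟨fun x y h1 h2 => absurd h2 (hu x y h1), fun _ => Relation.ReflTransGen.refl⟩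
    | @tail w w' _ hs ih =>
      obtain ⟨x0, y0, h0, t1, t2, p1, p2⟩ := hs
      rcases h0 with h0 | h0
      · have hw : Relation.ReflTransGen (GS Q π) u w := by
          by_cases ht : ∃ x y, S x y ∧ Tch x y w
          · obtain ⟨x, y, g1, g2⟩ := ht
            exact (ih.1 x y g1 g2).trans (rtg_symm (su_pass H hε hπ p1 g1 g2 h0 t1))
          · push Not at ht
            exact ih.2 ht
        have hw' : Relation.ReflTransGen (GS Q π) u w' := hw.tail ⟨x0, y0, h0, t1, t2, p1, p2⟩
        exact ⟨fun x y g1 g2 => hw'.trans (su_pass H hε hπ p2 g1 g2 h0 t2), fun _ => hw'⟩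
      · have hw := ih.1 x0 y0 h0 t1
        exact ⟨fun x y g1 g2 => hw.trans (su_con H hε hπ h0 g1 t2 g2), fun g => absurd t2 (g x0 y0 h0)⟩
  exact (key v h).2 hv

/-! ### Connections as steps -/

lemma tv_par (u : ℤ × ℤ) : ((tv u).1 + (tv u).2) % 2 = 0 := (gp_tv u).2
lemma tf_par (u : ℤ × ℤ) : ((tf u).1 + (tf u).2) % 2 = 1 := (gp_tf u).2

theorem co_gs {W : Finset (ℤ × ℤ)} {u v : ℤ × ℤ} :
    Co W u v ↔ Relation.ReflTransGen (GS (fun x y => lt (x, y) ∈ W) 0) (tv u) (tv v) := by
  constructor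
  · intro h
    induction h with
    | refl => exact Relation.ReflTransGen.refl
    | @tail a b _ h2 ih =>
      obtain ⟨x, y, e, h3, h4⟩ := touch_v h2.1
      exact ih.tail ⟨x, y, by show lt (x, y) ∈ W; rw [← e]; exact h2.2, h3, h4, tv_par a, tv_par b⟩
  · intro h
    have key : ∀ p, Relation.ReflTransGen (GS (fun x y => lt (x, y) ∈ W) 0) (tv u) p → Co W u (gp p) := by
      intro p hp
      induction hp with
      | refl => rw [(gp_tv u).1]; exact Co.refl _ _
      | @tail a b _ h2 ih =>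
        obtain ⟨x, y, h3, h4, h5, h6, h7⟩ := h2
        refine ih.trans ?_
        exact rco x (x + 1) y (y + 1) (by omega) (by omega) (fun x' y' d1 d2 d3 d4 => by
          obtain rfl : x' = x := by omega
          obtain rfl : y' = y := by omega
          exact h3) ⟨by unfold Tch at h4; omega, h6⟩ ⟨by unfold Tch at h5; omega, h7⟩
    have := key _ h
    rwa [(gp_tv v).1] at this

theorem dco_gs {A : Finset (ℤ × ℤ)} {f g : ℤ × ℤ} :
    DCo A f g ↔ Relation.ReflTransGen (GS (fun x y => lt (x, y) ∉ A) 1) (tf f) (tf g) := by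
  rw [dco_iff]
  constructor
  · intro h
    induction h with
    | refl => exact Relation.ReflTransGen.refl
    | @tail a b _ h2 ih =>
      obtain ⟨x, y, e, h3, h4⟩ := touch_f h2.1
      exact ih.tail ⟨x, y, by show lt (x, y) ∉ A; rw [← e]; exact h2.2, h3, h4, tf_par a, tf_par b⟩
  · intro h
    rw [← dco_iff]
    have key : ∀ p, Relation.ReflTransGen (GS (fun x y => lt (x, y) ∉ A) 1) (tf f) p → DCo A f (gp p) := by
      intro p hp
      induction hp with
      | refl => rw [(gp_tf f).1]; exact DCo.refl _ _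
      | @tail a b _ h2 ih =>
        obtain ⟨x, y, h3, h4, h5, h6, h7⟩ := h2
        refine ih.trans ?_
        exact rdco x (x + 1) y (y + 1) (by omega) (by omega) (fun x' y' d1 d2 d3 d4 => by
          obtain rfl : x' = x := by omega
          obtain rfl : y' = y := by omega
          exact h3) ⟨by unfold Tch at h4; omega, h6⟩ ⟨by unfold Tch at h5; omega, h7⟩
    have := key _ h
    rwa [(gp_tf g).1] at this

lemma GS.mono {Q Q' : ℤ → ℤ → Prop} {π : ℤ} (h : ∀ x y, Q x y → Q' x y) {p q : ℤ × ℤ} (hs : GS Q π p q) :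
    GS Q' π p q := by
  obtain ⟨x, y, h1, h2⟩ := hs
  exact ⟨x, y, h _ _ h1, h2⟩

/-! ### Recolouring -/

/-- The closed tiles of `S` lie between open and closed tiles, away from `E`. -/
structure Rec (E W S : Finset (ℤ × ℤ)) (ε : ℤ) : Prop where
  ns : ∀ x y, lt (x, y) ∈ S → lt (x, y) ∉ W
  up : ∀ x y, lt (x, y) ∈ S → lt (x, y + ε) ∈ W
  dn : ∀ x y, lt (x, y) ∈ S → lt (x, y - ε) ∉ W
  ne : ∀ x y x' y', lt (x, y) ∈ S → x - 1 ≤ x' → x' ≤ x + 1 → y - 1 ≤ y' → y' ≤ y + 1 → lt (x', y') ∉ E
  mid : ∀ x y x', lt (x, y) ∈ S → (x' = x - 1 ∨ x' = x + 1) →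
    lt (x', y) ∈ S ∨ ((lt (x', y - ε) ∈ W → lt (x', y) ∈ W) ∧ (lt (x', y) ∈ W → lt (x', y + ε) ∈ W))
  iso : ∀ x y x' y', lt (x, y) ∈ S → lt (x', y') ∈ S → x - 1 ≤ x' → x' ≤ x + 1 → y - 1 ≤ y' → y' ≤ y + 1 →
    y' = y

/-- the point is not a corner of a tile of `S` -/
def Unt (S : Finset (ℤ × ℤ)) (p : ℤ × ℤ) : Prop := ∀ x y, lt (x, y) ∈ S → ¬ Tch x y p

variable {E W W' S : Finset (ℤ × ℤ)} {u v f g : ℤ × ℤ}

theorem Rec.co (H : Rec E W S ε) (hε : ε = 1 ∨ ε = -1) (hu : Unt S (tv u)) (hv : Unt S (tv v)) :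
    Co (W ∪ S) u v ↔ Co W u v := by
  constructor
  · intro h
    rw [co_gs] at h ⊢
    have hs : Sup (fun x y => lt (x, y) ∈ W) (fun x y => lt (x, y) ∈ S) ε :=
      ⟨H.ns, H.up, H.dn, H.mid, H.iso⟩
    refine gs_lift hs hε (Or.inl rfl) hu hv (Relation.ReflTransGen.mono (fun a b hab => ?_) _ _ h)
    exact hab.mono fun x y hm => mem_union.1 hm
  · intro h
    exact h.mono subset_union_left

theorem Rec.dco (H : Rec E W S ε) (hε : ε = 1 ∨ ε = -1) (hf : Unt S (tf f)) (hg : Unt S (tf g)) :
    DCo (E ∪ (W ∪ S)) f g ↔ DCo (E ∪ W) f g := by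
  constructor
  · intro h
    exact h.anti (union_subset_union_right subset_union_left)
  · intro h
    rw [dco_gs] at h ⊢
    have nE : ∀ {x y x' y'}, lt (x, y) ∈ S → x - 1 ≤ x' → x' ≤ x + 1 → y - 1 ≤ y' → y' ≤ y + 1 →
        lt (x', y') ∉ E := fun h1 h2 h3 h4 h5 => H.ne _ _ _ _ h1 h2 h3 h4 h5
    have hs : Sup (fun x y => lt (x, y) ∉ E ∪ (W ∪ S)) (fun x y => lt (x, y) ∈ S) (-ε) := by
      refine ⟨fun x y h1 h2 => h2 (by simp only [mem_union]; tauto), fun x y h1 => ?_, fun x y h1 h2 => ?_,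
        fun x y x' h1 h2 => ?_, H.iso⟩
      · simp only [mem_union, not_or]
        refine ⟨nE h1 (by omega) (by omega) (by omega) (by omega), H.dn x y h1, fun h2 => ?_⟩
        have := H.iso _ _ _ _ h1 h2 (by omega) (by omega) (by omega) (by omega)
        omega
      · apply h2
        rw [sub_neg_eq_add]
        simp only [mem_union]
        exact Or.inr (Or.inl (H.up x y h1))
      · by_cases h3 : lt (x', y) ∈ S
        · exact Or.inl h3
        rcases H.mid x y x' h1 h2 with h4 | ⟨h4, h5⟩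
        · exact Or.inl h4
        right
        rw [sub_neg_eq_add]
        simp only [mem_union, not_or]
        constructor
        · rintro ⟨k1, k2, k3⟩
          exact ⟨nE h1 (by omega) (by omega) (by omega) (by omega), fun k4 => k2 (h5 k4), h3⟩
        · rintro ⟨k1, k2, k3⟩
          refine ⟨nE h1 (by omega) (by omega) (by omega) (by omega), fun k4 => k2 (h4 k4), fun k4 => ?_⟩
          have := H.iso _ _ _ _ h1 k4 (by omega) (by omega) (by omega) (by omega)
          omega
    refine gs_lift hs (by omega) (Or.inr rfl) hf hg (Relation.ReflTransGen.mono (fun a b hab => ?_) _ _ h)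
    refine hab.mono fun x y hm => ?_
    simp only [mem_union, not_or] at hm ⊢
    tauto

/-! ### Environments with the same connections -/

/-- the corner is the root or a corner of `E` -/
def CC (E : Finset (ℤ × ℤ)) (c0 c : ℤ × ℤ) : Prop := c = c0 ∨ lab c ∈ E ∨ plab c ∈ E

/-- the same connections between the root and the corners of `E` -/
structure Ceq (E : Finset (ℤ × ℤ)) (c0 : ℤ × ℤ) (W W' : Finset (ℤ × ℤ)) : Prop where
  co : ∀ c c', CC E c0 c → CC E c0 c' → (Co W (vx c) (vx c') ↔ Co W' (vx c) (vx c'))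
  dco : ∀ c c', CC E c0 c → CC E c0 c' → (DCo (E ∪ W) (fi c) (fi c') ↔ DCo (E ∪ W') (fi c) (fi c'))

lemma Ceq.refl (E : Finset (ℤ × ℤ)) (c0 : ℤ × ℤ) (W : Finset (ℤ × ℤ)) : Ceq E c0 W W :=
  ⟨fun _ _ _ _ => Iff.rfl, fun _ _ _ _ => Iff.rfl⟩

lemma Ceq.symm {c0 : ℤ × ℤ} (h : Ceq E c0 W W') : Ceq E c0 W' W :=
  ⟨fun c c' h1 h2 => (h.co c c' h1 h2).symm, fun c c' h1 h2 => (h.dco c c' h1 h2).symm⟩

lemma Ceq.trans {c0 : ℤ × ℤ} {W'' : Finset (ℤ × ℤ)} (h : Ceq E c0 W W') (h' : Ceq E c0 W' W'') :
    Ceq E c0 W W'' :=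
  ⟨fun c c' h1 h2 => (h.co c c' h1 h2).trans (h'.co c c' h1 h2),
    fun c c' h1 h2 => (h.dco c c' h1 h2).trans (h'.dco c c' h1 h2)⟩

/-- the corners of `E` do not touch tiles of `S` -/
lemma Rec.unt (H : Rec E W S ε) {c : ℤ × ℤ} (hc : lab c ∈ E ∨ plab c ∈ E) :
    Unt S (tv (vx c)) ∧ Unt S (tf (fi c)) := by
  obtain ⟨⟨a, b, e, h1, h2⟩, ⟨a', b', e', h1', h2'⟩⟩ := lab_touch c
  unfold Tch at h1 h2 h1' h2'
  constructor
  · intro x y hS ht
    unfold Tch at ht
    rcases hc with hc | hc
    · rw [e] at hc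
      exact H.ne _ _ _ _ hS (by omega) (by omega) (by omega) (by omega) hc
    · rw [e'] at hc
      exact H.ne _ _ _ _ hS (by omega) (by omega) (by omega) (by omega) hc
  · intro x y hS ht
    unfold Tch at ht
    rcases hc with hc | hc
    · rw [e] at hc
      exact H.ne _ _ _ _ hS (by omega) (by omega) (by omega) (by omega) hc
    · rw [e'] at hc
      exact H.ne _ _ _ _ hS (by omega) (by omega) (by omega) (by omega) hc

/-- **Recolouring changes no connection.** -/
theorem Rec.ceq {c0 : ℤ × ℤ} (H : Rec E W S ε) (hε : ε = 1 ∨ ε = -1) (hv : Unt S (tv (vx c0)))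
    (hf : Unt S (tf (fi c0))) : Ceq E c0 (W ∪ S) W := by
  have key : ∀ c, CC E c0 c → Unt S (tv (vx c)) ∧ Unt S (tf (fi c)) := by
    rintro c (rfl | h)
    · exact ⟨hv, hf⟩
    · exact H.unt h
  exact ⟨fun c c' h1 h2 => H.co hε (key c h1).1 (key c' h2).1,
    fun c c' h1 h2 => H.dco hε (key c h1).2 (key c' h2).2⟩

/-- **The same connections give the same increments**, up to a unit. -/
theorem Ceq.inc {c0 : ℤ × ℤ} (H : Ceq E c0 W W') (hconn : Env.TConn E) {X Y : Env}
    (pX : Pool.Agent.Q1.M6c.PlaneEnv X W) (pY : Pool.Agent.Q1.M6c.PlaneEnv Y W') (eX : X.E = E) (eY : Y.E = E)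
    (cX : X.c0 = c0) (cY : Y.c0 = c0) :
    ∃ κ : ℤ, ∀ c, (lab c ∈ E ∨ plab c ∈ E) → Y.inc c = ph κ * X.inc c := by
  refine same_conn hconn ⟨fun c c' h1 h2 h3 => (H.co c c' (Or.inr h1) (Or.inr h2)).1 h3,
    fun c c' h1 h2 h3 => (H.dco c c' (Or.inr h1) (Or.inr h2)).1 h3⟩
    ⟨fun c c' h1 h2 h3 => (H.co c c' (Or.inr h1) (Or.inr h2)).2 h3,
    fun c c' h1 h2 h3 => (H.dco c c' (Or.inr h1) (Or.inr h2)).2 h3⟩ pX pY eX eY fun c hc => ?_
  rw [cX, cY]
  rw [H.co c0 c (Or.inl rfl) (Or.inr (Or.inl hc)), H.dco c0 c (Or.inl rfl) (Or.inr (Or.inl hc))]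

end Pool.Agent.H74.Win
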