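import Mathlib
import Pool.Agent.H74.Win.S12
import Pool.Agent.H74.Win.Fill

set_option autoImplicit false
open Finset

/-! # The middle environment

`N2` : within distance `2` of the translate of `P`; `Zn` : the large box without its outermost frame; `K2` : tiles
with both properties. `WC2`, `XC2` : on `K2` the labels of the translate of the window `(pB, sB)`, elsewhere the
labels of the window `(pA, sA)`. `Tw.small_W2`, `Tw.frame_W2` : it agrees with the window `(pA, sA)` away from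
the corners and on the frame. -/

namespace Pool.Agent.H74.Win

open Pool.Agent.H75.Perc hiding ph
open Pool.Agent.H75.TwoArm Pool.Agent.Q1 Pool.Agent.H33.Q1
open Pool.Agent.H75.Four hiding ev Tch
open Pool.Agent.H69.Q1
open Pool.Agent.H74.R45 (exists_lt)
open Pool.Agent.H46.Sp (Win Out)
open Pool.Agent.H42.Sp (Sd Ix kt rt)
open Pool.Agent.H44.FM.WG (Gr)
open Pool.Agent.H44.FM.WG.Gr
open Pool.Agent.H31.Sp (Coarse CoarseC)
open Pool.Agent.H33.Sp (shl mem_shl)

variable {D : Win} {n H : ℤ} {A B : ℤ → ℤ} {YP YQ : ℤ} {CL CR : ℤ → Bool}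
variable {p : Bool} {x y x' y' : ℤ} {s : Finset Gr} {Q : Ix → Prop}
variable {pA pB : Bool} {sA sB : Finset Gr} {tx ty : ℤ}

/-- within distance `2` of the translate of `P` -/
def N2 (D : Win) (pB : Bool) (tx ty x y : ℤ) : Prop :=
  ∃ x' y', x - tx ≤ x' + 2 ∧ x' ≤ x - tx + 2 ∧ y - ty ≤ y' + 2 ∧ y' ≤ y - ty + 2 ∧ InP D pB x' y'

/-- the large box without its outermost frame -/
def Zn (D : Win) (x y : ℤ) : Prop :=
  D.a (D.yP - 1) ≤ x + 3 ∧ x ≤ D.b D.yQ + 2 ∧ -3 ≤ y ∧ y ≤ D.h + 1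

/-- tiles near the translate of `P` -/
noncomputable def K2 (D : Win) (pB : Bool) (tx ty : ℤ) : Finset (ℤ × ℤ) :=
  TB D fun x y => N2 D pB tx ty x y ∧ Zn D x y

lemma Zn.inB (h : Zn D x y) : InB D x y := by
  unfold Zn at h
  unfold InB
  omega

lemma mem_K2 : lt (x, y) ∈ K2 D pB tx ty ↔ N2 D pB tx ty x y ∧ Zn D x y := by
  unfold K2
  rw [mem_TB]
  exact ⟨fun h => h.2, fun h => ⟨h.2.inB, h⟩⟩

lemma N2.inB (h : N2 D pB tx ty x y) : InB D (x - tx) (y - ty) := by
  obtain ⟨x', y', h1, h2, h3, h4, h5⟩ := h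
  have := h5.box
  unfold InB
  omega

/-- the neighbours of the random labels are in `K2` -/
lemma Tw.nb_K2 (h : Tw pA sA pB sB tx ty) (he : lt (x, y) ∈ EC D pB sB tx ty) (h1 : x - 1 ≤ x')
    (h2 : x' ≤ x + 1) (h3 : y - 1 ≤ y') (h4 : y' ≤ y + 1) : lt (x', y') ∈ K2 D pB tx ty := by
  rw [mem_K2]
  have hin := h.EC_in he
  rw [h.mem_EC] at he
  obtain ⟨x2, y2, b1, b2, b3, b4, b5⟩ := EO_P he
  exact ⟨⟨x2, y2, by omega, by omega, by omega, by omega, b5⟩, by unfold Zn; omega⟩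

lemma Tw.EC_sub2 (h : Tw pA sA pB sB tx ty) : EC D pB sB tx ty ⊆ K2 D pB tx ty := by
  intro e he
  obtain ⟨x, y, rfl⟩ := exists_lt (odd_EC he)
  exact h.nb_K2 he (by omega) (by omega) (by omega) (by omega)

/-- open labels of the middle environment -/
noncomputable def WC2 (D : Win) (pA : Bool) (sA : Finset Gr) (pB : Bool) (sB : Finset Gr) (tx ty : ℤ) :
    Finset (ℤ × ℤ) :=
  (shl (vt tx ty) (WO D pB (gA D pB sB) (Snat D pB)) ∩ K2 D pB tx ty) ∪
    (WO D pA (gA D pA sA) (Snat D pA) \ K2 D pB tx ty)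

lemma K2_sub_GB : K2 D pB tx ty ⊆ GB D := TB_sub

lemma WC2_sub_GB : WC2 D pA sA pB sB tx ty ⊆ GB D := by
  unfold WC2
  exact union_subset (inter_subset_right.trans K2_sub_GB) (sdiff_subset.trans (WO_sub Snat_sub))

lemma Tw.disjC2 (h : Tw pA sA pB sB tx ty) : Disjoint (EC D pB sB tx ty) (WC2 D pA sA pB sB tx ty) := by
  unfold WC2
  rw [disjoint_union_right]
  constructor
  · rw [disjoint_left]
    intro e he he'
    unfold EC at he
    have h2 := (mem_inter.1 he').1
    rw [mem_shl] at he h2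
    exact disjoint_left.1 (disj_O Snat_sub) he h2
  · rw [disjoint_left]
    intro e he he'
    exact (mem_sdiff.1 he').2 (h.EC_sub2 he)

/-- **The middle environment** -/
noncomputable def XC2 (O : OutB D) (h : Tw pA sA pB sB tx ty) : Env :=
  XB O (EC D pB sB tx ty) (WC2 D pA sA pB sB tx ty) (h.EC_sub2.trans K2_sub_GB) WC2_sub_GB h.disjC2

/-- on `K2` the open labels are those of the translate -/
lemma WC2_on {e : ℤ × ℤ} (he : e ∈ K2 D pB tx ty) : e ∈ WC2 D pA sA pB sB tx ty ↔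
    e ∈ shl (vt tx ty) (WO D pB (gA D pB sB) (Snat D pB)) := by
  unfold WC2
  rw [mem_union, mem_inter, mem_sdiff]
  tauto

/-- outside of `K2` the open labels are those of the window `(pA, sA)` -/
lemma WC2_off {e : ℤ × ℤ} (he : e ∉ K2 D pB tx ty) : e ∈ WC2 D pA sA pB sB tx ty ↔
    e ∈ WO D pA (gA D pA sA) (Snat D pA) := by
  unfold WC2
  rw [mem_union, mem_inter, mem_sdiff]
  tauto

/-- **The middle environment agrees with the window `(pA, sA)` away from the corners** -/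
theorem Tw.small_W2 (h : Tw pA sA pB sB tx ty) (hf : Fl2 D x y) :
    lt (x, y) ∈ WC2 D pA sA pB sB tx ty ↔ lt (x, y) ∈ WO D pA (gA D pA sA) (Snat D pA) := by
  by_cases hK : lt (x, y) ∈ K2 D pB tx ty
  · rw [WC2_on hK, mem_shl_lt h.disp.2.2.1, mem_WOn, mem_WOn, ← h.E hf]
    rw [mem_K2] at hK
    obtain ⟨hN, hZ⟩ := hK
    have hB : InB D x y := hZ.inB
    have hB' := hN.inB
    obtain ⟨x2, y2, b1, b2, b3, b4, b5⟩ := hN
    by_cases hE : lt (x, y) ∈ EO D pA (gA D pA sA)
    · simp only [hE, not_true_eq_false, false_and, and_false]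
    · have hEB : lt (x - tx, y - ty) ∉ EO D pB (gA D pB sB) := fun h' => hE ((h.E hf).2 h')
      have hcol := h.col hf (fun h' => hE (mem_EO.2 (Or.inl h')))
        (fun h' => hEB (mem_EO.2 (Or.inl h'))) (x' := x2) (y' := y2) (by omega) (by omega) (by omega)
        (by omega) b5
      rw [hcol]
      simp only [hB, hB', true_and]
  · exact WC2_off hK

/-- the frame of the large box -/
theorem Tw.frame_W2 (h : Tw pA sA pB sB tx ty) (hfr : ¬ Zn D x y) : lt (x, y) ∉ EC D pB sB tx ty ∧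
    lt (x, y) ∉ EO D pA (gA D pA sA) ∧
    (lt (x, y) ∈ WC2 D pA sA pB sB tx ty ↔ lt (x, y) ∈ WO D pA (gA D pA sA) (Snat D pA)) := by
  refine ⟨fun h1 => ?_, fun h1 => ?_, WC2_off fun h1 => ?_⟩
  · have := h.EC_in h1
    unfold Zn at hfr
    omega
  · have := EO_near h1
    have := sh_nonneg pA
    have := sh_le pA
    unfold Zn at hfr
    omega
  · rw [mem_K2] at h1
    exact hfr h1.2

end Pool.Agent.H74.Win
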