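import Mathlib
import Pool.Agent.H74.Win.Mid
import Pool.Agent.H74.Win.Chg

set_option autoImplicit false
open Finset

/-! # Strips

`cT D τ x y` : the colour of the fill whose rows are moved by `τ`. `WT` : open labels: those of the translate of
the window `(pB, sB)` on `K2`, the fill moved by `τ` outside of `K2`, in the columns `IC`. `Loc` : the colours near
a tile which changes its colour from `τ` to `τ + σ`, `σ = 1` or `σ = -1`. -/

namespace Pool.Agent.H74.Win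

open Pool.Agent.H75.Perc hiding ph
open Pool.Agent.H75.TwoArm Pool.Agent.Q1 Pool.Agent.H33.Q1
open Pool.Agent.H75.Four hiding ev Tch
open Pool.Agent.H69.Q1
open Pool.Agent.H74.R45 (exists_lt)
open Pool.Agent.H46.Sp (Win Out)
open Pool.Agent.H42.Sp (Sd Ix kt rt)
open Pool.Agent.H44.FM.WG (Gr)
open Pool.Agent.H44.FM.WG.Gr
open Pool.Agent.H31.Sp (Coarse CoarseC)
open Pool.Agent.H33.Sp (shl mem_shl)

variable {D : Win} {n H : ℤ} {A B : ℤ → ℤ} {YP YQ : ℤ} {CL CR : ℤ → Bool}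
variable {p : Bool} {x y x' y' z Y τ σ τ' : ℤ} {s : Finset Gr} {Q : Ix → Prop}
variable {pA pB : Bool} {sA sB : Finset Gr} {tx ty : ℤ}

/-- the row of the union next to `y` -/
def cy (D : Win) (y : ℤ) : ℤ := max (-1) (min y (D.h - 1))

/-- the columns between the left and the right side of the frame -/
def IC (D : Win) (x : ℤ) : Prop := D.a (D.yP - 1) ≤ x + 3 ∧ x ≤ D.b D.yQ + 2

/-- colours of the fill moved by `τ` -/
def cT (D : Win) (τ x y : ℤ) : Bool := if x < D.m (cy D y) then cLf D (y - τ) else cRt D (y - τ)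

/-- open labels, the fill is moved by `τ` outside of `K2` -/
noncomputable def WT (D : Win) (pB : Bool) (sB : Finset Gr) (tx ty τ : ℤ) : Finset (ℤ × ℤ) :=
  (shl (vt tx ty) (WO D pB (gA D pB sB) (Snat D pB)) ∩ K2 D pB tx ty) ∪
    TB D fun x y => lt (x, y) ∉ K2 D pB tx ty ∧
      ((IC D x ∧ cT D τ x y = true) ∨ (¬ IC D x ∧ cT D 0 x y = true))

lemma mem_WT : lt (x, y) ∈ WT D pB sB tx ty τ ↔
    (lt (x, y) ∈ K2 D pB tx ty ∧ lt (x, y) ∈ shl (vt tx ty) (WO D pB (gA D pB sB) (Snat D pB))) ∨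
    (InB D x y ∧ lt (x, y) ∉ K2 D pB tx ty ∧
      ((IC D x ∧ cT D τ x y = true) ∨ (¬ IC D x ∧ cT D 0 x y = true))) := by
  unfold WT
  rw [mem_union, mem_inter, mem_TB]
  tauto

lemma WT_sub_GB : WT D pB sB tx ty τ ⊆ GB D := by
  unfold WT
  exact union_subset (inter_subset_right.trans K2_sub_GB) TB_sub

/-! ### Rows -/

lemma m_row (h0 : -1 ≤ z) (h1 : z < D.h) : ∃ Y, (Y = z ∨ Y = z + 1) ∧ 0 ≤ Y ∧ Y < D.h ∧ D.m z = D.a Y := by
  have hP := D.P0
  have hP1 := D.P1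
  rcases m_f D z with ⟨h2, h3⟩ | ⟨h2, h3⟩
  · exact ⟨z + 1, Or.inr rfl, by omega, by omega, h3⟩
  · exact ⟨z, Or.inl rfl, by omega, by omega, h3⟩

lemma M_row (h0 : -1 ≤ z) (h1 : z < D.h) : ∃ Y, (Y = z ∨ Y = z + 1) ∧ 0 ≤ Y ∧ Y < D.h ∧ D.M z = D.b Y := by
  have hQ := D.Q0
  have hQ1 := D.Q1
  rcases M_f D z with ⟨h2, h3⟩ | ⟨h2, h3⟩
  · exact ⟨z + 1, Or.inr rfl, by omega, by omega, h3⟩
  · exact ⟨z, Or.inl rfl, by omega, by omega, h3⟩

lemma cy_rng (D : Win) (y : ℤ) : -1 ≤ cy D y ∧ cy D y < D.h ∧ ((cy D y = y) ∨ (y < -1 ∧ cy D y = -1) ∨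
    (D.h ≤ y ∧ cy D y = D.h - 1)) := by
  have := D.hh
  unfold cy
  omega

lemma Tw.vals (h : Tw pA sA pB sB tx ty) : (tx = 0 ∧ ty = 2 ∧ sh pA = 0 ∧ sh pB = 1) ∨
    (tx = 1 ∧ ty = -1 ∧ sh pA = 1 ∧ sh pB = 0) ∨ (tx = 1 ∧ ty = 1 ∧ sh pA = 0 ∧ sh pB = 1) := by
  cases h with
  | v1 s hs => exact Or.inl ⟨rfl, rfl, rfl, rfl⟩
  | h0 s hs => exact Or.inr (Or.inl ⟨rfl, rfl, rfl, rfl⟩)
  | h1 s hs => exact Or.inr (Or.inr ⟨rfl, rfl, rfl, rfl⟩)

/-- away from the translate of `P`: to the left or to the right of its rows -/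
lemma far_row (h : ¬ N2 D pB tx ty x y) (h0 : 0 ≤ Y) (h1 : Y < D.h) (h2 : y - ty ≤ Y - sh pB + 2)
    (h3 : Y - sh pB ≤ y - ty + 2) : x - tx + 2 < D.a Y ∨ D.b Y + 2 ≤ x - tx := by
  by_contra hc
  have hab := D.ab Y h0 h1
  apply h
  refine ⟨max (D.a Y) (min (x - tx) (D.b Y - 1)), Y - sh pB, by omega, by omega, by omega, by omega, ?_⟩
  unfold InP
  rw [sub_add_cancel]
  exact ⟨h0, h1, by omega, by omega⟩

/-! ### The colours near a tile of a strip -/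

/-- a step of the fill -/
def St (ty τ σ : ℤ) : Prop := (σ = 1 ∧ 0 ≤ τ ∧ τ < ty) ∨ (σ = -1 ∧ τ = 0 ∧ ty = -1)

/-- **The colours near a tile of a strip** -/
structure Loc (D : Win) (pB : Bool) (sB : Finset Gr) (tx ty τ σ x y : ℤ) (c : ℤ → Bool) (b : ℤ) :
    Prop where
  bt : (σ = 1 ∧ y - τ = b) ∨ (σ = -1 ∧ y - τ = b - 1)
  up : ∀ z, b ≤ z → z ≤ b + 6 → c z = c b
  dn : ∀ z, b - 7 ≤ z → z < b → c z = c (b - 1)
  ne : c (b - 1) ≠ c b
  col : ∀ y', y - 1 ≤ y' → y' ≤ y + 1 → lt (x, y') ∉ K2 D pB tx ty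
  box : ∀ x' y', x - 1 ≤ x' → x' ≤ x + 1 → y - 1 ≤ y' → y' ≤ y + 1 → InB D x' y'
  nE : ∀ x' y', x - 1 ≤ x' → x' ≤ x + 1 → y - 1 ≤ y' → y' ≤ y + 1 → lt (x', y') ∉ EC D pB sB tx ty
  onK : ∀ x' y', x - 1 ≤ x' → x' ≤ x + 1 → y - 1 ≤ y' → y' ≤ y + 1 → lt (x', y') ∈ K2 D pB tx ty →
    (lt (x', y') ∈ shl (vt tx ty) (WO D pB (gA D pB sB) (Snat D pB)) ↔ c (y' - ty) = true)
  offK : ∀ x' y', x - 1 ≤ x' → x' ≤ x + 1 → y - 1 ≤ y' → y' ≤ y + 1 → ∀ τ', cT D τ' x' y' = c (y' - τ')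

/-- the left side -/
theorem loc_left (C : CoarseC D n H A B YP YQ CL CR) (h30 : 30 ≤ n) (h : Tw pA sA pB sB tx ty)
    (hs : St ty τ σ) (hK : lt (x, y) ∉ K2 D pB tx ty) (hI : IC D x) (hx : x < D.m (cy D y))
    (hc : cLf D (y - τ) ≠ cLf D (y - (τ + σ))) :
    ∃ b, Loc D pB sB tx ty τ σ x y (cLf D) b := by
  have hv := h.vals
  obtain ⟨b, hb, hb'⟩ : ∃ b, ((σ = 1 ∧ y - τ = b) ∨ (σ = -1 ∧ y - τ = b - 1)) ∧
      cLf D (b - 1) ≠ cLf D b := by
    rcases hs with ⟨rfl, h1, h2⟩ | ⟨rfl, h1, h2⟩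
    · exact ⟨y - τ, Or.inl ⟨rfl, rfl⟩, by
        rw [show y - (τ + 1) = y - τ - 1 by ring] at hc; exact hc.symm⟩
    · refine ⟨y - τ + 1, Or.inr ⟨rfl, by ring⟩, ?_⟩
      rw [show y - (τ + -1) = y - τ + 1 by ring] at hc
      rw [add_sub_cancel_right]; exact hc
  have G := chL_of C h30 hb'
  obtain ⟨Y0, hY, Y1, Y2, hrow⟩ := G.row
  have glo := G.lo
  have ghi := G.hi
  unfold St at hs
  have hN : ¬ N2 D pB tx ty x y := by
    intro hN
    exact hK (mem_K2.2 ⟨hN, ⟨hI.1, hI.2, by omega, by omega⟩⟩)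
  have key : x - tx + 3 ≤ D.a Y0 := by
    rcases far_row hN Y1 Y2 (by omega) (by omega) with h1 | h1
    · omega
    · exfalso
      have c1 := cy_rng D y
      obtain ⟨Y3, e1, e2, e3, e4⟩ := m_row c1.1 c1.2.1
      have := wide20 C.toCoarse h30 e2 e3 Y1 Y2 (by omega) (by omega)
      omega
  -- rows near the change
  have near : ∀ Y, 0 ≤ Y → Y < D.h → b ≤ Y + 8 → Y ≤ b + 8 → x - tx + 3 ≤ D.a Y :=
    fun Y a1 a2 a3 a4 => key.trans (hrow Y a1 a2 a3 a4)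
  refine ⟨b, hb, G.up, G.dn, hb', fun y' d1 d2 hk => ?_, fun x' y' d1 d2 d3 d4 => ?_,
    fun x' y' d1 d2 d3 d4 he => ?_, fun x' y' d1 d2 d3 d4 hk => ?_, fun x' y' d1 d2 d3 d4 τ' => ?_⟩
  · obtain ⟨⟨x2, y2, a1, a2, a3, a4, a5⟩, -⟩ := mem_K2.1 hk
    obtain ⟨b1, b2, b3, b4⟩ := a5
    have := near (y2 + sh pB) b1 b2 (by omega) (by omega)
    omega
  · unfold IC at hI
    unfold InB
    omega
  · rw [h.mem_EC] at he
    obtain ⟨x2, y2, a1, a2, a3, a4, b1, b2, b3, b4⟩ := EO_P he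
    have := near (y2 + sh pB) b1 b2 (by omega) (by omega)
    omega
  · have hin := (mem_K2.1 hk).1.inB
    have hE : lt (x' - tx, y' - ty) ∉ EO D pB (gA D pB sB) := by
      intro he
      obtain ⟨x2, y2, a1, a2, a3, a4, b1, b2, b3, b4⟩ := EO_P he
      have := near (y2 + sh pB) b1 b2 (by omega) (by omega)
      omega
    have hm : -1 ≤ y' - ty → y' - ty < D.h → x' - tx < D.m (y' - ty) := by
      intro e1 e2
      obtain ⟨Y, e3, e4, e5, e6⟩ := m_row e1 e2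
      have := near Y e4 e5 (by omega) (by omega)
      omega
    rw [mem_shl_lt h.disp.2.2.1, mem_WOn, natc_out (by
      by_cases e1 : y' - ty < -1
      · exact Or.inl e1
      · by_cases e2 : D.h ≤ y' - ty
        · exact Or.inr (Or.inl e2)
        · exact Or.inr (Or.inr (Or.inl (hm (by omega) (by omega)))))]
    have e : fillc D (x' - tx) (y' - ty) = cLf D (y' - ty) := by
      unfold fillc cLf
      by_cases e1 : y' - ty < -1
      · rw [if_pos e1, if_pos e1]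
      · by_cases e2 : D.h ≤ y' - ty
        · rw [if_neg e1, if_pos e2, if_neg e1, if_pos e2]
        · rw [if_neg e1, if_neg e2, if_neg e1, if_neg e2, if_pos (hm (by omega) (by omega))]
    rw [e]
    simp only [hin, hE, not_false_eq_true, true_and]
  · have c1 := cy_rng D y'
    obtain ⟨Y, e3, e4, e5, e6⟩ := m_row c1.1 c1.2.1
    have := near Y e4 e5 (by omega) (by omega)
    unfold cT
    rw [if_pos (by omega)]

/-- the right side -/
theorem loc_right (C : CoarseC D n H A B YP YQ CL CR) (h30 : 30 ≤ n) (h : Tw pA sA pB sB tx ty)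
    (hs : St ty τ σ) (hK : lt (x, y) ∉ K2 D pB tx ty) (hI : IC D x) (hx : ¬ x < D.m (cy D y))
    (hc : cRt D (y - τ) ≠ cRt D (y - (τ + σ))) :
    ∃ b, Loc D pB sB tx ty τ σ x y (cRt D) b := by
  have hv := h.vals
  obtain ⟨b, hb, hb'⟩ : ∃ b, ((σ = 1 ∧ y - τ = b) ∨ (σ = -1 ∧ y - τ = b - 1)) ∧
      cRt D (b - 1) ≠ cRt D b := by
    rcases hs with ⟨rfl, h1, h2⟩ | ⟨rfl, h1, h2⟩
    · exact ⟨y - τ, Or.inl ⟨rfl, rfl⟩, by
        rw [show y - (τ + 1) = y - τ - 1 by ring] at hc; exact hc.symm⟩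
    · refine ⟨y - τ + 1, Or.inr ⟨rfl, by ring⟩, ?_⟩
      rw [show y - (τ + -1) = y - τ + 1 by ring] at hc
      rw [add_sub_cancel_right]; exact hc
  have G := chR_of C h30 hb'
  obtain ⟨Y0, hY, Y1, Y2, hrow⟩ := G.row
  have glo := G.lo
  have ghi := G.hi
  unfold St at hs
  have hN : ¬ N2 D pB tx ty x y := by
    intro hN
    exact hK (mem_K2.2 ⟨hN, ⟨hI.1, hI.2, by omega, by omega⟩⟩)
  have key : D.b Y0 + 2 ≤ x - tx := by
    rcases far_row hN Y1 Y2 (by omega) (by omega) with h1 | h1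
    · exfalso
      have c1 := cy_rng D y
      obtain ⟨Y3, e1, e2, e3, e4⟩ := m_row c1.1 c1.2.1
      have w := wide20 C.toCoarse h30 Y1 Y2 e2 e3 (by omega) (by omega)
      rcases far_row hN e2 e3 (by omega) (by omega) with h2 | h2 <;> omega
    · exact h1
  -- rows near the change
  have near : ∀ Y, 0 ≤ Y → Y < D.h → b ≤ Y + 8 → Y ≤ b + 8 → D.b Y + 2 ≤ x - tx :=
    fun Y a1 a2 a3 a4 => by
      have := hrow Y a1 a2 a3 a4
      omega
  have nearA : ∀ Y, 0 ≤ Y → Y < D.h → b ≤ Y + 8 → Y ≤ b + 8 → D.a Y + 22 ≤ x - tx :=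
    fun Y a1 a2 a3 a4 => by
      have := near Y a1 a2 a3 a4
      have := wide20 C.toCoarse h30 a1 a2 a1 a2 (by omega) (by omega)
      omega
  refine ⟨b, hb, G.up, G.dn, hb', fun y' d1 d2 hk => ?_, fun x' y' d1 d2 d3 d4 => ?_,
    fun x' y' d1 d2 d3 d4 he => ?_, fun x' y' d1 d2 d3 d4 hk => ?_, fun x' y' d1 d2 d3 d4 τ' => ?_⟩
  · obtain ⟨⟨x2, y2, a1, a2, a3, a4, a5⟩, -⟩ := mem_K2.1 hk
    obtain ⟨b1, b2, b3, b4⟩ := a5
    have := near (y2 + sh pB) b1 b2 (by omega) (by omega)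
    omega
  · unfold IC at hI
    unfold InB
    omega
  · rw [h.mem_EC] at he
    obtain ⟨x2, y2, a1, a2, a3, a4, b1, b2, b3, b4⟩ := EO_P he
    have := near (y2 + sh pB) b1 b2 (by omega) (by omega)
    omega
  · have hin := (mem_K2.1 hk).1.inB
    have hE : lt (x' - tx, y' - ty) ∉ EO D pB (gA D pB sB) := by
      intro he
      obtain ⟨x2, y2, a1, a2, a3, a4, b1, b2, b3, b4⟩ := EO_P he
      have := near (y2 + sh pB) b1 b2 (by omega) (by omega)
      omega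
    have hM : -1 ≤ y' - ty → y' - ty < D.h → D.M (y' - ty) ≤ x' - tx := by
      intro e1 e2
      obtain ⟨Y, e3, e4, e5, e6⟩ := M_row e1 e2
      have := near Y e4 e5 (by omega) (by omega)
      omega
    have hm : -1 ≤ y' - ty → y' - ty < D.h → ¬ x' - tx < D.m (y' - ty) := by
      intro e1 e2
      obtain ⟨Y, e3, e4, e5, e6⟩ := m_row e1 e2
      have := nearA Y e4 e5 (by omega) (by omega)
      omega
    rw [mem_shl_lt h.disp.2.2.1, mem_WOn, natc_out (by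
      by_cases e1 : y' - ty < -1
      · exact Or.inl e1
      · by_cases e2 : D.h ≤ y' - ty
        · exact Or.inr (Or.inl e2)
        · exact Or.inr (Or.inr (Or.inr (hM (by omega) (by omega)))))]
    have e : fillc D (x' - tx) (y' - ty) = cRt D (y' - ty) := by
      unfold fillc cRt
      by_cases e1 : y' - ty < -1
      · rw [if_pos e1, if_pos e1]
      · by_cases e2 : D.h ≤ y' - ty
        · rw [if_neg e1, if_pos e2, if_neg e1, if_pos e2]
        · rw [if_neg e1, if_neg e2, if_neg e1, if_neg e2, if_neg (hm (by omega) (by omega))]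
    rw [e]
    simp only [hin, hE, not_false_eq_true, true_and]
  · have c1 := cy_rng D y'
    obtain ⟨Y, e3, e4, e5, e6⟩ := m_row c1.1 c1.2.1
    have := nearA Y e4 e5 (by omega) (by omega)
    unfold cT
    rw [if_neg (by omega)]

/-- **The colours near a tile which changes its colour** -/
theorem loc_of (C : CoarseC D n H A B YP YQ CL CR) (h30 : 30 ≤ n) (h : Tw pA sA pB sB tx ty)
    (hs : St ty τ σ) (hK : lt (x, y) ∉ K2 D pB tx ty) (hI : IC D x)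
    (hc : cT D τ x y ≠ cT D (τ + σ) x y) : ∃ c b, Loc D pB sB tx ty τ σ x y c b := by
  unfold cT at hc
  by_cases hx : x < D.m (cy D y)
  · rw [if_pos hx, if_pos hx] at hc
    obtain ⟨b, hb⟩ := loc_left C h30 h hs hK hI hx hc
    exact ⟨_, b, hb⟩
  · rw [if_neg hx, if_neg hx] at hc
    obtain ⟨b, hb⟩ := loc_right C h30 h hs hK hI hx hc
    exact ⟨_, b, hb⟩

end Pool.Agent.H74.Win
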