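import Mathlib
import Pool.Agent.H74.Win.Strip

set_option autoImplicit false
open Finset

/-! # Moving the rows of the fill

`ceq_step` : moving the rows of the fill outside of `K2` by one row changes no connection. `ceq_WC2` : the middle
environment and the fill of the translate have the same connections. -/

namespace Pool.Agent.H74.Win

open Pool.Agent.H75.Perc hiding ph
open Pool.Agent.H75.TwoArm Pool.Agent.Q1 Pool.Agent.H33.Q1
open Pool.Agent.H75.Four hiding ev Tch
open Pool.Agent.H69.Q1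
open Pool.Agent.H74.R45 (exists_lt)
open Pool.Agent.H46.Sp (Win Out)
open Pool.Agent.H42.Sp (Sd Ix kt rt)
open Pool.Agent.H44.FM.WG (Gr)
open Pool.Agent.H44.FM.WG.Gr
open Pool.Agent.H31.Sp (Coarse CoarseC)
open Pool.Agent.H33.Sp (shl mem_shl Tch)

variable {D : Win} {n H : ℤ} {A B : ℤ → ℤ} {YP YQ : ℤ} {CL CR : ℤ → Bool}
variable {p : Bool} {x y x' y' z Y τ σ τ' b : ℤ} {s : Finset Gr} {Q : Ix → Prop} {c : ℤ → Bool}
variable {pA pB : Bool} {sA sB : Finset Gr} {tx ty : ℤ} {O : OutB D}

lemma K2_IC (h : lt (x, y) ∈ K2 D pB tx ty) : IC D x := by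
  have := (mem_K2.1 h).2
  exact ⟨this.1, this.2.1⟩

/-- the colours near a tile of a strip -/
lemma Loc.val (L : Loc D pB sB tx ty τ σ x y c b) (h1 : x - 1 ≤ x') (h2 : x' ≤ x + 1) (h3 : y - 1 ≤ y')
    (h4 : y' ≤ y + 1) : lt (x', y') ∈ WT D pB sB tx ty τ' ∪ O.Wo ↔
      (lt (x', y') ∈ K2 D pB tx ty ∧ c (y' - ty) = true) ∨
      (lt (x', y') ∉ K2 D pB tx ty ∧ IC D x' ∧ c (y' - τ') = true) ∨
      (lt (x', y') ∉ K2 D pB tx ty ∧ ¬ IC D x' ∧ c y' = true) := by
  have hB := L.box x' y' h1 h2 h3 h4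
  have hO : lt (x', y') ∉ O.Wo := fun h => O.far _ _ h hB
  have e1 := L.offK x' y' h1 h2 h3 h4 τ'
  have e2 := L.offK x' y' h1 h2 h3 h4 0
  rw [sub_zero] at e2
  rw [mem_union, mem_WT, e1, e2]
  by_cases hk : lt (x', y') ∈ K2 D pB tx ty
  · have e3 := L.onK x' y' h1 h2 h3 h4 hk
    simp only [hk, e3, hO, not_true_eq_false, false_and, and_false, or_false, true_and]
  · simp only [hk, hO, hB, false_and, false_or, true_and, not_false_eq_true, or_false]

/-- tiles of the fill which are closed at `τ` and open at `τ'` -/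
noncomputable def SG (D : Win) (pB : Bool) (tx ty τ τ' : ℤ) : Finset (ℤ × ℤ) :=
  TB D fun x y => lt (x, y) ∉ K2 D pB tx ty ∧ IC D x ∧ cT D τ x y = false ∧ cT D τ' x y = true

lemma mem_SG : lt (x, y) ∈ SG D pB tx ty τ τ' ↔ InB D x y ∧ lt (x, y) ∉ K2 D pB tx ty ∧ IC D x ∧
    cT D τ x y = false ∧ cT D τ' x y = true := by
  unfold SG
  rw [mem_TB]

/-- both changes together -/
lemma WT_SG : (WT D pB sB tx ty τ ∪ O.Wo) ∪ SG D pB tx ty τ τ' =
    (WT D pB sB tx ty τ' ∪ O.Wo) ∪ SG D pB tx ty τ' τ := by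
  ext e
  by_cases hO : e ∈ O.Wo
  · simp only [mem_union, hO, or_true, true_or]
  have key : e ∈ WT D pB sB tx ty τ ∪ SG D pB tx ty τ τ' ↔ e ∈ WT D pB sB tx ty τ' ∪ SG D pB tx ty τ' τ := by
    by_cases ho : (e.1 + e.2) % 2 = 1
    · obtain ⟨x, y, rfl⟩ := exists_lt ho
      rw [mem_union, mem_union, mem_WT, mem_WT, mem_SG, mem_SG]
      by_cases k1 : lt (x, y) ∈ K2 D pB tx ty
      · simp only [k1, not_true_eq_false, false_and, and_false, or_false]
      · by_cases k2 : IC D x
        · rcases h1 : cT D τ x y with _ | _ <;> rcases h2 : cT D τ' x y with _ | _ <;>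
            simp only [k1, k2, Bool.false_eq_true, Bool.true_eq_false, not_false_eq_true, not_true_eq_false,
              false_and, and_false, and_true, true_and, or_false, false_or, or_self]
        · simp only [k1, k2, false_and, and_false, or_false, false_or, true_and, not_false_eq_true]
    · constructor
      · intro h
        exfalso
        rcases mem_union.1 h with h | h
        · exact ho (odd_GB (WT_sub_GB h))
        · exact ho (odd_TB h)
      · intro h
        exfalso
        rcases mem_union.1 h with h | h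
        · exact ho (odd_GB (WT_sub_GB h))
        · exact ho (odd_TB h)
  rw [mem_union, mem_union] at key
  simp only [mem_union, hO, or_false]
  exact key

section rec

variable (C : CoarseC D n H A B YP YQ CL CR) (h30 : 30 ≤ n) (h : Tw pA sA pB sB tx ty) (hs : St ty τ σ)

include C h30 h hs

/-- two tiles of a strip near each other are in one row -/
lemma iso_aux (hK : lt (x, y) ∉ K2 D pB tx ty) (hI : IC D x) (hc : cT D τ x y ≠ cT D (τ + σ) x y)
    (hc' : cT D τ x' y' ≠ cT D (τ + σ) x' y') (h1 : x - 1 ≤ x') (h2 : x' ≤ x + 1) (h3 : y - 1 ≤ y')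
    (h4 : y' ≤ y + 1) : y' = y := by
  obtain ⟨c, b, L⟩ := loc_of C h30 h hs hK hI hc
  rw [L.offK x' y' h1 h2 h3 h4, L.offK x' y' h1 h2 h3 h4] at hc'
  by_contra hne
  apply hc'
  rcases L.bt with ⟨rfl, hb⟩ | ⟨rfl, hb⟩
  · rcases (by omega : y' = y + 1 ∨ y' = y - 1) with rfl | rfl
    · rw [L.up (y + 1 - τ) (by omega) (by omega), L.up (y + 1 - (τ + 1)) (by omega) (by omega)]
    · rw [L.dn (y - 1 - τ) (by omega) (by omega), L.dn (y - 1 - (τ + 1)) (by omega) (by omega)]
  · rcases (by omega : y' = y + 1 ∨ y' = y - 1) with rfl | rfl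
    · rw [L.up (y + 1 - τ) (by omega) (by omega), L.up (y + 1 - (τ + -1)) (by omega) (by omega)]
    · rw [L.dn (y - 1 - τ) (by omega) (by omega), L.dn (y - 1 - (τ + -1)) (by omega) (by omega)]

/-- the opened tiles -/
theorem rec_open : Rec (EC D pB sB tx ty) (WT D pB sB tx ty τ ∪ O.Wo) (SG D pB tx ty τ (τ + σ)) (-σ) := by
  have hv := h.vals
  unfold St at hs
  refine ⟨fun x y h1 => ?_, fun x y h1 => ?_, fun x y h1 => ?_, fun x y x' y' h1 h2 h3 h4 h5 => ?_,
    fun x y x' h1 h2 => ?_, fun x y x' y' h1 h2 h3 h4 h5 h6 => ?_⟩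
  all_goals
    have h1' := mem_SG.1 h1
    obtain ⟨hB, hK, hI, c1, c2⟩ := h1'
    obtain ⟨c, b, L⟩ := loc_of C h30 h hs hK hI (by rw [c1, c2]; decide)
    have v1 := L.offK x y (by omega) (by omega) (by omega) (by omega) τ
    have v2 := L.offK x y (by omega) (by omega) (by omega) (by omega) (τ + σ)
    rw [c1] at v1
    rw [c2] at v2
  · rw [L.val (O := O) (by omega) (by omega) (by omega) (by omega)]
    simp only [hK, hI, false_and, false_or, not_false_eq_true, true_and, not_true_eq_false, or_false,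
      ← v1]
    exact Bool.false_ne_true
  · rw [L.val (O := O) (by omega) (by omega) (by rcases L.bt with ⟨rfl, -⟩ | ⟨rfl, -⟩ <;> omega)
      (by rcases L.bt with ⟨rfl, -⟩ | ⟨rfl, -⟩ <;> omega)]
    refine Or.inr (Or.inl ⟨L.col _ (by rcases L.bt with ⟨rfl, -⟩ | ⟨rfl, -⟩ <;> omega)
      (by rcases L.bt with ⟨rfl, -⟩ | ⟨rfl, -⟩ <;> omega), hI, ?_⟩)
    rw [show y + -σ - τ = y - (τ + σ) by ring, ← v2]
  · rw [L.val (O := O) (by omega) (by omega) (by rcases L.bt with ⟨rfl, -⟩ | ⟨rfl, -⟩ <;> omega)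
      (by rcases L.bt with ⟨rfl, -⟩ | ⟨rfl, -⟩ <;> omega)]
    have k1 := L.col (y - -σ) (by rcases L.bt with ⟨rfl, -⟩ | ⟨rfl, -⟩ <;> omega)
      (by rcases L.bt with ⟨rfl, -⟩ | ⟨rfl, -⟩ <;> omega)
    have k2 : c (y - -σ - τ) = false := by
      rcases L.bt with ⟨rfl, hb⟩ | ⟨rfl, hb⟩
      · rw [L.up _ (by omega) (by omega), ← hb, ← v1]
      · rw [L.dn _ (by omega) (by omega), ← hb, ← v1]
    simp only [k1, hI, k2, false_and, false_or, not_false_eq_true, true_and, not_true_eq_false, or_false,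
      Bool.false_eq_true]
  · exact L.nE x' y' h2 h3 h4 h5
  · by_cases hK' : lt (x', y) ∈ K2 D pB tx ty
    · right
      have hI' := K2_IC hK'
      rw [L.val (O := O) (x' := x') (y' := y) (by omega) (by omega) (by omega) (by omega),
        L.val (O := O) (x' := x') (y' := y - -σ) (by omega) (by omega)
          (by rcases L.bt with ⟨rfl, -⟩ | ⟨rfl, -⟩ <;> omega)
          (by rcases L.bt with ⟨rfl, -⟩ | ⟨rfl, -⟩ <;> omega),
        L.val (O := O) (x' := x') (y' := y + -σ) (by omega) (by omega)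
          (by rcases L.bt with ⟨rfl, -⟩ | ⟨rfl, -⟩ <;> omega)
          (by rcases L.bt with ⟨rfl, -⟩ | ⟨rfl, -⟩ <;> omega)]
      have e1 : c (y - ty) = true := by
        rcases L.bt with ⟨rfl, hb⟩ | ⟨rfl, hb⟩
        · rw [L.dn _ (by omega) (by omega), ← L.dn (y - (τ + 1)) (by omega) (by omega), ← v2]
        · rw [L.up _ (by omega) (by omega), ← L.up (y - (τ + -1)) (by omega) (by omega), ← v2]
      have e2 : c (y + -σ - ty) = true := by
        rcases L.bt with ⟨rfl, hb⟩ | ⟨rfl, hb⟩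
        · rw [L.dn _ (by omega) (by omega), ← L.dn (y - (τ + 1)) (by omega) (by omega), ← v2]
        · rw [L.up _ (by omega) (by omega), ← L.up (y - (τ + -1)) (by omega) (by omega), ← v2]
      have e3 : c (y + -σ - τ) = true := by
        rw [show y + -σ - τ = y - (τ + σ) by ring, ← v2]
      refine ⟨fun _ => Or.inl ⟨hK', e1⟩, fun _ => ?_⟩
      by_cases hK2 : lt (x', y + -σ) ∈ K2 D pB tx ty
      · exact Or.inl ⟨hK2, e2⟩
      · exact Or.inr (Or.inl ⟨hK2, hI', e3⟩)
    · by_cases hI' : IC D x'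
      · left
        rw [mem_SG]
        refine ⟨L.box x' y (by omega) (by omega) (by omega) (by omega), hK', hI', ?_, ?_⟩
        · rw [L.offK x' y (by omega) (by omega) (by omega) (by omega), ← v1]
        · rw [L.offK x' y (by omega) (by omega) (by omega) (by omega), ← v2]
      · right
        rw [L.val (O := O) (x' := x') (y' := y) (by omega) (by omega) (by omega) (by omega),
          L.val (O := O) (x' := x') (y' := y - -σ) (by omega) (by omega)
            (by rcases L.bt with ⟨rfl, -⟩ | ⟨rfl, -⟩ <;> omega)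
            (by rcases L.bt with ⟨rfl, -⟩ | ⟨rfl, -⟩ <;> omega),
          L.val (O := O) (x' := x') (y' := y + -σ) (by omega) (by omega)
            (by rcases L.bt with ⟨rfl, -⟩ | ⟨rfl, -⟩ <;> omega)
            (by rcases L.bt with ⟨rfl, -⟩ | ⟨rfl, -⟩ <;> omega)]
        have n1 : ∀ y', lt (x', y') ∉ K2 D pB tx ty := fun y' hk => hI' (K2_IC hk)
        have e1 : c y = false := by
          rcases L.bt with ⟨rfl, hb⟩ | ⟨rfl, hb⟩
          · rw [L.up _ (by omega) (by omega), ← hb, ← v1]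
          · rw [L.dn _ (by omega) (by omega), ← hb, ← v1]
        have e2 : c (y - -σ) = false := by
          rcases L.bt with ⟨rfl, hb⟩ | ⟨rfl, hb⟩
          · rw [L.up _ (by omega) (by omega), ← hb, ← v1]
          · rw [L.dn _ (by omega) (by omega), ← hb, ← v1]
        simp only [n1, hI', e1, e2, false_and, false_or, not_false_eq_true, true_and, and_false, or_self,
          Bool.false_eq_true, false_implies, imp_self, and_self]
  · have h2' := mem_SG.1 h2
    exact iso_aux C h30 h hs hK hI (by rw [c1, c2]; decide) (by rw [h2'.2.2.2.1, h2'.2.2.2.2]; decide)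
      h3 h4 h5 h6

/-- the closed tiles -/
theorem rec_close : Rec (EC D pB sB tx ty) (WT D pB sB tx ty (τ + σ) ∪ O.Wo) (SG D pB tx ty (τ + σ) τ) σ := by
  have hv := h.vals
  unfold St at hs
  refine ⟨fun x y h1 => ?_, fun x y h1 => ?_, fun x y h1 => ?_, fun x y x' y' h1 h2 h3 h4 h5 => ?_,
    fun x y x' h1 h2 => ?_, fun x y x' y' h1 h2 h3 h4 h5 h6 => ?_⟩
  all_goals
    have h1' := mem_SG.1 h1
    obtain ⟨hB, hK, hI, c2, c1⟩ := h1'
    obtain ⟨c, b, L⟩ := loc_of C h30 h hs hK hI (by rw [c1, c2]; decide)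
    have v1 := L.offK x y (by omega) (by omega) (by omega) (by omega) τ
    have v2 := L.offK x y (by omega) (by omega) (by omega) (by omega) (τ + σ)
    rw [c1] at v1
    rw [c2] at v2
  · rw [L.val (O := O) (by omega) (by omega) (by omega) (by omega)]
    simp only [hK, hI, false_and, false_or, not_false_eq_true, true_and, not_true_eq_false, or_false,
      ← v2]
    exact Bool.false_ne_true
  · rw [L.val (O := O) (by omega) (by omega) (by rcases L.bt with ⟨rfl, -⟩ | ⟨rfl, -⟩ <;> omega)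
      (by rcases L.bt with ⟨rfl, -⟩ | ⟨rfl, -⟩ <;> omega)]
    refine Or.inr (Or.inl ⟨L.col _ (by rcases L.bt with ⟨rfl, -⟩ | ⟨rfl, -⟩ <;> omega)
      (by rcases L.bt with ⟨rfl, -⟩ | ⟨rfl, -⟩ <;> omega), hI, ?_⟩)
    rw [show y + σ - (τ + σ) = y - τ by ring, ← v1]
  · rw [L.val (O := O) (by omega) (by omega) (by rcases L.bt with ⟨rfl, -⟩ | ⟨rfl, -⟩ <;> omega)
      (by rcases L.bt with ⟨rfl, -⟩ | ⟨rfl, -⟩ <;> omega)]
    have k1 := L.col (y - σ) (by rcases L.bt with ⟨rfl, -⟩ | ⟨rfl, -⟩ <;> omega)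
      (by rcases L.bt with ⟨rfl, -⟩ | ⟨rfl, -⟩ <;> omega)
    have k2 : c (y - σ - (τ + σ)) = false := by
      rcases L.bt with ⟨rfl, hb⟩ | ⟨rfl, hb⟩
      · rw [L.dn _ (by omega) (by omega), ← L.dn (y - (τ + 1)) (by omega) (by omega), ← v2]
      · rw [L.up _ (by omega) (by omega), ← L.up (y - (τ + -1)) (by omega) (by omega), ← v2]
    simp only [k1, hI, k2, false_and, false_or, not_false_eq_true, true_and, not_true_eq_false, or_false,
      Bool.false_eq_true]
  · exact L.nE x' y' h2 h3 h4 h5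
  · by_cases hK' : lt (x', y) ∈ K2 D pB tx ty
    · right
      have hI' := K2_IC hK'
      rw [L.val (O := O) (x' := x') (y' := y) (by omega) (by omega) (by omega) (by omega),
        L.val (O := O) (x' := x') (y' := y - σ) (by omega) (by omega)
          (by rcases L.bt with ⟨rfl, -⟩ | ⟨rfl, -⟩ <;> omega)
          (by rcases L.bt with ⟨rfl, -⟩ | ⟨rfl, -⟩ <;> omega),
        L.val (O := O) (x' := x') (y' := y + σ) (by omega) (by omega)
          (by rcases L.bt with ⟨rfl, -⟩ | ⟨rfl, -⟩ <;> omega)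
          (by rcases L.bt with ⟨rfl, -⟩ | ⟨rfl, -⟩ <;> omega)]
      have e1 : c (y - ty) = false := by
        rcases L.bt with ⟨rfl, hb⟩ | ⟨rfl, hb⟩
        · rw [L.dn _ (by omega) (by omega), ← L.dn (y - (τ + 1)) (by omega) (by omega), ← v2]
        · rw [L.up _ (by omega) (by omega), ← L.up (y - (τ + -1)) (by omega) (by omega), ← v2]
      have e2 : c (y - σ - ty) = false := by
        rcases L.bt with ⟨rfl, hb⟩ | ⟨rfl, hb⟩
        · rw [L.dn _ (by omega) (by omega), ← L.dn (y - (τ + 1)) (by omega) (by omega), ← v2]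
        · rw [L.up _ (by omega) (by omega), ← L.up (y - (τ + -1)) (by omega) (by omega), ← v2]
      have e3 : c (y - σ - (τ + σ)) = false := by
        rcases L.bt with ⟨rfl, hb⟩ | ⟨rfl, hb⟩
        · rw [L.dn _ (by omega) (by omega), ← L.dn (y - (τ + 1)) (by omega) (by omega), ← v2]
        · rw [L.up _ (by omega) (by omega), ← L.up (y - (τ + -1)) (by omega) (by omega), ← v2]
      simp only [hK', hI', e1, e2, e3, false_and, false_or, not_false_eq_true, true_and, and_false, or_self,
        Bool.false_eq_true, false_implies, imp_self, and_self, not_true_eq_false]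
    · by_cases hI' : IC D x'
      · left
        rw [mem_SG]
        refine ⟨L.box x' y (by omega) (by omega) (by omega) (by omega), hK', hI', ?_, ?_⟩
        · rw [L.offK x' y (by omega) (by omega) (by omega) (by omega), ← v2]
        · rw [L.offK x' y (by omega) (by omega) (by omega) (by omega), ← v1]
      · right
        rw [L.val (O := O) (x' := x') (y' := y) (by omega) (by omega) (by omega) (by omega),
          L.val (O := O) (x' := x') (y' := y - σ) (by omega) (by omega)
            (by rcases L.bt with ⟨rfl, -⟩ | ⟨rfl, -⟩ <;> omega)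
            (by rcases L.bt with ⟨rfl, -⟩ | ⟨rfl, -⟩ <;> omega),
          L.val (O := O) (x' := x') (y' := y + σ) (by omega) (by omega)
            (by rcases L.bt with ⟨rfl, -⟩ | ⟨rfl, -⟩ <;> omega)
            (by rcases L.bt with ⟨rfl, -⟩ | ⟨rfl, -⟩ <;> omega)]
        have n1 : ∀ y', lt (x', y') ∉ K2 D pB tx ty := fun y' hk => hI' (K2_IC hk)
        have e1 : c y = true := by
          rcases L.bt with ⟨rfl, hb⟩ | ⟨rfl, hb⟩
          · rw [L.up _ (by omega) (by omega), ← hb, ← v1]
          · rw [L.dn _ (by omega) (by omega), ← hb, ← v1]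
        have e2 : c (y + σ) = true := by
          rcases L.bt with ⟨rfl, hb⟩ | ⟨rfl, hb⟩
          · rw [L.up _ (by omega) (by omega), ← hb, ← v1]
          · rw [L.dn _ (by omega) (by omega), ← hb, ← v1]
        simp only [n1, hI', e1, e2, false_and, false_or, not_false_eq_true, true_and, and_true, or_true,
          implies_true, and_self]
  · have h2' := mem_SG.1 h2
    exact iso_aux C h30 h hs hK hI (by rw [c1, c2]; decide) (by rw [h2'.2.2.2.1, h2'.2.2.2.2]; decide)
      h3 h4 h5 h6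

end rec

/-- the root is away from the large box -/
def RootB (O : OutB D) : Prop := ∀ x y, InB D x y → ¬ Tch x y (tv (vx O.c0)) ∧ ¬ Tch x y (tf (fi O.c0))

lemma RootB.unt (hO : RootB O) {S : Finset (ℤ × ℤ)} (hS : S ⊆ GB D) :
    Unt S (tv (vx O.c0)) ∧ Unt S (tf (fi O.c0)) :=
  ⟨fun x y h => (hO x y (mem_GB.1 (hS h))).1, fun x y h => (hO x y (mem_GB.1 (hS h))).2⟩

/-- **Moving the rows of the fill by one row** -/
theorem ceq_step (C : CoarseC D n H A B YP YQ CL CR) (h30 : 30 ≤ n) (h : Tw pA sA pB sB tx ty)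
    (hs : St ty τ σ) (hO : RootB O) : Ceq (EC D pB sB tx ty) O.c0 (WT D pB sB tx ty τ ∪ O.Wo)
      (WT D pB sB tx ty (τ + σ) ∪ O.Wo) := by
  have hσ : σ = 1 ∨ σ = -1 := by
    unfold St at hs
    omega
  have u1 := hO.unt (S := SG D pB tx ty τ (τ + σ)) TB_sub
  have u2 := hO.unt (S := SG D pB tx ty (τ + σ) τ) TB_sub
  have k1 := (rec_open C h30 h hs (O := O)).ceq (by omega) u1.1 u1.2
  have k2 := (rec_close C h30 h hs (O := O)).ceq hσ u2.1 u2.2
  rw [WT_SG] at k1
  exact k1.symm.trans k2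

end Pool.Agent.H74.Win
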