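import Mathlib
import Pool.Agent.H74.Win.StripR

set_option autoImplicit false
open Finset

/-! # The fill before and after the strips

`WC2_eq` : for `τ = 0` the labels `WT` are those of the middle environment. `WT_R` : for `τ = ty` they are
those of the translate in the rectangle `InR` (the intersection of the large box with its translate, in the
columns `IC`). `WOn_left`, .. : the labels of the natural windows near the frame. -/

namespace Pool.Agent.H74.Win

open Pool.Agent.H75.Perc hiding ph
open Pool.Agent.H75.TwoArm Pool.Agent.Q1 Pool.Agent.H33.Q1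
open Pool.Agent.H75.Four hiding ev Tch
open Pool.Agent.H69.Q1
open Pool.Agent.H74.R45 (exists_lt)
open Pool.Agent.H46.Sp (Win Out)
open Pool.Agent.H46.Sp.Win (m_min M_max m_lt_M)
open Pool.Agent.H42.Sp (Sd Ix kt rt)
open Pool.Agent.H44.FM.WG (Gr)
open Pool.Agent.H44.FM.WG.Gr
open Pool.Agent.H31.Sp (Coarse CoarseC)
open Pool.Agent.H33.Sp (shl mem_shl Tch)

variable {D : Win} {n H : ℤ} {A B : ℤ → ℤ} {YP YQ : ℤ} {CL CR : ℤ → Bool}
variable {p : Bool} {x y x' y' z Y τ σ τ' b : ℤ} {s : Finset Gr} {Q : Ix → Prop} {c : ℤ → Bool}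
variable {pA pB : Bool} {sA sB : Finset Gr} {tx ty : ℤ} {O : OutB D}

/-! ### Natural windows near the frame -/

lemma WOn_left (hB : InB D x y) (h : x + 1 < D.a (D.yP - 1)) :
    lt (x, y) ∈ WO D p Q (Snat D p) ↔ cLf D y = true := by
  have hE : lt (x, y) ∉ EO D p Q := fun he => by have := EO_near he; omega
  have hm : -1 ≤ y → y < D.h → x < D.m y := fun h1 h2 => by
    have := m_min (D := D) h1 h2
    omega
  have e : natc D p x y = cLf D y := by
    rw [natc_out (by
      by_cases h1 : y < -1
      · exact Or.inl h1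
      · by_cases h2 : D.h ≤ y
        · exact Or.inr (Or.inl h2)
        · exact Or.inr (Or.inr (Or.inl (hm (by omega) (by omega)))))]
    unfold fillc cLf
    by_cases h1 : y < -1
    · rw [if_pos h1, if_pos h1]
    · by_cases h2 : D.h ≤ y
      · rw [if_neg h1, if_pos h2, if_neg h1, if_pos h2]
      · rw [if_neg h1, if_neg h2, if_neg h1, if_neg h2, if_pos (hm (by omega) (by omega))]
  rw [mem_WOn, e]
  exact ⟨fun h => h.2.2, fun h => ⟨hB, hE, h⟩⟩

lemma WOn_right (hB : InB D x y) (h : D.b D.yQ < x) :
    lt (x, y) ∈ WO D p Q (Snat D p) ↔ cRt D y = true := by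
  have hE : lt (x, y) ∉ EO D p Q := fun he => by have := EO_near he; omega
  have hM : -1 ≤ y → y < D.h → D.M y ≤ x ∧ ¬ x < D.m y := fun h1 h2 => by
    have := M_max (D := D) h1 h2
    have := m_lt_M (D := D) h1 h2
    omega
  have e : natc D p x y = cRt D y := by
    rw [natc_out (by
      by_cases h1 : y < -1
      · exact Or.inl h1
      · by_cases h2 : D.h ≤ y
        · exact Or.inr (Or.inl h2)
        · exact Or.inr (Or.inr (Or.inr (hM (by omega) (by omega)).1)))]
    unfold fillc cRt
    by_cases h1 : y < -1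
    · rw [if_pos h1, if_pos h1]
    · by_cases h2 : D.h ≤ y
      · rw [if_neg h1, if_pos h2, if_neg h1, if_pos h2]
      · rw [if_neg h1, if_neg h2, if_neg h1, if_neg h2, if_neg (hM (by omega) (by omega)).2]
  rw [mem_WOn, e]
  exact ⟨fun h => h.2.2, fun h => ⟨hB, hE, h⟩⟩

lemma WOn_bot (hB : InB D x y) (h : y + sh p < -1) :
    lt (x, y) ∈ WO D p Q (Snat D p) ↔ D.cb = true := by
  have h0 := sh_nonneg p
  have hE : lt (x, y) ∉ EO D p Q := fun he => by have := EO_near he; omega
  have e : natc D p x y = D.cb := by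
    unfold natc
    rw [if_pos (by omega)]
  rw [mem_WOn, e]
  exact ⟨fun h => h.2.2, fun h => ⟨hB, hE, h⟩⟩

lemma WOn_top (hB : InB D x y) (h : D.h < y + sh p) :
    lt (x, y) ∈ WO D p Q (Snat D p) ↔ D.ct = true := by
  have h0 := sh_le p
  have hh := D.hh
  have hE : lt (x, y) ∉ EO D p Q := fun he => by have := EO_near he; omega
  have e : natc D p x y = D.ct := by
    unfold natc
    rw [if_neg (by omega), if_pos (by omega)]
  rw [mem_WOn, e]
  exact ⟨fun h => h.2.2, fun h => ⟨hB, hE, h⟩⟩

/-! ### The natural colours away from the windows -/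

/-- a tile between the sides of the union is a tile of one of the two worlds -/
lemma inU_P (h1 : -1 ≤ y) (h2 : y < D.h) (h3 : D.m y ≤ x) (h4 : x < D.M y) :
    ∃ q, InP D q x y := by
  have := closed_h (D := D) (p := false) (x := x) (y := y + 1) (by rw [sh_false]; omega)
    (by rw [sh_false]; omega) (by rw [sh_false, add_zero, add_sub_cancel_right]; exact h3)
    (by rw [sh_false, add_zero, add_sub_cancel_right]; exact h4)
  rcases this with h5 | h5
  · refine ⟨true, ?_⟩
    unfold InP at h5 ⊢
    rw [sh_false, add_zero] at h5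
    rw [sh_true]
    exact h5
  · rw [add_sub_cancel_right] at h5
    exact ⟨false, h5⟩

lemma natc_fill (h : ∀ q, ¬ InP D q x y) : natc D p x y = fillc D x y := by
  by_cases h1 : y < -1 ∨ D.h ≤ y ∨ x < D.m y ∨ D.M y ≤ x
  · exact natc_out h1
  · exfalso
    obtain ⟨q, hq⟩ := inU_P (D := D) (x := x) (y := y) (by omega) (by omega) (by omega) (by omega)
    exact h q hq

lemma fillc_cT : fillc D x y = cT D 0 x y := by
  have hc := cy_rng D y
  have hh := D.hh
  unfold fillc cT cLf cRt
  rw [sub_zero]
  by_cases h1 : y < -1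
  · simp only [if_pos h1, ite_self]
  · by_cases h2 : D.h ≤ y
    · simp only [if_neg h1, if_pos h2, ite_self]
    · simp only [if_neg h1, if_neg h2]
      rw [show cy D y = y by omega]

/-- tiles which are not within distance `2` of the translate -/
lemma not_P (h : Tw pA sA pB sB tx ty) (hN : ¬ N2 D pB tx ty x y) :
    (∀ q, ¬ InP D q x y) ∧ lt (x, y) ∉ EO D pA (gA D pA sA) ∧
    (∀ q, ¬ InP D q (x - tx) (y - ty)) ∧ lt (x - tx, y - ty) ∉ EO D pB (gA D pB sB) := by
  have hv := h.vals
  refine ⟨fun q hq => ?_, fun he => ?_, fun q hq => ?_, fun he => ?_⟩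
  · apply hN
    have h1 := sh_nonneg q
    have h2 := sh_le q
    refine ⟨x, y + sh q - sh pB, by omega, by omega, by omega, by omega, ?_⟩
    unfold InP at hq ⊢
    rw [sub_add_cancel]
    exact hq
  · apply hN
    obtain ⟨x2, y2, a1, a2, a3, a4, a5⟩ := EO_P he
    refine ⟨x2, y2 + sh pA - sh pB, by omega, by omega, by omega, by omega, ?_⟩
    unfold InP at a5 ⊢
    rw [sub_add_cancel]
    exact a5
  · apply hN
    have h1 := sh_nonneg q
    have h2 := sh_le q
    refine ⟨x - tx, y - ty + sh q - sh pB, by omega, by omega, by omega, by omega, ?_⟩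
    unfold InP at hq ⊢
    rw [sub_add_cancel]
    exact hq
  · apply hN
    obtain ⟨x2, y2, a1, a2, a3, a4, a5⟩ := EO_P he
    exact ⟨x2, y2, by omega, by omega, by omega, by omega, a5⟩

/-- **The middle environment before the strips** -/
theorem WC2_eq (h : Tw pA sA pB sB tx ty) : WC2 D pA sA pB sB tx ty = WT D pB sB tx ty 0 := by
  ext e
  by_cases ho : (e.1 + e.2) % 2 = 1
  swap
  · constructor
    · intro he
      exact absurd (odd_GB (WC2_sub_GB he)) ho
    · intro he
      exact absurd (odd_GB (WT_sub_GB he)) ho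
  obtain ⟨x, y, rfl⟩ := exists_lt ho
  by_cases hK : lt (x, y) ∈ K2 D pB tx ty
  · rw [WC2_on hK, mem_WT]
    simp only [hK, true_and, not_true_eq_false, false_and, and_false, or_false]
  rw [WC2_off hK, mem_WT, mem_WOn]
  by_cases hB : InB D x y
  swap
  · simp only [hB, hK, false_and, or_self]
  have key : lt (x, y) ∉ EO D pA (gA D pA sA) ∧ natc D pA x y = cT D 0 x y := by
    by_cases hN : N2 D pB tx ty x y
    · have hZ : ¬ Zn D x y := fun hZ => hK (mem_K2.2 ⟨hN, hZ⟩)
      refine ⟨(h.frame_W2 hZ).2.1, ?_⟩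
      rw [← fillc_cT]
      refine natc_out ?_
      by_contra hc
      have h1 : -1 ≤ y := by omega
      have h2 : y < D.h := by omega
      have := m_min (D := D) h1 h2
      have := M_max (D := D) h1 h2
      unfold Zn at hZ
      omega
    · have k := not_P h hN
      exact ⟨k.2.1, by rw [← fillc_cT]; exact natc_fill k.1⟩
  by_cases hI : IC D x
  · simp only [hB, hK, hI, key.1, key.2, true_and, false_and, false_or, not_false_eq_true,
      not_true_eq_false, or_false]
  · simp only [hB, hK, hI, key.1, key.2, true_and, false_and, false_or, not_false_eq_true]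

/-! ### The rectangle -/

/-- the rectangle where the labels become those of the translate -/
def InR (D : Win) (ty x y : ℤ) : Prop :=
  IC D x ∧ -4 ≤ y ∧ -4 ≤ y - ty ∧ y ≤ D.h + 2 ∧ y - ty ≤ D.h + 2

/-- **After the strips the labels are those of the translate in the rectangle** -/
theorem WT_R (C : CoarseC D n H A B YP YQ CL CR) (h30 : 30 ≤ n) (h : Tw pA sA pB sB tx ty)
    (hR : InR D ty x y) : lt (x, y) ∈ WT D pB sB tx ty ty ↔
      lt (x, y) ∈ shl (vt tx ty) (WO D pB (gA D pB sB) (Snat D pB)) := by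
  have hv := h.vals
  have hh := D.hh
  obtain ⟨hI, r1, r2, r3, r4⟩ := hR
  by_cases hK : lt (x, y) ∈ K2 D pB tx ty
  · rw [mem_WT]
    simp only [hK, true_and, not_true_eq_false, false_and, and_false, or_false]
  have hB : InB D x y := by
    unfold IC at hI
    unfold InB
    omega
  have hB' : InB D (x - tx) (y - ty) := by
    unfold IC at hI
    unfold InB
    omega
  rw [mem_WT, mem_shl_lt h.disp.2.2.1, mem_WOn]
  have key : lt (x - tx, y - ty) ∉ EO D pB (gA D pB sB) ∧ natc D pB (x - tx) (y - ty) = cT D ty x y := by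
    by_cases hN : N2 D pB tx ty x y
    · have hZ : ¬ Zn D x y := fun hZ => hK (mem_K2.2 ⟨hN, hZ⟩)
      obtain ⟨x2, y2, a1, a2, a3, a4, b1, b2, b3, b4⟩ := hN
      have hy : D.h ≤ y - ty ∧ D.h < y - ty + sh pB := by
        unfold Zn at hZ
        unfold IC at hI
        omega
      refine ⟨fun he => ?_, ?_⟩
      · have := EO_near he
        omega
      · rw [natc_out (Or.inr (Or.inl hy.1))]
        unfold fillc cT cLf cRt
        simp only [if_neg (show ¬ y - ty < -1 by omega), if_pos hy.1, ite_self]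
    · have k := not_P h hN
      refine ⟨k.2.2.2, ?_⟩
      rw [natc_fill k.2.2.1]
      by_cases h1 : y - ty < -1
      · unfold fillc cT cLf cRt
        simp only [if_pos h1, ite_self]
      by_cases h2 : D.h ≤ y - ty
      · unfold fillc cT cLf cRt
        simp only [if_neg h1, if_pos h2, ite_self]
      have c1 := cy_rng D y
      obtain ⟨Y2, e1, e2, e3, e4⟩ := m_row c1.1 c1.2.1
      obtain ⟨Y3, f1, f2, f3, f4⟩ := m_row (D := D) (z := y - ty) (by omega) (by omega)
      have g1 := far_row hN e2 e3 (by omega) (by omega)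
      have g2 := far_row hN f2 f3 (by omega) (by omega)
      have w1 := wide20 C.toCoarse h30 e2 e3 f2 f3 (by omega) (by omega)
      have w2 := wide20 C.toCoarse h30 f2 f3 e2 e3 (by omega) (by omega)
      unfold fillc cT cLf cRt
      simp only [if_neg h1, if_neg h2, e4, f4]
      rcases g1 with g1 | g1
      · rw [if_pos (show x - tx < D.a Y3 by omega), if_pos (show x < D.a Y2 by omega)]
      · rw [if_neg (show ¬ x - tx < D.a Y3 by omega), if_neg (show ¬ x < D.a Y2 by omega)]
  simp only [hB, hB', hK, hI, key.1, key.2, true_and, false_and, false_or, not_false_eq_true,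
    not_true_eq_false, or_false]

/-- **The middle environment and the fill of the translate have the same connections.** -/
theorem ceq_WC2 (C : CoarseC D n H A B YP YQ CL CR) (h30 : 30 ≤ n) (h : Tw pA sA pB sB tx ty)
    (hO : RootB O) : Ceq (EC D pB sB tx ty) O.c0 (WC2 D pA sA pB sB tx ty ∪ O.Wo)
      (WT D pB sB tx ty ty ∪ O.Wo) := by
  rw [WC2_eq h]
  rcases h.vals with ⟨-, e, -, -⟩ | ⟨-, e, -, -⟩ | ⟨-, e, -, -⟩
  · have k1 := ceq_step C h30 h (τ := 0) (σ := 1) (Or.inl ⟨rfl, le_rfl, by omega⟩) hO
    have k2 := ceq_step C h30 h (τ := 1) (σ := 1) (Or.inl ⟨rfl, by omega, by omega⟩) hO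
    rw [zero_add] at k1
    rw [show (1 : ℤ) + 1 = ty by omega] at k2
    exact k1.trans k2
  · have k1 := ceq_step C h30 h (τ := 0) (σ := -1) (Or.inr ⟨rfl, rfl, e⟩) hO
    rw [show (0 : ℤ) + -1 = ty by omega] at k1
    exact k1
  · have k1 := ceq_step C h30 h (τ := 0) (σ := 1) (Or.inl ⟨rfl, le_rfl, by omega⟩) hO
    rw [show (0 : ℤ) + 1 = ty by omega] at k1
    exact k1

end Pool.Agent.H74.Win
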