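import Mathlib
import Pool.Agent.H74.Win.StripW

set_option autoImplicit false
open Finset

/-! # The random tiles are connected

`tConn_EO` : the random tiles of the natural windows are connected through sides; `tConn_sh`, `tConn_EC` : also
the translates. -/

namespace Pool.Agent.H74.Win

open Pool.Agent.H75.Perc hiding ph
open Pool.Agent.H75.TwoArm Pool.Agent.Q1 Pool.Agent.H33.Q1
open Pool.Agent.H75.Four hiding ev Tch
open Pool.Agent.H69.Q1
open Pool.Agent.H74.R45 (exists_lt)
open Pool.Agent.H46.Sp (Win Out)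
open Pool.Agent.H42.Sp (Sd Ix kt rt)
open Pool.Agent.H44.FM.WG (Gr)
open Pool.Agent.H44.FM.WG.Gr
open Pool.Agent.H31.Sp (Coarse CoarseC)
open Pool.Agent.H33.Sp (shl mem_shl Tch)
open Pool.Agent.Q1.Env (TConn TAdj)

variable {D : Win} {n H : ℤ} {A B : ℤ → ℤ} {YP YQ : ℤ} {CL CR : ℤ → Bool}
variable {p : Bool} {x y x' y' z Y : ℤ} {s : Finset Gr} {Q : Ix → Prop}
variable {pA pB : Bool} {sA sB : Finset Gr} {tx ty : ℤ}

/-- the tiles of the layer have a neighbour in `P` -/
lemma ly_nb {t : Sd} (h : Ly D p t x y) : ∃ k : ℤ, InP D p (x + (dir k).1) (y + (dir k).2) := by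
  cases t
  · exact ⟨0, by
      have e : dir 0 = (1, 0) := rfl
      rw [e, add_zero]
      exact LyL.out h |>.2⟩
  · exact ⟨2, by
      have e : dir 2 = (-1, 0) := rfl
      rw [e, add_zero]
      exact LyR.out h |>.2⟩
  · exact ⟨1, by
      have e : dir 1 = (0, 1) := rfl
      rw [e, add_zero]
      exact LyF.out h |>.2⟩
  · exact ⟨3, by
      have e : dir 3 = (0, -1) := rfl
      rw [e, add_zero]
      exact LyC.out h |>.2⟩

/-- the tiles of `P` are joined to a tile of each row -/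
lemma tr_rows (C : Coarse D n H A B) (h30 : 30 ≤ n) (h : InP D p x y) (m : ℕ) :
    (y + sh p + m < D.h → ∃ x', InP D p x' (y + m) ∧ TR (EO D p Q) (x, y) (x', y + m)) := by
  induction m with
  | zero =>
    intro _
    refine ⟨x, ?_, ?_⟩
    · rw [Nat.cast_zero, add_zero]; exact h
    · rw [Nat.cast_zero, add_zero]
  | succ m ih =>
    intro h1
    push_cast at h1
    obtain ⟨x1, g1, g2⟩ := ih (by omega)
    have k0 := h.1
    have w1 := wide20 C h30 (y := y + sh p + m) (z := y + sh p + m + 1) (by omega) (by omega)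
      (by omega) (by omega) (by omega) (by omega)
    have w2 := wide20 C h30 (z := y + sh p + m) (y := y + sh p + m + 1) (by omega) (by omega)
      (by omega) (by omega) (by omega) (by omega)
    have w3 := D.ab (y + sh p + m + 1) (by omega) (by omega)
    have w4 := D.ab (y + sh p + m) (by omega) (by omega)
    have e1 : y + m + sh p = y + sh p + m := by ring
    unfold InP at g1
    rw [e1] at g1
    refine ⟨max (D.a (y + sh p + m)) (D.a (y + sh p + m + 1)), ?_, g2.trans ?_⟩
    · unfold InP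
      push_cast
      rw [show y + (m + 1) + sh p = y + sh p + m + 1 by ring]
      omega
    · refine Relation.ReflTransGen.trans (b := lt (max (D.a (y + sh p + m)) (D.a (y + sh p + m + 1)), y + m)) ?_ ?_
      · refine Pool.Agent.H33.Sp.tr_row fun z hz => ?_
        rw [mem_EO]
        left
        unfold InP
        rw [e1]
        omega
      · push_cast
        refine Pool.Agent.H33.Sp.tr_col fun z hz => ?_
        rw [mem_EO]
        left
        have : z = y + m ∨ z = y + (m + 1) := by omega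
        unfold InP
        rcases this with rfl | rfl
        · rw [e1]; omega
        · rw [show y + (m + 1) + sh p = y + sh p + m + 1 by ring]; omega

lemma tadj_symm {a b : ℤ × ℤ} (h : TAdj a b) : TAdj b a := by
  obtain ⟨c, h | h⟩ := h
  · exact ⟨c, Or.inr ⟨h.2, h.1⟩⟩
  · exact ⟨c, Or.inl ⟨h.2, h.1⟩⟩

lemma tr_symm {E : Finset (ℤ × ℤ)} {a b : ℤ × ℤ} (ha : a ∈ E)
    (h : Relation.ReflTransGen (fun x y => TAdj x y ∧ y ∈ E) a b) :
    Relation.ReflTransGen (fun x y => TAdj x y ∧ y ∈ E) b a := by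
  have key : (b ∈ E) ∧ Relation.ReflTransGen (fun x y => TAdj x y ∧ y ∈ E) b a := by
    induction h with
    | refl => exact ⟨ha, Relation.ReflTransGen.refl⟩
    | tail _ h2 ih => exact ⟨h2.2, Relation.ReflTransGen.head ⟨tadj_symm h2.1, ih.1⟩ ih.2⟩
  exact key.2

/-- **The random tiles are connected** -/
theorem tConn_EO (C : Coarse D n H A B) (h30 : 30 ≤ n) : TConn (EO D p Q) := by
  -- every tile is joined to a tile of `P` in the highest row
  have key : ∀ e ∈ EO D p Q, ∃ x', InP D p x' (D.h - 1 - sh p) ∧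
      Relation.ReflTransGen (fun x y => TAdj x y ∧ y ∈ EO D p Q) e (lt (x', D.h - 1 - sh p)) := by
    intro e he
    obtain ⟨x, y, rfl⟩ := exists_lt (odd_TB he)
    -- to `P`
    obtain ⟨x1, y1, g1, g2⟩ : ∃ x1 y1, InP D p x1 y1 ∧ TR (EO D p Q) (x, y) (x1, y1) := by
      rcases mem_EO.1 he with h | ⟨k, hk, hA, ht⟩
      · exact ⟨x, y, h, Relation.ReflTransGen.refl⟩
      · obtain ⟨j, hj⟩ := ly_nb (hk.info ht).1
        refine ⟨_, _, hj, Relation.ReflTransGen.single ⟨?_, mem_EO.2 (Or.inl hj)⟩⟩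
        have := tadj_lt (x, y) j
        have e1 : ((x, y) : ℤ × ℤ) + dir j = (x + (dir j).1, y + (dir j).2) := rfl
        rw [e1] at this
        exact this
    have h3 := g1.2.1
    obtain ⟨x2, g3, g4⟩ := tr_rows (Q := Q) C h30 g1 (D.h - 1 - sh p - y1).toNat (by omega)
    rw [show y1 + ((D.h - 1 - sh p - y1).toNat : ℤ) = D.h - 1 - sh p by omega] at g3 g4
    exact ⟨x2, g3, g2.trans g4⟩
  intro a ha b hb
  obtain ⟨xa, a1, a2⟩ := key a ha
  obtain ⟨xb, b1, b2⟩ := key b hb
  refine a2.trans (Relation.ReflTransGen.trans ?_ (tr_symm hb b2))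
  refine Pool.Agent.H33.Sp.tr_row fun z hz => ?_
  rw [mem_EO]
  left
  unfold InP at a1 b1 ⊢
  omega

lemma lab_sh2 (c : ℤ × ℤ) {a b : ℤ} : lab (c.1 + 2 * a, c.2 + 2 * b) =
    ((lab c).1 + 2 * a, (lab c).2 + 2 * b) := by
  have e1 : (c.1 + 2 * a) % 2 = c.1 % 2 := by omega
  have e2 : (c.2 + 2 * b) % 2 = c.2 % 2 := by omega
  unfold lab
  simp only [e1, e2]
  split_ifs <;> (refine Prod.ext ?_ ?_ <;> simp only <;> ring)

lemma plab_sh2 (c : ℤ × ℤ) {a b : ℤ} : plab (c.1 + 2 * a, c.2 + 2 * b) =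
    ((plab c).1 + 2 * a, (plab c).2 + 2 * b) := by
  have e1 : (c.1 + 2 * a) % 2 = c.1 % 2 := by omega
  have e2 : (c.2 + 2 * b) % 2 = c.2 % 2 := by omega
  unfold plab
  simp only [e1, e2]
  split_ifs <;> (refine Prod.ext ?_ ?_ <;> simp only <;> ring)

/-- translates of connected sets -/
theorem tConn_sh {E : Finset (ℤ × ℤ)} {v : ℤ × ℤ} (h : TConn E) : TConn (shl v E) := by
  have key : ∀ a b, Relation.ReflTransGen (fun x y => TAdj x y ∧ y ∈ E) a b →
      Relation.ReflTransGen (fun x y => TAdj x y ∧ y ∈ shl v E) (a.1 + 2 * v.1, a.2 + 2 * v.2)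
        (b.1 + 2 * v.1, b.2 + 2 * v.2) := by
    intro a b hab
    induction hab with
    | refl => exact Relation.ReflTransGen.refl
    | @tail c d _ h2 ih =>
      refine ih.tail ⟨?_, Pool.Agent.H33.Sp.mem_shl'.2 h2.2⟩
      obtain ⟨c', h3⟩ := h2.1
      refine ⟨(c'.1 + 2 * v.1, c'.2 + 2 * v.2), ?_⟩
      rw [plab_sh2, lab_sh2]
      rcases h3 with ⟨h3, h4⟩ | ⟨h3, h4⟩
      · exact Or.inl ⟨by rw [h3], by rw [h4]⟩
      · exact Or.inr ⟨by rw [h3], by rw [h4]⟩
  intro a ha b hb
  rw [mem_shl] at ha hb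
  have h2 := key _ _ (h _ ha _ hb)
  simp only [sub_add_cancel] at h2
  exact h2

theorem tConn_EC (C : Coarse D n H A B) (h30 : 30 ≤ n) : TConn (EC D pB sB tx ty) := by
  unfold EC
  exact tConn_sh (tConn_EO C h30)

end Pool.Agent.H74.Win
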