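import Mathlib
import Pool.Agent.H74.Win.TCon
import Pool.Agent.H13.Sp.SameRing
import Pool.Agent.H33.Sp.FrameR

set_option autoImplicit false
open Finset

/-! # The middle environment and the translate

`bRs D ty u v` : the rectangle in which the middle environment (after the strips) and the translate agree, moved
by `(-u, -v)`. `StrD`, `MkE` : the hypotheses of helper33's `FrameR`. `OTy O X1 X3` : what is used of the outside:
root at one of the marks and the type. `mid_same` : the translate has the increments of the middle environment,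
up to a unit. -/

namespace Pool.Agent.H74.Win

open Pool.Agent.H75.Perc hiding ph
open Pool.Agent.H75.TwoArm Pool.Agent.Q1 Pool.Agent.H33.Q1
open Pool.Agent.H75.Four hiding ev Tch
open Pool.Agent.H69.Q1
open Pool.Agent.H74.R45 (exists_lt odd_RT)
open Pool.Agent.H46.Sp (Win Out)
open Pool.Agent.H46.Sp.Win (m_min M_max m_lt_M)
open Pool.Agent.H42.Sp (Sd Ix kt rt)
open Pool.Agent.H44.FM.WG (Gr)
open Pool.Agent.H44.FM.WG.Gr
open Pool.Agent.H31.Sp (Coarse CoarseC)
open Pool.Agent.H33.Sp (shl mem_shl Tch BF bfD PortD oOne oTwo shX shc)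
open Pool.Agent.H33.Sp.BF (SI Str Mk et ef mx)
open Pool.Agent.H13.Sp (RingC WFc MarkR)
open Pool.Agent.Q1.Env (TConn TAdj)
open Pool.Agent.Q1.M6c (PlaneEnv planeEnv_plane)

variable {D : Win} {n H : ℤ} {A B : ℤ → ℤ} {YP YQ : ℤ} {CL CR : ℤ → Bool}
variable {p : Bool} {x y x' y' z Y τ σ τ' b : ℤ} {s : Finset Gr} {Q : Ix → Prop} {c : ℤ → Bool}
variable {pA pB : Bool} {sA sB : Finset Gr} {tx ty : ℤ} {O : OutB D} {X X1 X3 : Bool × ℤ}

/-! ### Translations of vertices and faces -/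

lemma gp_sh (h : (tx + ty) % 2 = 0) (a b : ℤ) :
    Pool.Agent.H13.R45.gp (a, b) + vt tx ty = Pool.Agent.H13.R45.gp (a + tx, b + ty) := by
  unfold Pool.Agent.H13.R45.gp vt
  refine Prod.ext ?_ ?_ <;> simp only [Prod.fst_add, Prod.snd_add] <;> omega

lemma et_sh (h : (tx + ty) % 2 = 0) (a b : ℤ) : et a b + vt tx ty = et (a + tx) (b + ty) := by
  unfold Pool.Agent.H33.Sp.BF.et
  rw [gp_sh h, show a + tx + (a + tx + (b + ty)) % 2 = a + (a + b) % 2 + tx by omega]

lemma ef_sh (h : (tx + ty) % 2 = 0) (a b : ℤ) : ef a b + vt tx ty = ef (a + tx) (b + ty) := by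
  unfold Pool.Agent.H33.Sp.BF.ef
  rw [gp_sh h, show a + tx + (a + tx + (b + ty) + 1) % 2 = a + (a + b + 1) % 2 + tx by omega]

/-! ### The rectangle -/

/-- the rectangle, moved by `(-u, -v)` -/
def bRs (D : Win) (ty : ℤ) (ht : -2 ≤ ty ∧ ty ≤ 2) (u v : ℤ) : BF where
  x0 := D.a (D.yP - 1) - 3 - u
  x1 := D.b D.yQ + 3 - u
  y0 := max (-4) (-4 + ty) - v
  y1 := min (D.h + 3) (D.h + 3 + ty) - v
  FL := D.a (D.yP - 1) - 5 - u
  FR := D.b D.yQ + 4 - u
  FB := max (-4) (-4 + ty) - 2 - v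
  FT := min (D.h + 3) (D.h + 3 + ty) + 1 - v
  hx := by
    have h1 := Pool.Agent.H46.Sp.Win.a_min (D := D) (y := D.yQ) D.Q0 D.Q1
    have h2 := D.ab D.yQ D.Q0 D.Q1
    omega
  hy := by have := D.hh; omega
  hL := by omega
  hR := by omega
  hB := by omega
  hT := by omega

lemma Tw.ht (h : Tw pA sA pB sB tx ty) : -2 ≤ ty ∧ ty ≤ 2 := by
  have := h.vals
  omega

/-- `FrameR.Str` for all frames -/
def StrD (D : Win) (R : BF) (W : Finset (ℤ × ℤ)) (cl cr : ℤ → Bool) (τ : ℤ) : Prop :=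
  ∀ L hL X, Str (bfD D L hL X) R W cl cr τ

/-- `FrameR.Mk` for all frames -/
def MkE (D : Win) (R : BF) (cl cr : ℤ → Bool) (τ : ℤ) (X : Bool × ℤ) : Prop :=
  ∀ L hL X', Mk (bfD D L hL X') R cl cr τ X

/-- **The outside of a window**: root at one of the marks, the free arcs or the wired arcs are joined. -/
structure OTy (O : OutB D) (X1 X3 : Bool × ℤ) : Prop where
  odd : ∀ e ∈ O.Wo, (e.1 + e.2) % 2 = 1
  rb : RootB O
  root : ∃ Xs, (Xs = X1 ∨ Xs = X3) ∧ ∀ (R : BF) (W : Finset (ℤ × ℤ)) (cl cr : ℤ → Bool) (τ : ℤ),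
    W ⊆ GB D → StrD D R W cl cr τ → MkE D R cl cr τ X1 → MkE D R cl cr τ X3 →
    Co (W ∪ O.Wo) (vx O.c0) (et (mx R Xs) (Xs.2 + τ)) ∧
    DCo (SI R ∪ (W ∪ O.Wo)) (fi O.c0) (ef (mx R Xs) (R.fr (Xs.1, Xs.2 + τ)))
  typ : (∀ (R : BF) (W : Finset (ℤ × ℤ)) (cl cr : ℤ → Bool) (τ : ℤ),
    W ⊆ GB D → StrD D R W cl cr τ → MkE D R cl cr τ X1 → MkE D R cl cr τ X3 →
    DCo (SI R ∪ (W ∪ O.Wo)) (ef (mx R X1) (R.fr (X1.1, X1.2 + τ))) (ef (mx R X3) (R.fr (X3.1, X3.2 + τ)))) ∨
    (∀ (R : BF) (W : Finset (ℤ × ℤ)) (cl cr : ℤ → Bool) (τ : ℤ),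
    W ⊆ GB D → StrD D R W cl cr τ → MkE D R cl cr τ X1 → MkE D R cl cr τ X3 →
    Co ((W ∪ O.Wo) \ SI R) (et (mx R X1) (X1.2 + τ)) (et (mx R X3) (X3.2 + τ)))

/-- one wire -/
theorem oTy_one {L : ℤ} {hL : 2 ≤ L} (h : PortD D X1) (hr : RootB (oOne D L hL X1 h)) :
    OTy (oOne D L hL X1 h) X1 X3 where
  odd := fun _ he => Pool.Agent.H33.Sp.BF.odd_LS he
  rb := hr
  root := ⟨X1, Or.inl rfl, fun _ _ _ _ _ hW hS h1 _ =>
    ⟨Pool.Agent.H33.Sp.one_v (hS L hL X1) (h1 L hL X1), Pool.Agent.H33.Sp.one_f hW (hS L hL X1) (h1 L hL X1)⟩⟩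
  typ := Or.inl fun _ _ _ _ _ hW hS h1 h3 =>
    Pool.Agent.H33.Sp.one_t hW (hS L hL X1) (h1 L hL X1) (h3 L hL X1)

/-- two wires -/
theorem oTy_two {L : ℤ} {hL : 2 ≤ L} (h : PortD D X1) (h' : PortD D X3) (hA : BF.Ap X1 X3)
    (hr : RootB (oTwo D L hL X1 X3 h h')) : OTy (oTwo D L hL X1 X3 h h') X1 X3 where
  odd := fun _ he => Pool.Agent.H33.Sp.BF.odd_LS he
  rb := hr
  root := ⟨X1, Or.inl rfl, fun _ _ _ _ _ hW hS h1 _ =>
    ⟨Pool.Agent.H33.Sp.two_v (hS L hL X1) (h1 L hL X1),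
      Pool.Agent.H33.Sp.two_f hA hW (hS L hL X1) (h1 L hL X1)⟩⟩
  typ := Or.inr fun _ _ _ _ _ _ hS h1 h3 =>
    Pool.Agent.H33.Sp.two_t hA (hS L hL X1) (h1 L hL X1) (h3 L hL X1)

lemma OTy.symm (h : OTy O X1 X3) : OTy O X3 X1 where
  odd := h.odd
  rb := h.rb
  root := by
    obtain ⟨Xs, h1, h2⟩ := h.root
    exact ⟨Xs, h1.symm, fun R W cl cr τ hW hS m1 m3 => h2 R W cl cr τ hW hS m3 m1⟩
  typ := by
    rcases h.typ with h1 | h1
    · exact Or.inl fun R W cl cr τ hW hS m1 m3 => (h1 R W cl cr τ hW hS m3 m1).symm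
    · exact Or.inr fun R W cl cr τ hW hS m1 m3 => (h1 R W cl cr τ hW hS m3 m1).symm

/-! ### The marks -/

/-- **The marks of a window** -/
structure MkD (D : Win) (X1 X3 : Bool × ℤ) : Prop where
  ne : X1 ≠ X3
  all : ∀ X, WFc (cLf D) (cRt D) X ↔ (X = X1 ∨ X = X3)

/-- a mark of the window is isolated -/
theorem mkE_of (C : CoarseC D n H A B YP YQ CL CR) (h30 : 30 ≤ n) (ht : -2 ≤ ty ∧ ty ≤ 2) {u v : ℤ}
    (hX : WFc (cLf D) (cRt D) X) (huv : (u = 0 ∧ v = 0 ∧ τ = ty) ∨ (v = ty ∧ τ = 0)) :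
    MkE D (bRs D ty ht u v) (cLf D) (cRt D) τ X := by
  intro L hL X'
  unfold WFc at hX
  refine ⟨by omega, fun hs => ?_, fun hs => ?_⟩
  · simp only [hs, Bool.false_eq_true, if_false] at hX
    have G := chL_of C h30 (b := X.2) (by rw [hX.1, hX.2]; simp)
    have g1 := G.lo
    have g2 := G.hi
    refine ⟨fun d h0 h3 => ⟨?_, ?_⟩, ?_, fun h0 => ?_⟩
    · rw [G.up (X.2 + d) (by omega) (by omega)]; exact hX.1
    · rw [G.dn (X.2 - 1 - d) (by omega) (by omega)]; exact hX.2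
    · unfold bRs
      simp only
      omega
    · unfold bRs bfD
      simp only
      omega
  · simp only [hs, if_true] at hX
    have G := chR_of C h30 (b := X.2 + 1) (by rw [add_sub_cancel_right, hX.1, hX.2]; simp)
    have g1 := G.lo
    have g2 := G.hi
    refine ⟨fun d h0 h3 => ⟨?_, ?_⟩, ?_, fun h0 => ?_⟩
    · rw [G.dn (X.2 - d) (by omega) (by omega), add_sub_cancel_right]; exact hX.1
    · rw [G.up (X.2 + 1 + d) (by omega) (by omega)]; exact hX.2
    · unfold bRs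
      simp only
      omega
    · unfold bRs bfD
      simp only
      omega

/-! ### The colours between the box and the rectangle -/

/-- open labels of the window `(p, s)` -/
noncomputable abbrev WB (D : Win) (p : Bool) (s : Finset Gr) : Finset (ℤ × ℤ) :=
  WO D p (gA D p s) (Snat D p)

lemma WB_sub : WB D p s ⊆ GB D := WO_sub Snat_sub

/-- the translate -/
theorem strD_B (h : Tw pA sA pB sB tx ty) :
    StrD D (bRs D ty h.ht tx ty) (WB D pB sB) (cLf D) (cRt D) 0 := by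
  intro L hL X
  have hv := h.vals
  have hh := D.hh
  have hb : ∀ x y, (bfD D L hL X).InB x y → InB D x y := fun x y => Pool.Agent.H33.Sp.inB_bf.1
  refine ⟨?_, ?_, ?_, ?_, fun x y h1 h2 => ?_, fun x y h1 h2 => ?_, fun y h1 h2 => ?_, fun y h1 h2 => ?_⟩
  · unfold bRs bfD; simp only; omega
  · unfold bRs bfD; simp only; omega
  · unfold bRs bfD; simp only; omega
  · unfold bRs bfD; simp only; omega
  · refine WOn_left (hb _ _ h1) ?_
    unfold bRs at h2
    simp only at h2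
    omega
  · refine WOn_right (hb _ _ h1) ?_
    unfold bRs at h2
    simp only at h2
    omega
  · unfold bRs at h1 h2 ⊢
    simp only at h1 h2 ⊢
    rw [sub_zero]
    have := Pool.Agent.H46.Sp.Win.a_min (D := D) (y := D.yQ) D.Q0 D.Q1
    have := D.ab D.yQ D.Q0 D.Q1
    exact WOn_left (by unfold InB; omega) (by omega)
  · unfold bRs at h1 h2 ⊢
    simp only at h1 h2 ⊢
    rw [sub_zero]
    have := Pool.Agent.H46.Sp.Win.a_min (D := D) (y := D.yQ) D.Q0 D.Q1
    have := D.ab D.yQ D.Q0 D.Q1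
    exact WOn_right (by unfold InB; omega) (by omega)

/-- in the rectangle the labels are those of the translate -/
lemma in_bRs {ht : -2 ≤ ty ∧ ty ≤ 2} : (bRs D ty ht 0 0).InB x y ↔ InR D ty x y := by
  unfold BF.InB bRs InR IC
  simp only
  omega

/-- the middle environment after the strips -/
theorem strD_T (C : CoarseC D n H A B YP YQ CL CR) (h30 : 30 ≤ n) (h : Tw pA sA pB sB tx ty) :
    StrD D (bRs D ty h.ht 0 0) (WT D pB sB tx ty ty) (cLf D) (cRt D) ty := by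
  intro L hL X
  have hv := h.vals
  have hh := D.hh
  have g1 := Pool.Agent.H46.Sp.Win.a_min (D := D) (y := D.yQ) D.Q0 D.Q1
  have g2 := D.ab D.yQ D.Q0 D.Q1
  have hb : ∀ x y, (bfD D L hL X).InB x y → InB D x y := fun x y => Pool.Agent.H33.Sp.inB_bf.1
  have hr : ∀ x y, (bRs D ty h.ht 0 0).InB x y → (lt (x, y) ∈ WT D pB sB tx ty ty ↔
      lt (x - tx, y - ty) ∈ WB D pB sB) := fun x y h1 => by
    rw [WT_R C h30 h (in_bRs.1 h1), mem_shl_lt h.disp.2.2.1]
  have hO : ∀ x y, InB D x y → ¬ IC D x → (lt (x, y) ∈ WT D pB sB tx ty ty ↔ cT D 0 x y = true) := by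
    intro x y h1 h2
    have hK : lt (x, y) ∉ K2 D pB tx ty := fun h3 => h2 (by
      have := (mem_K2.1 h3).2
      unfold Zn at this
      unfold IC
      omega)
    rw [mem_WT]
    simp only [hK, h1, h2, false_and, true_and, not_false_eq_true, false_or]
  have hc := fun y => cy_rng D y
  refine ⟨?_, ?_, ?_, ?_, fun x y h1 h2 => ?_, fun x y h1 h2 => ?_, fun y h1 h2 => ?_, fun y h1 h2 => ?_⟩
  · unfold bRs bfD; simp only; omega
  · unfold bRs bfD; simp only; omega
  · unfold bRs bfD; simp only; omega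
  · unfold bRs bfD; simp only; omega
  · have e1 : (bRs D ty h.ht 0 0).x0 = D.a (D.yP - 1) - 3 - 0 := rfl
    rw [hO x y (hb _ _ h1) (by unfold IC; omega)]
    unfold cT
    rw [sub_zero, if_pos]
    have := m_min (D := D) (hc y).1 (hc y).2.1
    omega
  · have e1 : (bRs D ty h.ht 0 0).x1 = D.b D.yQ + 3 - 0 := rfl
    rw [hO x y (hb _ _ h1) (by unfold IC; omega)]
    unfold cT
    rw [sub_zero, if_neg]
    have := M_max (D := D) (hc y).1 (hc y).2.1
    have := m_lt_M (D := D) (hc y).1 (hc y).2.1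
    omega
  · have e1 : (bRs D ty h.ht 0 0).x0 = D.a (D.yP - 1) - 3 - 0 := rfl
    have e2 : (bRs D ty h.ht 0 0).y0 = max (-4) (-4 + ty) - 0 := rfl
    have e3 : (bRs D ty h.ht 0 0).y1 = min (D.h + 3) (D.h + 3 + ty) - 0 := rfl
    have b1 := (bRs D ty h.ht 0 0).hx
    rw [hr _ _ (by unfold BF.InB; omega)]
    rw [e1]
    exact WOn_left (by unfold InB; omega) (by omega)
  · have e1 : (bRs D ty h.ht 0 0).x1 = D.b D.yQ + 3 - 0 := rfl
    have e2 : (bRs D ty h.ht 0 0).y0 = max (-4) (-4 + ty) - 0 := rfl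
    have e3 : (bRs D ty h.ht 0 0).y1 = min (D.h + 3) (D.h + 3 + ty) - 0 := rfl
    have b1 := (bRs D ty h.ht 0 0).hx
    rw [hr _ _ (by unfold BF.InB; omega)]
    rw [e1]
    exact WOn_right (by unfold InB; omega) (by omega)

/-! ### The ring -/

/-- the ring of the rectangle -/
theorem ringC_of (h : Tw pA sA pB sB tx ty) {W : Finset (ℤ × ℤ)}
    (hW : ∀ x y, (bRs D ty h.ht 0 0).InB x y → (lt (x, y) ∈ W ↔ lt (x - tx, y - ty) ∈ WB D pB sB)) :
    RingC (bRs D ty h.ht 0 0) W (fun y => cLf D (y - ty)) (fun y => cRt D (y - ty)) := by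
  have hv := h.vals
  have hh := D.hh
  have g1 := Pool.Agent.H46.Sp.Win.a_min (D := D) (y := D.yQ) D.Q0 D.Q1
  have g2 := D.ab D.yQ D.Q0 D.Q1
  have e0 : (bRs D ty h.ht 0 0).x0 = D.a (D.yP - 1) - 3 - 0 := rfl
  have e1 : (bRs D ty h.ht 0 0).x1 = D.b D.yQ + 3 - 0 := rfl
  have e2 : (bRs D ty h.ht 0 0).y0 = max (-4) (-4 + ty) - 0 := rfl
  have e3 : (bRs D ty h.ht 0 0).y1 = min (D.h + 3) (D.h + 3 + ty) - 0 := rfl
  have b1 := (bRs D ty h.ht 0 0).hx
  have b2 := (bRs D ty h.ht 0 0).hy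
  refine ⟨fun y h1 h2 => ?_, fun y h1 h2 => ?_, fun x h1 h2 => ?_, fun x h1 h2 => ?_⟩
  · rw [hW _ _ (by unfold BF.InB; omega), e0]
    exact WOn_left (by unfold InB; omega) (by omega)
  · rw [hW _ _ (by unfold BF.InB; omega), e1]
    exact WOn_right (by unfold InB; omega) (by omega)
  · rw [hW _ _ (by unfold BF.InB; omega), WOn_bot (by unfold InB; omega) (by omega)]
    unfold cLf
    rw [if_pos (by omega)]
  · rw [hW _ _ (by unfold BF.InB; omega), WOn_top (by unfold InB; omega) (by omega)]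
    unfold cLf
    rw [if_neg (by omega), if_pos (by omega)]

/-- the marks of the rectangle -/
theorem markR_of (h : Tw pA sA pB sB tx ty) (C : CoarseC D n H A B YP YQ CL CR) (h30 : 30 ≤ n)
    (hX : WFc (cLf D) (cRt D) X) :
    MarkR (bRs D ty h.ht 0 0) (fun y => cLf D (y - ty)) (fun y => cRt D (y - ty)) (X.1, X.2 + ty) := by
  have hv := h.vals
  have e2 : (bRs D ty h.ht 0 0).y0 = max (-4) (-4 + ty) - 0 := rfl
  have e3 : (bRs D ty h.ht 0 0).y1 = min (D.h + 3) (D.h + 3 + ty) - 0 := rfl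
  unfold WFc at hX
  refine ⟨?_, fun hs => ?_, fun hs => ?_⟩
  · unfold WFc
    rcases hs : X.1 with _ | _
    · simp only [hs, Bool.false_eq_true, if_false] at hX ⊢
      rw [show X.2 + ty - ty = X.2 by ring, show X.2 + ty - 1 - ty = X.2 - 1 by ring]
      exact hX
    · simp only [hs, if_true] at hX ⊢
      rw [show X.2 + ty - ty = X.2 by ring, show X.2 + ty + 1 - ty = X.2 + 1 by ring]
      exact hX
  · simp only at hs
    simp only [hs, Bool.false_eq_true, if_false] at hX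
    have G := chL_of C h30 (b := X.2) (by rw [hX.1, hX.2]; simp)
    have g1 := G.lo
    have g2 := G.hi
    simp only
    omega
  · simp only at hs
    simp only [hs, if_true] at hX
    have G := chR_of C h30 (b := X.2 + 1) (by rw [add_sub_cancel_right, hX.1, hX.2]; simp)
    have g1 := G.lo
    have g2 := G.hi
    simp only
    omega

/-! ### The assembly -/

/-- the marks are apart -/
theorem mAp_of (C : CoarseC D n H A B YP YQ CL CR) (h30 : 30 ≤ n) (M : MkD D X1 X3) :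
    Pool.Agent.H13.Sp.MAp (X1.1, X1.2 + ty) (X3.1, X3.2 + ty) := by
  have w1 := (M.all X1).2 (Or.inl rfl)
  have w3 := (M.all X3).2 (Or.inr rfl)
  have hne := M.ne
  have e1 : X1 = (X1.1, X1.2) := rfl
  have e3 : X3 = (X3.1, X3.2) := rfl
  refine ⟨fun h => hne ?_, fun hs => ?_⟩
  · simp only [Prod.mk.injEq] at h
    rw [e1, e3, h.1, show X1.2 = X3.2 by omega]
  simp only at hs
  simp only
  by_contra hc
  have hd : X1.2 ≠ X3.2 := fun h => hne (by rw [e1, e3, hs, h])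
  unfold Pool.Agent.H13.Sp.WFc at w1 w3
  rcases h1 : X1.1 with _ | _
  · have h3 : X3.1 = false := by rw [← hs, h1]
    simp only [h1, h3, Bool.false_eq_true, if_false] at w1 w3
    have G1 := chL_of C h30 (b := X1.2) (by rw [w1.1, w1.2]; simp)
    have G3 := chL_of C h30 (b := X3.2) (by rw [w3.1, w3.2]; simp)
    rcases (by omega : X1.2 < X3.2 ∨ X3.2 < X1.2) with k | k
    · have := G1.up (X3.2 - 1) (by omega) (by omega)
      rw [w1.1, w3.2] at this
      exact absurd this (by simp)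
    · have := G3.up (X1.2 - 1) (by omega) (by omega)
      rw [w3.1, w1.2] at this
      exact absurd this (by simp)
  · have h3 : X3.1 = true := by rw [← hs, h1]
    simp only [h1, h3, if_true] at w1 w3
    have G1 := chR_of C h30 (b := X1.2 + 1) (by rw [add_sub_cancel_right, w1.1, w1.2]; simp)
    have G3 := chR_of C h30 (b := X3.2 + 1) (by rw [add_sub_cancel_right, w3.1, w3.2]; simp)
    rcases (by omega : X1.2 < X3.2 ∨ X3.2 < X1.2) with k | k
    · have := G1.up X3.2 (by omega) (by omega)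
      rw [w1.2, w3.1] at this
      exact absurd this (by simp)
    · have := G3.up X1.2 (by omega) (by omega)
      rw [w3.2, w1.1] at this
      exact absurd this (by simp)

/-- the inner box of the moved rectangle -/
lemma shl_SI (h : Tw pA sA pB sB tx ty) :
    shl (vt tx ty) (SI (bRs D ty h.ht tx ty)) = SI (bRs D ty h.ht 0 0) := by
  refine Pool.Agent.H33.R45.ext_lt' (fun e he => odd_shl (fun e he => odd_RT he) he)
    (fun e he => odd_RT he) fun x y => ?_
  rw [mem_shl_lt h.disp.2.2.1, Pool.Agent.H33.Sp.BF.mem_SI, Pool.Agent.H33.Sp.BF.mem_SI]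
  unfold bRs
  simp only
  omega

lemma EC_SI (h : Tw pA sA pB sB tx ty) : EC D pB sB tx ty ⊆ SI (bRs D ty h.ht 0 0) := by
  intro e he
  obtain ⟨x, y, rfl⟩ := exists_lt (odd_EC he)
  rw [Pool.Agent.H33.Sp.BF.mem_SI]
  have h1 := EO_near (h.mem_EC.1 he)
  have hv := h.vals
  unfold bRs
  simp only
  omega

lemma disj_T (h : Tw pA sA pB sB tx ty) : Disjoint (EC D pB sB tx ty) (WT D pB sB tx ty τ) := by
  rw [disjoint_left]
  intro e he he'
  have hK := h.EC_sub2 he
  obtain ⟨x, y, rfl⟩ := exists_lt (odd_EC he)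
  rw [mem_WT] at he'
  rcases he' with ⟨-, h2⟩ | ⟨-, h2, -⟩
  · unfold EC at he
    rw [mem_shl] at he h2
    exact disjoint_left.1 (disj_O Snat_sub) he h2
  · exact h2 hK

/-- the middle environment after the strips -/
noncomputable def XT (O : OutB D) (h : Tw pA sA pB sB tx ty) : Env :=
  XB O (EC D pB sB tx ty) (WT D pB sB tx ty ty) (h.EC_sub2.trans K2_sub_GB) WT_sub_GB (disj_T h)

lemma plane_XB {E W : Finset (ℤ × ℤ)} {hE : E ⊆ GB D} {hW : W ⊆ GB D} {hd : Disjoint E W}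
    (ho : ∀ e ∈ O.Wo, (e.1 + e.2) % 2 = 1) : PlaneEnv (XB O E W hE hW hd) (W ∪ O.Wo) := by
  unfold XB
  refine planeEnv_plane fun e he => ?_
  rcases mem_union.1 he with h1 | h1
  · exact odd_GB (hW h1)
  · exact ho e h1

lemma plane_XN (ho : ∀ e ∈ O.Wo, (e.1 + e.2) % 2 = 1) : PlaneEnv (XN O p s) (WB D p s ∪ O.Wo) := by
  unfold XN XO
  exact plane_XB ho

/-- **The translate and the middle environment have the same increments**, up to a unit. -/
theorem mid_same (C : CoarseC D n H A B YP YQ CL CR) (h30 : 30 ≤ n) (h : Tw pA sA pB sB tx ty)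
    (hO : OTy O X1 X3) (M : MkD D X1 X3) :
    ∃ κ : ℤ, ∀ c, (lab c ∈ EC D pB sB tx ty ∨ plab c ∈ EC D pB sB tx ty) →
      (shX (vt tx ty) (XN O pB sB)).inc c = ph κ * (XC2 O h).inc c := by
  have hconn : TConn (EC D pB sB tx ty) := tConn_EC C.toCoarse h30
  have hp := h.disp.2.2.1
  have hv := h.vals
  -- the strips
  obtain ⟨κ1, k1⟩ := (ceq_WC2 C h30 h hO.rb).inc hconn (X := XC2 O h) (Y := XT O h)
    (plane_XB hO.odd) (plane_XB hO.odd) rfl rfl rfl rfl
  -- the ring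
  set R := bRs D ty h.ht 0 0 with hR
  set R' := bRs D ty h.ht tx ty with hR'
  set WW := WT D pB sB tx ty ty ∪ O.Wo with hWW
  set WW' := shl (vt tx ty) (WB D pB sB ∪ O.Wo) with hWW'
  have w1 := (M.all X1).2 (Or.inl rfl)
  have w3 := (M.all X3).2 (Or.inr rfl)
  have hl : ∀ x y, R.InB x y → (lt (x, y) ∈ WW ↔ lt (x - tx, y - ty) ∈ WB D pB sB) := by
    intro x y hxy
    rw [in_bRs] at hxy
    rw [hWW, mem_union, WT_R C h30 h hxy, mem_shl_lt hp]
    refine ⟨fun h1 => h1.resolve_right fun h2 => O.far x y h2 ?_, Or.inl⟩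
    unfold InR IC at hxy
    unfold InB
    omega
  have hl' : ∀ x y, R.InB x y → (lt (x, y) ∈ WW' ↔ lt (x - tx, y - ty) ∈ WB D pB sB) := by
    intro x y hxy
    rw [in_bRs] at hxy
    rw [hWW', mem_shl_lt hp, mem_union]
    refine ⟨fun h1 => h1.resolve_right fun h2 => O.far _ _ h2 ?_, Or.inl⟩
    unfold InR IC at hxy
    unfold InB
    omega
  have S1 := strD_T C h30 h
  have S2 := strD_B (D := D) h
  have M1 : MkE D R (cLf D) (cRt D) ty X1 := mkE_of C h30 h.ht w1 (Or.inl ⟨rfl, rfl, rfl⟩)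
  have M3 : MkE D R (cLf D) (cRt D) ty X3 := mkE_of C h30 h.ht w3 (Or.inl ⟨rfl, rfl, rfl⟩)
  have N1 : MkE D R' (cLf D) (cRt D) 0 X1 := mkE_of C h30 h.ht w1 (Or.inr ⟨rfl, rfl⟩)
  have N3 : MkE D R' (cLf D) (cRt D) 0 X3 := mkE_of C h30 h.ht w3 (Or.inr ⟨rfl, rfl⟩)
  -- translations of the points
  have ev : ∀ X : Bool × ℤ, et (mx R' X) (X.2 + 0) + vt tx ty = Pool.Agent.H13.Sp.vR R (X.1, X.2 + ty) := by
    intro X
    rw [et_sh hp]
    unfold Pool.Agent.H13.Sp.vR Pool.Agent.H33.Sp.BF.mx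
    have a1 : R'.x1 = R.x1 - tx := by rw [hR, hR']; unfold bRs; simp only; ring
    have a2 : R'.x0 = R.x0 - tx := by rw [hR, hR']; unfold bRs; simp only; ring
    rw [a1, a2]
    simp only
    split_ifs
    · congr 1 <;> ring
    · congr 1 <;> ring
  have ef' : ∀ X : Bool × ℤ, ef (mx R' X) (R'.fr (X.1, X.2 + 0)) + vt tx ty =
      Pool.Agent.H13.Sp.fR R (X.1, X.2 + ty) := by
    intro X
    rw [ef_sh hp]
    unfold Pool.Agent.H13.Sp.fR Pool.Agent.H33.Sp.BF.mx Pool.Agent.H33.Sp.BF.fr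
    have a1 : R'.x1 = R.x1 - tx := by rw [hR, hR']; unfold bRs; simp only; ring
    have a2 : R'.x0 = R.x0 - tx := by rw [hR, hR']; unfold bRs; simp only; ring
    rw [a1, a2]
    simp only
    split_ifs
    · show Pool.Agent.H33.Sp.BF.ef _ _ = Pool.Agent.H33.Sp.BF.ef _ _
      congr 1 <;> ring
    · show Pool.Agent.H33.Sp.BF.ef _ _ = Pool.Agent.H33.Sp.BF.ef _ _
      congr 1 <;> ring
  have hsub : shl (vt tx ty) (SI R' ∪ (WB D pB sB ∪ O.Wo)) = SI R ∪ WW' := by
    rw [Pool.Agent.H33.Sp.shl_union, hR', shl_SI h]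
  obtain ⟨Xs, hXs, hroot⟩ := hO.root
  have r1 := hroot R _ _ _ _ WT_sub_GB S1 M1 M3
  have r2 := hroot R' _ _ _ _ WB_sub S2 N1 N3
  have T : Pool.Agent.H13.Sp.TypR R WW WW' (X1.1, X1.2 + ty) (X3.1, X3.2 + ty) := by
    rcases hO.typ with t | t
    · left
      refine ⟨t R _ _ _ _ WT_sub_GB S1 M1 M3, ?_⟩
      have := Pool.Agent.H33.Sp.dco_sh (v := vt tx ty) (t R' _ _ _ _ WB_sub S2 N1 N3)
      rw [hsub, ef', ef'] at this
      exact this
    · right
      refine ⟨t R _ _ _ _ WT_sub_GB S1 M1 M3, ?_⟩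
      have := Pool.Agent.H33.Sp.co_sh (v := vt tx ty) (t R' _ _ _ _ WB_sub S2 N1 N3)
      rw [ev, ev] at this
      refine this.mono ?_
      intro e he
      rw [mem_shl, mem_sdiff] at he
      rw [mem_sdiff]
      refine ⟨mem_shl.2 he.1, fun h2 => he.2 ?_⟩
      change e ∈ SI R at h2
      rw [hR, ← shl_SI h, mem_shl] at h2
      exact h2
  have hne := mAp_of C h30 M (ty := ty)
  obtain ⟨κ2, k2⟩ := Pool.Agent.H13.Sp.same_ring (B := R) (E := EC D pB sB tx ty) (W := WW) (W' := WW')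
    (cl := fun y => cLf D (y - ty)) (cr := fun y => cRt D (y - ty)) (X1 := (X1.1, X1.2 + ty))
    (X3 := (X3.1, X3.2 + ty)) hconn
    (fun x y he => Pool.Agent.H33.Sp.BF.mem_SI.1 (EC_SI h he))
    (ringC_of h hl) (ringC_of h hl')
    (fun e he => by
      obtain ⟨x, y, rfl⟩ := exists_lt (odd_RT he)
      rw [Pool.Agent.H33.Sp.BF.mem_GB] at he
      rw [hl x y he, hl' x y he])
    (markR_of h C h30 w1) (markR_of h C h30 w3) hne
    (fun X _ hX => by
      have e1 : WFc (cLf D) (cRt D) (X.1, X.2 - ty) := by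
        unfold Pool.Agent.H13.Sp.WFc at hX ⊢
        rcases hs : X.1 with _ | _
        · simp only [hs, Bool.false_eq_true, if_false] at hX ⊢
          rw [show X.2 - ty - 1 = X.2 - 1 - ty by ring]
          exact hX
        · simp only [hs, if_true] at hX ⊢
          rw [show X.2 - ty + 1 = X.2 + 1 - ty by ring]
          exact hX
      rcases (M.all _).1 e1 with e2 | e2
      · left; rw [← e2]; simp
      · right; rw [← e2]; simp)
    T (U := XT O h) (V := shX (vt tx ty) (XN O pB sB)) (plane_XB hO.odd)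
    (Pool.Agent.H33.Sp.planeEnv_sh (plane_XN hO.odd)) rfl rfl (Xs := (Xs.1, Xs.2 + ty))
    (by rcases hXs with rfl | rfl
        · exact Or.inl rfl
        · exact Or.inr rfl)
    r1.1 (r1.2.anti (union_subset_union_left (EC_SI h)))
    (by
      have := Pool.Agent.H33.Sp.co_sh (v := vt tx ty) r2.1
      rw [ev] at this
      rw [Pool.Agent.H33.Sp.shX_c0, Pool.Agent.H33.Sp.vx_shc]
      exact this)
    (by
      have := Pool.Agent.H33.Sp.dco_sh (v := vt tx ty) r2.2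
      rw [hsub, ef'] at this
      rw [Pool.Agent.H33.Sp.shX_c0, Pool.Agent.H33.Sp.fi_shc]
      exact this.anti (union_subset_union_left (EC_SI h)))
  refine ⟨κ2 + κ1, fun c hc => ?_⟩
  rw [k2 c hc, k1 c hc, ph_add, mul_assoc]

end Pool.Agent.H74.Win
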