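import Mathlib
import Pool.Agent.H74.Win.Asm
import Pool.Agent.H14.Win.Lnk
import Pool.Agent.H44.FM.Wi7

set_option autoImplicit false
open Finset

/-! # The comparison of the translated pairs of windows

`s12W_of` : the input `S12W` of helper44's windows, from helper14's displacement lemma and `mid_same`. -/

namespace Pool.Agent.H74.Win

open Pool.Agent.H75.Perc hiding ph
open Pool.Agent.H75.TwoArm Pool.Agent.Q1 Pool.Agent.H33.Q1
open Pool.Agent.H75.Four hiding ev Tch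
open Pool.Agent.H69.Q1
open Pool.Agent.Q1.M6c (PlaneK)
open Pool.Agent.H74.R45 (exists_lt Pot sg sg_congr lab_ve_E lab_he_N plab_ve_W plab_he_S he ve)
open Pool.Agent.H46.Sp (Win Out)
open Pool.Agent.H42.Sp (Sd Ix kt rt)
open Pool.Agent.H44.FM.WG (Gr)
open Pool.Agent.H44.FM.WG.Gr
open Pool.Agent.H44.FM.Wi (HN potN_HN S12W)
open Pool.Agent.H31.Sp (Coarse CoarseC)
open Pool.Agent.H33.Sp (shl mem_shl shX shc inc_sh)
open Pool.Agent.H14.Win (PotT potT_of_potN disp_eps natA_XN natA_XC2 RootC NatA)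
open Pool.Agent.Q1.M6e (Lk)
open Filter

variable {D : Win} {n H : ℤ} {A B : ℤ → ℤ} {YP YQ : ℤ} {CL CR : ℤ → Bool}
variable {p : Bool} {x y x' y' z Y : ℤ} {s : Finset Gr} {Q : Ix → Prop}
variable {pA pB : Bool} {sA sB : Finset Gr} {tx ty : ℤ} {O : OutB D} {X X1 X3 : Bool × ℤ}

/-! ### Potentials -/

lemma shc_he (h : (tx + ty) % 2 = 0) (x y : ℤ) : shc (vt tx ty) (he (x - tx, y - ty)) = he (x, y) := by
  unfold Pool.Agent.H33.Sp.shc vt Pool.Agent.H74.R45.he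
  refine Prod.ext ?_ ?_ <;> simp only <;> omega

lemma shc_ve (h : (tx + ty) % 2 = 0) (x y : ℤ) : shc (vt tx ty) (ve (x - tx, y - ty)) = ve (x, y) := by
  unfold Pool.Agent.H33.Sp.shc vt Pool.Agent.H74.R45.ve
  refine Prod.ext ?_ ?_ <;> simp only <;> omega

/-- translation of a potential -/
theorem pot_sh (h : (tx + ty) % 2 = 0) {X : Env} {G : ℤ → ℤ → ℂ} {x0 x1 y0 y1 : ℤ}
    (hP : Pot (fun c => X.inc c) G (x0 - tx) (x1 - tx) (y0 - ty) (y1 - ty)) :
    Pot (fun c => (shX (vt tx ty) X).inc c) (fun x y => G (x - tx) (y - ty)) x0 x1 y0 y1 := by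
  have e3 : ∀ x y : ℤ, sg (x + y) = sg (x - tx + (y - ty)) := by
    intro x y
    exact sg_congr (by omega)
  refine ⟨fun x y h1 h2 h3 h4 => ?_, fun x y h1 h2 h3 h4 => ?_⟩
  · have := hP.hor (x - tx) (y - ty) (by omega) (by omega) (by omega) (by omega)
    rw [← shc_he h, inc_sh, e3, this]
    rw [show x + 1 - tx = x - tx + 1 by ring]
  · have := hP.ver (x - tx) (y - ty) (by omega) (by omega) (by omega) (by omega)
    rw [← shc_ve h, inc_sh, e3, this]
    rw [show y + 1 - ty = y - ty + 1 by ring]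

/-- the same increments up to a factor -/
theorem pot_mul {F F' : ℤ × ℤ → ℂ} {G : ℤ → ℤ → ℂ} {x0 x1 y0 y1 : ℤ} {κ : ℂ} (hP : Pot F G x0 x1 y0 y1)
    (hh : ∀ x y, x0 ≤ x → x < x1 → y0 ≤ y → y ≤ y1 → F' (he (x, y)) = κ * F (he (x, y)))
    (hv : ∀ x y, x0 ≤ x → x ≤ x1 → y0 ≤ y → y < y1 → F' (ve (x, y)) = κ * F (ve (x, y))) :
    Pot F' (fun x y => κ * G x y) x0 x1 y0 y1 := by
  refine ⟨fun x y h1 h2 h3 h4 => ?_, fun x y h1 h2 h3 h4 => ?_⟩
  · rw [hh x y h1 h2 h3 h4, mul_left_comm, hP.hor x y h1 h2 h3 h4, mul_sub]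
  · rw [hv x y h1 h2 h3 h4, mul_left_comm, hP.ver x y h1 h2 h3 h4, mul_sub]

/-- the potential of the translate is a potential of the middle environment, up to a unit -/
theorem potT_mid (h : Tw pA sA pB sB tx ty) {κ : ℤ}
    (hκ : ∀ c, (lab c ∈ EC D pB sB tx ty ∨ plab c ∈ EC D pB sB tx ty) →
      (shX (vt tx ty) (XN O pB sB)).inc c = ph κ * (XC2 O h).inc c) {G : ℤ → ℤ → ℂ}
    (hG : PotT (InP D pB) (fun c => (XN O pB sB).inc c) G) {T : ℤ → ℤ → Prop}
    (hT : ∀ x y, T x y → InP D pB (x - tx) (y - ty)) :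
    PotT T (fun c => (XC2 O h).inc c) (fun x y => ph (-κ) * G (x - tx) (y - ty)) := by
  have hp := h.disp.2.2.1
  intro x0 x1 y0 y1 h1 h2 key
  have hE : ∀ x y, x0 - 1 ≤ x → x ≤ x1 → y0 - 1 ≤ y → y ≤ y1 → lt (x, y) ∈ EC D pB sB tx ty :=
    fun x y a1 a2 a3 a4 => h.mem_EC.2 (mem_EO.2 (Or.inl (hT _ _ (key x y a1 a2 a3 a4))))
  have hinv : ∀ c, (lab c ∈ EC D pB sB tx ty ∨ plab c ∈ EC D pB sB tx ty) →
      (XC2 O h).inc c = ph (-κ) * (shX (vt tx ty) (XN O pB sB)).inc c := by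
    intro c hc
    rw [hκ c hc, ← mul_assoc, ← ph_add, neg_add_cancel, ph_zero, one_mul]
  have h3 := pot_sh (x0 := x0) (x1 := x1) (y0 := y0) (y1 := y1) hp (hG (x0 - tx) (x1 - tx) (y0 - ty)
    (y1 - ty) (by omega) (by omega) fun x y a1 a2 a3 a4 => by
      have := hT _ _ (key (x + tx) (y + ty) (by omega) (by omega) (by omega) (by omega))
      rwa [add_sub_cancel_right, add_sub_cancel_right] at this)
  refine pot_mul h3 (fun x y a1 a2 a3 a4 => hinv _ ?_) (fun x y a1 a2 a3 a4 => hinv _ ?_)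
  · rcases Int.emod_two_eq_zero_or_one (x + y) with e | e
    · left
      rw [lab_he_N e]
      exact hE x y (by omega) (by omega) (by omega) (by omega)
    · right
      rw [plab_he_S e]
      exact hE x y (by omega) (by omega) (by omega) (by omega)
  · rcases Int.emod_two_eq_zero_or_one (x + y) with e | e
    · right
      rw [plab_ve_W e]
      exact hE x y (by omega) (by omega) (by omega) (by omega)
    · left
      rw [lab_ve_E e]
      exact hE x y (by omega) (by omega) (by omega) (by omega)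

/-- **The input `S12W`.** -/
theorem s12W_of (hAP : AP PlaneK) {R : ℕ → ℕ} {F : Filter ℕ} {D : ℕ → Win} {O : ∀ j, OutB (D j)} {H : ℤ}
    {A B : ℤ → ℤ} (hR : Tendsto R F atTop)
    (hC : ∀ᶠ j in F, ∃ (YP YQ : ℤ) (CL CR : ℤ → Bool), CoarseC (D j) (R j) H A B YP YQ CL CR)
    (hO : ∀ᶠ j in F, RootC (1 / 8) (R j) H A B (O j))
    (hT : ∀ᶠ j in F, ∃ X1 X3 : Bool × ℤ, OTy (O j) X1 X3 ∧ MkD (D j) X1 X3) : S12W R F O := by
  intro pA pB sA sB tx ty h
  classical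
  have ex : ∀ j, ∃ κ : ℤ, (∃ (YP YQ : ℤ) (CL CR : ℤ → Bool), CoarseC (D j) (R j) H A B YP YQ CL CR) →
      30 ≤ R j → (∃ X1 X3 : Bool × ℤ, OTy (O j) X1 X3 ∧ MkD (D j) X1 X3) →
      ∀ c, (lab c ∈ EC (D j) pB sB tx ty ∨ plab c ∈ EC (D j) pB sB tx ty) →
        (shX (vt tx ty) (XN (O j) pB sB)).inc c = ph κ * (XC2 (O j) h).inc c := by
    intro j
    by_cases hj : (∃ (YP YQ : ℤ) (CL CR : ℤ → Bool), CoarseC (D j) (R j) H A B YP YQ CL CR) ∧
      30 ≤ R j ∧ (∃ X1 X3 : Bool × ℤ, OTy (O j) X1 X3 ∧ MkD (D j) X1 X3)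
    · obtain ⟨⟨YP, YQ, CL, CR, a1⟩, a2, X1, X3, a3, a4⟩ := hj
      obtain ⟨κ, hκ⟩ := mid_same a1 (by exact_mod_cast a2) h a3 a4
      exact ⟨κ, fun _ _ _ => hκ⟩
    · exact ⟨0, fun b1 b2 b3 => absurd ⟨b1, b2, b3⟩ hj⟩
  choose κ hκ using ex
  refine ⟨fun j => - κ j, fun η hη ε hε => ?_⟩
  obtain ⟨n0, hD⟩ := disp_eps hAP H A B hη hε
  filter_upwards [hC, hO, hT, hR.eventually_ge_atTop 30, hR.eventually_ge_atTop n0] with j a1 a2 a3 a4 a5
    a b hab hab'
  have hk := hκ j a1 a4 a3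
  obtain ⟨YP, YQ, CL, CR, a1⟩ := a1
  have h30 : (30 : ℤ) ≤ (R j : ℤ) := by exact_mod_cast a4
  have key := hD (R j) a5 (D j) YP YQ CL CR a1 (O j) a2 pA sA (EO (D j) pA (gA (D j) pA sA))
    (WO (D j) pA (gA (D j) pA sA) (Snat (D j) pA)) (EC (D j) pB sB tx ty) (WC2 (D j) pA sA pB sB tx ty)
    (EO_sub_EU.trans EU_sub) (WO_sub Snat_sub) (disj_O Snat_sub) (h.EC_sub2.trans K2_sub_GB) WC2_sub_GB
    h.disjC2 (natA_XN a1 h30 pA sA) (natA_XC2 a1 h30 h)
    (fun x y => InP (D j) pA x y ∧ InP (D j) pB (x - tx) (y - ty)) (fun x y hxy => mem_EO.2 (Or.inl hxy.1))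
    (fun x y hxy => h.mem_EC.2 (mem_EO.2 (Or.inl hxy.2))) (HN (O j) pA sA)
    (fun x y => ph (-κ j) * HN (O j) pB sB (x - tx) (y - ty))
    ((potT_of_potN (potN_HN (O j) pA sA)).mono fun x y hxy => hxy.1)
    (potT_mid h hk (potT_of_potN (potN_HN (O j) pB sB)) fun x y hxy => hxy.2) a b ?_
  · refine le_trans (le_of_eq ?_) key
    congr 1
    ring
  · intro x y e1 e2 e3 e4
    refine ⟨hab x y e1 e2 e3 e4, hab' (x - tx) (y - ty) ?_ ?_ ?_ ?_⟩
    · push_cast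
      rcases e1 with e1 | e1
      · left; linarith
      · right; linarith
    · push_cast
      rcases e2 with e2 | e2
      · left; linarith
      · right; linarith
    · push_cast
      rcases e3 with e3 | e3
      · left; linarith
      · right; linarith
    · push_cast
      rcases e4 with e4 | e4
      · left; linarith
      · right; linarith

end Pool.Agent.H74.Win
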