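import Mathlib
import Pool.Agent.H74.Win.RingZ
import Pool.Agent.H13.Sp.XB

set_option autoImplicit false
open Finset

/-! # The tied natural windows of `H13/Sp/XB.lean` and of `RingY.lean` are the same -/

namespace Pool.Agent.H74.Win

open Pool.Agent.H75.Perc hiding ph
open Pool.Agent.H75.TwoArm Pool.Agent.Q1 Pool.Agent.H33.Q1
open Pool.Agent.H75.Four hiding ev
open Pool.Agent.H69.Q1
open Pool.Agent.H74.R45 (exists_lt iW_det)
open Pool.Agent.H46.Sp (Win Out)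
open Pool.Agent.H42.Sp (Sd Ix kt rt kt_odd rt_even kt_Tg rt_Tg cap_of OTp plab_at)
open Pool.Agent.H13.R45 (Tg ev gp Ag ev_true ev_false)
open Pool.Agent.H13.Q1 (Cap mg iW_ties)

variable {D : Win} {p : Bool} {x y : ℤ} {S : Finset (ℤ × ℤ)}

lemma Ly13 {s : Sd} : H13.Sp.LyA D p s x y ↔ Ly D p s x y := by
  cases s <;> unfold H13.Sp.LyA H13.Sp.LyP Ly
  · unfold LyL
    constructor
    · rintro ⟨h1, h2, h3, h4, h5⟩; exact ⟨h1, h2, by omega, h5, h4⟩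
    · rintro ⟨h1, h2, h3, h4, h5⟩; exact ⟨h1, h2, by omega, h5, h4⟩
  · unfold LyR
    constructor
    · rintro ⟨h1, h2, h3, h4, h5⟩; exact ⟨h1, h2, by omega, h5, h4⟩
    · rintro ⟨h1, h2, h3, h4, h5⟩; exact ⟨h1, h2, by omega, h5, h4⟩
  · exact Iff.rfl
  · exact Iff.rfl

lemma Col13 : H13.Sp.Col4 D p x y ↔ Mono D p x y := by
  unfold H13.Sp.Col4 Mono
  have key : ∀ b : Bool, ((x + y) % 2 = 1 ↔ b = true) ↔ b = decide ((x + y) % 2 = 1) := by
    intro b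
    by_cases h : (x + y) % 2 = 1
    · rw [decide_eq_true h]; simp [h]
    · rw [decide_eq_false h]; simp [h]
  simp only [key]

lemma CA13 {k : Ix} : H13.Sp.CA D p k ↔ CA D p k := by
  obtain ⟨s, x, y⟩ := k
  cases s
  · have l1 : H13.Sp.LyA D p .L x y ↔ LyL D p x y := Ly13
    have l2 : H13.Sp.LyA D p .L x (y - 1) ↔ LyL D p x (y - 1) := Ly13
    change (H13.Sp.LyA D p .L x (y - 1) ∧ H13.Sp.LyA D p .L x y ∧ H13.Sp.Col4 D p x y) ↔
      (LyL D p x y ∧ LyL D p x (y - 1) ∧ Mono D p x y)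
    rw [Col13, l1, l2]; tauto
  · have l1 : H13.Sp.LyA D p .R (x - 1) y ↔ LyR D p (x - 1) y := Ly13
    have l2 : H13.Sp.LyA D p .R (x - 1) (y - 1) ↔ LyR D p (x - 1) (y - 1) := Ly13
    change (H13.Sp.LyA D p .R (x - 1) (y - 1) ∧ H13.Sp.LyA D p .R (x - 1) y ∧ H13.Sp.Col4 D p x y) ↔
      (LyR D p (x - 1) y ∧ LyR D p (x - 1) (y - 1) ∧ Mono D p x y)
    rw [Col13, l1, l2]; tauto
  · have l1 : H13.Sp.LyA D p .F x y ↔ LyF D p x y := Ly13
    have l2 : H13.Sp.LyA D p .F (x - 1) y ↔ LyF D p (x - 1) y := Ly13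
    change (H13.Sp.LyA D p .F (x - 1) y ∧ H13.Sp.LyA D p .F x y ∧ H13.Sp.Col4 D p x y) ↔
      (LyF D p x y ∧ LyF D p (x - 1) y ∧ Mono D p x y)
    rw [Col13, l1, l2]; tauto
  · have l1 : H13.Sp.LyA D p .C x (y - 1) ↔ LyC D p x (y - 1) := Ly13
    have l2 : H13.Sp.LyA D p .C (x - 1) (y - 1) ↔ LyC D p (x - 1) (y - 1) := Ly13
    change (H13.Sp.LyA D p .C (x - 1) (y - 1) ∧ H13.Sp.LyA D p .C x (y - 1) ∧ H13.Sp.Col4 D p x y) ↔
      (LyC D p x (y - 1) ∧ LyC D p (x - 1) (y - 1) ∧ Mono D p x y)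
    rw [Col13, l1, l2]; tauto

lemma Ring13 : H13.Sp.Ring D p x y ↔ RG D p x y := by
  unfold H13.Sp.Ring RG H13.Sp.NearP
  constructor
  · rintro ⟨⟨Z, h1, h2, h3, h4, h5, h6⟩, h7⟩
    have hab := D.ab Z h3 h4
    refine ⟨h7, ?_⟩
    by_cases c1 : x < D.a Z
    · exact ⟨x + 1, Z - sh p, by omega, by omega, by omega, by omega, by unfold InP; rw [sub_add_cancel]; omega⟩
    · by_cases c2 : x < D.b Z
      · exact ⟨x, Z - sh p, by omega, by omega, by omega, by omega, by unfold InP; rw [sub_add_cancel]; omega⟩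
      · exact ⟨x - 1, Z - sh p, by omega, by omega, by omega, by omega,
          by unfold InP; rw [sub_add_cancel]; omega⟩
  · rintro ⟨h7, x', y', h1, h2, h3, h4, h5, h6, h8, h9⟩
    exact ⟨⟨y' + sh p, by omega, by omega, h5, h6, by omega, by omega⟩, h7⟩

lemma FRt13 : H13.Sp.FRt D p x y ↔ RG D p x y ∧ ¬ TT D p x y := by
  unfold H13.Sp.FRt H13.Sp.KA H13.Sp.RA'
  rw [Ring13]
  constructor
  · rintro ⟨h1, h2, h3⟩
    refine ⟨h1, ?_⟩
    rintro ⟨k, hk, ht | ht⟩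
    · exact h2 ⟨k, CA13.2 hk, ht.symm⟩
    · exact h3 ⟨k, CA13.2 hk, ht.symm⟩
  · rintro ⟨h1, h2⟩
    exact ⟨h1, fun ⟨k, hk, ht⟩ => h2 ⟨k, CA13.1 hk, Or.inl ht.symm⟩,
      fun ⟨k, hk, ht⟩ => h2 ⟨k, CA13.1 hk, Or.inr ht.symm⟩⟩

/-- sets of labels from their tiles -/
lemma ext_lt {A B : Finset (ℤ × ℤ)} (hA : ∀ e ∈ A, (e.1 + e.2) % 2 = 1)
    (hB : ∀ e ∈ B, (e.1 + e.2) % 2 = 1) (h : ∀ x y, lt (x, y) ∈ A ↔ lt (x, y) ∈ B) : A = B := by
  ext e
  constructor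
  · intro he
    obtain ⟨x, y, rfl⟩ := exists_lt (hA e he)
    exact (h x y).1 he
  · intro he
    obtain ⟨x, y, rfl⟩ := exists_lt (hB e he)
    exact (h x y).2 he

theorem FR13 : H13.Sp.FR D p = FZ D p := by
  refine ext_lt (fun e he => H13.Sp.odd_FR he) (fun e he => odd_TB he) fun x y => ?_
  rw [H13.Sp.mem_FR, FRt13, mem_FZ]

theorem EA13 : H13.Sp.EA D p = EA D p := by
  refine ext_lt (fun e he => H13.Sp.odd_EA he) (fun e he => odd_GB (EU_sub (EA_sub he))) fun x y => ?_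
  rw [H13.Sp.mem_EA, mem_EA, ← H13.Sp.KA_iff]
  refine or_congr Iff.rfl ?_
  unfold H13.Sp.KA
  constructor
  · rintro ⟨k, hk, ht⟩
    exact ⟨⟨k, CA13.1 hk, Or.inl ht.symm⟩, kt_par ht.symm⟩
  · rintro ⟨⟨k, hk, ht⟩, h2⟩
    rcases ht with ht | ht
    · exact ⟨k, CA13.2 hk, ht.symm⟩
    · have := rt_par ht
      omega

lemma ROA13 : H13.Sp.RO' D p x y ↔ TT D p x y ∧ (x + y) % 2 = 0 ∧ natc D p x y = false := by
  unfold H13.Sp.RO'
  constructor
  · rintro ⟨k, hk, ht, hev⟩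
    have hk' := CA13.1 hk
    refine ⟨⟨k, hk', Or.inr ht.symm⟩, rt_par ht.symm, ?_⟩
    rw [hk'.natc (Or.inr ht.symm), hev]; rfl
  · rintro ⟨⟨k, hk, ht⟩, h2, h3⟩
    rcases ht with ht | ht
    · have := kt_par ht
      omega
    · refine ⟨k, CA13.2 hk, ht.symm, ?_⟩
      rw [hk.natc (Or.inr ht)] at h3
      simpa using h3

theorem WA13 {O : OutB D} (x y : ℤ) (hB : InB D x y) :
    lt (x, y) ∈ H13.Sp.WA O p S ↔ lt (x, y) ∈ WA D p S := by
  have hn : lt (x, y) ∉ O.Wo := fun h => O.far x y h hB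
  have hf : H13.Sp.Fill D p x y ↔ ¬ InP D p x y ∧ ¬ RG D p x y := by
    unfold H13.Sp.Fill
    rw [← Ring13]
    unfold H13.Sp.Ring
    constructor
    · intro h
      exact ⟨fun h2 => h (H13.Sp.PT.near h2), fun h2 => h h2.1⟩
    · rintro ⟨h1, h2⟩ h3
      exact h2 ⟨h3, h1⟩
  rw [H13.Sp.mem_WA, mem_WA, mem_WU, ROA13, hf]
  constructor
  · rintro (⟨h1, ⟨h2, h3⟩, h4⟩ | h | h | h)
    · exact Or.inl (Or.inl ⟨h1, h2, h3, h4⟩)
    · exact Or.inr h
    · exact Or.inl (Or.inr h)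
    · exact absurd h hn
  · rintro ((⟨h1, h2, h3, h4⟩ | h) | h)
    · exact Or.inl ⟨h1, ⟨h2, h3⟩, h4⟩
    · exact Or.inr (Or.inr (Or.inl h))
    · exact Or.inr (Or.inl h)

theorem WA13_eq {O : OutB D} (hS : S ⊆ FZ D p) : H13.Sp.WA O p S = WA D p S ∪ O.Wo := by
  ext e
  constructor
  · intro h
    unfold H13.Sp.WA at h
    rw [mem_union, mem_union] at h
    rw [mem_union]
    rcases h with (h | h) | h
    · left
      obtain ⟨x, y, rfl⟩ := exists_lt (odd_TB h)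
      have hB : InB D x y := (mem_TB.1 h).1
      rw [← WA13 (O := O) x y hB]
      unfold H13.Sp.WA
      exact mem_union_left _ (mem_union_left _ h)
    · left
      unfold WA WU
      exact mem_union_left _ (mem_union_right _ h)
    · exact Or.inr h
  · intro h
    rcases mem_union.1 h with h | h
    · have hG := WA_sub hS h
      obtain ⟨x, y, rfl⟩ := exists_lt (odd_GB hG)
      exact (WA13 x y (mem_GB.1 hG)).2 h
    · unfold H13.Sp.WA
      exact mem_union_right _ h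

/-- **The two definitions agree** -/
theorem XA13 {O : OutB D} {hS : S ⊆ FZ D p} {hS' : S ⊆ H13.Sp.FR D p} :
    H13.Sp.XA O p S hS' = XA O p S hS := by
  unfold H13.Sp.XA XA XB
  simp only [EA13, WA13_eq hS]

end Pool.Agent.H74.Win
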