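import Mathlib
import Pool.Agent.H74.Win.Fin
import Pool.Agent.H44.FM.Wi8
import Pool.Agent.H33.Sp.Marks

set_option autoImplicit false
open Finset

/-! # The input `S12W` for the windows of a shape -/

namespace Pool.Agent.H74.Win

open Pool.Agent.H75.Perc hiding ph
open Pool.Agent.H75.TwoArm Pool.Agent.Q1 Pool.Agent.H33.Q1
open Pool.Agent.Q1.M6c (PlaneK)
open Pool.Agent.H46.Sp (Win Out)
open Pool.Agent.H44.FM.Wi (S12W OSeq DW nj nj_two nj_L coarse_DW OTyp)
open Pool.Agent.H31.Sp (Coarse CoarseC)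
open Pool.Agent.H33.Sp
open Pool.Agent.H14.Win (RootC rootC_of)
open Pool.Agent.H5.FM (RowF winOf)
open Pool.Agent.H21.FM (Shape)
open Filter

section

variable {S : Shape} {y0 y1 : ℤ} {a b : ℤ → ℤ} {yP yQ : ℤ} (F : RowF S.P.Q y0 y1 a b yP yQ)

/-- the outsides of helper33 -/
theorem oTy_F {O : ∀ j, OutB (DW F j)} (hO : OTyp F O) (j : ℕ) :
    OTy (O j) (X1 F (nj j)) (X3 F (nj j)) ∧ MkD (DW F j) (X1 F (nj j)) (X3 F (nj j)) := by
  have h2 := nj_two j
  refine ⟨?_, ⟨x13_ne h2, marksD h2⟩⟩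
  rcases hO with h | h | h
  · rw [h j]
    exact oTy_one (portD1 h2) (rootB_one (portD1 h2))
  · rw [h j]
    exact oTy_two (portD1 h2) (portD3 h2) (ap13 h2) (rootB_two (portD1 h2) (portD3 h2))
  · rw [h j]
    exact (oTy_two (portD3 h2) (portD1 h2) (Ap.symm (ap13 h2)) (rootB_two (portD3 h2) (portD1 h2))).symm

/-- **The input `S12W` for the windows of a shape** -/
theorem s12W_F (hAP : AP PlaneK) {O : ∀ j, OutB (DW F j)} (hO : OSeq F O) :
    S12W (fun j => 2 * j) atTop O := by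
  have hR : Tendsto (fun j : ℕ => 2 * j) atTop atTop :=
    tendsto_atTop_mono (fun j => by simp only [id]; omega) tendsto_id
  have k1 : ∀ᶠ j in atTop, ∃ (YP YQ : ℤ) (CL CR : ℤ → Bool), CoarseC (DW F j) ((2 * j : ℕ) : ℤ) (y1 - y0)
      (fun Y => a (Y + y0)) (fun Y => b (Y + y0)) YP YQ CL CR := by
    filter_upwards [eventually_ge_atTop 30] with j hj
    exact ⟨_, _, _, _, coarse_DW F hj⟩
  have k2 : ∀ᶠ j in atTop, RootC (1 / 8) ((2 * j : ℕ) : ℤ) (y1 - y0) (fun Y => a (Y + y0))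
      (fun Y => b (Y + y0)) (O j) := by
    filter_upwards [eventually_ge_atTop 30, hO.ok] with j hj h1
    refine rootC_of (coarse_DW F hj).toCoarse (N := (j : ℤ)) h1.root ?_
    have : (30 : ℝ) ≤ j := by exact_mod_cast hj
    push_cast
    linarith
  exact fun {pA pB sA sB tx ty} ht =>
    s12W_of hAP hR k1 k2 (Eventually.of_forall fun j => ⟨_, _, oTy_F F hO.ty j⟩) ht

end

end Pool.Agent.H74.Win
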